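import Pool.Agent.Lib.MP_d48993_lc.BAE.Gr.Stm
import Pool.Agent.Lib.MP_d48993_lc.AE.Node.Adopta
import Pool.Agent.Lib.MP_d48993_lc.AE.Node.Adoptb
import Pool.Agent.Lib.MP_d48993_lc.AE.Node.Codes
import Pool.Agent.Lib.MP_d48993_lc.AE.Node.Basic
import Pool.Agent.Lib.MP_d48993_lc.AE.Node.Mono
import Pool.Agent.Lib.MP_d48993_lc.AE.Node.Own

/-!
# Part G (MP_d48993): module AD

The constructions of ADOPTA and ADOPTB keep the clause `LgD` (finding 4199, (L3)): a new nonempty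
advice of the adopted data is an advice of the later data.
-/

set_option autoImplicit false

namespace Pool.Agent.Lib.MP_d48993_lc.Ba.Gr

open Pool.Agent.Lib.MP_d48993_lc.Node

/-- The clause `LgD` of the data of ADOPTA. -/
theorem lgd_newData {δ δ' : Data} {y : St} {P : List (St × St)} (hM : MonoStatement) (hwf : Wf δ)
    (hwf' : Wf δ') (hext : DExt δ δ') (hy : y.1 ∈ δ.pub)
    (hP : ∀ p, p ∈ P ↔ δ'.W.edge p.1 p.2 ∧ δ.N ≤ p.2.1 ∧ (δ.N ≤ p.1.1 ∨ InCl δ.W y p.1))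
    (h : LgD δ) (h' : LgD δ') : LgD (Adopta.newData δ δ' y P) := by
  intro x a ha g hg
  have hconf := Adopta.conf (P := P) hM hwf hwf' hext hy hP
  by_cases hx : x.1 < δ.N
  · rw [hconf.a1 x hx] at ha
    exact h x a ha g hg
  · rcases hconf.a3 x a (by omega) ha with h1 | h1
    · exact h' x a h1 g hg
    · subst h1
      simp at hg

/-- Module AD, first part. -/
theorem adoptAG_of (hC : CodesStatement) (hB : BasicStatement) (hM : MonoStatement)
    (hO : OwnStatement) : AdoptAGStatement := by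
  intro δ y α hwf hlg hAdm hZero hpub _ h1 h2 hα hαcl δ' hgd' hext μ w hμ
  have hwf' := hgd'.wf
  obtain ⟨P, hP⟩ := Adopta.exists_list δ'.N
    (fun x t => δ'.W.edge x t ∧ δ.N ≤ t.1 ∧ (δ.N ≤ x.1 ∨ InCl δ.W y x)) (by
      rintro x t ⟨h3, -⟩
      have h4 := h3.1
      have h5 := h3.2.1
      exact ⟨h4.1, h4.2.1, lt_trans h4.2.2.1 h5, h5⟩)
  have hconf := Adopta.conf (P := P) hM hwf hwf' hext hpub hP
  have hx₀ : InCl δ.W y (endd y α) := by
    unfold endd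
    cases hl : α.getLast? with
    | none => exact InCl.cone _ ⟨rfl, List.prefix_rfl⟩
    | some s =>
      have hs : s ∈ α := List.mem_of_getLast? hl
      exact hαcl s hs _ _ (HE.top s)
  have hmain := hconf.main hC hB hO (Adopta.prv_adv hwf) h1 h2 (endd y α) hx₀ μ w hμ
  refine ⟨Adopta.newData δ δ' y P, Adopta.wf_new hC hB hM hO hwf hwf' hext hpub hP,
    lgd_newData hM hwf hwf' hext hpub hP hlg hgd'.lg, ?_, rfl,
    ⟨hμ.1, fun s hs => (hmain s hs).1⟩, fun s hs => (hmain s hs).2, ?_, ?_⟩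
  · refine ⟨hext.N, ⟨[], by simp [Adopta.newData], by simp⟩,
      ⟨P, rfl, fun p hp => ((hP p).mp hp).2.1⟩, ⟨_, rfl, fun p hp => Or.inl ?_⟩,
      ⟨_, rfl, fun p hp => ?_⟩⟩
    · have := (List.mem_filter.mp hp).2
      simpa using this
    · obtain ⟨a, ha, rfl⟩ := List.mem_map.mp hp
      rw [List.mem_range'_1] at ha
      exact ha.1
  · intro p hp hnp
    have hp' := (List.mem_append.mp hp).resolve_left hnp
    have := (List.mem_filter.mp hp').2
    simpa using this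
  · intro r hr hr'
    obtain ⟨w', hw'⟩ := hconf.o4 r hr hr'
    rcases hconf.o3 r w' hr hw' with rfl | ⟨-, h3⟩
    · exact Or.inl hw'
    · exact Or.inr ⟨w', hw', h3⟩

/-- The clause `LgD` of the data of ADOPTB. -/
theorem lgd_mid {δ δ' : Data} {P : List (St × St)} {G : St → Prop} (hwf : Wf δ)
    (hext : DExt δ δ') (hG : ∀ x, G x → δ.N ≤ x.1) (h : LgD δ) (h' : LgD δ') :
    LgD (Adoptb1.mid δ δ' P G) := by
  intro x a ha g hg
  by_cases hx : x.1 < δ.N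
  · rw [Adoptb1.mid_adv_lt hext.N hG x hx] at ha
    exact h x a ha g hg
  · have hne : a ≠ [] := by
      rintro rfl
      simp at hg
    exact h' x a (Adoptb1.mid_a3 hwf x a (by omega) hne ha).1 g hg

/-- Module AD, second part. -/
theorem adoptBG_of (hC : CodesStatement) (hB : BasicStatement) (hM : MonoStatement) :
    AdoptBGStatement := by
  intro δ δ' L hgd hgd' hext hL
  have hwf := hgd.wf
  have hf := hgd.full
  have hwf' := hgd'.wf
  have hB' := (hB δ'.W hwf'.inv.fit).2.2.2.1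
  obtain ⟨P, hPm⟩ := Adopta.exists_list δ'.N
    (fun x t => (∃ ρ ∈ L, ∃ s ∈ ρ, HE s x t) ∧ δ.N ≤ t.1) (by
      rintro x t ⟨⟨ρ, hρ, s, hs, h1⟩, -⟩
      have h3 := (hB' s ((hL ρ hρ).2 s hs) x t h1).1
      have h4 := h3.1
      have h5 := h3.2.1
      exact ⟨h4.1, h4.2.1, lt_trans h4.2.2.1 h5, h5⟩)
  have hP : ∀ p ∈ P, δ'.W.edge p.1 p.2 ∧ δ.N ≤ p.2.1 := by
    intro p hp
    obtain ⟨⟨ρ, hρ, s, hs, h1⟩, h2⟩ := (hPm p).mp hp
    exact ⟨(hB' s ((hL ρ hρ).2 s hs) _ _ h1).1, h2⟩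
  -- the states whose advice is adopted
  let G : St → Prop := fun x => δ.N ≤ x.1 ∧ ∃ z t, x = ow z 0 ∧ 0 < rk z ∧ (z, t) ∈ P
  have hG : ∀ x, G x → δ.N ≤ x.1 := fun x hx => hx.1
  have hG' : ∀ z t, (z, t) ∈ P → 0 < rk z → δ.N ≤ z.1 → G (ow z 0) :=
    fun z t h1 h2 h3 => ⟨h3, z, t, rfl, h2, h1⟩
  have hA : ∀ x a, G x → δ'.W.adv x = some a → ∀ s ∈ a, ∀ v v', HE s v v' → (v, v') ∈ P := by
    rintro x a ⟨h1, z, t, rfl, h2, h3⟩ ha s hs v v' hv
    obtain ⟨⟨ρ, hρ, s₀, hs₀, h4⟩, h5⟩ := (hPm (z, t)).mp h3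
    obtain ⟨β, h6, h7⟩ := Adoptb1.adv_part hB hwf'.inv.fit h4 ((hL ρ hρ).2 s₀ hs₀) h2
    rw [ha] at h6
    have h8 : a = β := Option.some.inj h6
    subst h8
    refine (hPm (v, v')).mpr ⟨⟨ρ, hρ, s₀, hs₀, (h7 s hs).2 v v' hv⟩, ?_⟩
    obtain ⟨h9, h10⟩ := hwf'.inv.advValid _ _ ha
    have h11 := Adopta.ch_src hB hwf'.inv.fit a (ow z 0) _ h9 h10 s hs
    obtain ⟨h12, h13, -⟩ := hB' s (h10 s hs) v v' hv
    have h14 := (hwf'.inv.fit _ _ h12).2.2.1
    show δ.N ≤ v'.1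
    omega
  refine ⟨Adoptb1.mid δ δ' P G,
    ⟨Adoptb1.mid_wf hC hB hM hwf hf hwf' hext hP hG hG' hA, Adoptb1.mid_full hext hG hwf hf,
      lgd_mid hwf hext hG hgd.lg hgd'.lg⟩,
    Adoptb1.mid_dext hext hP hG, rfl, rfl, ?_, ?_⟩
  · intro ρ hρ
    obtain ⟨h1, h2⟩ := hL ρ hρ
    refine ⟨h1, fun s hs => Adoptb1.mid_vs hC hB hM hwf hf hwf' hext hP hG hG' (h2 s hs)
      (fun v v' hv hN => ?_)⟩
    exact (hPm (v, v')).mpr ⟨⟨ρ, hρ, s, hs, hv⟩, hN⟩
  · intro x t hxt hN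
    rw [Adoptb1.mid_e2 hwf hP x t hN] at hxt
    exact ((hPm (x, t)).mp hxt).1

theorem adoptAG : AdoptAGStatement :=
  adoptAG_of codes (basic codes) (mono codes (basic codes)) (own (basic codes))

theorem adoptBG : AdoptBGStatement := adoptBG_of codes (basic codes) (mono codes (basic codes))

end Pool.Agent.Lib.MP_d48993_lc.Ba.Gr
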