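import Pool.Agent.Lib.MP_d48993_lc.BAE.Gr.Stm
import Pool.Agent.Lib.MP_d48993_lc.AE.Node.Accan
import Pool.Agent.Lib.MP_d48993_lc.AE.Node.Basic
import Pool.Agent.Lib.MP_d48993_lc.AE.Node.Codes

/-!
# Part G (MP_d48993), module CONT4: the stems of a condition are continued into own states of `z`,
children are added (helper40)
-/

set_option autoImplicit false

namespace Pool.Agent.Lib.MP_d48993_lc.Ba.Gr

open Pool.Agent.Lib.MP_d48993_lc.Node

namespace C4

theorem endd_snoc (x : St) (σ : List ℕ) (s : ℕ) : endd x (σ ++ [s]) = tgt s := by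
  simp [endd]

theorem vstr_snoc {W : World} {σ : List ℕ} {s : ℕ} :
    VStr W o (σ ++ [s]) (endd o (σ ++ [s])) ↔
      VStr W o σ (endd o σ) ∧ VS W s ∧ src s = endd o σ := by
  unfold VStr
  rw [Codes.ch_append]
  constructor
  · rintro ⟨⟨h1, h2, h3⟩, h4⟩
    exact ⟨⟨h1, fun a ha => h4 a (by simp [ha])⟩, h4 s (by simp), h2⟩
  · rintro ⟨⟨h1, h2⟩, h3, h4⟩
    refine ⟨⟨h1, h4, ?_⟩, fun a ha => ?_⟩
    · show tgt s = _
      rw [endd_snoc]
    · rw [List.mem_append, List.mem_singleton] at ha
      rcases ha with ha | rfl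
      · exact h2 a ha
      · exact h3

/-- The roots of a valid string. -/
theorem root_le {W : World} (hf : ∀ x t, W.edge x t → Fit x t) {σ : List ℕ}
    (h : VStr W o σ (endd o σ)) : ∀ s ∈ σ, (tgt s).1 ≤ (endd o σ).1 := by
  induction σ using List.reverseRecOn with
  | nil => intro s hs; simp at hs
  | append_singleton σ g ih =>
    obtain ⟨h1, h2, h3⟩ := vstr_snoc.1 h
    intro s hs
    rw [endd_snoc]
    rw [List.mem_append, List.mem_singleton] at hs
    rcases hs with hs | rfl
    · have h4 := ih h1 s hs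
      have h5 := (hf _ _ ((basic codes W hf).1 g h2)).2.2.1
      rw [h3] at h5
      omega
    · exact le_rfl

theorem vstr_prefix {W : World} {σ τ : List ℕ} (h : σ <+: τ)
    (hτ : VStr W o τ (endd o τ)) : VStr W o σ (endd o σ) := by
  obtain ⟨ρ, rfl⟩ := h
  refine ⟨((Codes.ch_append _ _ _ _).1 hτ.1).1, fun s hs => hτ.2 s (by simp [hs])⟩

/-- The nodes of a condition are closed under initial segments. -/
theorem node_prefix {W : World} {T : List ℕ → Prop} {c : Cnd3} (h : CV W T c) :
    ∀ (n : ℕ) (e : List ℕ × List ℕ × List ℕ), e ∈ c.2 → e.1.length ≤ n → ∀ s, s <+: e.1 →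
      ∃ e' ∈ c.2, e'.1 = s := by
  intro n
  induction n with
  | zero =>
    intro e he hn s hs
    have h1 : e.1 = [] := List.length_eq_zero_iff.1 (by omega)
    rw [h1] at hs
    exact ⟨e, he, by rw [h1, List.prefix_nil.1 hs]⟩
  | succ n ih =>
    intro e he hn s hs
    by_cases h1 : e.1 = []
    · rw [h1] at hs
      exact ⟨e, he, by rw [h1, List.prefix_nil.1 hs]⟩
    · by_cases h2 : s = e.1
      · exact ⟨e, he, h2.symm⟩
      · obtain ⟨e', he', h3⟩ := h.parent e he h1
        refine ih e' he' ?_ s ?_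
        · rw [h3, List.length_dropLast]; omega
        · rw [h3]
          have h4 : e.1 = e.1.dropLast ++ [e.1.getLast h1] :=
            (List.dropLast_append_getLast h1).symm
          rw [h4, List.prefix_concat_iff] at hs
          rcases hs with hs | hs
          · exact absurd (hs.trans h4.symm) h2
          · exact hs

end C4

open C4 in
/-- Module CONT4. -/
theorem cont4' : ContStatement4 := by
  intro δ T c z X f f' hw hcv hT hz hroot hg hx hff hff' hfx
  classical
  have hB := basic codes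
  have hfit := hw.inv.fit
  choose! g g1 g2 g3 g4 using hg
  choose! p p1 p2 p3 p4 p5 using hx
  choose! k k1 k2 k3 k4 using p5
  -- the new triples
  let A : List ℕ × List ℕ × List ℕ → List ℕ × List ℕ × List ℕ := fun e => (e.1, e.2.1, e.2.2 ++ [g e])
  let Bn : List ℕ × ℕ → List ℕ × List ℕ × List ℕ := fun x =>
    (x.1 ++ [x.2], (p x).2.2 ++ [k x], (p x).2.2 ++ [k x])
  have hmem : ∀ e', e' ∈ c.2.map A ++ X.map Bn ↔ (∃ e ∈ c.2, A e = e') ∨ ∃ x ∈ X, Bn x = e' := by
    intro e'
    rw [List.mem_append, List.mem_map, List.mem_map]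
  -- strings of the old condition
  have hval : ∀ e ∈ c.2, VStr δ.W o e.2.2 (endd o e.2.2) := fun e he => (hcv.stem e he).2
  have hlt : ∀ e ∈ c.2, ∀ s ∈ e.2.2, (tgt s).1 < z.1 := fun e he s hs =>
    (root_le hfit (hval e he) s hs).trans_lt (hroot e he)
  have hlt' : ∀ e ∈ c.2, ∀ s ∈ e.2.1, (tgt s).1 < z.1 := fun e he s hs =>
    hlt e he s ((hcv.stem e he).1.subset hs)
  have hgz : ∀ e ∈ c.2, (tgt (g e)).1 = z.1 := fun e he => by rw [g3 e he]; rfl
  have hkz : ∀ x ∈ X, (tgt (k x)).1 = z.1 := fun x hx' => by rw [k3 x hx']; rfl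
  -- a string which ends with a new symbol is no initial segment of an old one
  have hno : ∀ e ∈ c.2, ∀ (σ : List ℕ) (s : ℕ), (tgt s).1 = z.1 → ¬ σ ++ [s] <+: e.2.2 := by
    intro e he σ s hs h
    have h1 := hlt e he s (h.subset (by simp))
    omega
  have hno' : ∀ e ∈ c.2, ∀ (σ : List ℕ) (s : ℕ), (tgt s).1 = z.1 → ¬ σ ++ [s] <+: e.2.1 :=
    fun e he σ s hs h => hno e he σ s hs (h.trans (hcv.stem e he).1)
  have hno2 : ∀ e ∈ c.2, ∀ (σ : List ℕ) (s : ℕ), (tgt s).1 = z.1 → e.2.1 ≠ σ ++ [s] := by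
    intro e he σ s hs h
    exact hno' e he σ s hs (by rw [h])
  have hcl : ∀ e ∈ c.2, ∀ x ∈ X, ¬ x.1 ++ [x.2] <+: e.1 := by
    intro e he x hx' h
    obtain ⟨e', he', h1⟩ := node_prefix hcv e.1.length e he le_rfl _ h
    exact p4 x hx' e' he' h1
  have hkk : ∀ x ∈ X, ∀ x' ∈ X, k x = k x' → x = x' := by
    intro x hx' x' hx'' h
    have h1 := k3 x hx'
    rw [h, k3 x' hx''] at h1
    refine hff' x hx' x' hx'' ?_
    have h2 : z.2 ++ [f' x'] = z.2 ++ [f' x] := congrArg Prod.snd h1
    simpa using h2.symm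
  have hgk : ∀ e ∈ c.2, ∀ x ∈ X, g e ≠ k x := by
    intro e he x hx' h
    have h1 := g3 e he
    rw [h, k3 x hx'] at h1
    have h2 : z.2 ++ [f' x] = z.2 ++ [f e.1] := congrArg Prod.snd h1
    exact hfx e he x hx' (by simpa using h2.symm)
  have hgg : ∀ e ∈ c.2, ∀ e' ∈ c.2, tgt (g e) = tgt (g e') → e = e' := by
    intro e he e' he' h
    rw [g3 e he, g3 e' he'] at h
    have h2 : z.2 ++ [f e.1] = z.2 ++ [f e'.1] := congrArg Prod.snd h
    exact hcv.uniq e he e' he' (hff e he e' he' (by simpa using h2))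
  have hown : δ.W.own z.1 = none := by
    show ((δ.2.2.2.2.find? (fun p => p.1 = z.1)).map Prod.snd) = none
    rw [Option.map_eq_none_iff, List.find?_eq_none]
    intro q hq hqu
    have h1 := (hw.own q hq).2
    rw [decide_eq_true_eq] at hqu
    exact h1 (hqu ▸ hz)
  have hroot' : Nd c [] := by
    obtain ⟨q, hq⟩ := hcv.root
    exact ⟨_, hq, List.nil_prefix⟩
  have hNdv : ∀ ν, Nd c ν → VStr δ.W o ν (endd o ν) := by
    rintro ν ⟨e, he, hν⟩
    exact vstr_prefix hν (hval e he)
  have hNdr : ∀ ν, Nd c ν → (endd o ν).1 < z.1 := by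
    rintro ν ⟨e, he, hν⟩
    rcases List.eq_nil_or_concat ν with rfl | ⟨σ, s, rfl⟩
    · exact Nat.lt_of_le_of_lt (Nat.zero_le _) (hroot e he)
    · rw [List.concat_eq_append] at hν ⊢
      rw [endd_snoc]
      exact hlt e he s (hν.subset (by simp))
  have hac := accan hB (own hB) δ (Nd c) z
    (c.2.map (fun e => (e.2.2, g e)) ++ X.map (fun x => ((p x).2.2, k x))) hw hcv.ac hroot' hNdv
    (by
      rintro ν ν' hνν ⟨e, he, hν⟩
      exact ⟨e, he, hνν.trans hν⟩)
    hNdr
    (by
      intro q hq j hcl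
      have h1 : (endd o q.1).1 < z.1 := by
        rw [List.mem_append, List.mem_map, List.mem_map] at hq
        rcases hq with ⟨e, he, rfl⟩ | ⟨x, hx', rfl⟩
        · exact hroot e he
        · exact hroot _ (p1 x hx')
      cases hcl with
      | cone _ h =>
        have h2 : z.1 = (endd o q.1).1 := h.1
        omega
      | own _ w h _ =>
        rw [hown] at h
        exact absurd h (by simp))
    (by
      intro q hq
      rw [List.mem_append, List.mem_map, List.mem_map] at hq
      rcases hq with ⟨e, he, rfl⟩ | ⟨x, hx', rfl⟩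
      · exact ⟨⟨e, he, List.prefix_rfl⟩, g1 e he, g4 e he, g2 e he, _, g3 e he⟩
      · exact ⟨⟨_, p1 x hx', List.prefix_rfl⟩, k1 x hx', k4 x hx', k2 x hx', _, k3 x hx'⟩)
    (by
      intro q hq q' hq' h
      rw [List.mem_append, List.mem_map, List.mem_map] at hq hq'
      rcases hq with ⟨e, he, rfl⟩ | ⟨x, hx', rfl⟩
      · rcases hq' with ⟨e', he', rfl⟩ | ⟨x', hx'', rfl⟩
        · rw [hgg e he e' he' h]
        · exfalso
          simp only [g3 e he, k3 x' hx''] at h
          have h2 : z.2 ++ [f e.1] = z.2 ++ [f' x'] := congrArg Prod.snd h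
          exact hfx e he x' hx'' (by simpa using h2)
      · rcases hq' with ⟨e', he', rfl⟩ | ⟨x', hx'', rfl⟩
        · exfalso
          simp only [g3 e' he', k3 x hx'] at h
          have h2 : z.2 ++ [f' x] = z.2 ++ [f e'.1] := congrArg Prod.snd h
          exact hfx e' he' x hx' (by simpa using h2.symm)
        · simp only [k3 x hx', k3 x' hx''] at h
          have h2 : z.2 ++ [f' x] = z.2 ++ [f' x'] := congrArg Prod.snd h
          rw [hff' x hx' x' hx'' (by simpa using h2)])
  refine ⟨(c.1, c.2.map A ++ X.map Bn), ?_, ?_, rfl, ?_, ?_, ?_⟩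
  · -- validity
    refine ⟨?_, ?_, ?_, ?_, ?_, ?_, ?_, ?_, ?_⟩
    · obtain ⟨q, hq⟩ := hcv.root
      exact ⟨_, (hmem _).2 (Or.inl ⟨_, hq, rfl⟩)⟩
    · intro e₁ h₁ e₂ h₂ h
      rcases (hmem _).1 h₁ with ⟨e, he, rfl⟩ | ⟨x, hx', rfl⟩
      · rcases (hmem _).1 h₂ with ⟨e', he', rfl⟩ | ⟨x', hx'', rfl⟩
        · rw [hcv.uniq e he e' he' h]
        · exact absurd h (p4 x' hx'' e he)
      · rcases (hmem _).1 h₂ with ⟨e', he', rfl⟩ | ⟨x', hx'', rfl⟩
        · exact absurd h.symm (p4 x hx' e' he')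
        · have h1 : x.1 ++ [x.2] = x'.1 ++ [x'.2] := h
          have h2 := List.append_inj' h1 rfl
          have h3 : x = x' := Prod.ext h2.1 (by simpa using h2.2)
          rw [h3]
    · intro e₁ h₁
      rcases (hmem _).1 h₁ with ⟨e, he, rfl⟩ | ⟨x, hx', rfl⟩
      · exact hcv.mem e he
      · exact p3 x hx'
    · intro e₁ h₁
      rcases (hmem _).1 h₁ with ⟨e, he, rfl⟩ | ⟨x, hx', rfl⟩
      · exact hcv.img e he
      · exact vstr_snoc.2 ⟨hval _ (p1 x hx'), k1 x hx', k2 x hx'⟩
    · intro e₁ h₁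
      rcases (hmem _).1 h₁ with ⟨e, he, rfl⟩ | ⟨x, hx', rfl⟩
      · exact ⟨(hcv.stem e he).1.trans (List.prefix_append _ _),
          vstr_snoc.2 ⟨hval e he, g1 e he, g2 e he⟩⟩
      · exact ⟨List.prefix_rfl, vstr_snoc.2 ⟨hval _ (p1 x hx'), k1 x hx', k2 x hx'⟩⟩
    · intro e₁ h₁ e₂ h₂
      rcases (hmem _).1 h₁ with ⟨e, he, rfl⟩ | ⟨x, hx', rfl⟩
      · rcases (hmem _).1 h₂ with ⟨e', he', rfl⟩ | ⟨x', hx'', rfl⟩
        · exact hcv.emb e he e' he'
        · show e.2.1 <+: (p x').2.2 ++ [k x'] ↔ e.1 <+: x'.1 ++ [x'.2]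
          rw [List.prefix_concat_iff, List.prefix_concat_iff]
          constructor
          · rintro (h | h)
            · exact absurd h (hno2 e he _ _ (hkz x' hx''))
            · right
              rw [← p2 x' hx'']
              exact hcv.stemEmb _ (p1 x' hx'') e he h
          · rintro (h | h)
            · exact absurd h (p4 x' hx'' e he)
            · right
              rw [← p2 x' hx''] at h
              exact ((hcv.emb e he _ (p1 x' hx'')).2 h).trans (hcv.stem _ (p1 x' hx'')).1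
      · rcases (hmem _).1 h₂ with ⟨e', he', rfl⟩ | ⟨x', hx'', rfl⟩
        · show (p x).2.2 ++ [k x] <+: e'.2.1 ↔ x.1 ++ [x.2] <+: e'.1
          constructor
          · intro h
            exact absurd h (hno' e' he' _ _ (hkz x hx'))
          · intro h
            exact absurd h (hcl e' he' x hx')
        · show (p x).2.2 ++ [k x] <+: (p x').2.2 ++ [k x'] ↔ x.1 ++ [x.2] <+: x'.1 ++ [x'.2]
          constructor
          · intro h
            rw [List.prefix_concat_iff] at h
            rcases h with h | h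
            · have h2 := List.append_inj' h rfl
              rw [hkk x hx' x' hx'' (by simpa using h2.2)]
            · exact absurd h (hno _ (p1 x' hx'') _ _ (hkz x hx'))
          · intro h
            rw [List.prefix_concat_iff] at h
            rcases h with h | h
            · have h2 := List.append_inj' h rfl
              have h3 : x = x' := Prod.ext h2.1 (by simpa using h2.2)
              rw [h3]
            · rw [← p2 x' hx''] at h
              exact absurd h (hcl _ (p1 x' hx'') x hx')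
    · intro e₁ h₁ e₂ h₂ h
      rcases (hmem _).1 h₁ with ⟨e, he, rfl⟩ | ⟨x, hx', rfl⟩
      · rcases (hmem _).1 h₂ with ⟨e', he', rfl⟩ | ⟨x', hx'', rfl⟩
        · have h' : e'.2.1 <+: e.2.2 ++ [g e] := h
          rw [List.prefix_concat_iff] at h'
          rcases h' with h' | h'
          · exact absurd h' (hno2 e' he' _ _ (hgz e he))
          · exact hcv.stemEmb e he e' he' h'
        · have h' : (p x').2.2 ++ [k x'] <+: e.2.2 ++ [g e] := h
          rw [List.prefix_concat_iff] at h'
          rcases h' with h' | h'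
          · have h2 := List.append_inj' h' rfl
            exact absurd (by simpa using h2.2.symm) (hgk e he x' hx'')
          · exact absurd h' (hno e he _ _ (hkz x' hx''))
      · rcases (hmem _).1 h₂ with ⟨e', he', rfl⟩ | ⟨x', hx'', rfl⟩
        · have h' : e'.2.1 <+: (p x).2.2 ++ [k x] := h
          show e'.1 <+: x.1 ++ [x.2]
          rw [List.prefix_concat_iff] at h'
          rcases h' with h' | h'
          · exact absurd h' (hno2 e' he' _ _ (hkz x hx'))
          · have h2 := hcv.stemEmb _ (p1 x hx') e' he' h'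
            rw [p2 x hx'] at h2
            exact h2.trans (List.prefix_append _ _)
        · have h' : (p x').2.2 ++ [k x'] <+: (p x).2.2 ++ [k x] := h
          show x'.1 ++ [x'.2] <+: x.1 ++ [x.2]
          rw [List.prefix_concat_iff] at h'
          rcases h' with h' | h'
          · have h2 := List.append_inj' h' rfl
            rw [hkk x' hx'' x hx' (by simpa using h2.2)]
          · exact absurd h' (hno _ (p1 x hx') _ _ (hkz x' hx''))
    · intro e₁ h₁ hne
      rcases (hmem _).1 h₁ with ⟨e, he, rfl⟩ | ⟨x, hx', rfl⟩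
      · obtain ⟨e', he', h'⟩ := hcv.parent e he hne
        exact ⟨_, (hmem _).2 (Or.inl ⟨e', he', rfl⟩), h'⟩
      · refine ⟨_, (hmem _).2 (Or.inl ⟨_, p1 x hx', rfl⟩), ?_⟩
        show (p x).1 = (x.1 ++ [x.2]).dropLast
        rw [List.dropLast_concat, p2 x hx']
    · have hset : Nd (c.1, c.2.map A ++ X.map Bn) = fun ν => Nd c ν ∨
          ∃ q ∈ c.2.map (fun e => (e.2.2, g e)) ++ X.map (fun x => ((p x).2.2, k x)),
            ν = q.1 ++ [q.2] := by
        funext ν
        rw [eq_iff_iff]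
        constructor
        · rintro ⟨e₁, h₁, h⟩
          rcases (hmem _).1 h₁ with ⟨e, he, rfl⟩ | ⟨x, hx', rfl⟩
          · have h' : ν <+: e.2.2 ++ [g e] := h
            rw [List.prefix_concat_iff] at h'
            rcases h' with h' | h'
            · exact Or.inr ⟨_, List.mem_append_left _ (List.mem_map.2 ⟨e, he, rfl⟩), h'⟩
            · exact Or.inl ⟨e, he, h'⟩
          · have h' : ν <+: (p x).2.2 ++ [k x] := h
            rw [List.prefix_concat_iff] at h'
            rcases h' with h' | h'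
            · exact Or.inr ⟨_, List.mem_append_right _ (List.mem_map.2 ⟨x, hx', rfl⟩), h'⟩
            · exact Or.inl ⟨_, p1 x hx', h'⟩
        · rintro (⟨e, he, h⟩ | ⟨q, hq, rfl⟩)
          · exact ⟨_, (hmem _).2 (Or.inl ⟨e, he, rfl⟩), h.trans (List.prefix_append _ _)⟩
          · rw [List.mem_append, List.mem_map, List.mem_map] at hq
            rcases hq with ⟨e, he, rfl⟩ | ⟨x, hx', rfl⟩
            · exact ⟨_, (hmem _).2 (Or.inl ⟨e, he, rfl⟩), List.prefix_rfl⟩
            · exact ⟨_, (hmem _).2 (Or.inr ⟨x, hx', rfl⟩), List.prefix_rfl⟩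
      rw [hset]
      exact hac
  · -- extension
    refine ⟨List.prefix_rfl, ?_, ?_, ?_⟩
    · intro e he
      exact ⟨_, List.prefix_append _ _, (hmem _).2 (Or.inl ⟨e, he, rfl⟩)⟩
    · intro e₁ h₁ h e₂ h₂ h3
      rcases (hmem _).1 h₁ with ⟨e, he, rfl⟩ | ⟨x, hx', rfl⟩
      · exact absurd rfl (h e he)
      · have h4 : e₂.1 = (x.1 ++ [x.2]).dropLast := h3
        rw [List.dropLast_concat, ← p2 x hx'] at h4
        rw [hcv.uniq e₂ h₂ _ (p1 x hx') h4]
        exact List.prefix_append _ _
    · intro n hn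
      simp at hn
  · intro e he
    exact ⟨g e, g1 e he, g2 e he, g3 e he, g4 e he, (hmem _).2 (Or.inl ⟨e, he, rfl⟩)⟩
  · intro x hx'
    exact ⟨_, p1 x hx', p2 x hx', k x, k1 x hx', k2 x hx', k3 x hx', k4 x hx',
      (hmem _).2 (Or.inr ⟨x, hx', rfl⟩)⟩
  · intro e' he'
    rcases (hmem _).1 he' with ⟨e, he, rfl⟩ | ⟨x, hx', rfl⟩
    · exact Or.inl ⟨e, he, rfl⟩
    · exact Or.inr ⟨x, hx', rfl⟩

end Pool.Agent.Lib.MP_d48993_lc.Ba.Gr
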