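import Pool.Agent.Lib.MP_d48993_lc.BAE.Gr.Defs

/-!
# Part G, module GLG (helper40), first part: blocks of indices
-/

set_option autoImplicit false

namespace Pool.Agent.Lib.MP_d48993_lc.Ba.Gr

open Pool.Agent.Lib.MP_d48993_lc.Node

theorem nb_pos {n : ℕ} (p : ℕ) : 0 < nb p n := by
  unfold nb
  split
  · exact Nat.one_pos
  · exact Nat.pow_pos (by omega)

theorem blk_zero (p : ℕ) : blk p 0 = 2 := rfl

theorem ix_zero (p : ℕ) : ix p 0 = 0 := rfl

theorem pos_succ (p t : ℕ) : pos p (t + 1) =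
    if (pos p t).2 + 1 < nb p (pos p t).1 then ((pos p t).1, (pos p t).2 + 1)
      else ((pos p t).1 + 1, 0) := rfl

theorem ix_lt (p t : ℕ) : ix p t < nb p (blk p t) := by
  induction t with
  | zero => exact nb_pos p
  | succ t ih =>
    unfold ix blk
    rw [pos_succ]
    split
    · assumption
    · exact nb_pos p

theorem blk_step (p t : ℕ) : (blk p (t + 1) = blk p t ∧ ix p (t + 1) = ix p t + 1) ∨
    (blk p (t + 1) = blk p t + 1 ∧ ix p (t + 1) = 0 ∧ ix p t + 1 = nb p (blk p t)) := by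
  have h := ix_lt p t
  unfold ix blk at h ⊢
  rw [pos_succ]
  split
  · exact Or.inl ⟨rfl, rfl⟩
  · exact Or.inr ⟨rfl, rfl, by omega⟩

theorem two_le_blk (p t : ℕ) : 2 ≤ blk p t := by
  induction t with
  | zero => exact le_refl _
  | succ t ih => rcases blk_step p t with h | h <;> omega

theorem fst_succ (p : ℕ) {n : ℕ} (h : 2 ≤ n) : fst p (n + 1) = fst p n + nb p n := by
  show (if n ≤ 1 then 0 else fst p n + nb p n) = _
  rw [if_neg (by omega)]

theorem fst_two (p : ℕ) : fst p 2 = 0 := rfl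

theorem fst_blk (p t : ℕ) : fst p (blk p t) + ix p t = t := by
  induction t with
  | zero => rfl
  | succ t ih =>
    rcases blk_step p t with ⟨h1, h2⟩ | ⟨h1, h2, h3⟩
    · rw [h1, h2]; omega
    · rw [h1, h2, fst_succ p (two_le_blk p t)]; omega

theorem blk_le_succ (p t : ℕ) : blk p t ≤ blk p (t + 1) := by
  rcases blk_step p t with h | h <;> omega

theorem blk_mono (p : ℕ) {t t' : ℕ} (h : t ≤ t') : blk p t ≤ blk p t' := by
  induction t', h using Nat.le_induction with
  | base => exact le_refl _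
  | succ n _ ih => exact ih.trans (blk_le_succ p n)

theorem fst_mono (p : ℕ) {n n' : ℕ} (h : n ≤ n') : fst p n ≤ fst p n' := by
  induction n', h using Nat.le_induction with
  | base => exact le_refl _
  | succ n _ ih =>
    refine ih.trans ?_
    show fst p n ≤ if n ≤ 1 then 0 else fst p n + nb p n
    split
    · rcases n with _ | _ | n
      · exact le_refl _
      · exact le_refl _
      · omega
    · omega

/-- Block `n` is the interval from `fst n` to `fst (n + 1)`. -/
theorem blk_eq_iff (p : ℕ) {n t : ℕ} (h : 2 ≤ n) :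
    blk p t = n ↔ fst p n ≤ t ∧ t < fst p (n + 1) := by
  have h1 := fst_blk p t
  have h2 := ix_lt p t
  have h3 := two_le_blk p t
  constructor
  · rintro rfl
    rw [fst_succ p h]
    omega
  · rintro ⟨h4, h5⟩
    rcases lt_trichotomy (blk p t) n with h6 | h6 | h6
    · have h7 := fst_mono p (show blk p t + 1 ≤ n from h6)
      rw [fst_succ p h3] at h7
      omega
    · exact h6
    · have h7 := fst_mono p (show n + 1 ≤ blk p t from h6)
      omega

theorem fst_lt_fst (p : ℕ) {n : ℕ} (h : 2 ≤ n) : fst p n < fst p (n + 1) := by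
  rw [fst_succ p h]
  have := nb_pos (n := n) p
  omega

theorem blk_fst (p : ℕ) {n : ℕ} (h : 2 ≤ n) : blk p (fst p n) = n :=
  (blk_eq_iff p h).2 ⟨le_refl _, fst_lt_fst p h⟩

theorem ix_fst (p : ℕ) {n : ℕ} (h : 2 ≤ n) : ix p (fst p n) = 0 := by
  have h1 := fst_blk p (fst p n)
  rw [blk_fst p h] at h1
  omega

theorem lst_succ (p : ℕ) {n : ℕ} (h : 2 ≤ n) : lst p n + 1 = fst p (n + 1) := by
  have := fst_lt_fst p h
  unfold lst
  omega

theorem fst_le_lst (p : ℕ) {n : ℕ} (h : 2 ≤ n) : fst p n ≤ lst p n := by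
  have := fst_lt_fst p h
  have := lst_succ p h
  omega

theorem blk_lst (p : ℕ) {n : ℕ} (h : 2 ≤ n) : blk p (lst p n) = n := by
  refine (blk_eq_iff p h).2 ⟨fst_le_lst p h, ?_⟩
  have := lst_succ p h
  omega

theorem blk_iff (p : ℕ) {n t : ℕ} (h : 2 ≤ n) : blk p t = n ↔ fst p n ≤ t ∧ t ≤ lst p n := by
  have := lst_succ p h
  rw [blk_eq_iff p h]
  omega

theorem blk_lst_succ (p : ℕ) {n : ℕ} (h : 2 ≤ n) : blk p (lst p n + 1) = n + 1 := by
  rw [lst_succ p h]
  exact blk_fst p (by omega)

/-- The index before the first index of a block. -/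
theorem fst_sub (p : ℕ) {n : ℕ} (h : 3 ≤ n) : fst p n - 1 = lst p (n - 1) := by
  obtain ⟨m, rfl⟩ : ∃ m, n = m + 1 := ⟨n - 1, by omega⟩
  rfl

theorem fst_pos (p : ℕ) {n : ℕ} (h : 3 ≤ n) : 0 < fst p n := by
  obtain ⟨m, rfl⟩ : ∃ m, n = m + 1 := ⟨n - 1, by omega⟩
  have := fst_lt_fst p (show 2 ≤ m by omega)
  omega

theorem le_fst (p n : ℕ) : n ≤ fst p n + 2 := by
  induction n with
  | zero => omega
  | succ n ih =>
    rcases Nat.lt_or_ge n 2 with h | h
    · omega
    · have := fst_lt_fst p h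
      omega

theorem blk_le (p t : ℕ) : blk p t ≤ t + 2 := by
  have h1 := fst_blk p t
  have h2 := le_fst p (blk p t)
  omega

theorem le_blk_fst (p t : ℕ) : t < fst p (blk p t + 1) :=
  ((blk_eq_iff p (two_le_blk p t)).1 rfl).2

/-- Blocks get arbitrarily late. -/
theorem lt_blk (p : ℕ) {n t : ℕ} (h : fst p n ≤ t) (hn : 2 ≤ n) : n ≤ blk p t := by
  have := blk_mono p h
  rwa [blk_fst p hn] at this

theorem lt_of_blk_lt (p : ℕ) {t t' : ℕ} (h : blk p t < blk p t') : t < t' := by
  by_contra h1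
  have := blk_mono p (not_lt.1 h1)
  omega

/-! ## Depth vectors -/

theorem digits_surj (b : ℕ) (f : ℕ → ℕ) (p : ℕ) (hf : ∀ s < p, f s < b) :
    ∃ x < b ^ p, ∀ s < p, x / b ^ s % b = f s := by
  induction p with
  | zero => exact ⟨0, Nat.one_pos, fun s hs => absurd hs (Nat.not_lt_zero _)⟩
  | succ p ih =>
    obtain ⟨x, hx, h1⟩ := ih fun s hs => hf s (by omega)
    have hb : f p < b := hf p (by omega)
    have hpos : 0 < b ^ p := Nat.pow_pos (by omega)
    refine ⟨x + f p * b ^ p, ?_, ?_⟩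
    · have : x + f p * b ^ p < (f p + 1) * b ^ p := by
        rw [add_mul, one_mul]; omega
      exact this.trans_le (by rw [pow_succ, mul_comm]; exact Nat.mul_le_mul_left _ hb)
    · intro s hs
      rcases Nat.lt_or_ge s p with h | h
      · have e : b ^ p = b ^ s * (b * b ^ (p - s - 1)) := by
          rw [← mul_assoc, ← pow_succ, ← pow_add]
          congr 1
          omega
        have hs' : 0 < b ^ s := Nat.pow_pos (by omega)
        rw [e, show x + f p * (b ^ s * (b * b ^ (p - s - 1))) =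
          x + b ^ s * (b * (f p * b ^ (p - s - 1))) by ring, Nat.add_mul_div_left _ _ hs',
          Nat.add_mul_mod_self_left]
        exact h1 s h
      · have e : s = p := by omega
        subst e
        rw [Nat.add_mul_div_right _ _ hpos, Nat.div_eq_of_lt hx, zero_add,
          Nat.mod_eq_of_lt hb]

theorem dv_range (p t s : ℕ) : 2 ≤ dv p t s ∧ dv p t s ≤ blk p t := by
  have h := two_le_blk p t
  have h1 := Nat.mod_lt (ix p t / (blk p t - 1) ^ s) (show 0 < blk p t - 1 by omega)
  unfold dv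
  omega

/-- Every depth vector is treated in every block. -/
theorem dv_surj (p : ℕ) {n : ℕ} (hn : 2 ≤ n) (d : ℕ → ℕ) (hd : ∀ s < p, 2 ≤ d s ∧ d s ≤ n) :
    ∃ t, blk p t = n ∧ ∀ s < p, dv p t s = d s := by
  obtain ⟨x, hx, h1⟩ := digits_surj (n - 1) (fun s => d s - 2) p fun s hs => by
    have := hd s hs
    show d s - 2 < n - 1
    omega
  have hxn : x < nb p n := by
    unfold nb
    split
    · have e : n = 2 := by omega
      subst e
      simpa using hx
    · exact hx
  have hb : blk p (fst p n + x) = n := by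
    refine (blk_eq_iff p hn).2 ⟨Nat.le_add_right _ _, ?_⟩
    rw [fst_succ p hn]
    omega
  have hi : ix p (fst p n + x) = x := by
    have := fst_blk p (fst p n + x)
    rw [hb] at this
    omega
  refine ⟨fst p n + x, hb, fun s hs => ?_⟩
  have h2 := h1 s hs
  have h3 := hd s hs
  unfold dv
  rw [hb, hi, h2]
  omega

/-- Every pattern occurs in infinitely many blocks. -/
theorem jj_surj (p : ℕ) (J : ℕ → Bool) (N : ℕ) : ∃ n, N ≤ n ∧ ∀ s < p, JJ n s = J s := by
  have key : ∀ (p : ℕ) (J : ℕ → Bool), ∃ a : ℕ, ∀ s < p, a.testBit s = J s := by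
    intro p
    induction p with
    | zero => exact fun J => ⟨0, fun s hs => absurd hs (Nat.not_lt_zero _)⟩
    | succ p ih =>
      intro J
      obtain ⟨a, ha⟩ := ih fun s => J (s + 1)
      refine ⟨Nat.bit (J 0) a, fun s hs => ?_⟩
      cases s with
      | zero => exact Nat.testBit_bit_zero _ _
      | succ s => rw [Nat.testBit_bit_succ]; exact ha s (by omega)
  obtain ⟨a, ha⟩ := key p J
  refine ⟨Nat.pair a N, Nat.right_le_pair _ _, fun s hs => ?_⟩
  unfold JJ
  rw [Nat.unpair_pair]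
  exact ha s hs

end Pool.Agent.Lib.MP_d48993_lc.Ba.Gr
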