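import Pool.Agent.Lib.MP_d48993_lc.BAE.Gr.LimDefs
import Pool.Agent.Lib.MP_d48993_lc.BAE.Gr.BlkS
import Pool.Agent.Lib.MP_d48993_lc.AE.Node.Codes
import Pool.Agent.Lib.MP_d48993_lc.AE.Node.Basic

/-!
# Part G (MP_d48993): module LPRES (helper86), the invariant is preserved (finding 4200, G8.7)
-/

set_option autoImplicit false

namespace Pool.Agent.Lib.MP_d48993_lc.Ba.Gr.Lm

open Pool.Agent.Lib.MP_d48993_lc.Node
open MP_8c048d_lc (pre join RecF)
open Txt (ht st mC mN mR ltN okN Leg)

/-! ## States of the conditions -/

/-- The state of a condition at `z` is `z`. -/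
theorem zq_eq {W : World} {T : List ℕ → Prop} {c : Cnd3} {z : St} (hc : CV W T c) (hz : At z c) :
    zq c = z := by
  obtain ⟨p, hp⟩ := hc.root
  unfold zq
  match h : c.2 with
  | [] => rw [h] at hp; exact absurd hp (by simp)
  | e :: l =>
    obtain ⟨i, -, h2⟩ := hz.en e (by rw [h]; exact List.mem_cons_self)
    simp only [List.head?_cons, Option.map_some, Option.getD_some]
    rw [h2]
    unfold ow
    simp only [List.dropLast_concat]

/-- The ends of the valid strings are admissible. -/
theorem adm_endd {δ : Data} {σ : List ℕ} (h : ∀ g ∈ σ, VS δ.W g) (hne : σ ≠ []) :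
    Adm (endd o σ) := by
  unfold endd
  rw [List.getLast?_eq_some_getLast hne]
  simp only [Option.map_some, Option.getD_some]
  exact ((Basic.inv Node.codes (h _ (List.getLast_mem hne))).1).1.2.1

theorem adm_of_ow {z : St} {i : ℕ} (h : Adm (ow z i)) : Adm z := by
  obtain ⟨h1, h2⟩ := h
  unfold ow at h1 h2
  simp only [List.length_append, List.length_singleton] at h1
  exact ⟨by omega, fun b hb => h2 b (List.mem_append_left _ hb)⟩

/-- A condition at `z`: `z` is admissible. -/
theorem adm_at {δ : Data} {T : List ℕ → Prop} {c : Cnd3} {z : St} (hc : CV δ.W T c)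
    (hz : At z c) : Adm z := by
  obtain ⟨p, hp⟩ := hc.root
  obtain ⟨i, -, h2⟩ := hz.en _ hp
  have h3 := (hc.stem _ hp).2.2
  have hne : p ≠ [] := by
    rintro rfl
    have h4 := congrArg (fun x : St => x.2.length) h2
    simp [endd, ow, o] at h4
  exact adm_of_ow (i := i) (by rw [← h2]; exact adm_endd h3 hne)

/-! ## Tables -/

/-- The value in a table. -/
theorem lk_of_mem {T : Tab} {I : Itm} (h : I ∈ T.map Prod.fst) : (I, lk T I) ∈ T := by
  unfold lk
  rw [List.mem_map] at h
  obtain ⟨x, hx, rfl⟩ := h
  cases hf : T.find? (fun y : Itm × Cnd3 =>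
      decide (Encodable.encode y.1 = Encodable.encode x.1)) with
  | none =>
    rw [List.find?_eq_none] at hf
    exact absurd (hf x hx) (by simp)
  | some y =>
    have h1 := List.mem_of_find?_eq_some hf
    have h2 := List.find?_some hf
    simp only [decide_eq_true_eq] at h2
    have h3 : y.1 = x.1 := Encodable.encode_injective h2
    simp only [Option.map_some, Option.getD_some]
    rw [← h3]
    exact h1

/-! ## The new roots -/

theorem three_le_succ (p t : ℕ) : 3 ≤ blk p (t + 1) := by
  rcases blk_step p t with ⟨h1, h2⟩ | ⟨h1, -, -⟩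
  · have h3 := ix_lt p (t + 1)
    by_contra h4
    have h5 : blk p (t + 1) = 2 := by have := two_le_blk p (t + 1); omega
    rw [h5] at h3
    unfold nb at h3
    simp only [le_refl, if_true] at h3
    omega
  · have := two_le_blk p t
    omega

section step

variable {P : Par} {a a' : Stg}

theorem rt_mem (hR : ∀ k, RRk P k a a') {s : ℕ} (hs : s < P.p) : rt a' s ∈ (dt a' s).pub := by
  have h := ((hR (((0, 0, 0), ([], [], []), ([], [], [])), (o, o), [], 0,
    (0, 0, [], ([], [])))).good s hs).2.2
  rw [h]
  exact List.mem_append_right _ (List.mem_singleton.2 rfl)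

theorem rt_max (hI : IvA P a) (hR : ∀ k, RRk P k a a') {s : ℕ} (hs : s < P.p) :
    ∀ r ∈ (dt a' s).pub, r ≤ rt a' s := by
  have h0 := hR (((0, 0, 0), ([], [], []), ([], [], [])), (o, o), [], 0, (0, 0, [], ([], [])))
  intro r hr
  rw [(h0.good s hs).2.2, List.mem_append, List.mem_singleton] at hr
  rcases hr with hr | rfl
  · have h1 := (hI.stin.good s hs).wf.pub r hr
    have h2 := h0.root s hs
    have h3 : (ctx P a).d0 s = dt a s := rfl
    rw [h3] at h1
    omega
  · exact le_rfl

end step

/-- Module LPRES. -/
theorem presS : PresStatement := by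
  intro P hP a a' hI hR
  have h0 := hR (((0, 0, 0), ([], [], []), ([], [], [])), (o, o), [], 0, (0, 0, [], ([], [])))
  have ht : a'.t = a.t + 1 := h0.t
  have h3 : 3 ≤ blk P.p a'.t := by rw [ht]; exact three_le_succ _ _
  have hszp : ∀ s < P.p, ∀ r ∈ (dt a' s).pub, 0 < sz r := by
    intro s hs r hr
    rw [(h0.good s hs).2.2, List.mem_append, List.mem_singleton] at hr
    rcases hr with hr | rfl
    · exact hI.szp s hs r hr
    · have := (h0.root s hs).2.2.2.2
      omega
  refine ⟨h0.len.1, ?_, ?_, fun h2 => by omega, hszp⟩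
  · intro s hs
    rw [(h0.good s hs).2.2, List.length_append, hI.pub s hs, ht]
    rfl
  -- the two cases
  rcases blk_step P.p a.t with ⟨hb, hix⟩ | ⟨hb, hix, -⟩
  · -- the same block
    have hcur : a'.curs = a'.fins := h0.next1 hb
    have hkeys : a'.curs.map Prod.fst = a.curs.map Prod.fst := by rw [hcur, h0.keys]
    have hcu : ∀ I, cu a' I = fn a' I := by
      intro I
      unfold cu fn
      rw [hcur]
    have hblk : blk P.p a'.t = blk P.p a.t := by rw [ht, hb]
    have hits : ∀ I, (ctx P a').its I → I ∈ a.curs.map Prod.fst := by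
      intro I hI'
      have : I ∈ a'.curs.map Prod.fst := hI'
      rwa [hkeys] at this
    constructor
    · omega
    · exact fun s hs => (h0.good s hs).1
    · exact List.finite_toSet (a'.curs.map Prod.fst)
    · exact fun s _ => (dv_range P.p a'.t s).2
    · exact fun I hI' => hI.stin.lab I (hits I hI')
    · intro I hI'
      have h5 := h0.txt I (hits I hI')
      show Leg (HT P I) (cu a' I).1 ∧ (∀ m : ℕ, m.unpair.1 ≤ _ →
        okN (st (HT P I) (cu a' I).1) m = true) ∧ Txt.opn (HT P I) (cu a' I).1 = none
      rw [hcu]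
      refine ⟨h5.1, fun m hm => ?_, h5.2.2.2.2⟩
      have h6 := (hR (((0, 0, 0), ([], [], []), ([], [], [])), (o, o), [], m,
        (0, 0, [], ([], [])))).txt I (hits I hI')
      apply h6.2.2.2.1
      have e1 : (ctx P a').r = nb P.p (blk P.p a'.t) - 1 - ix P.p a'.t := rfl
      have e2 : (ctx P a).r = nb P.p (blk P.p a.t) - 1 - ix P.p a.t := rfl
      have e3 := ix_lt P.p (a.t + 1)
      rw [e1, hblk, ht, hix] at hm
      rw [e2]
      rw [hb, hix] at e3
      show m.unpair.1 < _
      omega
    · intro I hI' hcol
      have hIa := hits I hI'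
      obtain ⟨p1, p2, p3, p4, p5, p6, p7, p8, p9⟩ := hI.stin.pt I hIa hcol
      obtain ⟨q1, q2, q3, q4, -⟩ := h0.pt I hIa hcol
      have hzq : zq (cu a' I) = (rt a' I.col, (zq (cu a I)).2) := by
        rw [hcu]
        exact zq_eq q1 q4
      refine ⟨?_, ?_, ?_, ?_, ?_, ?_, ?_, ?_, ?_⟩
      · have : (ctx P a').J I.col = (ctx P a).J I.col := by
          show (decide (blk P.p a'.t ≤ 2) || JJ (blk P.p a'.t) I.col) = _
          rw [hblk]
          rfl
        rw [this]
        exact p1
      · show CV (dt a' I.col).W (LT P I) (cu a' I)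
        rw [hcu]
        exact q1
      · show At (zq (cu a' I)) (cu a' I)
        rw [hzq, hcu]
        exact q4
      · show (zq (cu a' I)).1 ∈ (dt a' I.col).pub
        rw [hzq]
        exact rt_mem hR hcol
      · show Adm (zq (cu a' I))
        rw [hzq]
        exact adm_at q1 q4
      · show 1 ≤ (zq (cu a' I)).2.length
        rw [hzq]
        exact p6
      · show (zq (cu a' I)).2.length + 1 ≤ _
        rw [hzq, hblk]
        exact p7
      · show bk (zq (cu a' I)).1 ≤ _
        rw [hzq, hblk]
        exact ((h0.root I.col hcol).2.2.2.1).le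
      · show ∀ r ∈ (dt a' I.col).pub, r ≤ (zq (cu a' I)).1
        rw [hzq]
        exact rt_max hI hR hcol
  · -- a new block
    have hne : blk P.p (a.t + 1) ≠ blk P.p a.t := by omega
    have hn := (h0.next2 hne).2.1
    have hcu : ∀ I, (ctx P a').its I → cu a' I = I.c ∧ ItmOk P a' I := by
      intro I hI'
      have h5 : (I, lk a'.curs I) ∈ a'.curs := lk_of_mem hI'
      exact ⟨(hn _ h5).1, (hn _ h5).2⟩
    have hblk : blk P.p a'.t = blk P.p a.t + 1 := by rw [ht, hb]
    constructor
    · omega
    · exact fun s hs => (h0.good s hs).1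
    · exact List.finite_toSet (a'.curs.map Prod.fst)
    · exact fun s _ => (dv_range P.p a'.t s).2
    · exact fun I hI' => (hcu I hI').2.lab
    · intro I hI'
      obtain ⟨h5, h6⟩ := hcu I hI'
      obtain ⟨v, s, hv⟩ := h6.ends
      have hleg := h6.leg
      show Leg (HT P I) (cu a' I).1 ∧ (∀ m : ℕ, m.unpair.1 ≤ _ →
        okN (st (HT P I) (cu a' I).1) m = true) ∧ Txt.opn (HT P I) (cu a' I).1 = none
      rw [h5]
      refine ⟨hleg, ?_, ?_⟩
      · intro m _
        rw [hv] at hleg ⊢
        obtain ⟨l, hl⟩ := Txt.st_mC (T := HT P I) (Txt.Leg.of_append hleg) s (blk P.p a'.t)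
        rw [hl]
        unfold okN
        rw [List.getLast?_concat]
        simp
      · rw [hv] at hleg ⊢
        exact Txt.opn_mC (Txt.Leg.of_append hleg) s _
    · intro I hI' hcol
      obtain ⟨h5, h6⟩ := hcu I hI'
      obtain ⟨q1, q2, q3, q4, q5, q6⟩ := h6.pt hcol
      refine ⟨?_, ?_, ?_, ?_, ?_, ?_, ?_, ?_, ?_⟩
      · show (decide (blk P.p a'.t ≤ 2) || JJ (blk P.p a'.t) I.col) = true
        rw [q1, Bool.or_true]
      · show CV (dt a' I.col).W (LT P I) (cu a' I)
        rw [h5]
        exact q2
      · show At (zq (cu a' I)) (cu a' I)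
        rw [h5]
        exact q5
      · show (zq (cu a' I)).1 ∈ (dt a' I.col).pub
        rw [h5, q3]
        exact rt_mem hR hcol
      · show Adm (zq (cu a' I))
        rw [h5]
        exact adm_at q2 q5
      · show 1 ≤ (zq (cu a' I)).2.length
        rw [h5]
        exact q4
      · show (zq (cu a' I)).2.length + 1 ≤ _
        rw [h5, hblk]
        -- the depth of the stems
        obtain ⟨p, hp⟩ := q2.root
        obtain ⟨i, -, h7⟩ := q5.en _ hp
        have h8 := (q6 _ hp).dep a.t p List.prefix_rfl ?_
        · have h9 := h8.2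
          rw [h7] at h9
          unfold ow at h9
          simp only [List.length_append, List.length_singleton] at h9
          show (zq I.c).2.length + 1 ≤ blk P.p a.t + 1
          omega
        · unfold ul
          have hlen : (dt a' I.col).pub.length = a.t + 1 := by
            rw [(h0.good I.col hcol).2.2, List.length_append, hI.pub I.col hcol]
            rfl
          rw [if_pos (by omega), h7]
          show (zq I.c).1 = _
          rw [q3]
          have h9 := (h0.good I.col hcol).2.2
          have h10 : (dt a I.col).pub.length = a.t := hI.pub I.col hcol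
          rw [List.getD_eq_getElem _ _ (by omega)]
          have h11 : (dt a' I.col).pub[a.t]'(by omega) = rt a' I.col := by
            simp only [h9]
            rw [List.getElem_append_right (by omega)]
            simp
          exact h11.symm
      · show bk (zq (cu a' I)).1 ≤ _
        rw [h5, q3, hblk]
        have := (h0.root I.col hcol).2.2.2.1
        omega
      · show ∀ r ∈ (dt a' I.col).pub, r ≤ (zq (cu a' I)).1
        rw [h5, q3]
        exact rt_max hI hR hcol

end Pool.Agent.Lib.MP_d48993_lc.Ba.Gr.Lm
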