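import Pool.Agent.Lib.MP_d48993_lc.BAE.Gr.LimDefs
import Pool.Agent.Lib.MP_d48993_lc.AE.Node.Finv
import Pool.Agent.Lib.MP_d48993_lc.AE.Node.Limit

/-!
# Part G (MP_d48993): module LEX (helper66), existence of a step
-/

set_option autoImplicit false

namespace Pool.Agent.Lib.MP_d48993_lc.Ba.Gr.Lm

open Pool.Agent.Lib.MP_d48993_lc.Node
open MP_8c048d_lc (pre join RecF)
open Txt (ht st mC mN mR ltN okN Leg)

namespace LexA

/-! ## Tables -/

theorem lk_map (f : Itm → Cnd3) (I : Itm) : ∀ L : List Itm, I ∈ L →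
    lk (L.map fun I => (I, f I)) I = f I := by
  intro L hL
  unfold lk
  have key : ∀ L : List Itm, I ∈ L → (L.map fun I => (I, f I)).find?
      (fun x : Itm × Cnd3 => decide (Encodable.encode x.1 = Encodable.encode I)) =
      some (I, f I) := by
    intro L
    induction L with
    | nil => intro h; exact absurd h List.not_mem_nil
    | cons K L ih =>
      intro h
      rw [List.map_cons, List.find?_cons]
      by_cases hK : Encodable.encode K = Encodable.encode I
      · have h1 : K = I := Encodable.encode_injective hK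
        subst h1
        simp
      · rcases List.mem_cons.1 h with h | h
        · exact absurd (by rw [h]) hK
        · simp only [hK, decide_false]
          exact ih h
  rw [key L hL]
  rfl

theorem getD_range {α : Type} (n : ℕ) (f : ℕ → α) (x : α) {s : ℕ} (hs : s < n) :
    ((List.range n).map f).getD s x = f s := by
  simp [List.getD, List.getElem?_map, List.getElem?_range hs]

/-! ## The contract depends on the colours below `P.p` and on the items only -/

theorem done_congr (P : Par) (C : Ctx) (u' : ℕ → ℕ) (n : ℕ) (S S' : PS)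
    (hu : ∀ s < P.p, u' s = C.u s) (hg : ∀ s < P.p, S'.g s = S.g s) (hal : S'.al = S.al)
    (hcv : ∀ I, C.its I → S'.cv I = S.cv I) (h : Done P C n S) :
    Done P { C with u := u' } n S' := by
  have hT : ∀ H y mu it, PTup P { C with u := u' } S' H y mu it → PTup P C S H y mu it := by
    intro H y mu it h1
    refine ⟨fun s hs hJ => ?_, h1.itm⟩
    obtain ⟨h2, h3⟩ := h1.str s hs hJ
    rw [hg s hs] at h3
    exact ⟨⟨h2.root.trans (hu s hs), h2.adm, h2.zero, h2.len⟩, h3⟩
  have hev : ∀ i H y mu nu (k k' : ℕ → Cnd3), (∀ c, Tx P C.J H c = true → (k c).1 = (k' c).1) →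
      evS P { C with u := u' } S' i H y mu nu k = evS P C S i H y mu nu k' := by
    intro i H y mu nu k k' hk
    unfold evS
    have h1 : tup P C.J H (cat mu (fun s => S'.al s (y s)) nu) k =
        tup P C.J H (cat mu (fun s => S.al s (y s)) nu) k' := by
      unfold tup
      refine List.map_congr_left fun c _ => ?_
      by_cases hc : Tx P C.J H c = true
      · rw [if_pos hc, if_pos hc, hk c hc]
      · rw [if_neg hc, if_neg hc, hal]
    show ev P i H (tup P C.J H (cat mu (fun s => S'.al s (y s)) nu) k) = _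
    rw [h1]
  have hE : ∀ H off y it γ' nu k, (∀ c, Tx P C.J H c = true → C.its (it c)) →
      SExt P { C with u := u' } S' H off y it γ' nu k → SExt P C S H off y it γ' nu k := by
    intro H off y it γ' nu k hits h1
    refine ⟨fun s hs => ?_, fun s hs hJ => ?_, fun s hs hJ => ?_, fun c hc => ?_⟩
    · have h2 := h1.good s hs
      rw [hg s hs] at h2
      exact h2
    · have h2 : VStr (γ' s).W (endd (y s) (S'.al s (y s))) (nu s)
        (endd (endd (y s) (S'.al s (y s))) (nu s)) ∧ ∀ g ∈ nu s, Lg (y s) (tgt g) :=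
        h1.str s hs hJ
      rw [hal] at h2
      exact h2
    · obtain ⟨h2, h3, h4⟩ := h1.cnd s hs hJ
      have htx : Tx P C.J H s = true := by
        have hJ' : C.J s = true := hJ
        unfold Tx Prs
        simp [hs, hJ']
      have h5 : S'.cv (it s) = S.cv (it s) := hcv _ (hits s htx)
      have h3' : CLe (LT P (it s)) (S'.cv (it s)) (k s) := h3
      rw [h5] at h3'
      exact ⟨h2, h3', h4⟩
    · have h2 : Txt.Le (HT P (it c)) (ht (HT P (it c)) (S'.cv (it c)).1 + off)
        (S'.cv (it c)).1 (k c).1 := h1.txt c hc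
      rw [hcv _ (hits c hc)] at h2
      exact h2
  have hcv' : ∀ (H : ℕ) (it : ℕ → Itm), (∀ c, Tx P C.J H c = true → C.its (it c)) →
      ∀ c, Tx P C.J H c = true → (S'.cv (it c)).1 = (S.cv (it c)).1 := by
    intro H it hits c hc
    rw [hcv _ (hits c hc)]
  refine ⟨?_, ?_, ?_⟩
  · intro H y mu it h1 i hi m hm
    have h2 := hT H y mu it h1
    have hits := fun c hc => (h2.itm c hc).1
    rcases h.hit H y mu it h2 i hi m hm with h3 | h3
    · left
      rw [hev i H y mu _ _ (fun c => S.cv (it c)) (hcv' H it hits)]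
      exact h3
    · right
      intro γ' nu k h4
      rw [hev i H y mu nu k k (fun _ _ => rfl)]
      exact h3 γ' nu k (hE H 0 y it γ' nu k hits h4)
  · intro H y mu it h1 i hi b hb hJ
    have h2 := hT H y mu it h1
    have hits := fun c hc => (h2.itm c hc).1
    rcases h.kill H y mu it h2 i hi b hb hJ with h3 | h3
    · left
      rw [hev i H y mu _ _ (fun c => S.cv (it c)) (hcv' H it hits), hg b hb]
      exact h3
    · right
      intro γ' nu k h4
      rw [hev i H y mu nu k k (fun _ _ => rfl)]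
      exact h3 γ' nu k (hE H 0 y it γ' nu k hits h4)
  · intro y mu it h1 hJ i hi
    have h2 := hT 0 y mu it h1
    have hits := fun c hc => (h2.itm c hc).1
    rcases h.killn y mu it h2 hJ i hi with h3 | h3
    · left
      rw [hev i 0 y mu _ _ (fun c => S.cv (it c)) (hcv' 0 it hits)]
      exact h3
    · right
      intro γ' nu k h4
      rw [hev i 0 y mu nu k k (fun _ _ => rfl),
        hev i 0 y mu _ _ (fun c => S.cv (it c)) (hcv' 0 it hits)]
      exact h3 γ' nu k (hE 0 0 y it γ' nu k hits h4)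

/-! ## Finitely many items -/

theorem strings_finite (hF : FinvStatement) (δ : Data) :
    {μ : List ℕ | VStr δ.W o μ (endd o μ)}.Finite := by
  obtain ⟨h1, h2⟩ := hF δ
  have h3 : ({o} ∪ tgt '' {s | VS δ.W s}).Finite := (Set.finite_singleton o).union (h1.image tgt)
  refine (h3.biUnion (t := fun y => {μ | VStr δ.W o μ y}) fun y _ => h2 o y).subset ?_
  intro μ hμ
  have hμ' : VStr δ.W o μ (endd o μ) := hμ
  refine Set.mem_biUnion (x := endd o μ) ?_ hμ'
  unfold endd
  cases hl : μ.getLast? with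
  | none => left; rfl
  | some s =>
    right
    exact ⟨s, hμ'.2 s (List.mem_of_getLast? hl), rfl⟩

theorem triples_ext {α β γ : Type} (l l' : List (α × β × γ))
    (h1 : l.map (fun e => (e.1, e.2.1)) = l'.map (fun e => (e.1, e.2.1)))
    (h2 : l.map (fun e => e.2.2) = l'.map (fun e => e.2.2)) : l = l' := by
  induction l generalizing l' with
  | nil =>
    cases l' with
    | nil => rfl
    | cons e l' => simp at h1
  | cons e l ih =>
    cases l' with
    | nil => simp at h1
    | cons e' l' =>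
      simp only [List.map_cons, List.cons.injEq, Prod.mk.injEq] at h1 h2
      obtain ⟨⟨h3, h4⟩, h5⟩ := h1
      obtain ⟨h6, h7⟩ := h2
      rw [ih l' h5 h7, Prod.ext h3 (Prod.ext h4 h6)]

/-- The code of an item. -/
def cdI (I : Itm) : (ℕ × ℕ) × (List ℕ × List ℕ) × (List ℕ × List (List ℕ × List ℕ)) :=
  ((I.col, I.hd), (I.E, I.c.1.dropLast),
    (Txt.sg (I.c.1.getLast?.getD 0), I.c.2.map (fun e => (e.1, e.2.1))))

theorem items_finite (hF : FinvStatement) (P : Par) (a : Stg) : {I | ItmOk P a I}.Finite := by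
  set n := blk P.p a.t with hn
  have hA : {x : (ℕ × ℕ) × (List ℕ × List ℕ) × (List ℕ × List (List ℕ × List ℕ)) |
      Encodable.encode x ≤ n}.Finite :=
    Set.Finite.preimage (Encodable.encode_injective.injOn) (Set.finite_le_nat n)
  have hV : (⋃ s ∈ {s | s < P.p}, {μ : List ℕ | VStr (dt a s).W o μ (endd o μ)}).Finite :=
    (Set.finite_lt_nat P.p).biUnion fun s _ => strings_finite hF (dt a s)
  set V : Set (List ℕ) := ⋃ s ∈ {s | s < P.p}, {μ : List ℕ | VStr (dt a s).W o μ (endd o μ)}
    with hVd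
  refine Set.Finite.of_finite_image (f := fun I : Itm => (cdI I, I.c.2.map fun e => e.2.2)) ?_ ?_
  · refine (hA.biUnion (t := fun x => ({x} : Set _) ×ˢ {l : List (List ℕ) |
      l.length ≤ x.2.2.2.length ∧ ∀ b ∈ l, b ∈ V}) fun x _ =>
        (Set.finite_singleton x).prod (Finv.finite_lists hV _)).subset ?_
    rintro _ ⟨I, hI, rfl⟩
    have hI' : ItmOk P a I := hI
    refine Set.mem_biUnion (x := cdI I) (show Encodable.encode (cdI I) ≤ n from hI'.code) ?_
    refine ⟨rfl, ?_, ?_⟩
    · show (I.c.2.map fun e => e.2.2).length ≤ (I.c.2.map (fun e => (e.1, e.2.1))).length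
      rw [List.length_map, List.length_map]
    · intro b hb
      obtain ⟨e, he, rfl⟩ := List.mem_map.1 hb
      by_cases hc : I.col < P.p
      · obtain ⟨-, h1, -⟩ := hI'.pt hc
        exact Set.mem_biUnion (show I.col ∈ {s | s < P.p} from hc) (h1.stem e he).2
      · obtain ⟨-, -, h1⟩ := hI'.sh (not_lt.1 hc)
        rw [h1] at he
        exact absurd he List.not_mem_nil
  · intro I hI I' hI' h
    have h1 : ItmOk P a I := hI
    have h2 : ItmOk P a I' := hI'
    simp only [Prod.mk.injEq] at h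
    obtain ⟨h3, h4⟩ := h
    unfold cdI at h3
    simp only [Prod.mk.injEq] at h3
    obtain ⟨⟨h5, h6⟩, ⟨h7, h8⟩, ⟨h9, h10⟩⟩ := h3
    have h11 : I.c.2 = I'.c.2 := triples_ext _ _ h10 h4
    obtain ⟨v, s, h12⟩ := h1.ends
    obtain ⟨v', s', h13⟩ := h2.ends
    have h14 : I.c.1 = I'.c.1 := by
      rw [h12, h13] at h8 h9
      simp only [List.dropLast_concat, List.getLast?_concat, Option.getD_some,
        Txt.sg_mC] at h8 h9
      rw [h12, h13, h8, h9]
    exact Prod.ext h5 (Prod.ext h6 (Prod.ext h7 (Prod.ext h14 h11)))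

/-! ## The first state -/

theorem gd_dd : GD dd where
  wf := Limit.D0_wf
  full := Limit.D0_full
  lg := by
    intro y α h g hg
    have h1 : α = [] := Limit.D0_adv h
    rw [h1] at hg
    exact absurd hg List.not_mem_nil

theorem dt_a0 (P : Par) (s : ℕ) : dt (a0 P) s = dd := by
  unfold dt a0
  show (List.replicate P.p dd).getD s dd = dd
  by_cases hs : s < P.p
  · simp [List.getD, hs]
  · simp [List.getD, hs]

theorem iva_a0 (P : Par) : IvA P (a0 P) where
  len := by
    show (List.replicate P.p dd).length = P.p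
    simp
  pub := by
    intro s _
    rw [dt_a0]
    rfl
  two := fun _ => rfl
  szp := by
    intro s _ r hr
    rw [dt_a0] at hr
    exact absurd hr List.not_mem_nil
  stin := by
    have hno : ∀ I, ¬ (ctx P (a0 P)).its I := fun I h => absurd h List.not_mem_nil
    refine ⟨?_, ?_, ?_, ?_, ?_, ?_, ?_⟩
    · show 2 ≤ blk P.p 0
      exact le_rfl
    · intro s _
      show GD (dt (a0 P) s)
      rw [dt_a0]
      exact gd_dd
    · refine Set.finite_empty.subset ?_
      intro I h
      exact absurd h (hno I)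
    · intro s _
      show 2 + 0 / (2 - 1) ^ s % (2 - 1) ≤ 2
      simp
    · exact fun I h => absurd h (hno I)
    · exact fun I h => absurd h (hno I)
    · exact fun I h => absurd h (hno I)

end LexA

open LexA in
/-- Module LEX. -/
theorem lex (hS : StepStatement) (hCd : CodeStatement) (hF : FinvStatement) : ExStatement := by
  classical
  intro P hP
  refine ⟨iva_a0 P, fun a hI => ?_⟩
  obtain ⟨d, u, nb, fin, hO⟩ := hS P hP (ctx P a) (blk P.p a.t)
    (Kw (wn P a) + blk P.p a.t + 3 + a.t) (Encodable.encode (wn P a)) (fun I => zq (cu a I))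
    hI.stin
  have hsy : (⋃ s ∈ {s | s < P.p}, {g : ℕ | VS (d s).W g}).Finite :=
    (Set.finite_lt_nat P.p).biUnion fun s _ => (hF (d s)).1
  obtain ⟨sy1, hsy1⟩ : ∃ sy : List ℕ, ∀ s < P.p, ∀ g, VS (d s).W g → g ∈ sy := by
    refine ⟨hsy.toFinset.toList, fun s hs g hg => ?_⟩
    rw [Finset.mem_toList, Set.Finite.mem_toFinset]
    exact Set.mem_biUnion (show s ∈ {s | s < P.p} from hs) hg
  -- the canonical symbols between the states of depth one
  have hrt : ∀ s < P.p, 1 ≤ a.t → rt a s ∈ (dt a s).pub := by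
    intro s hs ht
    have h1 : (dt a s).pub ≠ [] := by
      intro h2
      have h3 := hI.pub s hs
      rw [h2, List.length_nil] at h3
      omega
    unfold rt
    rw [List.getLast?_eq_some_getLast h1]
    exact List.getLast_mem h1
  have hch : ∀ s, ∃ g, s < P.p → 1 ≤ a.t → VS (d s).W g ∧ src g = (rt a s, [0]) ∧
      tgt g = (u s, [0]) ∧ Ex g = [] := by
    intro s
    by_cases hs : s < P.p ∧ 1 ≤ a.t
    · have h1 := hrt s hs.1 hs.2
      have h2 := hI.szp s hs.1 _ h1
      have h3 := (hI.stin.good s hs.1).wf.pub _ h1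
      have h4 := hO.root s hs.1
      have hadm : ∀ v : ℕ, 0 < sz v → Adm ((v, [0]) : St) := fun v hv =>
        ⟨hv, fun b hb => by rw [List.mem_singleton.1 hb]; exact hv⟩
      obtain ⟨g, hg⟩ := hO.can s hs.1 (rt a s, [0]) (u s, [0]) (hadm _ h2)
        (lt_of_lt_of_le h3 h4.1) (hadm _ (by have := h4.2.2.2.2; omega)) rfl (by simp)
      exact ⟨g, fun _ _ => hg⟩
    · exact ⟨0, fun h1 h2 => absurd ⟨h1, h2⟩ hs⟩
  choose g0 hg0 using hch
  obtain ⟨sy, hsy, hsy0⟩ : ∃ sy : List ℕ, (∀ s < P.p, ∀ g, VS (d s).W g → g ∈ sy) ∧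
      ∀ s < P.p, sy.getD s 0 = g0 s := by
    refine ⟨(List.range P.p).map g0 ++ sy1, fun s hs g hg =>
      List.mem_append_right _ (hsy1 s hs g hg), fun s hs => ?_⟩
    rw [List.getD_append _ _ _ _ (by simpa using hs)]
    exact getD_range P.p g0 0 hs
  let fs : Tab := (a.curs.map Prod.fst).map fun I => (I, fin I)
  let ds : List Data := (List.range P.p).map d
  let ns : List ℕ := (List.range P.p).map nb
  let a1 : Stg := (a.t + 1, ds, ns, fs, fs, sy)
  have hit := items_finite hF P a1
  obtain ⟨js, hjs, hjn⟩ : ∃ js : List Itm, (∀ I, I ∈ js ↔ ItmOk P a1 I) ∧ js.Nodup := by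
    refine ⟨hit.toFinset.toList, fun I => ?_, Finset.nodup_toList _⟩
    rw [Finset.mem_toList, Set.Finite.mem_toFinset]
    rfl
  obtain ⟨cs, hcs1, hcs2⟩ : ∃ cs : Tab, (blk P.p (a.t + 1) = blk P.p a.t → cs = fs) ∧
      (blk P.p (a.t + 1) ≠ blk P.p a.t → cs = js.map fun I => (I, I.c)) := by
    by_cases h : blk P.p (a.t + 1) = blk P.p a.t
    · exact ⟨fs, fun _ => rfl, fun h' => absurd h h'⟩
    · exact ⟨_, fun h' => absurd h' h, fun _ => rfl⟩
  have hd : ∀ s < P.p, dt (a.t + 1, ds, ns, fs, cs, sy) s = d s := fun s hs =>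
    getD_range P.p d dd hs
  have hn : ∀ s < P.p, nbd (a.t + 1, ds, ns, fs, cs, sy) s = nb s := fun s hs =>
    getD_range P.p nb 0 hs
  have hr : ∀ s < P.p, rt (a.t + 1, ds, ns, fs, cs, sy) s = u s := by
    intro s hs
    unfold rt
    rw [hd s hs, (hO.good s hs).2.2, List.getLast?_concat]
    rfl
  have hfn : ∀ I ∈ a.curs.map Prod.fst, fn (a.t + 1, ds, ns, fs, cs, sy) I = fin I :=
    fun I hI' => lk_map fin I _ hI'
  have hok : ∀ I, ItmOk P (a.t + 1, ds, ns, fs, cs, sy) I ↔ ItmOk P a1 I := fun I =>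
    ⟨fun h => ⟨h.three, h.ends, h.code, h.leg, h.lab, h.pt, h.sh⟩,
      fun h => ⟨h.three, h.ends, h.code, h.leg, h.lab, h.pt, h.sh⟩⟩
  refine ⟨(a.t + 1, ds, ns, fs, cs, sy), fun k => ?_⟩
  refine ⟨rfl, ⟨?_, ?_⟩, ?_, ?_, ?_, ?_, ?_, ?_, ?_, ?_, ?_, ?_, ?_, ?_, ?_, ?_, ?_, ?_⟩
  · show ((List.range P.p).map d).length = P.p
    simp
  · show ((List.range P.p).map nb).length = P.p
    simp
  · -- good
    intro s hs
    rw [hd s hs, hr s hs]
    exact hO.good s hs
  · -- root
    intro s hs
    rw [hd s hs, hr s hs, hn s hs]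
    exact hO.root s hs
  · -- wrd
    intro s hs
    rw [hr s hs]
    exact hO.wrd s hs
  · -- chs
    intro ht s hs
    rw [hd s hs, hr s hs]
    show VS (d s).W (sy.getD s 0) ∧ src (sy.getD s 0) = (rt a s, [0]) ∧
      tgt (sy.getD s 0) = (u s, [0]) ∧ Ex (sy.getD s 0) = []
    rw [hsy0 s hs]
    exact hg0 s hs ht
  · -- szs
    intro s hs
    rw [hr s hs]
    exact hO.szs s hs
  · -- gap
    intro s hs
    rw [hd s hs, hr s hs, hn s hs]
    exact hO.gap s hs _ _
  · -- many
    intro s hs
    rw [hd s hs, hr s hs]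
    exact hO.many s hs _
  · -- can
    intro s hs
    rw [hd s hs, hr s hs, hn s hs]
    intro h1 h2 h3 h4 h5
    obtain ⟨g, h6, h7, h8, h9⟩ := hO.can s hs _ _ h1 h2 h3 h4 h5
    exact ⟨g, hsy s hs g h6, h6, h7, h8, h9⟩
  · -- keys
    show ((a.curs.map Prod.fst).map fun I => (I, fin I)).map Prod.fst = a.curs.map Prod.fst
    rw [List.map_map]
    exact List.map_id _
  · -- txt
    intro I hI'
    rw [hfn I hI']
    obtain ⟨h1, h2, h3, h4, h5⟩ := hO.txt I hI'
    exact ⟨h1, h2, h3, h4 _, h5⟩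
  · -- pt
    intro I hI' hs
    rw [hfn I hI', hd _ hs, hr _ hs]
    exact hO.pt I hI' hs
  · -- con
    refine (hCd P _ _ _).2 ?_ k.1
    have h1 := hO.con { ctx P a with u := u } rfl
      (fun s y => ((dt (a.t + 1, ds, ns, fs, cs, sy) s).W.adv y).getD []) (by
        intro s hs _ y hY
        show (d s).W.adv y = some (((dt (a.t + 1, ds, ns, fs, cs, sy) s).W.adv y).getD [])
        rw [hd s hs]
        have h2 := (hO.good s hs).1.full y hY.adm hY.zero (by
          rw [(hO.good s hs).2.2]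
          exact List.mem_append_right _ (List.mem_singleton.2 hY.root))
        obtain ⟨α, h3⟩ := Option.isSome_iff_exists.1 h2
        rw [h3]
        rfl)
    exact done_congr P { ctx P a with u := u } (rt (a.t + 1, ds, ns, fs, cs, sy)) _
      ⟨d, fun s y => ((dt (a.t + 1, ds, ns, fs, cs, sy) s).W.adv y).getD [], fin⟩
      (endS a (a.t + 1, ds, ns, fs, cs, sy)) hr hd rfl hfn h1
  · -- adv
    intro s hs
    rw [hd s hs, hr s hs]
    exact hO.adv s hs _
  · -- next1
    exact hcs1
  · -- next2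
    intro hne
    show (cs.map Prod.fst).Nodup ∧ (∀ x ∈ cs, x.2 = x.1.c ∧
      ItmOk P (a.t + 1, ds, ns, fs, cs, sy) x.1) ∧
      (ItmOk P (a.t + 1, ds, ns, fs, cs, sy) k.2.2.2.2 → k.2.2.2.2 ∈ cs.map Prod.fst)
    have h1 : cs.map Prod.fst = js := by
      rw [hcs2 hne, List.map_map]
      exact List.map_id _
    refine ⟨by rw [h1]; exact hjn, fun x hx => ?_, fun h2 => ?_⟩
    · rw [hcs2 hne] at hx
      obtain ⟨I, h3, rfl⟩ := List.mem_map.1 hx
      exact ⟨rfl, (hok I).2 ((hjs I).1 h3)⟩
    · rw [h1]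
      exact (hjs _).2 ((hok _).1 h2)
  · -- nbs
    intro s hs
    rw [hr s hs, hn s hs]
    exact hO.nbs s hs

end Pool.Agent.Lib.MP_d48993_lc.Ba.Gr.Lm
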