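import Pool.Agent.Lib.MP_d48993_lc.BAE.Gr.LimDefs

/-!
# Part G (MP_d48993): the coded contract is the contract (module LCODE)
-/

set_option autoImplicit false

namespace Pool.Agent.Lib.MP_d48993_lc.Ba.Gr.Lm

open Pool.Agent.Lib.MP_d48993_lc.Node
open MP_8c048d_lc (pre join RecF)
open Txt (ht st mC mN mR ltN okN Leg)

/-- Agreement at the columns. -/
def Agr {α : Type} (P : Par) (f g : ℕ → α) : Prop := ∀ c < P.p + P.q, f c = g c

theorem Agr.symm {α : Type} {P : Par} {f g : ℕ → α} (h : Agr P f g) : Agr P g f :=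
  fun c hc => (h c hc).symm

theorem Agr.rfl {α : Type} {P : Par} {f : ℕ → α} : Agr P f f := fun _ _ => Eq.refl _

theorem agr_getD {α : Type} (P : Par) (f : ℕ → α) (d : α) :
    Agr P (fun c => ((List.range (P.p + P.q)).map f).getD c d) f := by
  intro c hc
  simp [List.getD_eq_getElem?_getD, hc]

theorem tx_lt {P : Par} {J : ℕ → Bool} {H c : ℕ} (h : Tx P J H c = true) : c < P.p + P.q := by
  unfold Tx Prs at h
  simp only [Bool.and_eq_true, Bool.or_eq_true, decide_eq_true_eq] at h
  rcases h.1 with h | h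
  · omega
  · exact h.1

theorem tup_agr {P : Par} {J : ℕ → Bool} {H : ℕ} {σ σ' : ℕ → List ℕ} {k k' : ℕ → Cnd3}
    (h1 : Agr P σ σ') (h2 : Agr P k k') : tup P J H σ k = tup P J H σ' k' := by
  unfold tup
  apply List.map_congr_left
  intro c hc
  rw [h1 c (List.mem_range.1 hc), h2 c (List.mem_range.1 hc)]

theorem ptup_agr {P : Par} {C : Ctx} {S : PS} {H : ℕ} {y y' : ℕ → St} {mu mu' : ℕ → List ℕ}
    {it it' : ℕ → Itm} (h1 : Agr P y y') (h2 : Agr P mu mu') (h3 : Agr P it it')
    (h : PTup P C S H y mu it) : PTup P C S H y' mu' it' := by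
  refine ⟨fun s hs hJ => ?_, fun c hc => ?_⟩
  · have hs' : s < P.p + P.q := by omega
    rw [← h1 s hs', ← h2 s hs']
    exact h.str s hs hJ
  · rw [← h3 c (tx_lt hc)]
    exact h.itm c hc

theorem sext_agr {P : Par} {C : Ctx} {S : PS} {H off : ℕ} {y y' : ℕ → St} {it it' : ℕ → Itm}
    {γ γ' : ℕ → Data} {nu nu' : ℕ → List ℕ} {k k' : ℕ → Cnd3} (h1 : Agr P y y')
    (h3 : Agr P it it') (h4 : Agr P γ γ') (h5 : Agr P nu nu') (h6 : Agr P k k')
    (h : SExt P C S H off y it γ nu k) : SExt P C S H off y' it' γ' nu' k' := by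
  refine ⟨fun s hs => ?_, fun s hs hJ => ?_, fun s hs hJ => ?_, fun c hc => ?_⟩
  · have hs' : s < P.p + P.q := by omega
    rw [← h4 s hs']
    exact h.good s hs
  · have hs' : s < P.p + P.q := by omega
    have := h.str s hs hJ
    simp only [← h1 s hs', ← h4 s hs', ← h5 s hs'] at this ⊢
    exact this
  · have hs' : s < P.p + P.q := by omega
    have := h.cnd s hs hJ
    simp only [← h3 s hs', ← h4 s hs', ← h6 s hs'] at this ⊢
    exact this
  · have hs' := tx_lt hc
    have := h.txt c hc
    simp only [← h3 c hs', ← h6 c hs'] at this ⊢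
    exact this

theorem evS_agr {P : Par} {C : Ctx} {S : PS} {i H : ℕ} {y y' : ℕ → St}
    {mu mu' nu nu' : ℕ → List ℕ} {k k' : ℕ → Cnd3} (h1 : Agr P y y') (h2 : Agr P mu mu')
    (h5 : Agr P nu nu') (h6 : Agr P k k') :
    evS P C S i H y mu nu k = evS P C S i H y' mu' nu' k' := by
  unfold evS
  rw [tup_agr (σ' := cat mu' (fun s => S.al s (y' s)) nu') (k' := k') _ h6]
  intro c hc
  simp only [cat, h1 c hc, h2 c hc, h5 c hc]

theorem agr_comp {α β : Type} {P : Par} {f g : ℕ → α} (F : α → β) (h : Agr P f g) :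
    Agr P (fun c => F (f c)) (fun c => F (g c)) := fun c hc => by
  show F (f c) = F (g c)
  rw [h c hc]

/-- Module LCODE. -/
theorem code : CodeStatement := by
  intro P C n S
  constructor
  · intro h
    have aS : ∀ y : ℕ → St, Agr P (lS ((List.range (P.p + P.q)).map y)) y :=
      fun y => agr_getD P y _
    have aL : ∀ y : ℕ → List ℕ, Agr P (lL ((List.range (P.p + P.q)).map y)) y :=
      fun y => agr_getD P y _
    have aI : ∀ y : ℕ → Itm, Agr P (lI ((List.range (P.p + P.q)).map y)) y :=
      fun y => agr_getD P y _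
    have aD : ∀ y : ℕ → Data, Agr P (lD ((List.range (P.p + P.q)).map y)) y :=
      fun y => agr_getD P y _
    have aC : ∀ y : ℕ → Cnd3, Agr P (lC ((List.range (P.p + P.q)).map y)) y :=
      fun y => agr_getD P y _
    -- the code of a tuple with an extension
    let Q : ℕ → ℕ → ℕ → (ℕ → St) → (ℕ → List ℕ) → (ℕ → Itm) → (ℕ → Data) → (ℕ → List ℕ) →
        (ℕ → Cnd3) → Qd := fun H i m y mu it γ nu k =>
      ((H, i, m), ((List.range (P.p + P.q)).map y, (List.range (P.p + P.q)).map mu,
        (List.range (P.p + P.q)).map it), ((List.range (P.p + P.q)).map γ,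
        (List.range (P.p + P.q)).map nu, (List.range (P.p + P.q)).map k))
    have e0 : ∀ i H (y : ℕ → St) (mu : ℕ → List ℕ) (it : ℕ → Itm),
        evS P C S i H (lS ((List.range (P.p + P.q)).map y))
          (lL ((List.range (P.p + P.q)).map mu)) (fun _ => [])
          (fun c => S.cv (lI ((List.range (P.p + P.q)).map it) c)) =
        evS P C S i H y mu (fun _ => []) (fun c => S.cv (it c)) := fun i H y mu it =>
      evS_agr (aS y) (aL mu) Agr.rfl (agr_comp S.cv (aI it))
    have e1 : ∀ i H (y : ℕ → St) (mu nu : ℕ → List ℕ) (k : ℕ → Cnd3),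
        evS P C S i H (lS ((List.range (P.p + P.q)).map y))
          (lL ((List.range (P.p + P.q)).map mu)) (lL ((List.range (P.p + P.q)).map nu))
          (lC ((List.range (P.p + P.q)).map k)) =
        evS P C S i H y mu nu k := fun i H y mu nu k =>
      evS_agr (aS y) (aL mu) (aL nu) (aC k)
    refine ⟨?_, ?_, ?_⟩
    · intro H y mu it hT i hi m hm
      by_cases hA : m ≤ (evS P C S i H y mu (fun _ => []) (fun c => S.cv (it c))).length
      · exact Or.inl hA
      · refine Or.inr fun γ' nu k hX => ?_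
        have hq := (h (Q H i m y mu it γ' nu k)).hit
          (ptup_agr (aS y).symm (aL mu).symm (aI it).symm hT) hi hm
        simp only [Q] at hq
        rw [e0, e1] at hq
        rcases hq with hq | hq
        · exact absurd hq hA
        · exact hq (sext_agr (aS y).symm (aI it).symm (aD γ').symm (aL nu).symm (aC k).symm hX)
    · intro H y mu it hT i hi b hb hJ
      by_cases hA : Bad (S.g b) (evS P C S i H y mu (fun _ => []) (fun c => S.cv (it c)))
      · exact Or.inl hA
      · refine Or.inr fun γ' nu k hX => ?_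
        have hq := (h (Q H i b y mu it γ' nu k)).kill
          (ptup_agr (aS y).symm (aL mu).symm (aI it).symm hT) hi hb hJ
        simp only [Q] at hq
        rw [e0, e1, aD γ' b (by omega)] at hq
        rcases hq with hq | hq
        · exact absurd hq hA
        · exact hq (sext_agr (aS y).symm (aI it).symm (aD γ').symm (aL nu).symm (aC k).symm hX)
    · intro y mu it hT hJ i hi
      by_cases hA : ¬ P.TB (evS P C S i 0 y mu (fun _ => []) (fun c => S.cv (it c)))
      · exact Or.inl hA
      · refine Or.inr fun γ' nu k hX => ?_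
        have hq := (h (Q 0 i 0 y mu it γ' nu k)).killn
          (ptup_agr (aS y).symm (aL mu).symm (aI it).symm hT) hJ hi
        simp only [Q] at hq
        rw [e0, e1] at hq
        rcases hq with hq | hq
        · exact absurd hq hA
        · exact hq (sext_agr (aS y).symm (aI it).symm (aD γ').symm (aL nu).symm (aC k).symm hX)
  · intro h q
    refine ⟨fun hT hi hm => ?_, fun hT hi hb hJ => ?_, fun hT hJ hi => ?_⟩
    · rcases h.hit _ _ _ _ hT _ hi _ hm with h1 | h1
      · exact Or.inl h1
      · exact Or.inr fun hX => h1 _ _ _ hX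
    · rcases h.kill _ _ _ _ hT _ hi _ hb hJ with h1 | h1
      · exact Or.inl h1
      · exact Or.inr fun hX => h1 _ _ _ hX
    · rcases h.killn _ _ _ hT hJ _ hi with h1 | h1
      · exact Or.inl h1
      · exact Or.inr fun hX => h1 _ _ _ hX

end Pool.Agent.Lib.MP_d48993_lc.Ba.Gr.Lm
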