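import Pool.Agent.Lib.MP_d48993_lc.BAE.Gr.LimStm
import Pool.Agent.Lib.MP_d48993_lc.AE.Node.Codes
import Pool.Agent.Lib.MP_d48993_lc.Cond

/-!
# Part G (MP_d48993), module LDI: the items are decidable (finding 4200, G8.7)
-/

set_option autoImplicit false
set_option synthInstance.maxSize 20000
set_option maxHeartbeats 400000

namespace Pool.Agent.Lib.MP_d48993_lc.Ba.Gr.Lm

open Pool.Agent.Lib.MP_d48993_lc.Node
open MP_8c048d_lc (pre join RecF)
open Txt (ht st mC mN mR ltN okN Leg)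

/-! ## Regular strings for finite lists of roots -/

/-- The end of an initial segment. -/
def di_en (σ : List ℕ) (k : ℕ) : St := endd o (σ.take k)

/-- The sequence of the roots. -/
def di_ul (l σ : List ℕ) (t : ℕ) : ℕ := ul l ((endd o σ).1 + 1) t

/-- The indices which matter. -/
def di_cand (l σ : List ℕ) : List ℕ :=
  List.range l.length ++
    (List.range (σ.length + 1)).map (fun k => (di_en σ k).1 - ((endd o σ).1 + 1))

/-- The conditions at the index `t`. -/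
def di_RB (P : Par) (l σ : List ℕ) (t : ℕ) : Prop :=
  (di_ul l σ t < (endd o σ).1 + 1 → ∃ k ∈ List.range (σ.length + 1),
    (di_en σ k).1 = di_ul l σ t) ∧
  ∀ k ∈ List.range (σ.length + 1), (di_en σ k).1 = di_ul l σ t →
    ((0 < (di_en σ k).2.length ∧ (di_en σ k).2.length < blk P.p t + 1) ∧
    ∀ k' ∈ List.range (σ.length + 1),
      ((di_en σ k').1 = di_ul l σ (t + 1) → Link P t (di_en σ k) (di_en σ k')) ∧
      (k < k' + 1 → (di_en σ k').1 < di_ul l σ (t + 1) → Lg (di_en σ k) (di_en σ k')))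

theorem di_pfx {σ ν : List ℕ} (h : ν <+: σ) :
    ν.length ∈ List.range (σ.length + 1) ∧ di_en σ ν.length = endd o ν := by
  refine ⟨List.mem_range.2 (Nat.lt_succ_of_le h.length_le), ?_⟩
  unfold di_en
  rw [← List.prefix_iff_eq_take.1 h]

theorem di_cand_mem {l σ : List ℕ} {t k : ℕ} (hk : k ∈ List.range (σ.length + 1))
    (h : (di_en σ k).1 = di_ul l σ t) : t ∈ di_cand l σ := by
  unfold di_cand
  rw [List.mem_append]
  by_cases h1 : t < l.length
  · exact Or.inl (List.mem_range.2 h1)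
  · refine Or.inr (List.mem_map.2 ⟨k, hk, ?_⟩)
    rw [h]
    unfold di_ul ul
    rw [if_neg h1]
    omega

theorem di_reg_iff (P : Par) (l σ : List ℕ) :
    Reg P (ul l ((endd o σ).1 + 1)) σ ↔ ∀ t ∈ di_cand l σ, di_RB P l σ t := by
  constructor
  · intro h t _
    have h0 : ∀ k, σ.take k <+: σ := fun k => List.take_prefix _ _
    refine ⟨fun h1 => ?_, fun k _ h1 => ⟨?_, fun k' _ => ⟨fun h2 => ?_, fun h2 h3 => ?_⟩⟩⟩
    · obtain ⟨ν, h2, h3⟩ := h.pass t (Nat.lt_succ_iff.1 h1)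
      exact ⟨ν.length, (di_pfx h2).1, by rw [(di_pfx h2).2]; exact h3⟩
    · have h2 := h.dep t _ (h0 k) h1
      exact ⟨h2.1, Nat.lt_succ_of_le h2.2⟩
    · exact h.link t _ _ (h0 k) (h0 k') h1 h2
    · refine h.prv t _ _ ?_ (h0 k') h1 h3
      exact List.take_prefix_take_left (Nat.lt_succ_iff.1 h2)
  · intro h
    have key : ∀ t ν, ν <+: σ → (endd o ν).1 = ul l ((endd o σ).1 + 1) t → di_RB P l σ t := by
      intro t ν h1 h2
      refine h t (di_cand_mem (di_pfx h1).1 ?_)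
      rw [(di_pfx h1).2]; exact h2
    refine ⟨fun t h1 => ?_, fun t ν h1 h2 => ?_, fun t ν ν' h1 h2 h3 h4 => ?_,
      fun t ν ν' h1 h2 h3 h4 => ?_⟩
    · by_cases h2 : t < l.length
      · have h3 : t ∈ di_cand l σ := List.mem_append.2 (Or.inl (List.mem_range.2 h2))
        obtain ⟨k, _, h5⟩ := (h t h3).1 (Nat.lt_succ_of_le h1)
        exact ⟨σ.take k, List.take_prefix _ _, h5⟩
      · unfold ul at h1
        rw [if_neg h2] at h1
        omega
    · have h3 := (key t ν h1 h2).2 ν.length (di_pfx h1).1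
      rw [(di_pfx h1).2] at h3
      exact ⟨(h3 h2).1.1, Nat.lt_succ_iff.1 (h3 h2).1.2⟩
    · have h5 := (key t ν h1 h3).2 ν.length (di_pfx h1).1
      rw [(di_pfx h1).2] at h5
      have h6 := ((h5 h3).2 ν'.length (di_pfx h2).1).1
      rw [(di_pfx h2).2] at h6
      exact h6 h4
    · have h5 := (key t ν (h1.trans h2) h3).2 ν.length (di_pfx (h1.trans h2)).1
      rw [(di_pfx (h1.trans h2)).2] at h5
      have h6 := ((h5 h3).2 ν'.length (di_pfx h2).1).2 (Nat.lt_succ_of_le h1.length_le)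
      rw [(di_pfx h2).2] at h6
      exact h6 h4

/-! ## Computability -/

theorem di_en_prim : Primrec (fun x : List ℕ × ℕ => di_en x.1 x.2) :=
  Codes.primrec_endd.comp (Primrec.pair (Primrec.const o)
    (Primrec.list_take.comp Primrec.snd Primrec.fst))

theorem di_end_prim : Primrec (fun σ : List ℕ => (endd o σ).1 + 1) :=
  Primrec.succ.comp (Primrec.fst.comp (Codes.primrec_endd.comp
    (Primrec.pair (Primrec.const o) Primrec.id)))

theorem di_ul_prim : Primrec (fun x : (List ℕ × List ℕ) × ℕ => di_ul x.1.1 x.1.2 x.2) := by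
  unfold di_ul ul
  refine Primrec.ite ?_ ?_ ?_
  · exact Primrec.nat_lt.comp Primrec.snd
      (Primrec.list_length.comp (Primrec.fst.comp Primrec.fst))
  · exact (Primrec.list_getD 0).comp (Primrec.fst.comp Primrec.fst) Primrec.snd
  · exact Primrec.nat_add.comp (di_end_prim.comp (Primrec.snd.comp Primrec.fst)) Primrec.snd

theorem di_cand_prim : Primrec (fun x : List ℕ × List ℕ => di_cand x.1 x.2) := by
  unfold di_cand
  refine Primrec.list_append.comp ?_ ?_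
  · exact Primrec.list_range.comp (Primrec.list_length.comp Primrec.fst)
  · refine Primrec.list_map (f := fun x : List ℕ × List ℕ => List.range (x.2.length + 1))
      (g := fun (x : List ℕ × List ℕ) (k : ℕ) => (di_en x.2 k).1 - ((endd o x.2).1 + 1)) ?_ ?_
    · exact Primrec.list_range.comp (Primrec.succ.comp (Primrec.list_length.comp Primrec.snd))
    · exact Primrec.nat_sub.comp
        (Primrec.fst.comp (di_en_prim.comp (Primrec.pair (Primrec.snd.comp Primrec.fst)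
          Primrec.snd)))
        (di_end_prim.comp (Primrec.snd.comp Primrec.fst))

attribute [local irreducible] di_ul di_en di_cand

theorem di_en_comp : Computable (fun x : List ℕ × ℕ => di_en x.1 x.2) := di_en_prim.to_comp

theorem di_ul_comp : Computable (fun x : (List ℕ × List ℕ) × ℕ => di_ul x.1.1 x.1.2 x.2) :=
  di_ul_prim.to_comp

/-- The part of the condition for two indices. -/
def di_RC (P : Par) (z : (((List ℕ × List ℕ) × ℕ) × ℕ) × ℕ) : Prop :=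
  ((di_en z.1.1.1.2 z.2).1 = di_ul z.1.1.1.1 z.1.1.1.2 (z.1.1.2 + 1) →
    Link P z.1.1.2 (di_en z.1.1.1.2 z.1.2) (di_en z.1.1.1.2 z.2)) ∧
  (z.1.2 < z.2 + 1 → (di_en z.1.1.1.2 z.2).1 < di_ul z.1.1.1.1 z.1.1.1.2 (z.1.1.2 + 1) →
    Lg (di_en z.1.1.1.2 z.1.2) (di_en z.1.1.1.2 z.2))

theorem di_rc_cop (P : Par) (h1 : DA1 P) :
    MP_8c048d_lc.Cop (fun (z : (((List ℕ × List ℕ) × ℕ) × ℕ) × ℕ) (_ : ℕ → ℕ) =>
      di_RC P z) := by
  have k1 : Computable (fun z : (((List ℕ × List ℕ) × ℕ) × ℕ) × ℕ =>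
      di_en z.1.1.1.2 z.1.2) :=
    di_en_comp.comp (g := fun z : (((List ℕ × List ℕ) × ℕ) × ℕ) × ℕ => (z.1.1.1.2, z.1.2))
      (Computable.pair (Computable.snd.comp (Computable.fst.comp
        (Computable.fst.comp Computable.fst))) (Computable.snd.comp Computable.fst))
  have k2 : Computable (fun z : (((List ℕ × List ℕ) × ℕ) × ℕ) × ℕ => di_en z.1.1.1.2 z.2) :=
    di_en_comp.comp (g := fun z : (((List ℕ × List ℕ) × ℕ) × ℕ) × ℕ => (z.1.1.1.2, z.2))
      (Computable.pair (Computable.snd.comp (Computable.fst.comp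
        (Computable.fst.comp Computable.fst))) Computable.snd)
  have k3 : Computable (fun z : (((List ℕ × List ℕ) × ℕ) × ℕ) × ℕ =>
      di_ul z.1.1.1.1 z.1.1.1.2 (z.1.1.2 + 1)) :=
    di_ul_comp.comp (g := fun z : (((List ℕ × List ℕ) × ℕ) × ℕ) × ℕ =>
      (z.1.1.1, z.1.1.2 + 1))
      (Computable.pair (Computable.fst.comp (Computable.fst.comp Computable.fst))
        (Computable.succ.comp (Computable.snd.comp (Computable.fst.comp Computable.fst))))
  have k4 : Computable (fun z : (((List ℕ × List ℕ) × ℕ) × ℕ) × ℕ => z.1.1.2) :=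
    Computable.snd.comp (Computable.fst.comp Computable.fst)
  have l1 : MP_8c048d_lc.Cop (fun (z : (((List ℕ × List ℕ) × ℕ) × ℕ) × ℕ) (_ : ℕ → ℕ) =>
      (di_en z.1.1.1.2 z.2).1 = di_ul z.1.1.1.1 z.1.1.1.2 (z.1.1.2 + 1)) :=
    Cop.eq (Computable.fst.comp k2) k3
  have l2 : MP_8c048d_lc.Cop (fun (z : (((List ℕ × List ℕ) × ℕ) × ℕ) × ℕ) (_ : ℕ → ℕ) =>
      Link P z.1.1.2 (di_en z.1.1.1.2 z.1.2) (di_en z.1.1.1.2 z.2)) :=
    (MP_8c048d_lc.Cop.of_computable h1.link).comp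
      (f := fun z : (((List ℕ × List ℕ) × ℕ) × ℕ) × ℕ =>
        (z.1.1.2, di_en z.1.1.1.2 z.1.2, di_en z.1.1.1.2 z.2)) (k4.pair (k1.pair k2))
  have l3 : MP_8c048d_lc.Cop (fun (z : (((List ℕ × List ℕ) × ℕ) × ℕ) × ℕ) (_ : ℕ → ℕ) =>
      z.1.2 < z.2 + 1) :=
    Cop.lt (Computable.snd.comp Computable.fst) (Computable.succ.comp Computable.snd)
  have l4 : MP_8c048d_lc.Cop (fun (z : (((List ℕ × List ℕ) × ℕ) × ℕ) × ℕ) (_ : ℕ → ℕ) =>
      (di_en z.1.1.1.2 z.2).1 < di_ul z.1.1.1.1 z.1.1.1.2 (z.1.1.2 + 1)) :=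
    Cop.lt (Computable.fst.comp k2) k3
  have l5 : MP_8c048d_lc.Cop (fun (z : (((List ℕ × List ℕ) × ℕ) × ℕ) × ℕ) (_ : ℕ → ℕ) =>
      Lg (di_en z.1.1.1.2 z.1.2) (di_en z.1.1.1.2 z.2)) :=
    (MP_8c048d_lc.Cop.of_computable h1.lg).comp
      (f := fun z : (((List ℕ × List ℕ) × ℕ) × ℕ) × ℕ =>
        (di_en z.1.1.1.2 z.1.2, di_en z.1.1.1.2 z.2)) (k1.pair k2)
  exact (l1.imp l2).and (l3.imp (l4.imp l5))

/-- The part of the condition for one index. -/
def di_RD (P : Par) (y : ((List ℕ × List ℕ) × ℕ) × ℕ) : Prop :=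
  (di_en y.1.1.2 y.2).1 = di_ul y.1.1.1 y.1.1.2 y.1.2 →
    ((0 < (di_en y.1.1.2 y.2).2.length ∧ (di_en y.1.1.2 y.2).2.length < blk P.p y.1.2 + 1) ∧
    ∀ k' ∈ List.range (y.1.1.2.length + 1), di_RC P (y, k'))

theorem di_rd_cop (P : Par) (h1 : DA1 P) (h2 : DA2 P) :
    MP_8c048d_lc.Cop (fun (y : ((List ℕ × List ℕ) × ℕ) × ℕ) (_ : ℕ → ℕ) => di_RD P y) := by
  have g1 : Computable (fun y : ((List ℕ × List ℕ) × ℕ) × ℕ => di_en y.1.1.2 y.2) :=
    di_en_comp.comp (g := fun y : ((List ℕ × List ℕ) × ℕ) × ℕ => (y.1.1.2, y.2))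
      (Computable.pair (Computable.snd.comp (Computable.fst.comp Computable.fst))
        Computable.snd)
  have g2 : Computable (fun y : ((List ℕ × List ℕ) × ℕ) × ℕ =>
      di_ul y.1.1.1 y.1.1.2 y.1.2) :=
    di_ul_comp.comp (g := fun y : ((List ℕ × List ℕ) × ℕ) × ℕ => y.1) Computable.fst
  have g3 : Computable (fun y : ((List ℕ × List ℕ) × ℕ) × ℕ => blk P.p y.1.2) :=
    h2.blk.comp (g := fun y : ((List ℕ × List ℕ) × ℕ) × ℕ => y.1.2)
      (Computable.snd.comp Computable.fst)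
  have g4 : Computable (fun y : ((List ℕ × List ℕ) × ℕ) × ℕ =>
      List.range (y.1.1.2.length + 1)) :=
    (Primrec.list_range.comp (Primrec.succ.comp (Primrec.list_length.comp
      (Primrec.snd.comp (Primrec.fst.comp Primrec.fst))))).to_comp
  have l1 : MP_8c048d_lc.Cop (fun (y : ((List ℕ × List ℕ) × ℕ) × ℕ) (_ : ℕ → ℕ) =>
      (di_en y.1.1.2 y.2).1 = di_ul y.1.1.1 y.1.1.2 y.1.2) :=
    Cop.eq (Computable.fst.comp g1) g2
  have l2 : MP_8c048d_lc.Cop (fun (y : ((List ℕ × List ℕ) × ℕ) × ℕ) (_ : ℕ → ℕ) =>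
      0 < (di_en y.1.1.2 y.2).2.length) :=
    Cop.lt (Computable.const 0) (Computable.list_length.comp (Computable.snd.comp g1))
  have l3 : MP_8c048d_lc.Cop (fun (y : ((List ℕ × List ℕ) × ℕ) × ℕ) (_ : ℕ → ℕ) =>
      (di_en y.1.1.2 y.2).2.length < blk P.p y.1.2 + 1) :=
    Cop.lt (Computable.list_length.comp (Computable.snd.comp g1)) (Computable.succ.comp g3)
  have l4 : MP_8c048d_lc.Cop (fun (y : ((List ℕ × List ℕ) × ℕ) × ℕ) (_ : ℕ → ℕ) =>
      ∀ k' ∈ List.range (y.1.1.2.length + 1), di_RC P (y, k')) :=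
    Cop.ballL (P := fun (y : ((List ℕ × List ℕ) × ℕ) × ℕ) (k' : ℕ) (_ : ℕ → ℕ) =>
      di_RC P (y, k')) (di_rc_cop P h1) g4
  exact l1.imp ((l2.and l3).and l4)

theorem di_reg_cop (P : Par) (h1 : DA1 P) (h2 : DA2 P) :
    MP_8c048d_lc.Cop (fun (x : List ℕ × List ℕ) (_ : ℕ → ℕ) =>
      Reg P (ul x.1 ((endd o x.2).1 + 1)) x.2) := by
  have c1 : Computable (fun x : (List ℕ × List ℕ) × ℕ => List.range (x.1.2.length + 1)) :=
    (Primrec.list_range.comp (Primrec.succ.comp (Primrec.list_length.comp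
      (Primrec.snd.comp Primrec.fst)))).to_comp
  have c2 : Computable (fun x : (List ℕ × List ℕ) × ℕ => (endd o x.1.2).1 + 1) :=
    (di_end_prim.comp (Primrec.snd.comp Primrec.fst)).to_comp
  have c3 : Computable (fun y : ((List ℕ × List ℕ) × ℕ) × ℕ => (di_en y.1.1.2 y.2).1) :=
    Computable.fst.comp
      (di_en_comp.comp (g := fun y : ((List ℕ × List ℕ) × ℕ) × ℕ => (y.1.1.2, y.2))
      (Computable.pair (Computable.snd.comp (Computable.fst.comp Computable.fst))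
        Computable.snd))
  have c4 : Computable (fun y : ((List ℕ × List ℕ) × ℕ) × ℕ =>
      di_ul y.1.1.1 y.1.1.2 y.1.2) :=
    di_ul_comp.comp (g := fun y : ((List ℕ × List ℕ) × ℕ) × ℕ => y.1) Computable.fst
  have l0 : MP_8c048d_lc.Cop (fun (x : (List ℕ × List ℕ) × ℕ) (_ : ℕ → ℕ) =>
      di_ul x.1.1 x.1.2 x.2 < (endd o x.1.2).1 + 1) := Cop.lt di_ul_comp c2
  have l1 : MP_8c048d_lc.Cop (fun (x : (List ℕ × List ℕ) × ℕ) (_ : ℕ → ℕ) =>
      ∃ k ∈ List.range (x.1.2.length + 1), (di_en x.1.2 k).1 = di_ul x.1.1 x.1.2 x.2) :=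
    Cop.bexL (P := fun (x : (List ℕ × List ℕ) × ℕ) (k : ℕ) (_ : ℕ → ℕ) =>
        (di_en x.1.2 k).1 = di_ul x.1.1 x.1.2 x.2) (Cop.eq c3 c4) c1
  have l2 : MP_8c048d_lc.Cop (fun (x : (List ℕ × List ℕ) × ℕ) (_ : ℕ → ℕ) =>
      ∀ k ∈ List.range (x.1.2.length + 1), di_RD P (x, k)) :=
    Cop.ballL (P := fun (x : (List ℕ × List ℕ) × ℕ) (k : ℕ) (_ : ℕ → ℕ) =>
        di_RD P (x, k)) (di_rd_cop P h1 h2) c1
  have l3 : MP_8c048d_lc.Cop (fun (x : List ℕ × List ℕ) (_ : ℕ → ℕ) =>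
      ∀ t ∈ di_cand x.1 x.2, (di_ul x.1 x.2 t < (endd o x.2).1 + 1 →
        ∃ k ∈ List.range (x.2.length + 1), (di_en x.2 k).1 = di_ul x.1 x.2 t) ∧
        ∀ k ∈ List.range (x.2.length + 1), di_RD P ((x, t), k)) :=
    Cop.ballL (P := fun (x : List ℕ × List ℕ) (t : ℕ) (_ : ℕ → ℕ) =>
      (di_ul x.1 x.2 t < (endd o x.2).1 + 1 →
        ∃ k ∈ List.range (x.2.length + 1), (di_en x.2 k).1 = di_ul x.1 x.2 t) ∧
        ∀ k ∈ List.range (x.2.length + 1), di_RD P ((x, t), k)) ((l0.imp l1).and l2)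
      di_cand_prim.to_comp
  exact l3.congr fun x F => (di_reg_iff P x.1 x.2).symm

attribute [local irreducible] dt rt zq blk JJ code0 ul Ends Leg

theorem di_pt_cop (P : Par) (h1 : DA1 P) (h2 : DA2 P) :
    MP_8c048d_lc.Cop (fun (x : Stg × Itm) (_ : ℕ → ℕ) =>
      JJ (blk P.p x.1.1) x.2.1 = true ∧
        CV (dt x.1 x.2.1).W (LT P x.2) x.2.2.2.2 ∧ (zq x.2.2.2.2).1 = rt x.1 x.2.1 ∧
        0 < (zq x.2.2.2.2).2.length ∧ At (zq x.2.2.2.2) x.2.2.2.2 ∧
        ∀ e ∈ x.2.2.2.2.2, Reg P (ul (dt x.1 x.2.1).2.1 ((endd o e.2.2).1 + 1)) e.2.2) := by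
  have ct : Computable (fun x : Stg × Itm => x.1.1) := Computable.fst.comp Computable.fst
  have cb : Computable (fun x : Stg × Itm => blk P.p x.1.1) :=
    h2.blk.comp (g := fun x : Stg × Itm => x.1.1) ct
  have ccol : Computable (fun x : Stg × Itm => x.2.1) := Computable.fst.comp Computable.snd
  have cc : Computable (fun x : Stg × Itm => x.2.2.2.2) :=
    Computable.snd.comp (Computable.snd.comp (Computable.snd.comp Computable.snd))
  have csc : Computable (fun x : Stg × Itm => (x.1, x.2.1)) := Computable.fst.pair ccol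
  have cdt : Computable (fun x : Stg × Itm => dt x.1 x.2.1) :=
    h1.dt.comp (g := fun x : Stg × Itm => (x.1, x.2.1)) csc
  have crt : Computable (fun x : Stg × Itm => rt x.1 x.2.1) :=
    h1.rt.comp (g := fun x : Stg × Itm => (x.1, x.2.1)) csc
  have czq : Computable (fun x : Stg × Itm => zq x.2.2.2.2) :=
    h1.zq.comp (g := fun x : Stg × Itm => x.2.2.2.2) cc
  have cjj : Computable (fun x : Stg × Itm => JJ (blk P.p x.1.1) x.2.1) :=
    h2.jj.comp (g := fun x : Stg × Itm => (blk P.p x.1.1, x.2.1)) (cb.pair ccol)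
  have l1 : MP_8c048d_lc.Cop (fun (x : Stg × Itm) (_ : ℕ → ℕ) =>
      JJ (blk P.p x.1.1) x.2.1 = true) := Cop.eq cjj (Computable.const true)
  have l2 : MP_8c048d_lc.Cop (fun (x : Stg × Itm) (_ : ℕ → ℕ) =>
      CV (dt x.1 x.2.1).W (LT P x.2) x.2.2.2.2) :=
    (MP_8c048d_lc.Cop.of_computable h1.cv).comp
      (f := fun x : Stg × Itm => (dt x.1 x.2.1, x.2, x.2.2.2.2))
      (cdt.pair (Computable.snd.pair cc))
  have l3 : MP_8c048d_lc.Cop (fun (x : Stg × Itm) (_ : ℕ → ℕ) =>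
      (zq x.2.2.2.2).1 = rt x.1 x.2.1) := Cop.eq (Computable.fst.comp czq) crt
  have l4 : MP_8c048d_lc.Cop (fun (x : Stg × Itm) (_ : ℕ → ℕ) =>
      0 < (zq x.2.2.2.2).2.length) :=
    Cop.lt (Computable.const 0) (Computable.list_length.comp (Computable.snd.comp czq))
  have l5 : MP_8c048d_lc.Cop (fun (x : Stg × Itm) (_ : ℕ → ℕ) =>
      At (zq x.2.2.2.2) x.2.2.2.2) :=
    (MP_8c048d_lc.Cop.of_computable h1.at').comp
      (f := fun x : Stg × Itm => (zq x.2.2.2.2, x.2.2.2.2)) (czq.pair cc)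
  have c6 : Computable (fun y : (Stg × Itm) × (List ℕ × List ℕ × List ℕ) =>
      ((dt y.1.1 y.1.2.1).2.1, y.2.2.2)) :=
    Computable.pair (Computable.fst.comp (Computable.snd.comp (cdt.comp Computable.fst)))
      (Computable.snd.comp (Computable.snd.comp Computable.snd))
  have l6 : MP_8c048d_lc.Cop (fun (y : (Stg × Itm) × (List ℕ × List ℕ × List ℕ))
      (_ : ℕ → ℕ) => Reg P (ul (dt y.1.1 y.1.2.1).2.1 ((endd o y.2.2.2).1 + 1)) y.2.2.2) :=
    (di_reg_cop P h1 h2).comp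
      (f := fun y : (Stg × Itm) × (List ℕ × List ℕ × List ℕ) =>
        ((dt y.1.1 y.1.2.1).2.1, y.2.2.2)) c6
  have l7 : MP_8c048d_lc.Cop (fun (x : Stg × Itm) (_ : ℕ → ℕ) => ∀ e ∈ x.2.2.2.2.2,
      Reg P (ul (dt x.1 x.2.1).2.1 ((endd o e.2.2).1 + 1)) e.2.2) :=
    Cop.ballL (P := fun (x : Stg × Itm) (e : List ℕ × List ℕ × List ℕ)
      (_ : ℕ → ℕ) => Reg P (ul (dt x.1 x.2.1).2.1 ((endd o e.2.2).1 + 1)) e.2.2) l6
      (Computable.snd.comp cc)
  exact l1.and (l2.and (l3.and (l4.and (l5.and l7))))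

theorem di_rest_cop (P : Par) (h1 : DA1 P) (h2 : DA2 P) :
    MP_8c048d_lc.Cop (fun (x : Stg × Itm) (_ : ℕ → ℕ) =>
      (2 < blk P.p x.1.1 ∧ Ends (blk P.p x.1.1) x.2.2.2.2.1 ∧ code0 x.2 < blk P.p x.1.1 + 1) ∧
      (Leg (HT P x.2) x.2.2.2.2.1 ∧ ¬ 0 ∈ x.2.2.2.1) ∧
      (P.p < x.2.1 + 1 → x.2.1 < P.p + P.q ∧ x.2.2.2.1 = [] ∧ x.2.2.2.2.2 = [])) := by
  have cb : Computable (fun x : Stg × Itm => blk P.p x.1.1) :=
    h2.blk.comp (g := fun x : Stg × Itm => x.1.1) (Computable.fst.comp Computable.fst)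
  have ccol : Computable (fun x : Stg × Itm => x.2.1) := Computable.fst.comp Computable.snd
  have cE : Computable (fun x : Stg × Itm => x.2.2.2.1) :=
    Computable.fst.comp (Computable.snd.comp (Computable.snd.comp Computable.snd))
  have cc : Computable (fun x : Stg × Itm => x.2.2.2.2) :=
    Computable.snd.comp (Computable.snd.comp (Computable.snd.comp Computable.snd))
  have cc1 : Computable (fun x : Stg × Itm => x.2.2.2.2.1) := Computable.fst.comp cc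
  have cc2 : Computable (fun x : Stg × Itm => x.2.2.2.2.2) := Computable.snd.comp cc
  have c0 : Computable (fun x : Stg × Itm => code0 x.2) :=
    h2.code0.comp (g := fun x : Stg × Itm => x.2) Computable.snd
  have l1 : MP_8c048d_lc.Cop (fun (x : Stg × Itm) (_ : ℕ → ℕ) => 2 < blk P.p x.1.1) :=
    Cop.lt (Computable.const 2) cb
  have l2 : MP_8c048d_lc.Cop (fun (x : Stg × Itm) (_ : ℕ → ℕ) =>
      Ends (blk P.p x.1.1) x.2.2.2.2.1) :=
    (MP_8c048d_lc.Cop.of_computable h2.ends).comp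
      (f := fun x : Stg × Itm => (blk P.p x.1.1, x.2.2.2.2.1)) (cb.pair cc1)
  have l3 : MP_8c048d_lc.Cop (fun (x : Stg × Itm) (_ : ℕ → ℕ) =>
      code0 x.2 < blk P.p x.1.1 + 1) := Cop.lt c0 (Computable.succ.comp cb)
  have l4 : MP_8c048d_lc.Cop (fun (x : Stg × Itm) (_ : ℕ → ℕ) =>
      Leg (HT P x.2) x.2.2.2.2.1) :=
    (MP_8c048d_lc.Cop.of_computable h2.leg).comp
      (f := fun x : Stg × Itm => (x.2, x.2.2.2.2.1)) (Computable.snd.pair cc1)
  have l5 : MP_8c048d_lc.Cop (fun (x : Stg × Itm) (_ : ℕ → ℕ) => ¬ 0 ∈ x.2.2.2.1) :=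
    (Cop.mem (Computable.const 0) cE).not
  have l6 : MP_8c048d_lc.Cop (fun (x : Stg × Itm) (_ : ℕ → ℕ) => P.p < x.2.1 + 1) :=
    Cop.lt (Computable.const P.p) (Computable.succ.comp ccol)
  have l7 : MP_8c048d_lc.Cop (fun (x : Stg × Itm) (_ : ℕ → ℕ) => x.2.1 < P.p + P.q) :=
    Cop.lt ccol (Computable.const (P.p + P.q))
  have l8 : MP_8c048d_lc.Cop (fun (x : Stg × Itm) (_ : ℕ → ℕ) => x.2.2.2.1 = []) :=
    Cop.eq cE (Computable.const [])
  have l9 : MP_8c048d_lc.Cop (fun (x : Stg × Itm) (_ : ℕ → ℕ) => x.2.2.2.2.2 = []) :=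
    Cop.eq cc2 (Computable.const [])
  exact (l1.and (l2.and l3)).and ((l4.and l5).and (l6.imp (l7.and (l8.and l9))))

theorem di_col_cop (P : Par) :
    MP_8c048d_lc.Cop (fun (x : Stg × Itm) (_ : ℕ → ℕ) => x.2.1 < P.p) :=
  Cop.lt (Computable.fst.comp Computable.snd) (Computable.const P.p)

theorem di_iff (P : Par) (a : Stg) (I : Itm) :
    ((I.1 < P.p → (JJ (blk P.p a.1) I.1 = true ∧
        CV (dt a I.1).W (LT P I) I.2.2.2 ∧ (zq I.2.2.2).1 = rt a I.1 ∧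
        0 < (zq I.2.2.2).2.length ∧ At (zq I.2.2.2) I.2.2.2 ∧
        ∀ e ∈ I.2.2.2.2, Reg P (ul (dt a I.1).2.1 ((endd o e.2.2).1 + 1)) e.2.2)) ∧
      ((2 < blk P.p a.1 ∧ Ends (blk P.p a.1) I.2.2.2.1 ∧ code0 I < blk P.p a.1 + 1) ∧
      (Leg (HT P I) I.2.2.2.1 ∧ ¬ 0 ∈ I.2.2.1) ∧
      (P.p < I.1 + 1 → I.1 < P.p + P.q ∧ I.2.2.1 = [] ∧ I.2.2.2.2 = []))) ↔
    ItmOk P a I := by
  constructor
  · rintro ⟨a6, ⟨a1, a2, a3⟩, ⟨a4, a5⟩, a7⟩
    exact ⟨a1, a2, Nat.lt_succ_iff.1 a3, a4, a5, a6, fun h => a7 (Nat.lt_succ_of_le h)⟩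
  · rintro ⟨a1, a2, a3, a4, a5, a6, a7⟩
    exact ⟨a6, ⟨a1, a2, Nat.lt_succ_of_le a3⟩, ⟨a4, a5⟩, fun h => a7 (Nat.lt_succ_iff.1 h)⟩

theorem diS : DiStatement := by
  intro P hP h1 h2
  refine Cop.toCP ((((di_col_cop P).imp (di_pt_cop P h1 h2)).and (di_rest_cop P h1 h2)).congr
    fun x F => ?_)
  exact di_iff P x.1 x.2

end Pool.Agent.Lib.MP_d48993_lc.Ba.Gr.Lm
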