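import Pool.Agent.Lib.MP_d48993_lc.BAE.Gr.Stm
import Pool.Agent.Lib.MP_d48993_lc.AE.Node.Codes
import Pool.Agent.Lib.MP_d48993_lc.AE.Node.Basic
import Pool.Agent.Lib.MP_d48993_lc.AE.Node.Mono
import Pool.Agent.Lib.MP_d48993_lc.AE.Node.Can
import Pool.Agent.Lib.MP_d48993_lc.AE.Node.Stagea

/-!
# Part G (MP_d48993): module ROOT (helper22)

Large roots, new public roots, the advice of the states of a public root.
-/

set_option autoImplicit false

namespace Pool.Agent.Lib.MP_d48993_lc.Ba.Gr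

open Pool.Agent.Lib.MP_d48993_lc.Node

namespace Rt

/-- The advice of the states of `L` is given by `al`. -/
theorem addMany (hM : MonoStatement) (al : St → List ℕ) : ∀ (L : List St) (δ : Data), Wf δ → LgD δ →
    L.Nodup → (∀ y ∈ L, Adm y ∧ Zero y ∧ y.1 ∈ δ.pub ∧ δ.W.adv y = none ∧
      VStr δ.W y (al y) (endd y (al y)) ∧ ∀ g ∈ al y, Lg y (tgt g) ∧ ∀ v v', HE g v v' → InCl δ.W y v') →
    ∃ γ : Data, Wf γ ∧ LgD γ ∧ DExt δ γ ∧ γ.pub = δ.pub ∧ γ.N = δ.N ∧ γ.prv = δ.prv ∧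
      (∀ r, γ.W.own r = δ.W.own r) ∧ (∀ y ∈ L, γ.W.adv y = some (al y)) ∧
      ∀ y, y ∉ L → γ.W.adv y = δ.W.adv y := by
  intro L
  induction L with
  | nil =>
    intro δ hw hl _ _
    exact ⟨δ, hw, hl, Stagea.dext_refl δ, rfl, rfl, rfl, fun _ => rfl, fun y hy => absurd hy List.not_mem_nil,
      fun _ _ => rfl⟩
  | cons y L ih =>
    intro δ hw hl hn h
    obtain ⟨h1, h2, h3, h4, h5, h6⟩ := h y List.mem_cons_self
    have hw1 : Wf (Stagea.addAdv δ y (al y)) :=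
      Stagea.wf_addAdv hM hw h4 h3 h2 h1 h5 fun g hg => (h6 g hg).2
    have he1 : DExt δ (Stagea.addAdv δ y (al y)) := Stagea.dext_addAdv h4 h3 h2
    have hl1 : LgD (Stagea.addAdv δ y (al y)) := by
      intro x α hx g hg
      by_cases hxy : x = y
      · rw [hxy, Stagea.addAdv_self h4] at hx
        rw [← Option.some.inj hx] at hg
        rw [hxy]
        exact (h6 g hg).1
      · rw [Stagea.addAdv_ne hxy] at hx
        exact hl x α hx g hg
    obtain ⟨hy, hn'⟩ := List.nodup_cons.1 hn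
    have hne : ∀ x ∈ L, x ≠ y := fun x hx hxy => hy (hxy ▸ hx)
    obtain ⟨γ, k1, k2, k3, k4, k5, k6, k7, k8, k9⟩ := ih (Stagea.addAdv δ y (al y)) hw1 hl1 hn' (by
      intro x hx
      obtain ⟨a1, a2, a3, a4, a5, a6⟩ := h x (List.mem_cons_of_mem _ hx)
      refine ⟨a1, a2, a3, ?_, Stagea.vstr_mono hM hw he1 a5, fun g hg => ⟨(a6 g hg).1, fun v v' hh => ?_⟩⟩
      · rw [Stagea.addAdv_ne (hne x hx)]
        exact a4
      · exact Stagea.inCl_congr δ.W (Stagea.addAdv δ y (al y)).W (fun _ => rfl) ((a6 g hg).2 v v' hh))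
    refine ⟨γ, k1, k2, hM.2.2.2.1 δ _ γ he1 hw hw1 k3, k4, k5, k6, fun r => k7 r, ?_, ?_⟩
    · intro x hx
      rcases List.mem_cons.1 hx with rfl | hx
      · rw [k9 x hy, Stagea.addAdv_self h4]
      · exact k8 x hx
    · intro x hx
      rw [k9 x (fun h' => hx (List.mem_cons_of_mem _ h')), Stagea.addAdv_ne (fun h' => hx (by rw [h']; exact List.mem_cons_self))]

/-- The advice of the states of a finite set. -/
theorem addSet (hM : MonoStatement) (al : St → List ℕ) (A : Set St) (hA : A.Finite) (δ : Data) (hw : Wf δ)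
    (hl : LgD δ) (h : ∀ y ∈ A, Adm y ∧ Zero y ∧ y.1 ∈ δ.pub ∧ δ.W.adv y = none ∧
      VStr δ.W y (al y) (endd y (al y)) ∧ ∀ g ∈ al y, Lg y (tgt g) ∧ ∀ v v', HE g v v' → InCl δ.W y v') :
    ∃ γ : Data, Wf γ ∧ LgD γ ∧ DExt δ γ ∧ γ.pub = δ.pub ∧ γ.N = δ.N ∧ γ.prv = δ.prv ∧
      (∀ r, γ.W.own r = δ.W.own r) ∧ (∀ y ∈ A, γ.W.adv y = some (al y)) ∧
      ∀ y, y ∉ A → γ.W.adv y = δ.W.adv y := by
  obtain ⟨γ, k1, k2, k3, k4, k5, k6, k7, k8, k9⟩ := addMany hM al hA.toFinset.toList δ hw hl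
    (Finset.nodup_toList _) (fun y hy => h y (hA.mem_toFinset.1 (Finset.mem_toList.1 hy)))
  exact ⟨γ, k1, k2, k3, k4, k5, k6, k7, fun y hy => k8 y (Finset.mem_toList.2 (hA.mem_toFinset.2 hy)),
    fun y hy => k9 y fun h' => hy (hA.mem_toFinset.1 (Finset.mem_toList.1 h'))⟩

/-- The advice after a new root. -/
theorem adv_addRoot {δ : Data} {u : ℕ} {z : St} {α : List ℕ} (hz : (Stagea.addRoot δ u).W.adv z = some α) :
    δ.W.adv z = some α ∨ α = [] := by
  rcases Stagea.adv_cases hz with ⟨-, h2⟩ | ⟨h1, -⟩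
  · left
    have h3 : (δ.advL.find? (fun p => decide (p.1 = z))).map Prod.snd = some α := h2
    change ((δ.advL.find? (fun p => decide (p.1 = z))).map Prod.snd).or _ = some α
    rw [h3]
    rfl
  · exact Or.inr h1

theorem lgD_addRoot {δ : Data} {u : ℕ} (hl : LgD δ) : LgD (Stagea.addRoot δ u) := by
  intro y α hy g hg
  rcases adv_addRoot hy with h | h
  · exact hl y α h g hg
  · rw [h] at hg
    exact absurd hg List.not_mem_nil

theorem none_addRoot {δ : Data} (hw : Wf δ) {u : ℕ} (hu : δ.N ≤ u) {y : St} (hy : y.1 = u) :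
    (Stagea.addRoot δ u).W.adv y = none := by
  refine Stagea.adv_none_of ?_ ?_
  · intro q hq hqy
    have := hw.adv q hq
    rw [hqy, hy] at this
    exact absurd this (not_lt.2 hu)
  · rw [hy]
    exact List.mem_append_right _ (List.mem_singleton.2 rfl)

theorem zero_len {y : St} (h : Zero y) : 0 < y.2.length := by
  obtain ⟨x, rfl⟩ := h
  show 0 < (x.2 ++ [0]).length
  rw [List.length_append, List.length_singleton]
  omega

theorem pub (hM : MonoStatement) : PubStatement := by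
  intro δ u D hG hu
  have hw0 := Stagea.wf_addRoot hM hG.wf hu
  have he0 := Stagea.dext_addRoot hu
  have hl0 := lgD_addRoot (u := u) hG.lg
  have hup : u ∈ (Stagea.addRoot δ u).pub := List.mem_append_right _ (List.mem_singleton.2 rfl)
  obtain ⟨γ, k1, k2, k3, k4, k5, k6, k7, k8, k9⟩ := addSet hM (fun _ => [])
    {y | (Adm y ∧ y.1 = u) ∧ Zero y ∧ D < y.2.length}
    ((Stagea.finite_adm u).subset fun y hy => hy.1) (Stagea.addRoot δ u) hw0 hl0 (by
      rintro y ⟨⟨h1, h2⟩, h3, -⟩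
      exact ⟨h1, h3, by rw [h2]; exact hup, none_addRoot hG.wf hu h2,
        ⟨rfl, fun s hs => absurd hs List.not_mem_nil⟩, fun s hs => absurd hs List.not_mem_nil⟩)
  have hold : ∀ y, Adm y → Zero y → y.1 ∈ δ.pub → γ.W.adv y ≠ none := by
    intro y h1 h2 h3 h4
    have h5 : y.1 ≠ u := by
      intro h6
      have := hG.wf.pub _ h3
      omega
    obtain ⟨α, hα⟩ := Option.isSome_iff_exists.1 (hG.full y h1 h2 h3)
    have h6 := (hM.2.2.1 δ _ hG.wf he0).adv _ _ hα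
    rw [k9 y (fun h7 => h5 h7.1.2), h6] at h4
    exact absurd h4 (by simp)
  refine ⟨γ, k1, k2, hM.2.2.2.1 δ _ γ he0 hG.wf hw0 k3, k4, k5, k6, fun r => k7 r, ?_, ?_⟩
  · intro y h1 h2 h3
    have h3' : y.1 ∈ δ.pub ++ [u] := by rw [k4] at h3; exact h3
    constructor
    · intro h4
      rcases List.mem_append.1 h3' with h5 | h5
      · exact absurd h4 (hold y h1 h2 h5)
      · rw [List.mem_singleton] at h5
        refine ⟨h5, ?_⟩
        by_contra h6
        rw [k8 y ⟨⟨h1, h5⟩, h2, not_le.1 h6⟩] at h4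
        exact absurd h4 (by simp)
    · rintro ⟨h5, h6⟩
      rw [k9 y (fun h7 => absurd h7.2.2 (not_lt.2 h6))]
      exact none_addRoot hG.wf hu h5
  · intro y h1 h2 h3 h4
    exact k8 y ⟨⟨h1, h3⟩, h2, h4⟩

theorem pub0 (hM : MonoStatement) : Pub0Statement := by
  intro δ u hG hu
  obtain ⟨γ, k1, k2, k3, k4, k5, k6, k7, k8, k9⟩ := pub hM δ u 0 hG hu
  refine ⟨γ, ⟨k1, ?_, k2⟩, k3, k4, k5, k6, fun y h1 h2 h3 => k9 y h1 h2 h3 (zero_len h2)⟩
  intro y h1 h2 h3
  rw [Option.isSome_iff_ne_none]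
  intro h4
  have := (k8 y h1 h2 h3).1 h4
  have := zero_len h2
  omega

theorem close (hM : MonoStatement) : CloseStatement := by
  intro γ u D al hw hl hu h1 h2
  classical
  obtain ⟨δ, k1, k2, k3, k4, k5, k6, k7, k8, k9⟩ := addSet hM (fun y => if y.2.length = D then al y else [])
    {y | (Adm y ∧ y.1 = u) ∧ Zero y ∧ y.2.length ≤ D}
    ((Stagea.finite_adm u).subset fun y hy => hy.1) γ hw hl (by
      rintro y ⟨⟨a1, a2⟩, a3, a4⟩
      have a5 : y.1 ∈ γ.pub := by rw [a2]; exact hu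
      refine ⟨a1, a3, a5, (h1 y a1 a3 a5).2 ⟨a2, a4⟩, ?_⟩
      by_cases a6 : y.2.length = D
      · rw [if_pos a6]
        exact h2 y a1 a3 a2 a6
      · rw [if_neg a6]
        exact ⟨⟨rfl, fun s hs => absurd hs List.not_mem_nil⟩, fun s hs => absurd hs List.not_mem_nil⟩)
  refine ⟨δ, ⟨k1, ?_, k2⟩, k3, k4, k5, k6, ?_, ?_⟩
  · intro y a1 a2 a3
    rw [k4] at a3
    by_cases a4 : y.1 = u ∧ y.2.length ≤ D
    · rw [k8 y ⟨⟨a1, a4.1⟩, a2, a4.2⟩]
      rfl
    · rw [k9 y (fun h => a4 ⟨h.1.2, h.2.2⟩), Option.isSome_iff_ne_none]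
      exact fun h => a4 ((h1 y a1 a2 a3).1 h)
  · intro y a1 a2 a3 a4
    rw [k8 y ⟨⟨a1, a3⟩, a2, a4.le⟩, if_pos a4]
  · intro y a1 a2 a3 a4
    rw [k8 y ⟨⟨a1, a3⟩, a2, a4.le⟩, if_neg a4.ne]

/-- Finitely many admissible states below a bound. -/
theorem finite_lt (N : ℕ) : {y : St | Adm y ∧ y.1 < N}.Finite := by
  have h1 : {y : St | Adm y ∧ y.1 < N} = ⋃ u ∈ Finset.range N, {y : St | Adm y ∧ y.1 = u} := by
    ext y
    simp only [Set.mem_ofPred_eq, Set.mem_iUnion, Finset.mem_range]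
    constructor
    · rintro ⟨a, b⟩
      exact ⟨y.1, b, a, rfl⟩
    · rintro ⟨u, a, b, c⟩
      exact ⟨b, by rw [c]; exact a⟩
  rw [h1]
  exact (Finset.range N).finite_toSet.biUnion fun u _ => Stagea.finite_adm u

theorem root (hC : CodesStatement) (hM : MonoStatement) : RootStatement := by
  intro δ hG b K w
  have hcan := Node.can hC hM
  obtain ⟨K₀, hK₀⟩ : ∃ K₀ : ℕ, ∀ x : St, Adm x → x.1 < δ.N → Can.Good δ x K₀ := by
    have h1 : ∀ x : St, ∃ K₁ : ℕ, Adm x → x.1 < δ.N → Can.Good δ x K₁ := by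
      intro x
      by_cases h : Adm x ∧ x.1 < δ.N
      · obtain ⟨K₁, h2⟩ := hcan δ hG.wf hG.full x h.1 h.2
        exact ⟨K₁, fun _ _ => h2⟩
      · exact ⟨0, fun a b => absurd ⟨a, b⟩ h⟩
    choose k hk using h1
    refine ⟨(finite_lt δ.N).toFinset.sup k, fun x a b => Can.good_mono (hk x a b) ?_⟩
    exact Finset.le_sup ((finite_lt δ.N).mem_toFinset.2 ⟨a, b⟩)
  refine ⟨Nat.pair (max (max K (K₀ + b + 2)) δ.N) (Nat.pair b w), ?_, ?_, ?_, ?_, ?_⟩
  · exact (le_max_right _ _).trans (Nat.left_le_pair _ _)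
  · unfold bk
    rw [Nat.unpair_pair, Nat.unpair_pair]
  · unfold wc
    rw [Nat.unpair_pair, Nat.unpair_pair]
  · unfold sz
    rw [Nat.unpair_pair]
    exact (le_max_left _ _).trans (le_max_left _ _)
  · intro δ' hw' he' hu' x y hx hxN hy hyu hyb
    have hsz : K₀ + b + 2 ≤ sz y.1 := by
      rw [hyu]
      unfold sz
      rw [Nat.unpair_pair]
      exact (le_max_right _ _).trans (le_max_left _ _)
    refine hK₀ x hx hxN δ' hw' he' y hy (by rw [hyu]; exact hu') ?_ ?_ (by omega)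
    · rw [hyu]
      exact (le_max_right _ _).trans (Nat.left_le_pair _ _)
    · unfold rk
      omega

end Rt

/-- Module ROOT. -/
theorem rootS : RootStatement := Rt.root codes (mono codes (basic codes))

theorem pubS : PubStatement := Rt.pub (mono codes (basic codes))

theorem pub0S : Pub0Statement := Rt.pub0 (mono codes (basic codes))

theorem closeS : CloseStatement := Rt.close (mono codes (basic codes))

end Pool.Agent.Lib.MP_d48993_lc.Ba.Gr
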