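import Pool.Agent.Lib.MP_d48993_lc.BAE.Gr.Task
import Pool.Agent.Lib.MP_d48993_lc.BAE.Gr.Adopt
import Pool.Agent.Lib.MP_d48993_lc.BAE.Gr.Ad

/-!
# Part G (MP_d48993), module TASK without hypotheses
-/

set_option autoImplicit false

namespace Pool.Agent.Lib.MP_d48993_lc.Ba.Gr

open Pool.Agent.Lib.MP_d48993_lc.Node

/-- Module TASK, without hypotheses. -/
theorem task_all : TaskStatement :=
  task (adopt codes (basic codes) (mono codes (basic codes)) adoptAG adoptBG)
    (skip codes (mono codes (basic codes)))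

end Pool.Agent.Lib.MP_d48993_lc.Ba.Gr
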