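import Pool.Agent.Lib.MP_d48993_lc.BAE.Gr.Lim
import Pool.Agent.Lib.MP_d48993_lc.BAE.Gr.LimDec
import Pool.Agent.Lib.MP_d48993_lc.BAE.Gr.LimDa1
import Pool.Agent.Lib.MP_d48993_lc.BAE.Gr.LimDa2
import Pool.Agent.Lib.MP_d48993_lc.BAE.Gr.Lex
import Pool.Agent.Lib.MP_d48993_lc.BAE.Gr.LPres
import Pool.Agent.Lib.MP_d48993_lc.BAE.Gr.LimCode
import Pool.Agent.Lib.MP_d48993_lc.BAE.Gr.LimEnd
import Pool.Agent.Lib.MP_d48993_lc.BAE.Gr.Step
import Pool.Agent.Lib.MP_d48993_lc.BAE.Gr.StepT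
import Pool.Agent.Lib.MP_d48993_lc.BAE.Gr.StepA
import Pool.Agent.Lib.MP_d48993_lc.BAE.Gr.Cont4b
import Pool.Agent.Lib.MP_d48993_lc.BAE.Gr.LimDi
import Pool.Agent.Lib.MP_d48993_lc.BAE.Gr.LimDm
import Pool.Agent.Lib.MP_d48993_lc.BAE.Gr.Root
import Pool.Agent.Lib.MP_d48993_lc.BAE.Gr.TaskAll
import Pool.Agent.Lib.MP_d48993_lc.AE.Node.LimcB
import Pool.Agent.Lib.MP_d48993_lc.AE.Node.Finv

/-!
# Part G (MP_d48993): the assembly
-/

set_option autoImplicit false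

namespace Pool.Agent.Lib.MP_d48993_lc.Ba.Gr

open Pool.Agent.Lib.MP_d48993_lc.Node

/-- The graphs exist. -/
theorem lim4_all : Lim4Statement :=
  Lm.lim4 limcB (Lm.decS codes Dec.da1 Lm.da2 Lm.diS Lm.dmS)
    (Lm.lex (step_of (stepA rootS pubS) task_all closeS (stepT rootS pub0S cont4')) Lm.code
      (finv codes (basic codes))) Lm.presS (Lm.lend Lm.code)

end Pool.Agent.Lib.MP_d48993_lc.Ba.Gr
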