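import Pool.Agent.Lib.MP_d48993_lc.BAE.Gr.CalcA

/-!
# Part G (MP_d48993), module GDEC: computability calculus (tuples, extensions)
-/

set_option autoImplicit false
set_option synthInstance.maxSize 2000
set_option linter.unusedSectionVars false

namespace Pool.Agent.Lib.MP_d48993_lc.Ba.Gr.Calc

open Pool.Agent.Lib.MP_d48993_lc.Node
open MP_8c048d_lc (pre join RecF Sig Clo Cop Del)
open Txt (ht st mC mN mR ltN okN Leg kd ar sg chn okR stp run runF Sta Lv)
open Node.Limit (cop_eq cop_le cop_lt cop_mem cop_prefix cop_ball cop_sub)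

variable {α β γ ι : Type} [Primcodable α] [Primcodable β] [Primcodable γ] [Primcodable ι]

attribute [local fun_prop] Computable Limit.cid Limit.cconst Limit.ccomp Limit.cfst Limit.csnd
  Limit.cpair

/-! ### Numbers -/

theorem prim_pow2 : Primrec (fun n : ℕ => 2 ^ n) := by
  have h : Primrec (fun n : ℕ => Nat.rec (motive := fun _ => ℕ) 1 (fun _ r => 2 * r) n) :=
    Primrec.nat_rec' Primrec.id (Primrec.const 1)
      (Primrec.nat_mul.comp (Primrec.const 2) (Primrec.snd.comp Primrec.snd)).to₂
  refine h.of_eq fun n => ?_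
  induction n with
  | zero => rfl
  | succ n ih => rw [pow_succ, mul_comm, ← ih]

theorem prim_testBit : Primrec₂ (fun m n : ℕ => m.testBit n) := by
  have h : Primrec (fun p : ℕ × ℕ => decide (p.1 / 2 ^ p.2 % 2 = 1)) :=
    (Primrec.eq.comp (Primrec.nat_mod.comp (Primrec.nat_div.comp Primrec.fst
      (prim_pow2.comp Primrec.snd)) (Primrec.const 2)) (Primrec.const 1)).decide
  exact h.of_eq fun p => (Nat.testBit_eq_decide_div_mod_eq).symm

theorem comp_JJ : Computable (fun x : ℕ × ℕ => JJ x.1 x.2) := by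
  have h1 : Primrec (fun x : ℕ × ℕ => x.1.unpair.1) :=
    Primrec.fst.comp (Primrec.unpair.comp Primrec.fst)
  have h2 : Primrec (fun x : ℕ × ℕ => (x.1.unpair.1).testBit x.2) :=
    prim_testBit.comp h1 Primrec.snd
  unfold JJ
  exact h2.to_comp

theorem comp_JJ' {n s : α → ℕ} (hn : Computable n) (hs : Computable s) :
    Computable (fun a => JJ (n a) (s a)) :=
  Computable.comp (f := fun x : ℕ × ℕ => JJ x.1 x.2) (g := fun a => (n a, s a)) comp_JJ
    (hn.pair hs)

variable (P : Par)

theorem comp_Prs {H c : α → ℕ} (hH : Computable H) (hc : Computable c) :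
    Computable (fun a => Prs P (H a) (c a)) := by
  have h : Primrec (fun x : ℕ × ℕ => Prs P x.1 x.2) := by
    unfold Prs
    exact Primrec.or.comp (Primrec.nat_lt.comp Primrec.snd (Primrec.const _)).decide
      (Primrec.and.comp (Primrec.nat_lt.comp Primrec.snd (Primrec.const _)).decide
        (prim_testBit.comp Primrec.fst (Primrec.nat_sub.comp Primrec.snd (Primrec.const _))))
  exact Computable.comp (f := fun x : ℕ × ℕ => Prs P x.1 x.2) (g := fun a => (H a, c a))
    h.to_comp (hH.pair hc)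

theorem comp_Tx {J : α → ℕ → Bool} (hJ : Computable (fun x : α × ℕ => J x.1 x.2))
    {H c : α → ℕ} (hH : Computable H) (hc : Computable c) :
    Computable (fun a => Tx P (J a) (H a) (c a)) := by
  unfold Tx
  refine Primrec.and.to_comp.comp (comp_Prs P hH hc) (Primrec.or.to_comp.comp ?_ ?_)
  · exact ((Primrec.nat_le.comp (Primrec.const P.p) Primrec.id).decide.to_comp).comp hc
  · exact hJ.comp (f := fun x : α × ℕ => J x.1 x.2) (g := fun a => (a, c a)) (by fun_prop)

theorem Tx_lt {J : ℕ → Bool} {H c : ℕ} (h : Tx P J H c = true) : c < P.p + P.q := by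
  unfold Tx Prs at h
  rw [Bool.and_eq_true, Bool.or_eq_true, Bool.and_eq_true] at h
  rcases h.1 with h1 | h1
  · have := of_decide_eq_true h1
    omega
  · exact of_decide_eq_true h1.1

/-! ### Tuples -/

theorem comp_tup {J : α → ℕ → Bool} (hJ : Computable (fun x : α × ℕ => J x.1 x.2))
    {H : α → ℕ} (hH : Computable H) {σ : α → ℕ → List ℕ}
    (hσ : Computable (fun x : α × ℕ => σ x.1 x.2)) {k : α → ℕ → Cnd3}
    (hk : Computable (fun x : α × ℕ => k x.1 x.2)) :
    Computable (fun a => tup P (J a) (H a) (σ a) (k a)) := by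
  unfold tup
  refine comp_map (f := fun a c => if Tx P (J a) (H a) c then (k a c).1 else σ a c) ?_
    (Computable.const _)
  have h1 : Computable (fun x : α × ℕ => Tx P (J x.1) (H x.1) x.2) := by
    refine comp_Tx P (J := fun x : α × ℕ => J x.1) ?_ (hH.comp Computable.fst) Computable.snd
    exact hJ.comp (f := fun x : α × ℕ => J x.1 x.2)
      (g := fun x : (α × ℕ) × ℕ => (x.1.1, x.2)) (by fun_prop)
  refine (Computable.cond h1 (Computable.fst.comp hk) hσ).of_eq fun x => ?_
  cases Tx P (J x.1) (H x.1) x.2 <;> rfl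

theorem comp_tlen {H : α → ℕ} (hH : Computable H) {τ : α → List (List ℕ)} (hτ : Computable τ) :
    Computable (fun a => tlen P (H a) (τ a)) := by
  unfold tlen
  refine comp_foldr (f := fun _ b a => min b a) ?_ ?_ ?_
  · exact (Primrec.nat_min.to_comp).comp (Computable.fst.comp Computable.snd)
      (Computable.snd.comp Computable.snd)
  · exact comp_len (comp_getD hτ (Computable.const 0) [])
  · refine comp_map (f := fun a c => ((τ a).getD c []).length) ?_ ?_
    · exact comp_len (comp_getD (hτ.comp Computable.fst) Computable.snd [])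
    · refine comp_filter (f := fun a c => Prs P (H a) c) ?_ (Computable.const _)
      exact comp_Prs P (hH.comp Computable.fst) Computable.snd

theorem comp_fj {H : α → ℕ} (hH : Computable H) {τ : α → List (List ℕ)} (hτ : Computable τ) :
    Computable (fun a => fj P (H a) (τ a)) := by
  unfold fj
  refine comp_map (f := fun a n => if Prs P (H a) (n % (P.p + P.q)) then
      ((τ a).getD (n % (P.p + P.q)) []).getD (n / (P.p + P.q)) 0 else 0) ?_ ?_
  · have e1 : Computable (fun x : α × ℕ => x.2 % (P.p + P.q)) :=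
      ((Primrec.nat_mod.comp Primrec.snd (Primrec.const _)) :
        Primrec (fun x : α × ℕ => x.2 % (P.p + P.q))).to_comp
    have e2 : Computable (fun x : α × ℕ => x.2 / (P.p + P.q)) :=
      ((Primrec.nat_div.comp Primrec.snd (Primrec.const _)) :
        Primrec (fun x : α × ℕ => x.2 / (P.p + P.q))).to_comp
    refine (Computable.cond (comp_Prs P (hH.comp Computable.fst) e1)
      (comp_getD (comp_getD (hτ.comp Computable.fst) e1 []) e2 0)
      (Computable.const 0)).of_eq fun x => ?_
    cases Prs P (H x.1) (x.2 % (P.p + P.q)) <;> rfl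
  · exact Primrec.list_range.to_comp.comp ((Primrec.nat_mul.to_comp).comp (Computable.const _)
      (comp_tlen P hH hτ))

theorem comp_ev (hΦ : Computable₂ P.Φ) {i : α → ℕ} (hi : Computable i) {H : α → ℕ}
    (hH : Computable H) {τ : α → List (List ℕ)} (hτ : Computable τ) :
    Computable (fun a => ev P (i a) (H a) (τ a)) := hΦ.comp hi (comp_fj P hH hτ)

variable {P}

theorem comp_app {f g : α → List β} (hf : Computable f) (hg : Computable g) :
    Computable (fun a => f a ++ g a) := Computable.list_append.comp hf hg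

/-! ### Items -/

theorem cop_TB (hP : P.Ok) {f : α → List ℕ} (hf : Computable f) :
    Cop (fun a (_ : ℕ → ℕ) => P.TB (f a)) := (Cop.of_computable hP.tbc).comp hf

theorem cop_bounded {Q : α → ℕ → (ℕ → ℕ) → Prop} (n : ℕ)
    (h : Cop (fun (p : α × ℕ) F => Q p.1 p.2 F)) : Cop (fun a F => ∀ s < n, Q a s F) :=
  (Cop.ballL (P := Q) h (l := fun _ => List.range n) (Computable.const _)).congr fun a F => by
    simp only [List.mem_range]

theorem clo_bounded {Q : α → ℕ → (ℕ → ℕ) → Prop} (n : ℕ)
    (h : Clo (fun (p : α × ℕ) F => Q p.1 p.2 F)) : Clo (fun a F => ∀ s < n, Q a s F) := by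
  have h1 : Clo (fun (p : α × ℕ) F => p.2 < n → Q p.1 p.2 F) :=
    Clo.imp (cop_lt Computable.snd (Computable.const n)) h
  exact Clo.all (P := fun a s F => s < n → Q a s F) h1

/-- The relation AExt is decidable, for uniformly computable arguments. -/
theorem cop_aext (hv : DecvStatement) (hc : DeccStatement) (hcd : CodesStatement) (hP : P.Ok)
    {J : α → ℕ → Bool} (hJ : Computable (fun x : α × ℕ => J x.1 x.2))
    {H off : α → ℕ} (hH : Computable H) (hoff : Computable off)
    {g : α → ℕ → Data} (hg : Computable (fun x : α × ℕ => g x.1 x.2))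
    {y : α → ℕ → St} (hy : Computable (fun x : α × ℕ => y x.1 x.2))
    {al : α → ℕ → List ℕ} (hal : Computable (fun x : α × ℕ => al x.1 x.2))
    {it : α → ℕ → Itm} (hit : Computable (fun x : α × ℕ => it x.1 x.2))
    {bs cv : α → ℕ → Cnd3} (hbs : Computable (fun x : α × ℕ => bs x.1 x.2))
    (hcv : Computable (fun x : α × ℕ => cv x.1 x.2))
    {g' : α → ℕ → Data} (hg' : Computable (fun x : α × ℕ => g' x.1 x.2))
    {nu : α → ℕ → List ℕ} (hnu : Computable (fun x : α × ℕ => nu x.1 x.2))
    {k : α → ℕ → Cnd3} (hk : Computable (fun x : α × ℕ => k x.1 x.2)) :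
    Cop (fun a (_ : ℕ → ℕ) => AExt P (J a) (H a) (off a) (g a) (y a) (al a) (it a) (bs a) (cv a)
      (g' a) (nu a) (k a)) := by
  have h1 : Cop (fun a (_ : ℕ → ℕ) => ∀ s < P.p, GD (g' a s) ∧ DExt (g a s) (g' a s)) :=
    cop_bounded (Q := fun a s _ => GD (g' a s) ∧ DExt (g a s) (g' a s)) P.p
      ((cop_gd hv hcd hg').and (cop_dext hv hg hg'))
  have hen : Computable (fun x : α × ℕ => endd (y x.1 x.2) (al x.1 x.2)) :=
    comp_endd hcd hy hal
  have h2 : Cop (fun a (_ : ℕ → ℕ) => ∀ s < P.p, J a s = false →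
      VStr (g' a s).W (endd (y a s) (al a s)) (nu a s)
        (endd (endd (y a s) (al a s)) (nu a s)) ∧ ∀ g ∈ nu a s, Lg (y a s) (tgt g)) :=
    cop_bounded (Q := fun a s _ => J a s = false →
      VStr (g' a s).W (endd (y a s) (al a s)) (nu a s)
        (endd (endd (y a s) (al a s)) (nu a s)) ∧ ∀ g ∈ nu a s, Lg (y a s) (tgt g)) P.p
      (Cop.imp (cop_eq hJ (Computable.const false))
        ((cop_vstr' hv hcd hg' hen hnu (comp_endd hcd hen hnu)).and (cop_all_lg hcd hy hnu)))
  have hE : Computable (fun x : α × ℕ => (it x.1 x.2).E) :=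
    Limit.cfst (Limit.csnd (Limit.csnd hit))
  have hhd : Computable (fun x : α × ℕ => (it x.1 x.2).hd) :=
    Limit.cfst (Limit.csnd hit)
  have h3 : Cop (fun a (_ : ℕ → ℕ) => ∀ s < P.p, J a s = true →
      CV (g' a s).W (LT P (it a s)) (k a s) ∧ CLe (LT P (it a s)) (cv a s) (k a s) ∧
        LgC (bs a s) (k a s)) :=
    cop_bounded (Q := fun a s _ => J a s = true →
      CV (g' a s).W (LT P (it a s)) (k a s) ∧ CLe (LT P (it a s)) (cv a s) (k a s) ∧
        LgC (bs a s) (k a s)) P.p
      (Cop.imp (cop_eq hJ (Computable.const true)) ((cop_cv' hc hP.trc hg' hE hk).and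
        ((cop_cle' hc hP.trc hE hcv hk).and (cop_lgc hcd hbs hk))))
  have hTx : Computable (fun x : α × ℕ => Tx P (J x.1) (H x.1) x.2) := by
    refine comp_Tx P (J := fun x : α × ℕ => J x.1) ?_ (hH.comp Computable.fst) Computable.snd
    exact hJ.comp (f := fun x : α × ℕ => J x.1 x.2)
      (g := fun x : (α × ℕ) × ℕ => (x.1.1, x.2)) (by fun_prop)
  have h4 : Cop (fun a (_ : ℕ → ℕ) => ∀ c < P.p + P.q, Tx P (J a) (H a) c = true →
      Txt.Le (HT P (it a c)) (ht (HT P (it a c)) (cv a c).1 + off a) (cv a c).1 (k a c).1) :=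
    cop_bounded (Q := fun a c _ => Tx P (J a) (H a) c = true →
      Txt.Le (HT P (it a c)) (ht (HT P (it a c)) (cv a c).1 + off a) (cv a c).1 (k a c).1)
      (P.p + P.q) (Cop.imp (cop_eq hTx (Computable.const true))
        (cop_le' (T := P.Hd) hP.hdc hhd (comp_add (comp_ht (T := P.Hd) hP.hdc hhd
          (Limit.cfst hcv)) (hoff.comp Computable.fst)) (Limit.cfst hcv) (Limit.cfst hk)))
  refine (h1.and (h2.and (h3.and h4))).congr fun a _ => ?_
  constructor
  · rintro ⟨e1, e2, e3, e4⟩
    exact ⟨e1, e2, e3, fun c hc => e4 c (Tx_lt P hc) hc⟩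
  · rintro ⟨e1, e2, e3, e4⟩
    exact ⟨e1, e2, e3, fun c _ hc => e4 c hc⟩

/-- Refuted edges. -/
theorem cop_bad (hcd : CodesStatement) (hed : Cop (fun (x : Data × St × St) (_ : ℕ → ℕ) =>
    x.1.W.edge x.2.1 x.2.2)) {f : α → Data} (hf : Computable f) {l : α → List ℕ}
    (hl : Computable l) : Cop (fun a (_ : ℕ → ℕ) => Bad (f a) (l a)) := by
  unfold Bad
  refine Cop.bexL (P := fun (a : α) (v : ℕ) (_ : ℕ → ℕ) =>
    (tgt v).1 < (f a).N ∧ ¬ (f a).W.edge (src v) (tgt v)) (Cop.and ?_ (Cop.not ?_)) hl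
  · exact cop_lt (Limit.cfst (comp_tgt hcd Computable.snd)) (Limit.cfst (hf.comp Computable.fst))
  · exact hed.comp (f := fun q : α × ℕ => (f q.1, src q.2, tgt q.2))
      ((hf.comp Computable.fst).pair ((comp_src hcd Computable.snd).pair
        (comp_tgt hcd Computable.snd)))

end Pool.Agent.Lib.MP_d48993_lc.Ba.Gr.Calc
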