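import Pool.Agent.Lib.MP_d48993_lc.BAE.Gr.RegM
import Pool.Agent.Lib.MP_d48993_lc.Red

/-!
# Module UPH: canonical members whose levels are not bounded (Baire space)

The concatenation of the canonical symbols which `G.h` codes is a member.
-/

set_option autoImplicit false

namespace Pool.Agent.Lib.MP_d48993_lc.Ba.Gr

open Pool.Agent.Lib.MP_d48993_lc.Node
open MP_8c048d_lc (pre join RecF)
open Pool.Agent.Lib.MP_d48993_lc.Node.Proc (endd_nil endd_append endd_snoc ch_append ch_pfx vstr_pfx)

namespace Uph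

section

variable {P : Par} {G : Gph} {s : ℕ}

/-- The first public state. -/
theorem start (h : Lim4 P G) (hs : s < P.p) :
    ∃ g, RL P G s [g] ∧ tgt g = (G.u 0 s, [0]) := by
  have hB : BasicStatement := basic codes
  have hM : MonoStatement := mono codes hB
  have hu := h.rts hs
  have hpos : 0 < G.u 0 s := hu.pos
  have hz := (h.root 0 s hs).2.2.2.2.2
  have hy : Adm ((G.u 0 s, [0]) : St) := by
    refine ⟨?_, ?_⟩
    · show 1 ≤ sz (G.u 0 s)
      omega
    · intro b hb
      have : b = 0 := by simpa using hb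
      rw [this]
      show 0 < sz (G.u 0 s)
      omega
  obtain ⟨g, g1, g2, g3, -⟩ := LimF.can_end hB hM h hs (t := 0) (RegM.les_nil (G := G) (s := s))
    hpos hy rfl (by show 1 ≤ _; omega)
  have hL : LEs G s [g] := RegM.les_snoc h hs RegM.les_nil g1 g2
  have he : endd o [g] = (G.u 0 s, [0]) := g3
  have hp : ∀ t ν, ν <+: [g] → (endd o ν).1 = G.u t s → t = 0 ∧ ν = [g] := by
    intro t ν p1 p2
    have hle : G.u 0 s ≤ G.u t s := hu.mono.monotone (Nat.zero_le t)
    rcases List.prefix_concat_iff.1 (show ν <+: [] ++ [g] from p1) with p3 | p3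
    · have p3' : ν = [g] := p3
      rw [p3', he] at p2
      exact ⟨(hu.inj (show (fun t => G.u t s) 0 = (fun t => G.u t s) t from p2)).symm, p3'⟩
    · rw [List.prefix_nil.1 p3] at p2
      have : (endd o ([] : List ℕ)).1 = 0 := rfl
      omega
  refine ⟨g, ⟨hL, ⟨fun t ht => ?_, fun t ν p1 p2 => ?_, fun t ν ν' p1 p2 p3 p4 => ?_,
    fun t ν ν' p1 p2 p3 p4 => ?_⟩⟩, he⟩
  · rw [he] at ht
    have ht' : t = 0 := by
      have := hu.mono.le_iff_le.1 (show (fun t => G.u t s) t ≤ (fun t => G.u t s) 0 from ht)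
      omega
    rw [ht']
    exact ⟨[g], List.prefix_refl _, by rw [he]⟩
  · obtain ⟨-, rfl⟩ := hp t ν p1 p2
    rw [he]
    have := two_le_blk P.p t
    exact ⟨le_rfl, show 1 ≤ _ by omega⟩
  · obtain ⟨h4, -⟩ := hp (t + 1) ν' p2 p4
    omega
  · obtain ⟨-, h4⟩ := hp t ν (p1.trans p2) p3
    rw [h4] at p1 ⊢
    rw [p2.eq_of_length (le_antisymm p2.length_le p1.length_le)]
    exact Lg.refl _

/-- The canonical member: first symbol `g₀`, then the symbols coded by `h`. -/
def can (g₀ : ℕ) (h : ℕ → ℕ) (s : ℕ) : ℕ → ℕ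
  | 0 => g₀
  | k + 1 => (str (h k)).getD s 0

theorem can_red (g₀ : ℕ) (h : ℕ → ℕ) (s : ℕ) : Red (can g₀ h s) h := by
  have hc : Computable (fun x : ℕ × List ℕ =>
      (if x.1 = 0 then some g₀ else (x.2[x.1 - 1]?).map (fun a => (str a).getD s 0) : Option ℕ)) := by
    have hp : Primrec (fun x : ℕ × List ℕ =>
      (if x.1 = 0 then some g₀ else (x.2[x.1 - 1]?).map (fun a => (str a).getD s 0) : Option ℕ)) := by
      refine Primrec.ite (Primrec.eq.comp Primrec.fst (Primrec.const 0)) (Primrec.const _) ?_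
      refine Primrec.option_map (Primrec.list_getElem?.comp Primrec.snd
        (Primrec.pred.comp Primrec.fst)) ?_
      have hs : Primrec (fun a : ℕ => str a) := by
        have := Primrec.ofNat (List ℕ)
        exact this
      exact ((Primrec.list_getD 0).comp (hs.comp Primrec.snd) (Primrec.const s)).to₂
    exact hp.to_comp
  refine red_core (q := fun x => if x.1 = 0 then some g₀ else
    (x.2[x.1 - 1]?).map (fun a => (str a).getD s 0)) hc ?_ ?_
  · intro n k b hb
    rcases n with _ | n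
    · simpa [can] using hb.symm
    · simp only [Nat.succ_ne_zero, if_false, Nat.succ_sub_one, Option.map_eq_some_iff] at hb
      obtain ⟨a, ha, rfl⟩ := hb
      have : a = h n := by
        have h1 : (pre h k)[n]? = some a := ha
        rw [List.getElem?_eq_some_iff] at h1
        obtain ⟨h2, h3⟩ := h1
        simp [pre] at h3
        exact h3.symm
      rw [this]
      rfl
  · intro n
    rcases n with _ | n
    · exact ⟨0, g₀, by simp⟩
    · refine ⟨n + 1, (str (h n)).getD s 0, ?_⟩
      have h1 : (pre h (n + 1))[n]? = some (h n) := by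
        simp [pre]
      simp [h1]

theorem pre_succ (f : ℕ → ℕ) (k : ℕ) : pre f (k + 1) = pre f k ++ [f k] := by
  simp [pre, List.range_succ]

end

/-- Module UPH: the canonical always rising members are computable from `h`. -/
theorem uph {P : Par} {G : Gph} (hL : Lim4 P G) (h : ℕ → ℕ)
    (chs : ∀ t, ∀ s < P.p, VS (G.d (t + 2) s).W ((str (h t)).getD s 0) ∧
      src ((str (h t)).getD s 0) = (G.u t s, [0]) ∧
      tgt ((str (h t)).getD s 0) = (G.u (t + 1) s, [0]) ∧ Ex ((str (h t)).getD s 0) = []) :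
    ∀ s < P.p, ∃ O ∈ Mem P G s, Red O h ∧ ∀ k, endd o (pre O (k + 1)) = (G.u k s, [0]) := by
  intro s hs
  obtain ⟨g₀, h1, h2⟩ := start hL hs
  have hu := hL.rts hs
  have key : ∀ k, RL P G s (pre (can g₀ h s) (k + 1)) ∧
      endd o (pre (can g₀ h s) (k + 1)) = (G.u k s, [0]) := by
    intro k
    induction k with
    | zero => exact ⟨h1, h2⟩
    | succ k ih =>
      obtain ⟨i1, i2⟩ := ih
      obtain ⟨c1, c2, c3, -⟩ := chs k s hs
      have e1 : pre (can g₀ h s) (k + 1 + 1) = pre (can g₀ h s) (k + 1) ++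
          [(str (h k)).getD s 0] := pre_succ _ _
      rw [e1]
      have hl := RegM.les_snoc hL hs i1.1 ⟨k + 2, c1⟩ (by rw [i2, c2])
      refine ⟨⟨hl, ?_⟩, by rw [endd_snoc, c3]⟩
      refine i1.2.snoc_pub hu (RegM.rup hl) (List.prefix_refl _) (t := k) (by rw [i2])
        (by rw [c3]) ?_
      rw [i2, c3]
      have hb := two_le_blk P.p k
      have hb' := blk_le_succ P.p k
      refine ⟨le_rfl, show 1 ≤ _ by omega, le_rfl, show 1 ≤ _ by omega, fun _ => ⟨rfl, rfl⟩,
        fun hne => Or.inl ?_⟩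
      have b1 : bk (G.u k s) = blk P.p k := hu.bk k
      have b2 : bk (G.u (k + 1) s) = blk P.p (k + 1) := hu.bk (k + 1)
      show bk (G.u k s) + 1 < bk (G.u (k + 1) s) + 1
      omega
  refine ⟨can g₀ h s, fun k => ?_, can_red g₀ h s, fun k => (key k).2⟩
  rcases k with _ | k
  · exact RegM.rl_pfx (key 0).1 (by simp [pre])
  · exact (key k).1

/-- Module UPH: the canonical member. -/
theorem main {P : Par} {G : Gph} (hL : Lim4 P G) {s : ℕ} (hs : s < P.p) :
    ∃ O ∈ Mem P G s, Red O G.h ∧ Unb P G s O := by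
  obtain ⟨O, h1, h2, h3⟩ := uph hL G.h hL.chs s hs
  have hu := hL.rts hs
  refine ⟨O, h1, h2, fun b => ⟨fst P.p (b + 2), fun t ht k hk => ?_⟩⟩
  have hb := lt_blk P.p (n := b + 2) ht (by omega)
  rcases k with _ | k
  · have h4 : (endd o (pre O 0)).1 = 0 := rfl
    rw [h4] at hk
    have h5 : G.u 0 s ≤ G.u t s := hu.mono.monotone (Nat.zero_le t)
    have h6 : 0 < G.u 0 s := hu.pos
    omega
  · rw [h3 k]
    show b + 1 ≤ _
    omega

end Uph

end Pool.Agent.Lib.MP_d48993_lc.Ba.Gr
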