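import Pool.Agent.Lib.MP_d48993_lc.BAE.Gr.ClsA
import Pool.Agent.Lib.MP_d48993_lc.BAE.Gr.ClsB
import Pool.Agent.Lib.MP_d48993_lc.BAE.Gr.Uph

/-!
# Part G (MP_d48993): module CLS (helper39, helper43, helper34)
-/

set_option autoImplicit false

namespace Pool.Agent.Lib.MP_d48993_lc.Ba.Gr

/-- Module CLS. -/
theorem cls : ClsStatement := fun P hP G h s hs =>
  ⟨clsA P hP G h s hs, clsL6 hP h hs, clsL7 h hs, Uph.main h hs⟩

end Pool.Agent.Lib.MP_d48993_lc.Ba.Gr
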