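import Pool.Agent.Lib.MP_d48993_lc.BAE.Gr.Blk
import Pool.Agent.Lib.MP_d48993_lc.AE.Node.ProcBase

/-!
# Part G, module GLG (helper40), second part: the level preorder, links, regular strings
-/

set_option autoImplicit false

namespace Pool.Agent.Lib.MP_d48993_lc.Ba.Gr

open Pool.Agent.Lib.MP_d48993_lc.Node
open Pool.Agent.Lib.MP_d48993_lc.Node.Proc (endd_nil endd_append endd_snoc ch_append ch_pfx vstr_pfx)

/-! ## The level preorder -/

theorem Lg.refl (x : St) : Lg x x := Or.inr ⟨rfl, rfl⟩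

theorem Rise.trans {x v w : St} (h : Rise x v) (h' : Rise v w) : Rise x w := by
  unfold Rise at *
  omega

theorem Rise.lg {x v : St} (h : Rise x v) : Lg x v := Or.inl h

theorem Rise.trans_lg {x v w : St} (h : Rise x v) (h' : Lg v w) : Rise x w := by
  rcases h' with h' | ⟨h', -⟩
  · exact h.trans h'
  · unfold Rise at *
    omega

theorem Lg.trans_rise {x v w : St} (h : Lg x v) (h' : Rise v w) : Rise x w := by
  rcases h with h | ⟨h, -⟩
  · exact h.trans h'
  · unfold Rise at *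
    omega

theorem Lg.trans {x v w : St} (h : Lg x v) (h' : Lg v w) : Lg x w := by
  rcases h' with h1 | ⟨h1, h2⟩
  · exact Or.inl (h.trans_rise h1)
  · rcases h with h3 | ⟨h3, h4⟩
    · exact Or.inl (h3.trans_lg (Or.inr ⟨h1, h2⟩))
    · exact Or.inr ⟨by omega, h2.trans h4⟩

/-- The level is not smaller. -/
theorem Lg.le {x v : St} (h : Lg x v) : bk x.1 + v.2.length ≤ bk v.1 + x.2.length := by
  rcases h with h | ⟨h, -⟩
  · exact h.le
  · exact h.le

theorem length_ow (x : St) (i : ℕ) : (ow x i).2.length = x.2.length + 1 := by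
  simp [ow]

theorem ow_ne (x : St) (i : ℕ) : (ow x i).2 ≠ [] := by simp [ow]

theorem head_ow {x : St} (i : ℕ) (h : x.2 ≠ []) : (ow x i).2.head? = x.2.head? := by
  unfold ow
  rw [List.head?_append]
  cases hx : x.2 with
  | nil => exact absurd hx h
  | cons a l => rfl

theorem pay_ow {x : St} (i : ℕ) (h : x.2 ≠ []) : pay (ow x i) = pay x := by
  unfold pay
  rw [head_ow i h]

theorem rise_ow {x v : St} {i j : ℕ} : Rise (ow x i) (ow v j) ↔ Rise x v := by
  unfold Rise
  rw [length_ow, length_ow]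
  show bk x.1 + _ < bk v.1 + _ ↔ _
  omega

theorem ne_of_head {x v : St} (h : v.2.head? = x.2.head?) (hx : x.2 ≠ []) : v.2 ≠ [] := by
  intro h1
  rw [h1] at h
  cases hx' : x.2 with
  | nil => exact hx hx'
  | cons a l => rw [hx'] at h; cases h

/-- (L2). -/
theorem Lg.ow {x v : St} {i j : ℕ} (h : Lg x v) (h' : x.2 ≠ [] ∨ i = j) :
    Lg (ow x i) (ow v j) := by
  rcases h with h | ⟨h1, h2⟩
  · exact Or.inl (rise_ow.2 h)
  · refine Or.inr ⟨?_, ?_⟩
    · rw [length_ow, length_ow]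
      show bk x.1 + _ = bk v.1 + _
      omega
    · by_cases hx : x.2 = []
      · have hv : v.2 = [] := by
          rw [hx] at h2
          exact List.head?_eq_none_iff.1 h2
        rcases h' with h' | h'
        · exact absurd hx h'
        · subst h'
          show (v.2 ++ [i]).head? = (x.2 ++ [i]).head?
          rw [hx, hv]
      · rw [head_ow i hx, head_ow j (ne_of_head h2 hx)]
        exact h2

theorem Lg.of_ow {x v : St} {i j : ℕ} (h : Lg (Node.ow x i) (Node.ow v j)) (hx : x.2 ≠ [])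
    (hv : v.2 ≠ []) : Lg x v := by
  rcases h with h | ⟨h1, h2⟩
  · exact Or.inl (rise_ow.1 h)
  · rw [length_ow, length_ow] at h1
    rw [head_ow i hx, head_ow j hv] at h2
    refine Or.inr ⟨?_, h2⟩
    change bk x.1 + _ = bk v.1 + _ at h1
    omega

theorem ne_nil_of_len {x : St} (h : 1 ≤ x.2.length) : x.2 ≠ [] := by
  intro h1
  rw [h1] at h
  exact absurd h (by simp)

/-! ## Links -/

/-- (OWN). -/
theorem link_ow {P : Par} {t : ℕ} {x y : St} {i j : ℕ} (hx : x.2 ≠ []) (hy : y.2 ≠ [])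
    (hb : x.2.length + 1 ≤ blk P.p t) (hyb : y.2.length + 1 ≤ blk P.p (t + 1)) :
    Link P t (ow x i) (ow y j) ↔ Link P t x y := by
  have lx : 1 ≤ x.2.length := List.length_pos_of_ne_nil hx
  have ly : 1 ≤ y.2.length := List.length_pos_of_ne_nil hy
  constructor
  · rintro ⟨-, -, -, -, h5, h6⟩
    refine ⟨lx, by omega, ly, by omega, fun h => ?_, fun h => ?_⟩
    · have h7 := h5 h
      rw [length_ow, length_ow, head_ow i hx, head_ow j hy] at h7
      exact ⟨by omega, h7.2⟩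
    · rcases h6 h with h7 | ⟨h7, h8, h9, h10⟩
      · exact Or.inl (rise_ow.1 h7)
      · rw [pay_ow i hx, pay_ow j hy] at *
        rw [length_ow, length_ow] at h7
        change bk x.1 + _ = bk y.1 + _ at h7
        exact Or.inr ⟨by omega, h8, h9, h10⟩
  · rintro ⟨-, -, -, -, h5, h6⟩
    refine ⟨by rw [length_ow]; omega, by rw [length_ow]; omega, by rw [length_ow]; omega,
      by rw [length_ow]; omega, fun h => ?_, fun h => ?_⟩
    · have h7 := h5 h
      rw [length_ow, length_ow, head_ow i hx, head_ow j hy]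
      exact ⟨by omega, h7.2⟩
    · rcases h6 h with h7 | ⟨h7, h8, h9, h10⟩
      · exact Or.inl (rise_ow.2 h7)
      · refine Or.inr ⟨?_, ?_, ?_, ?_⟩
        · rw [length_ow, length_ow]
          show bk x.1 + _ = bk y.1 + _
          omega
        · rw [pay_ow i hx, pay_ow j hy]; exact h8
        · rw [pay_ow i hx, pay_ow j hy]; exact h9
        · rw [pay_ow j hy]; exact h10

/-- The lengths along a link. -/
theorem Link.len {P : Par} {t : ℕ} {x y : St} (h : Link P t x y) (hx : bk x.1 = blk P.p t)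
    (hy : bk y.1 = blk P.p (t + 1)) (hb : x.2.length + 1 ≤ blk P.p t) :
    y.2.length + 1 ≤ blk P.p (t + 1) := by
  rcases blk_step P.p t with ⟨h1, -⟩ | ⟨h1, -⟩
  · have := (h.ins h1).1
    omega
  · rcases h.bd (by omega) with h2 | ⟨h2, -⟩
    · unfold Rise at h2
      omega
    · omega

/-- The level is non-decreasing along links. -/
theorem Link.le {P : Par} {t : ℕ} {x y : St} (h : Link P t x y) (hx : bk x.1 = blk P.p t)
    (hy : bk y.1 = blk P.p (t + 1)) : bk x.1 + y.2.length ≤ bk y.1 + x.2.length := by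
  by_cases h1 : blk P.p (t + 1) = blk P.p t
  · have := (h.ins h1).1
    omega
  · rcases h.bd h1 with h2 | ⟨h2, -⟩
    · exact h2.le
    · exact h2.le

theorem Link.lg {P : Par} {t : ℕ} {x y : St} (h : Link P t x y) (hx : bk x.1 = blk P.p t)
    (hy : bk y.1 = blk P.p (t + 1)) (hr : blk P.p (t + 1) ≠ blk P.p t → Rise x y) : Lg x y := by
  by_cases h1 : blk P.p (t + 1) = blk P.p t
  · have := h.ins h1
    exact Or.inr ⟨by omega, this.2⟩
  · exact Or.inl (hr h1)

theorem Link.of_ins {P : Par} {t : ℕ} {x y : St} (h1 : 1 ≤ x.2.length)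
    (h2 : x.2.length ≤ blk P.p t) (hb : blk P.p (t + 1) = blk P.p t)
    (h3 : y.2.length = x.2.length) (h4 : y.2.head? = x.2.head?) : Link P t x y :=
  ⟨h1, h2, by omega, by omega, fun _ => ⟨h3, h4⟩, fun h => absurd hb h⟩

theorem Link.of_rise {P : Par} {t : ℕ} {x y : St} (h1 : 1 ≤ x.2.length)
    (h2 : x.2.length ≤ blk P.p t) (hb : blk P.p (t + 1) ≠ blk P.p t) (h3 : 1 ≤ y.2.length)
    (h4 : y.2.length ≤ blk P.p (t + 1)) (h5 : Rise x y) : Link P t x y :=
  ⟨h1, h2, h3, h4, fun h => absurd h hb, fun _ => Or.inl h5⟩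

/-! ## Strings whose roots go up -/

/-- `σ` is a chain of symbols from `x` whose edges go up. -/
structure Rup (x : St) (σ : List ℕ) : Prop where
  ch : Ch x σ (endd x σ)
  up : ∀ g ∈ σ, (src g).1 < (tgt g).1

theorem Rup.nil (x : St) : Rup x [] := ⟨rfl, fun _ hg => absurd hg List.not_mem_nil⟩

theorem Rup.pfx {x : St} {ν σ : List ℕ} (h : Rup x σ) (hp : ν <+: σ) : Rup x ν :=
  ⟨ch_pfx h.ch hp, fun g hg => h.up g (hp.subset hg)⟩

theorem Rup.of_vstr (hB : BasicStatement) {W : World} (hF : ∀ x t, W.edge x t → Fit x t)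
    {x z : St} {σ : List ℕ} (h : VStr W x σ z) : Rup x σ := by
  have e := Proc.ch_end h.1
  refine ⟨by rw [← e]; exact h.1, fun g hg => ?_⟩
  exact (hF _ _ ((hB W hF).1 g (h.2 g hg))).2.2.1

theorem Rup.append {x : St} {σ τ : List ℕ} (h : Rup x σ) (h' : Rup (endd x σ) τ) :
    Rup x (σ ++ τ) := by
  refine ⟨?_, fun g hg => ?_⟩
  · rw [ch_append]
    refine ⟨h.ch, ?_⟩
    rw [endd_append]
    exact h'.ch
  · rcases List.mem_append.1 hg with h1 | h1
    · exact h.up g h1
    · exact h'.up g h1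

theorem Rup.right {x : St} {σ τ : List ℕ} (h : Rup x (σ ++ τ)) : Rup (endd x σ) τ := by
  refine ⟨?_, fun g hg => h.up g (List.mem_append_right _ hg)⟩
  have := (ch_append.1 h.ch).2
  rwa [endd_append] at this

/-- The roots go up with the length. -/
theorem Rup.root {x : St} {σ : List ℕ} (h : Rup x σ) : x.1 + σ.length ≤ (endd x σ).1 := by
  induction σ using List.reverseRecOn with
  | nil => exact le_of_eq rfl
  | append_singleton σ g ih =>
    have h1 := ih (h.pfx (List.prefix_append _ _))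
    have h2 := (ch_append.1 h.ch).2
    have h3 : src g = endd x σ := h2.1
    have h4 := h.up g (by simp)
    rw [endd_snoc]
    rw [h3] at h4
    simp only [List.length_append, List.length_singleton]
    omega

/-- Initial segments with smaller roots are shorter. -/
theorem Rup.lt {x : St} {σ ν ν' : List ℕ} (h : Rup x σ) (h1 : ν <+: ν') (h2 : ν' <+: σ)
    (hne : ν ≠ ν') : (endd x ν).1 < (endd x ν').1 := by
  obtain ⟨ρ, rfl⟩ := h1
  have h3 : ρ ≠ [] := by
    rintro rfl
    exact hne (List.append_nil _).symm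
  have h4 := (h.pfx h2).right.root
  rw [endd_append]
  have := List.length_pos_of_ne_nil h3
  omega

theorem Rup.le {x : St} {σ ν ν' : List ℕ} (h : Rup x σ) (h1 : ν <+: ν') (h2 : ν' <+: σ) :
    (endd x ν).1 ≤ (endd x ν').1 := by
  by_cases hne : ν = ν'
  · rw [hne]
  · exact (h.lt h1 h2 hne).le

theorem Rup.pfx_of_le {x : St} {σ ν ν' : List ℕ} (h : Rup x σ) (h1 : ν <+: σ) (h2 : ν' <+: σ)
    (h3 : (endd x ν).1 ≤ (endd x ν').1) : ν <+: ν' := by
  rcases List.prefix_or_prefix_of_prefix h1 h2 with h4 | h4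
  · exact h4
  · by_cases hne : ν' = ν
    · rw [hne]
    · have := h.lt h4 h1 hne
      omega

theorem Rup.eq {x : St} {σ ν ν' : List ℕ} (h : Rup x σ) (h1 : ν <+: σ) (h2 : ν' <+: σ)
    (h3 : (endd x ν).1 = (endd x ν').1) : ν = ν' := by
  have h4 := h.pfx_of_le h1 h2 h3.le
  have h5 := h.pfx_of_le h2 h1 h3.ge
  exact h4.eq_of_length (le_antisymm h4.length_le h5.length_le)

theorem Rup.sym {x : St} {σ : List ℕ} (h : Rup x σ) {g : ℕ} (hg : g ∈ σ) :
    ∃ ν, ν ++ [g] <+: σ ∧ src g = endd x ν ∧ tgt g = endd x (ν ++ [g]) := by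
  obtain ⟨ν, ρ, rfl⟩ := List.append_of_mem hg
  refine ⟨ν, ⟨ρ, by simp⟩, ?_, (endd_snoc x ν g).symm⟩
  exact (ch_append.1 h.ch).2.1

/-! ## Regular strings -/

/-- The sequence of the public roots of a colour. -/
structure Rts (P : Par) (u : ℕ → ℕ) : Prop where
  pos : 0 < u 0
  mono : StrictMono u
  bk : ∀ t, bk (u t) = blk P.p t

theorem Rts.lt {P : Par} {u : ℕ → ℕ} (hu : Rts P u) {t t' : ℕ} : u t < u t' ↔ t < t' :=
  hu.mono.lt_iff_lt

theorem Rts.inj {P : Par} {u : ℕ → ℕ} (hu : Rts P u) {t t' : ℕ} (h : u t = u t') : t = t' :=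
  hu.mono.injective h

theorem Rts.le_self {P : Par} {u : ℕ → ℕ} (hu : Rts P u) (t : ℕ) : t ≤ u t := hu.mono.le_apply

/-- The last public root at or below `r`. -/
theorem Rts.last {P : Par} {u : ℕ → ℕ} (hu : Rts P u) {t r : ℕ} (h : u t ≤ r) :
    ∃ t', t ≤ t' ∧ u t' ≤ r ∧ r < u (t' + 1) := by
  obtain ⟨k, hk, hk1⟩ : ∃ k, r < u k ∧ ∀ j, r < u j → k ≤ j := by
    have hex : ∃ k, r < u k := ⟨r + 1, lt_of_lt_of_le (Nat.lt_succ_self r) (hu.le_self _)⟩
    classical
    exact ⟨Nat.find hex, Nat.find_spec hex, fun j hj => Nat.find_min' hex hj⟩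
  have hk0 : t < k := hu.lt.1 (lt_of_le_of_lt h hk)
  obtain ⟨t', rfl⟩ : ∃ t', k = t' + 1 := ⟨k - 1, by omega⟩
  refine ⟨t', by omega, ?_, hk⟩
  by_contra h1
  have := hk1 t' (not_le.1 h1)
  omega

section

variable {P : Par} {u : ℕ → ℕ}

theorem Reg.pfx {σ ν : List ℕ} (h : Reg P u σ) (hr : Rup o σ) (hp : ν <+: σ) : Reg P u ν := by
  refine ⟨fun t ht => ?_, fun t ν' h1 h2 => h.dep t ν' (h1.trans hp) h2,
    fun t ν1 ν2 h1 h2 h3 h4 => h.link t ν1 ν2 (h1.trans hp) (h2.trans hp) h3 h4,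
    fun t ν1 ν2 h1 h2 h3 h4 => h.prv t ν1 ν2 h1 (h2.trans hp) h3 h4⟩
  have h0 := hr.le hp (List.prefix_refl _)
  obtain ⟨ν', h1, h2⟩ := h.pass t (ht.trans h0)
  exact ⟨ν', hr.pfx_of_le h1 hp (by omega), h2⟩

theorem Reg.nil (hu : Rts P u) : Reg P u [] := by
  have h0 : ∀ t, u t ≠ 0 := fun t h => by
    have := hu.pos
    have := hu.mono.monotone (Nat.zero_le t)
    omega
  refine ⟨fun t ht => absurd (Nat.le_zero.1 ht) (h0 t), fun t ν h1 h2 => ?_,
    fun t ν ν' h1 h2 h3 => ?_, fun t ν ν' h1 h2 h3 => ?_⟩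
  · rw [List.prefix_nil.1 h1] at h2
    exact absurd h2.symm (h0 t)
  · rw [List.prefix_nil.1 h1] at h3
    exact absurd h3.symm (h0 t)
  · rw [List.prefix_nil.1 h2] at h1
    rw [List.prefix_nil.1 h1] at h3
    exact absurd h3.symm (h0 t)

/-- The last public state at or below a state, from a public state on. -/
theorem Reg.last {σ : List ℕ} (h : Reg P u σ) (hu : Rts P u) (hr : Rup o σ) {t : ℕ}
    {ν ν' : List ℕ} (h1 : ν <+: ν') (h2 : ν' <+: σ) (h3 : (endd o ν).1 = u t) :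
    ∃ t' ν1, t ≤ t' ∧ ν <+: ν1 ∧ ν1 <+: ν' ∧ (endd o ν1).1 = u t' ∧
      (endd o ν').1 < u (t' + 1) := by
  have h4 := hr.le h1 h2
  obtain ⟨t', h5, h6, h7⟩ := hu.last (t := t) (r := (endd o ν').1) (by omega)
  have h8 := hr.le h2 (List.prefix_refl _)
  obtain ⟨ν1, h9, h10⟩ := h.pass t' (h6.trans h8)
  have h11 := hu.mono.monotone h5
  exact ⟨t', ν1, h5, hr.pfx_of_le (h1.trans h2) h9 (by omega),
    hr.pfx_of_le h9 h2 (by omega), h10, h7⟩

/-- The level along the public states, from `u t` on; the first border passed is a rise. -/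
theorem Reg.pub {σ : List ℕ} (h : Reg P u σ) (hu : Rts P u) (hr : Rup o σ) {t : ℕ}
    {ν : List ℕ} (h2 : ν <+: σ) (h3 : (endd o ν).1 = u t)
    (hb : ∀ t' ν1 ν2, t ≤ t' → blk P.p t' = blk P.p t → blk P.p (t' + 1) ≠ blk P.p t →
      ν1 <+: σ → ν2 <+: σ → (endd o ν1).1 = u t' → (endd o ν2).1 = u (t' + 1) →
      Rise (endd o ν1) (endd o ν2)) :
    ∀ t' ν', t ≤ t' → ν' <+: σ → (endd o ν').1 = u t' → Lg (endd o ν) (endd o ν') ∧
      (blk P.p t' ≠ blk P.p t → Rise (endd o ν) (endd o ν')) := by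
  intro t'
  induction t' with
  | zero =>
    intro ν' ht h4 h5
    obtain rfl : t = 0 := Nat.le_zero.1 ht
    rw [hr.eq h4 h2 (by omega)]
    exact ⟨Lg.refl _, fun h => absurd rfl h⟩
  | succ t' ih =>
    intro ν' ht h4 h5
    rcases Nat.lt_or_ge t' t with h6 | h6
    · obtain rfl : t = t' + 1 := by omega
      rw [hr.eq h4 h2 (by omega)]
      exact ⟨Lg.refl _, fun h => absurd rfl h⟩
    · have h7 : u t' < u (t' + 1) := hu.mono (Nat.lt_succ_self _)
      have h7' := hr.le h4 (List.prefix_refl _)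
      obtain ⟨ν1, h8, h9⟩ := h.pass t' (by omega)
      obtain ⟨i1, i2⟩ := ih ν1 h6 h8 h9
      have hl := h.link t' ν1 ν' h8 h4 h9 h5
      have b1 : bk (endd o ν1).1 = blk P.p t' := by rw [h9]; exact hu.bk t'
      have b2 : bk (endd o ν').1 = blk P.p (t' + 1) := by rw [h5]; exact hu.bk _
      by_cases e1 : blk P.p (t' + 1) = blk P.p t'
      · have hs : Lg (endd o ν1) (endd o ν') := hl.lg b1 b2 fun h => absurd e1 h
        exact ⟨i1.trans hs, fun hne => (i2 (by rw [← e1]; exact hne)).trans_lg hs⟩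
      · by_cases e2 : blk P.p t' = blk P.p t
        · have hs := hb t' ν1 ν' h6 e2 (by rw [← e2]; exact e1) h8 h4 h9 h5
          exact ⟨i1.trans hs.lg, fun _ => i1.trans_rise hs⟩
        · have hR := i2 e2
          have h10 := hl.le b1 b2
          have hR' : Rise (endd o ν) (endd o ν') := by
            unfold Rise at hR ⊢
            omega
          exact ⟨hR'.lg, fun _ => hR'⟩

/-- (L4). -/
theorem Reg.level {σ : List ℕ} (h : Reg P u σ) (hu : Rts P u) (hr : Rup o σ) {t : ℕ}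
    {ν : List ℕ} (h2 : ν <+: σ) (h3 : (endd o ν).1 = u t)
    (hb : ∀ t' ν1 ν2, t ≤ t' → blk P.p t' = blk P.p t → blk P.p (t' + 1) ≠ blk P.p t →
      ν1 <+: σ → ν2 <+: σ → (endd o ν1).1 = u t' → (endd o ν2).1 = u (t' + 1) →
      Rise (endd o ν1) (endd o ν2)) {ν' : List ℕ} (h4 : ν <+: ν') (h5 : ν' <+: σ) :
    Lg (endd o ν) (endd o ν') := by
  obtain ⟨t', ν1, h6, h7, h8, h9, h10⟩ := h.last hu hr h4 h5 h3
  have h11 := (h.pub hu hr h2 h3 hb t' ν1 h6 (h8.trans h5) h9).1
  exact h11.trans (h.prv t' ν1 ν' h8 h5 h9 h10)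

/-- The level is non-decreasing from a public state on. -/
theorem Reg.mono {σ : List ℕ} (h : Reg P u σ) (hu : Rts P u) (hr : Rup o σ) {t : ℕ}
    {ν ν' : List ℕ} (h2 : ν <+: ν') (h3 : (endd o ν).1 = u t) (h5 : ν' <+: σ) :
    bk (endd o ν).1 + (endd o ν').2.length ≤ bk (endd o ν').1 + (endd o ν).2.length := by
  have key : ∀ t' ν', t ≤ t' → ν' <+: σ → (endd o ν').1 = u t' →
      bk (endd o ν).1 + (endd o ν').2.length ≤ bk (endd o ν').1 + (endd o ν).2.length := by
    intro t'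
    induction t' with
    | zero =>
      intro ν' ht h4 h5'
      obtain rfl : t = 0 := Nat.le_zero.1 ht
      rw [hr.eq h4 (h2.trans h5) (by omega)]
    | succ t' ih =>
      intro ν' ht h4 h5'
      rcases Nat.lt_or_ge t' t with h6 | h6
      · obtain rfl : t = t' + 1 := by omega
        rw [hr.eq h4 (h2.trans h5) (by omega)]
      · have h7 : u t' < u (t' + 1) := hu.mono (Nat.lt_succ_self _)
        have h7' := hr.le h4 (List.prefix_refl _)
        obtain ⟨ν1, h8, h9⟩ := h.pass t' (by omega)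
        have i1 := ih ν1 h6 h8 h9
        have hl := h.link t' ν1 ν' h8 h4 h9 h5'
        have := hl.le (by rw [h9]; exact hu.bk t') (by rw [h5']; exact hu.bk _)
        omega
  obtain ⟨t', ν1, h6, h7, h8, h9, h10⟩ := h.last hu hr h2 h5 h3
  have h11 := key t' ν1 h6 (h8.trans h5) h9
  have h12 := (h.prv t' ν1 ν' h8 h5 h9 h10).le
  omega

/-- Regular strings are continued: by one symbol into a state between two public roots. -/
theorem Reg.snoc_prv {σ : List ℕ} {g t : ℕ} {ν : List ℕ} (h : Reg P u σ) (hu : Rts P u)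
    (hr : Rup o (σ ++ [g])) (h1 : ν <+: σ) (h2 : (endd o ν).1 = u t)
    (h3 : (tgt g).1 < u (t + 1)) (h4 : Lg (endd o ν) (tgt g)) : Reg P u (σ ++ [g]) := by
  have hσ : σ <+: σ ++ [g] := List.prefix_append _ _
  have hl : (endd o σ).1 < (tgt g).1 := by
    have := hr.lt hσ (List.prefix_refl _) (by intro h; simpa using congrArg List.length h)
    rwa [endd_snoc] at this
  have hν : u t ≤ (endd o σ).1 := by
    have := hr.le h1 hσ
    omega
  have hup : ∀ t' : ℕ, (tgt g).1 ≠ u t' := by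
    intro t' he
    have h5 : u t < u t' := by omega
    have h6 : u t' < u (t + 1) := by omega
    have := hu.lt.1 h5
    have := hu.lt.1 h6
    omega
  have hpu : ∀ t' ν', ν' <+: σ ++ [g] → (endd o ν').1 = u t' → ν' <+: σ := by
    intro t' ν' h5 h6
    rcases List.prefix_concat_iff.1 h5 with h7 | h7
    · rw [h7, endd_snoc] at h6
      exact absurd h6 (hup t')
    · exact h7
  refine ⟨fun t' ht => ?_, fun t' ν' h5 h6 => h.dep t' ν' (hpu t' ν' h5 h6) h6,
    fun t' ν1 ν2 h5 h6 h7 h8 => h.link t' ν1 ν2 (hpu t' ν1 h5 h7) (hpu _ ν2 h6 h8) h7 h8,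
    fun t' ν1 ν2 h5 h6 h7 h8 => ?_⟩
  · rw [endd_snoc] at ht
    have h5 : u t' < u (t + 1) := by omega
    have h6 := hu.lt.1 h5
    have h7 := hu.mono.monotone (show t' ≤ t by omega)
    obtain ⟨ν', h8, h9⟩ := h.pass t' (by omega)
    exact ⟨ν', h8.trans hσ, h9⟩
  · rcases List.prefix_concat_iff.1 h6 with h9 | h9
    · have h10 := hpu t' ν1 (h5.trans h6) h7
      rw [h9, endd_snoc] at h8 ⊢
      have h11 : u t < u (t' + 1) := by omega
      have h12 := hu.lt.1 h11
      have h13 : u t' < u (t + 1) := by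
        have := hr.le (h10) hσ
        omega
      have h14 := hu.lt.1 h13
      obtain rfl : t' = t := by omega
      rw [hr.eq (h10.trans hσ) (h1.trans hσ) (by omega)]
      exact h4
    · exact h.prv t' ν1 ν2 h5 h9 h7 h8

/-- Regular strings are continued: by one symbol into the next public root. -/
theorem Reg.snoc_pub {σ : List ℕ} {g t : ℕ} {ν : List ℕ} (h : Reg P u σ) (hu : Rts P u)
    (hr : Rup o (σ ++ [g])) (h1 : ν <+: σ) (h2 : (endd o ν).1 = u t)
    (h3 : (tgt g).1 = u (t + 1)) (h4 : Link P t (endd o ν) (tgt g)) : Reg P u (σ ++ [g]) := by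
  have hσ : σ <+: σ ++ [g] := List.prefix_append _ _
  have hl : (endd o σ).1 < (tgt g).1 := by
    have := hr.lt hσ (List.prefix_refl _) (by intro h; simpa using congrArg List.length h)
    rwa [endd_snoc] at this
  have hν : u t ≤ (endd o σ).1 := by
    have := hr.le h1 hσ
    omega
  have hpu : ∀ t' ν', ν' <+: σ ++ [g] → (endd o ν').1 = u t' →
      (t' = t + 1 ∧ ν' = σ ++ [g]) ∨ (t' ≤ t ∧ ν' <+: σ) := by
    intro t' ν' h5 h6
    rcases List.prefix_concat_iff.1 h5 with h7 | h7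
    · refine Or.inl ⟨?_, h7⟩
      rw [h7, endd_snoc, h3] at h6
      exact (hu.inj h6).symm
    · refine Or.inr ⟨?_, h7⟩
      have h8 := hr.le h7 hσ
      have h9 : u t' < u (t + 1) := by omega
      have := hu.lt.1 h9
      omega
  refine ⟨fun t' ht => ?_, fun t' ν' h5 h6 => ?_, fun t' ν1 ν2 h5 h6 h7 h8 => ?_,
    fun t' ν1 ν2 h5 h6 h7 h8 => ?_⟩
  · rw [endd_snoc, h3] at ht
    have h6 := hu.mono.le_iff_le.1 ht
    rcases Nat.lt_or_ge t t' with h7 | h7
    · obtain rfl : t' = t + 1 := by omega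
      exact ⟨σ ++ [g], List.prefix_refl _, by rw [endd_snoc]; exact h3⟩
    · have h8 := hu.mono.monotone h7
      obtain ⟨ν', h8, h9⟩ := h.pass t' (by omega)
      exact ⟨ν', h8.trans hσ, h9⟩
  · rcases hpu t' ν' h5 h6 with ⟨rfl, rfl⟩ | ⟨-, h7⟩
    · rw [endd_snoc]
      exact ⟨h4.y1, h4.yb⟩
    · exact h.dep t' ν' h7 h6
  · rcases hpu (t' + 1) ν2 h6 h8 with ⟨h9, rfl⟩ | ⟨h9, h10⟩
    · obtain rfl : t' = t := by omega
      rcases hpu t' ν1 h5 h7 with ⟨h11, -⟩ | ⟨-, h11⟩
      · omega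
      · rw [hr.eq (h11.trans hσ) (h1.trans hσ) (by omega), endd_snoc]
        exact h4
    · rcases hpu t' ν1 h5 h7 with ⟨h11, -⟩ | ⟨-, h11⟩
      · omega
      · exact h.link t' ν1 ν2 h11 h10 h7 h8
  · rcases List.prefix_concat_iff.1 h6 with h9 | h9
    · rcases hpu t' ν1 (h5.trans h6) h7 with ⟨-, h11⟩ | ⟨h10, -⟩
      · rw [h9, h11]
        exact Lg.refl _
      · exfalso
        rw [h9, endd_snoc, h3] at h8
        have := hu.lt.1 h8
        omega
    · exact h.prv t' ν1 ν2 h5 h9 h7 h8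

end

/-! ## The record -/

section

variable {P : Par} {G : Gph}

theorem Lim4.u_lt (h : Lim4 P G) {s : ℕ} (hs : s < P.p) (t : ℕ) : G.u t s < G.u (t + 1) s := by
  have h1 := (h.root t s hs).2.2.1
  have h2 := (h.root (t + 1) s hs).1
  have h3 := (h.root (t + 1) s hs).2.1
  omega

theorem Lim4.rts (h : Lim4 P G) {s : ℕ} (hs : s < P.p) : Rts P fun t => G.u t s := by
  refine ⟨?_, strictMono_nat_of_lt_succ (h.u_lt hs), fun t => (h.root t s hs).2.2.2.1⟩
  have h1 := (h.root 0 s hs).1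
  have h2 := (h.root 0 s hs).2.1
  have h3 := (h.zero s hs).2.2
  show 0 < G.u 0 s
  omega

end

end Pool.Agent.Lib.MP_d48993_lc.Ba.Gr
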