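import Pool.Agent.Lib.MP_d48993_lc.AE.Node.Interfaces
import Pool.Agent.Lib.MP_d48993_lc.BAE.Rig.Txt

/-!
# Part G (MP_d48993), Baire space: the graphs of the rigid systems, definitions

The frame has a largest point. Waits pay with the real `G.h`, which codes the canonical members
whose levels are not bounded; a finite part of `G.h` is coded in every public root.

Finite data, symbols, validity, conditions: project NODE. Colours are the numbers `s < P.p`,
shares the numbers `j < P.q`; the column of a colour is `s`, the column of a share is `P.p + j`.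
-/

set_option autoImplicit false

namespace Pool.Agent.Lib.MP_d48993_lc.Ba.Gr

open Pool.Agent.Lib.MP_d48993_lc.Node
open MP_8c048d_lc (pre join RecF)
open Txt (ht st mC mN mR ltN okN Leg)

/-! ## Parameters -/

/-- Numbers of colours and shares, functionals, trees of the labels (binary), all trees, header
trees, the tree of a class `K` of the type of PA (binary, without computable path). -/
structure Par where
  p : ℕ
  q : ℕ
  Φ : ℕ → List ℕ → List ℕ
  Tr : ℕ → List ℕ → Prop
  Tu : ℕ → List ℕ → Prop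
  Hd : ℕ → List ℕ → Bool
  TB : List ℕ → Prop

structure Par.Ok (P : Par) : Prop where
  pos : 0 < P.p
  enum : IsEnum P.Φ
  trc : ComputablePred (fun x : ℕ × List ℕ => P.Tr x.1 x.2)
  trt : ∀ e, PC (P.Tr e)
  trb : ∀ e σ, P.Tr e σ → ∀ b ∈ σ, b < 2
  tuc : ComputablePred (fun x : ℕ × List ℕ => P.Tu x.1 x.2)
  tut : ∀ e, PC (P.Tu e)
  hdc : Computable (fun x : ℕ × List ℕ => P.Hd x.1 x.2)
  tbc : ComputablePred P.TB
  tbt : PC P.TB
  tbb : ∀ σ, P.TB σ → ∀ b ∈ σ, b < 2
  zero : (fun _ => 0) ∉ Up {f | ∀ k, P.TB (pre f k)}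

/-! ## Blocks -/

/-- The number of roots of the block `n`. -/
def nb (p n : ℕ) : ℕ := if n ≤ 2 then 1 else (n - 1) ^ p

/-- The block and the place in the block of the index `t`. -/
def pos (p : ℕ) : ℕ → ℕ × ℕ
  | 0 => (2, 0)
  | t + 1 => if (pos p t).2 + 1 < nb p (pos p t).1 then ((pos p t).1, (pos p t).2 + 1)
      else ((pos p t).1 + 1, 0)

def blk (p t : ℕ) : ℕ := (pos p t).1
def ix (p t : ℕ) : ℕ := (pos p t).2

/-- The first and the last index of the block `n`. -/
def fst (p : ℕ) : ℕ → ℕ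
  | 0 => 0
  | n + 1 => if n ≤ 1 then 0 else fst p n + nb p n

def lst (p n : ℕ) : ℕ := fst p (n + 1) - 1

/-- The treated depth. -/
def dv (p t s : ℕ) : ℕ := 2 + ix p t / (blk p t - 1) ^ s % (blk p t - 1)

/-- The pattern of a block. -/
def JJ (n s : ℕ) : Bool := n.unpair.1.testBit s

/-! ## Levels -/

/-- The block number of a root. -/
def bk (u : ℕ) : ℕ := u.unpair.2.unpair.1

def Rise (x v : St) : Prop := bk x.1 + v.2.length < bk v.1 + x.2.length

def Same (x v : St) : Prop := bk x.1 + v.2.length = bk v.1 + x.2.length ∧ v.2.head? = x.2.head?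

/-- The level preorder. -/
def Lg (x v : St) : Prop := Rise x v ∨ Same x v

/-- The string coded by a number. -/
def str (a : ℕ) : List ℕ := Denumerable.ofNat (List ℕ) a

/-- The payment of a state. -/
def pay (x : St) : List ℕ := (x.2.head?.map str).getD []

/-- The number of the string coded in a root. -/
def wc (u : ℕ) : ℕ := u.unpair.2.unpair.2

/-- The string coded in a root. -/
def wd (u : ℕ) : List ℕ := str (wc u)

/-- Consecutive public states of regular strings. -/
structure Link (P : Par) (t : ℕ) (x y : St) : Prop where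
  x1 : 1 ≤ x.2.length
  xb : x.2.length ≤ blk P.p t
  y1 : 1 ≤ y.2.length
  yb : y.2.length ≤ blk P.p (t + 1)
  ins : blk P.p (t + 1) = blk P.p t → y.2.length = x.2.length ∧ y.2.head? = x.2.head?
  bd : blk P.p (t + 1) ≠ blk P.p t → Rise x y ∨
    (bk x.1 + y.2.length = bk y.1 + x.2.length ∧ pay x <+: pay y ∧ pay x ≠ pay y ∧
      pay y <+: wd y.1)

/-- Clean data: the states of an advice are above its state. -/
def LgD (δ : Data) : Prop := ∀ y α, δ.W.adv y = some α → ∀ g ∈ α, Lg y (tgt g)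

/-- Good data. -/
structure GD (δ : Data) : Prop where
  wf : Wf δ
  full : Full δ
  lg : LgD δ

/-! ## Conditions -/

/-- The condition is at the state `z`. -/
structure At (z : St) (c : Cnd3) : Prop where
  en : ∀ e ∈ c.2, ∃ i, 1 ≤ i ∧ endd o e.2.2 = ow z i
  inj : ∀ e ∈ c.2, ∀ e' ∈ c.2, endd o e.2.2 = endd o e'.2.2 → e = e'

/-- The states of the stems of `c` behind the stems of `b` are above the ends of the latter. -/
def LgC (b c : Cnd3) : Prop :=
  ∀ e' ∈ c.2, ∃ e ∈ b.2, e.2.2 <+: e'.2.2 ∧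
    ∀ g ∈ e'.2.2.drop e.2.2.length, Lg (endd o e.2.2) (tgt g)

/-- Regular strings; `u` is the sequence of the public roots. -/
structure Reg (P : Par) (u : ℕ → ℕ) (σ : List ℕ) : Prop where
  pass : ∀ t, u t ≤ (endd o σ).1 → ∃ ν, ν <+: σ ∧ (endd o ν).1 = u t
  dep : ∀ t ν, ν <+: σ → (endd o ν).1 = u t →
    1 ≤ (endd o ν).2.length ∧ (endd o ν).2.length ≤ blk P.p t
  link : ∀ t ν ν', ν <+: σ → ν' <+: σ → (endd o ν).1 = u t → (endd o ν').1 = u (t + 1) →
    Link P t (endd o ν) (endd o ν')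
  prv : ∀ t ν ν', ν <+: ν' → ν' <+: σ → (endd o ν).1 = u t → (endd o ν').1 < u (t + 1) →
    Lg (endd o ν) (endd o ν')

/-! ## Items -/

/-- An item: the column, the number of the header, the labels, the condition (for shares: the text
and no triples). -/
abbrev Itm : Type := ℕ × ℕ × List ℕ × Cnd3

abbrev Itm.col (I : Itm) : ℕ := I.1
abbrev Itm.hd (I : Itm) : ℕ := I.2.1
abbrev Itm.E (I : Itm) : List ℕ := I.2.2.1
abbrev Itm.c (I : Itm) : Cnd3 := I.2.2.2

/-- The size of an item: everything except the stems and the announced stage. -/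
def code0 (I : Itm) : ℕ :=
  Encodable.encode ((I.col, I.hd), (I.E, I.c.1.dropLast),
    (Txt.sg (I.c.1.getLast?.getD 0), I.c.2.map (fun e => (e.1, e.2.1))))

/-- The last move is a value move which announces the stage `n`. -/
def Ends (n : ℕ) (w : List ℕ) : Prop := ∃ v s, w = v ++ [mC s n]

/-- The header of an item. -/
abbrev HT (P : Par) (I : Itm) : List ℕ → Bool := P.Hd I.hd

/-- The label tree of an item. -/
abbrev LT (P : Par) (I : Itm) : List ℕ → Prop := TE P.Tr I.E

/-! ## Tuples -/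

/-- The column `c` is present in tuples with the shares `H`. -/
def Prs (P : Par) (H c : ℕ) : Bool :=
  decide (c < P.p) || (decide (c < P.p + P.q) && H.testBit (c - P.p))

/-- The column `c` is a text. -/
def Tx (P : Par) (J : ℕ → Bool) (H c : ℕ) : Bool := Prs P H c && (decide (P.p ≤ c) || J c)

/-- The tuple with the strings `σ` and the texts of the conditions `k`. -/
def tup (P : Par) (J : ℕ → Bool) (H : ℕ) (σ : ℕ → List ℕ) (k : ℕ → Cnd3) : List (List ℕ) :=
  (List.range (P.p + P.q)).map (fun c => if Tx P J H c then (k c).1 else σ c)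

/-- The least length of a present column. -/
def tlen (P : Par) (H : ℕ) (τ : List (List ℕ)) : ℕ :=
  (((List.range (P.p + P.q)).filter (Prs P H)).map (fun c => (τ.getD c []).length)).foldr min
    ((τ.getD 0 []).length)

/-- The finite part of the join of the columns. -/
def fj (P : Par) (H : ℕ) (τ : List (List ℕ)) : List ℕ :=
  (List.range ((P.p + P.q) * tlen P H τ)).map (fun n =>
    if Prs P H (n % (P.p + P.q)) then
      (τ.getD (n % (P.p + P.q)) []).getD (n / (P.p + P.q)) 0 else 0)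

/-- The join of the columns. -/
def jn (P : Par) (H : ℕ) (F : ℕ → ℕ → ℕ) : ℕ → ℕ := fun n =>
  if Prs P H (n % (P.p + P.q)) then F (n % (P.p + P.q)) (n / (P.p + P.q)) else 0

/-- The functional `i` on finite tuples. -/
def ev (P : Par) (i H : ℕ) (τ : List (List ℕ)) : List ℕ := P.Φ i (fj P H τ)

/-! ## Extensions of tuples -/

/-- Extensions of a tuple in the data `γ`: `y` the treated states, `al` their advice so far, `it`
the items, `bs` their values at the beginning of the root, `cv` their present values;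
`off = 1` during the tasks, `off = 0` for the future. -/
structure AExt (P : Par) (J : ℕ → Bool) (H off : ℕ) (γ : ℕ → Data) (y : ℕ → St)
    (al : ℕ → List ℕ) (it : ℕ → Itm) (bs cv : ℕ → Cnd3) (γ' : ℕ → Data) (nu : ℕ → List ℕ)
    (k : ℕ → Cnd3) : Prop where
  good : ∀ s < P.p, GD (γ' s) ∧ DExt (γ s) (γ' s)
  str : ∀ s < P.p, J s = false → VStr (γ' s).W (endd (y s) (al s)) (nu s)
    (endd (endd (y s) (al s)) (nu s)) ∧ ∀ g ∈ nu s, Lg (y s) (tgt g)
  cnd : ∀ s < P.p, J s = true → CV (γ' s).W (LT P (it s)) (k s) ∧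
    CLe (LT P (it s)) (cv s) (k s) ∧ LgC (bs s) (k s)
  txt : ∀ c, Tx P J H c = true →
    Txt.Le (HT P (it c)) (ht (HT P (it c)) (cv c).1 + off) (cv c).1 (k c).1

/-- The strings of an extension. -/
def cat (mu al nu : ℕ → List ℕ) (s : ℕ) : List ℕ := mu s ++ al s ++ nu s

/-- The functional of a tuple shows an edge which the data `γ` refute. -/
def Bad (γ : Data) (l : List ℕ) : Prop := ∃ v ∈ l, (tgt v).1 < γ.N ∧ ¬ γ.W.edge (src v) (tgt v)

/-! ## The record -/

/-- A sequence of graphs: data, public roots, the bound when the root is created, the values of the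
items at the beginning and at the end of a root, the real of the payments (it codes canonical
symbols between the states of the public roots of depth one). -/
structure Gph where
  d : ℕ → ℕ → Data
  u : ℕ → ℕ → ℕ
  nb : ℕ → ℕ → ℕ
  cur : ℕ → Itm → Cnd3
  fin : ℕ → Itm → Cnd3
  h : ℕ → ℕ

/-- Valid conditions of colour `s` for stage `n` (header `T`, labels `E`). -/
structure CG (P : Par) (G : Gph) (s : ℕ) (T : List ℕ → Bool) (n : ℕ) (E : List ℕ) (c : Cnd3) :
    Prop where
  leg : Leg T c.1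
  cv : CV (G.d (fst P.p n) s).W (TE P.Tr E) c
  at' : ∃ z : St, z.1 = G.u (fst P.p n - 1) s ∧ 1 ≤ z.2.length ∧ At z c
  reg : ∀ e ∈ c.2, Reg P (fun t => G.u t s) e.2.2

/-- The items of the block `n`. -/
structure IsItm (P : Par) (G : Gph) (n : ℕ) (I : Itm) : Prop where
  three : 3 ≤ n
  ends : Ends n I.c.1
  code : code0 I ≤ n
  leg : Leg (HT P I) I.c.1
  lab : 0 ∉ I.E
  pt : I.col < P.p → JJ n I.col = true ∧ CG P G I.col (HT P I) n I.E I.c
  sh : P.p ≤ I.col → I.col < P.p + P.q ∧ I.E = [] ∧ I.c.2 = []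

/-- The treated states. -/
structure Trd (P : Par) (G : Gph) (t s : ℕ) (y : St) : Prop where
  root : y.1 = G.u t s
  adm : Adm y
  zero : Zero y
  len : y.2.length = dv P.p t s

/-- The treated tuples of the root `t` (the pattern is that of the block). -/
structure Ttup (P : Par) (G : Gph) (t H : ℕ) (y : ℕ → St) (mu : ℕ → List ℕ) (it : ℕ → Itm) :
    Prop where
  three : 3 ≤ blk P.p t
  str : ∀ s < P.p, JJ (blk P.p t) s = false → Trd P G t s (y s) ∧
    VStr (G.d (t + 1) s).W o (mu s) (y s)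
  itm : ∀ c, Tx P (JJ (blk P.p t)) H c = true →
    IsItm P G (blk P.p t) (it c) ∧ (it c).col = c

/-- The advice of the treated states. -/
def adv (G : Gph) (t : ℕ) (y : ℕ → St) (s : ℕ) : List ℕ :=
  ((G.d (t + 1) s).W.adv (y s)).getD []

/-- The future of a treated tuple. -/
def Fut (P : Par) (G : Gph) (t H : ℕ) (y : ℕ → St) (it : ℕ → Itm) (γ' : ℕ → Data)
    (nu : ℕ → List ℕ) (k : ℕ → Cnd3) : Prop :=
  AExt P (JJ (blk P.p t)) H 0 (G.d (t + 1)) y (adv G t y) it (fun c => G.cur t (it c))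
    (fun c => G.fin t (it c)) γ' nu k

/-- The final value of a functional at a treated tuple. -/
def evF (P : Par) (G : Gph) (t i H : ℕ) (y : ℕ → St) (mu : ℕ → List ℕ) (it : ℕ → Itm) : List ℕ :=
  ev P i H (tup P (JJ (blk P.p t)) H (cat mu (adv G t y) (fun _ => []))
    (fun c => G.fin t (it c)))

/-- The value at an extension. -/
def evX (P : Par) (G : Gph) (t i H : ℕ) (y : ℕ → St) (mu : ℕ → List ℕ) (nu : ℕ → List ℕ)
    (k : ℕ → Cnd3) : List ℕ :=
  ev P i H (tup P (JJ (blk P.p t)) H (cat mu (adv G t y) nu) k)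

/-- The contract of the root `t`. -/
structure Ctr (P : Par) (G : Gph) (t : ℕ) : Prop where
  hit : ∀ H y mu it, Ttup P G t H y mu it → ∀ i < blk P.p t, ∀ m < blk P.p t,
    m ≤ (evF P G t i H y mu it).length ∨
      ∀ γ' nu k, Fut P G t H y it γ' nu k → (evX P G t i H y mu nu k).length < m
  kill : ∀ H y mu it, Ttup P G t H y mu it → ∀ i < blk P.p t, ∀ b < P.p,
    JJ (blk P.p t) b = true → Bad (G.d (t + 1) b) (evF P G t i H y mu it) ∨
      ∀ γ' nu k, Fut P G t H y it γ' nu k → ¬ Bad (γ' b) (evX P G t i H y mu nu k)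
  killn : ∀ y mu it, Ttup P G t 0 y mu it → (∀ s < P.p, JJ (blk P.p t) s = false) →
    ∀ i < blk P.p t, ¬ P.TB (evF P G t i 0 y mu it) ∨
      ∀ γ' nu k, Fut P G t 0 y it γ' nu k →
        (evX P G t i 0 y mu nu k).length ≤ (evF P G t i 0 y mu it).length

/-- The values of an item at the root `t`: `b` before, `c` after the tasks. -/
structure ItV (P : Par) (G : Gph) (t : ℕ) (I : Itm) : Prop where
  leg : Leg (HT P I) (G.fin t I).1
  le : Txt.Le (HT P I) (ht (HT P I) (G.cur t I).1) (G.cur t I).1 (G.fin t I).1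
  null : ∀ l ∈ (st (HT P I) (G.fin t I).1).drop (ht (HT P I) (G.cur t I).1), l.1 = none
  opn : Txt.opn (HT P I) (G.fin t I).1 = none
  pt : I.col < P.p → CV (G.d (t + 1) I.col).W (LT P I) (G.fin t I) ∧
    CLe (LT P I) (G.cur t I) (G.fin t I) ∧ LgC (G.cur t I) (G.fin t I) ∧
    (∀ e ∈ (G.fin t I).2, Reg P (fun t => G.u t I.col) e.2.2) ∧
    ∃ z : St, z.1 = G.u (fst P.p (blk P.p t) - 1) I.col ∧ 1 ≤ z.2.length ∧ At z I.c ∧
      At ((G.u t I.col, z.2) : St) (G.fin t I)

/-- The record of the construction. -/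
structure Lim4 (P : Par) (G : Gph) : Prop where
  zero : ∀ s < P.p, (G.d 0 s).pub = [] ∧ (G.d 0 s).prv = [] ∧ (G.d 0 s).N = 1
  good : ∀ t, ∀ s < P.p, GD (G.d t s)
  ext : ∀ t, ∀ s < P.p, DExt (G.d t s) (G.d (t + 1) s)
  pub : ∀ t, ∀ s < P.p, (G.d (t + 1) s).pub = (G.d t s).pub ++ [G.u t s]
  root : ∀ t, ∀ s < P.p, (G.d t s).N ≤ G.nb t s ∧ G.nb t s ≤ G.u t s ∧
    G.u t s < (G.d (t + 1) s).N ∧ bk (G.u t s) = blk P.p t ∧ t ≤ sz (G.u t s) ∧
    blk P.p t + 2 < sz (G.u t s)
  /-- no roots between the bound and the new public root -/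
  gap : ∀ t, ∀ s < P.p, ∀ x y, (G.d (t + 1) s).W.edge x y → G.nb t s ≤ y.1 → G.u t s ≤ y.1
  /-- roots after the tasks are below the next public root -/
  szs : ∀ t, ∀ s < P.p, sz (G.u t s) ≤ sz (G.u (t + 1) s)
  /-- the part of `G.h` which is coded in a public root -/
  wrd : ∀ t, ∀ s < P.p, wd (G.u t s) = pre G.h (t - 1)
  code : ∀ t, ∀ s < P.p, ∀ j, j ≤ t - 1 → Encodable.encode (pre G.h j) < sz (G.u t s)
  /-- the symbols coded by `G.h` -/
  chs : ∀ t, ∀ s < P.p, VS (G.d (t + 2) s).W ((str (G.h t)).getD s 0) ∧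
    src ((str (G.h t)).getD s 0) = (G.u t s, [0]) ∧
    tgt ((str (G.h t)).getD s 0) = (G.u (t + 1) s, [0]) ∧ Ex ((str (G.h t)).getD s 0) = []
  /-- more codes than strings -/
  many : ∀ t, ∀ s < P.p, ∀ L : List (List ℕ), L.Nodup →
    (∀ σ ∈ L, VStr (G.d (t + 1) s).W o σ (endd o σ) ∧ (endd o σ).1 < G.u t s) →
    3 * L.length + 3 < sz (G.u t s)
  can : ∀ t, ∀ s < P.p, ∀ x y : St, Adm x → x.1 < G.nb t s → Adm y → y.1 = G.u t s →
    y.2.length ≤ blk P.p t + 2 →
    ∃ g, VS (G.d (t + 1) s).W g ∧ src g = x ∧ tgt g = y ∧ Ex g = []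
  cur0 : ∀ n I, IsItm P G n I → G.cur (fst P.p n) I = I.c
  cur1 : ∀ t I, IsItm P G (blk P.p t) I → blk P.p (t + 1) = blk P.p t →
    G.cur (t + 1) I = G.fin t I
  itv : ∀ t I, IsItm P G (blk P.p t) I → ItV P G t I
  ctr : ∀ t, Ctr P G t
  nbs : ∀ t, ∀ s < P.p, G.nb t s ≤ sz (G.u t s)

/-- The value of an item after its block. -/
def star (P : Par) (G : Gph) (n : ℕ) (I : Itm) : Cnd3 := G.fin (lst P.p n) I

end Pool.Agent.Lib.MP_d48993_lc.Ba.Gr
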