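import Pool.Agent.Lib.MP_d48993_lc.BAE.Gr.LimF
import Pool.Agent.Lib.MP_d48993_lc.BAE.Gr.Lg

/-!
# Part G (MP_d48993): module DENS, treated tuples are dense (finding 4201, G12)
-/

set_option autoImplicit false

namespace Pool.Agent.Lib.MP_d48993_lc.Ba.Gr

open Pool.Agent.Lib.MP_d48993_lc.Node
open MP_8c048d_lc (pre join RecF)
open Pool.Agent.Lib.MP_d48993_lc.Node.Proc (endd_snoc)

namespace Dens

section

variable {P : Par} {G : Gph} {s : ℕ}

theorem rup {σ : List ℕ} (hσ : LEs G s σ) : Rup o σ := by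
  obtain ⟨m, hm⟩ := hσ
  exact Rup.of_vstr (basic codes) (Ltree.dfit _) hm

theorem les_snoc (h : Lim4 P G) (hs : s < P.p) {σ : List ℕ} {g : ℕ} (hσ : LEs G s σ)
    (hg : VL G s g) (he : src g = endd o σ) : LEs G s (σ ++ [g]) := by
  obtain ⟨n, hn⟩ := hσ
  obtain ⟨m, hm⟩ := hg
  have hM := mono codes (basic codes)
  have h5 := LimF.vstr_mono hM h hs (le_max_right m n) hn
  have h6 := Ltree.vstr_single (LimF.vs_mono hM h hs (le_max_left m n) hm)
  rw [he] at h6
  exact ⟨_, Ltree.vstr_end codes (Ltree.vstr_append codes h5 h6)⟩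

theorem les_pfx {σ τ : List ℕ} (h : σ <+: τ) (hτ : LEs G s τ) : LEs G s σ := by
  obtain ⟨n, hn⟩ := hτ
  obtain ⟨ρ, rfl⟩ := h
  obtain ⟨-, -, -, -, -, -, -, -, -, -, -, c2, -⟩ := codes
  exact ⟨n, ((c2 _ _ _ _).1 hn.1).1, fun g hg => hn.2 g (List.mem_append_left _ hg)⟩

/-- One more symbol, into the next public root. -/
theorem snoc (h : Lim4 P G) (hs : s < P.p) {τ ν : List ℕ} {t : ℕ} {y : St} (hτ : RL P G s τ)
    (hν : ν <+: τ) (h1 : (endd o ν).1 = G.u t s) (h2 : (endd o τ).1 < G.u (t + 1) s)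
    (hy : Adm y) (hyu : y.1 = G.u (t + 1) s) (hl : Link P t (endd o ν) y) :
    ∃ g, RL P G s (τ ++ [g]) ∧ endd o (τ ++ [g]) = y := by
  obtain ⟨g, g1, g2, g3, -⟩ := LimF.can_end (basic codes) (mono codes (basic codes)) h hs hτ.1
    h2 hy hyu (by have := hl.yb; omega)
  have h3 := les_snoc h hs hτ.1 g1 g2
  refine ⟨g, ⟨h3, ?_⟩, by rw [endd_snoc]; exact g3⟩
  exact hτ.2.snoc_pub (h.rts hs) (rup h3) hν h1 (by rw [g3]; exact hyu) (by rw [g3]; exact hl)

theorem bk_u (h : Lim4 P G) (hs : s < P.p) (t : ℕ) : bk (G.u t s) = blk P.p t :=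
  (h.root t s hs).2.2.2.1

theorem link_keep (h : Lim4 P G) (hs : s < P.p) {t : ℕ} {w w' : List ℕ} (h1 : 1 ≤ w.length)
    (h2 : w.length ≤ blk P.p t) (h3 : w'.length = w.length) (h4 : w'.head? = w.head?) :
    Link P t (G.u t s, w) (G.u (t + 1) s, w') := by
  rcases blk_step P.p t with ⟨h5, -⟩ | ⟨h5, -⟩
  · exact Link.of_ins h1 h2 h5 h3 h4
  · refine Link.of_rise h1 h2 (by omega) (by rw [h3]; exact h1) ?_ ?_
    · show w'.length ≤ _
      omega
    · show bk (G.u t s) + w'.length < bk (G.u (t + 1) s) + w.length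
      rw [bk_u h hs, bk_u h hs]
      omega

theorem adm_up (h : Lim4 P G) (hs : s < P.p) {t : ℕ} {w : List ℕ} (hw : Adm (G.u t s, w)) :
    Adm (G.u (t + 1) s, w) := by
  have h1 := h.szs t s hs
  exact ⟨hw.1.trans h1, fun b hb => lt_of_lt_of_le (hw.2 b hb) h1⟩

/-- The string of the state is kept. -/
theorem keep (h : Lim4 P G) (hs : s < P.p) {τ : List ℕ} {t t' : ℕ} {w : List ℕ}
    (hτ : RL P G s τ) (he : endd o τ = (G.u t s, w)) (htt : t ≤ t') :
    ∃ τ', τ <+: τ' ∧ RL P G s τ' ∧ endd o τ' = (G.u t' s, w) := by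
  induction t', htt using Nat.le_induction with
  | base => exact ⟨τ, List.prefix_rfl, hτ, he⟩
  | succ t' ht ih =>
    obtain ⟨τ', a1, a2, a3⟩ := ih
    have hd := a2.2.dep t' τ' List.prefix_rfl (by rw [a3])
    rw [a3] at hd
    have hadm := LimF.end_adm (basic codes) h hs a2.1
    rw [a3] at hadm
    have hu := h.u_lt hs t'
    obtain ⟨g, g1, g2⟩ := snoc h hs (t := t') (y := (G.u (t' + 1) s, w)) a2 List.prefix_rfl
      (by rw [a3]) (by rw [a3]; exact hu) (adm_up h hs hadm) rfl
      (by rw [a3]; exact link_keep h hs hd.1 hd.2 rfl rfl)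
    exact ⟨τ' ++ [g], a1.trans (List.prefix_append _ _), g1, g2⟩

/-- Every condition has an extension of depth at least two, into a state of the form `x^0`. -/
theorem deep (hP : P.Ok) (h : Lim4 P G) (hs : s < P.p) {σ : List ℕ} (hσ : Ps P G s σ) :
    ∃ (τ w0 : List ℕ) (T : ℕ), σ <+: τ ∧ RL P G s τ ∧ endd o τ = (G.u T s, w0 ++ [0]) ∧
      1 ≤ w0.length := by
  obtain ⟨hR, n, hn, he⟩ := hσ
  obtain ⟨x, hx⟩ : ∃ x, x = endd o σ := ⟨_, rfl⟩
  obtain ⟨r, w⟩ := x
  rw [← hx] at he
  have he : r = G.u (lst P.p n) s := he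
  subst he
  have hd := hR.2.dep (lst P.p n) σ List.prefix_rfl (by rw [← hx])
  rw [← hx] at hd
  have hd1 : 1 ≤ w.length := hd.1
  have hd2 : w.length ≤ blk P.p (lst P.p n) := hd.2
  have hadm := LimF.end_adm (basic codes) h hs hR.1
  rw [← hx] at hadm
  have hsz : ∀ t, blk P.p t + 2 < sz (G.u t s) := fun t => (h.root t s hs).2.2.2.2.2
  by_cases hw : 2 ≤ w.length
  · -- the depth is at least two
    have hup := adm_up h hs hadm
    have hne : w.dropLast ≠ [] := by
      intro h0
      have := congrArg List.length h0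
      rw [List.length_dropLast] at this
      simp only [List.length_nil] at this
      omega
    have hlen : (w.dropLast ++ [0]).length = w.length := by
      rw [List.length_append, List.length_dropLast, List.length_singleton]
      omega
    have hhd : (w.dropLast ++ [0]).head? = w.head? := by
      rw [List.head?_append]
      cases hw' : w with
      | nil => rw [hw'] at hw; simp at hw
      | cons a l =>
        cases l with
        | nil => rw [hw'] at hw; simp at hw
        | cons b l => rfl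
    obtain ⟨g, g1, g2⟩ := snoc h hs (t := lst P.p n) (y := (G.u (lst P.p n + 1) s, w.dropLast ++ [0]))
      hR List.prefix_rfl (by rw [← hx]) (by rw [← hx]; exact h.u_lt hs _)
      ⟨by
        show (w.dropLast ++ [0]).length ≤ _
        rw [hlen]; exact hup.1, fun b hb => by
        rcases List.mem_append.1 hb with h1 | h1
        · exact hup.2 b (List.dropLast_subset w h1)
        · rw [List.mem_singleton.1 h1]
          have := hsz (lst P.p n + 1)
          show 0 < sz (G.u (lst P.p n + 1) s)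
          omega⟩ rfl
      (by rw [← hx]; exact link_keep h hs hd1 hd2 hlen hhd)
    refine ⟨σ ++ [g], w.dropLast, lst P.p n + 1, List.prefix_append _ _, g1, g2, ?_⟩
    rw [List.length_dropLast]
    omega
  · -- the depth is one
    have hw1 : w.length = 1 := by omega
    have hb0 := blk_lst P.p hn
    have hb1 := blk_lst_succ P.p hn
    obtain ⟨g, g1, g2⟩ := snoc h hs (t := lst P.p n)
      (y := (G.u (lst P.p n + 1) s, [Encodable.encode ([] : List ℕ)]))
      hR List.prefix_rfl (by rw [← hx]) (by rw [← hx]; exact h.u_lt hs _)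
      ⟨by
        have := hsz (lst P.p n + 1)
        show 1 ≤ sz (G.u (lst P.p n + 1) s)
        omega, fun b hb => by
        rw [List.mem_singleton.1 hb]
        exact h.code (lst P.p n + 1) s hs 0 (Nat.zero_le _)⟩ rfl
      (by
        rw [← hx]
        refine Link.of_rise hd1 hd2 (by omega) (le_refl _) ?_ ?_
        · show 1 ≤ _
          omega
        · show bk (G.u (lst P.p n) s) + 1 < bk (G.u (lst P.p n + 1) s) + w.length
          rw [bk_u h hs, bk_u h hs]
          omega)
    have hT1 : lst P.p n + 1 ≤ lst P.p (n + 1) := by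
      rw [lst_succ P.p hn]
      exact fst_le_lst P.p (by omega)
    obtain ⟨τ, a1, a2, a3⟩ := keep h hs g1 g2 hT1
    have hc0 := blk_lst P.p (show 2 ≤ n + 1 by omega)
    have hc1 := blk_lst_succ P.p (show 2 ≤ n + 1 by omega)
    have hp1 : (pre G.h 1).length = 1 := by simp [pre]
    obtain ⟨g', g1', g2'⟩ := snoc h hs (t := lst P.p (n + 1))
      (y := (G.u (lst P.p (n + 1) + 1) s, [Encodable.encode (pre G.h 1)] ++ [0]))
      a2 List.prefix_rfl (by rw [a3]) (by rw [a3]; exact h.u_lt hs _)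
      ⟨by
        have := hsz (lst P.p (n + 1) + 1)
        show 2 ≤ sz (G.u (lst P.p (n + 1) + 1) s)
        omega, fun b hb => by
        rcases List.mem_append.1 hb with h1 | h1
        · rw [List.mem_singleton.1 h1]
          exact h.code _ s hs 1 (by omega)
        · rw [List.mem_singleton.1 h1]
          have := hsz (lst P.p (n + 1) + 1)
          show 0 < sz (G.u (lst P.p (n + 1) + 1) s)
          omega⟩ rfl
      (by
        rw [a3]
        refine ⟨le_refl _, ?_, ?_, ?_, fun h0 => absurd h0 (by omega), fun _ => Or.inr ⟨?_, ?_, ?_, ?_⟩⟩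
        · show 1 ≤ _
          omega
        · show 1 ≤ 2
          omega
        · show 2 ≤ _
          omega
        · show bk (G.u (lst P.p (n + 1)) s) + 2 = bk (G.u (lst P.p (n + 1) + 1) s) + 1
          rw [bk_u h hs, bk_u h hs]
          omega
        · have e1 : pay ((G.u (lst P.p (n + 1)) s, [Encodable.encode ([] : List ℕ)]) : St) = [] := by
            show str (Encodable.encode ([] : List ℕ)) = []
            exact Denumerable.ofNat_encode _
          rw [e1]
          exact List.nil_prefix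
        · have e1 : pay ((G.u (lst P.p (n + 1)) s, [Encodable.encode ([] : List ℕ)]) : St) = [] := by
            show str (Encodable.encode ([] : List ℕ)) = []
            exact Denumerable.ofNat_encode _
          have e2 : pay ((G.u (lst P.p (n + 1) + 1) s,
              [Encodable.encode (pre G.h 1)] ++ [0]) : St) = pre G.h 1 := by
            show str (Encodable.encode (pre G.h 1)) = pre G.h 1
            exact Denumerable.ofNat_encode _
          rw [e1, e2]
          intro h0
          rw [← h0] at hp1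
          simp at hp1
        · have e2 : pay ((G.u (lst P.p (n + 1) + 1) s,
              [Encodable.encode (pre G.h 1)] ++ [0]) : St) = pre G.h 1 := by
            show str (Encodable.encode (pre G.h 1)) = pre G.h 1
            exact Denumerable.ofNat_encode _
          rw [e2]
          show _ <+: wd (G.u (lst P.p (n + 1) + 1) s)
          rw [h.wrd (lst P.p (n + 1) + 1) s hs]
          have e3 := MP_8c048d_lc.pre_take G.h (lst P.p (n + 1) + 1 - 1) 1
          rw [min_eq_left (by omega)] at e3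
          rw [← e3]
          exact List.take_prefix _ _)
    exact ⟨τ ++ [g'], [Encodable.encode (pre G.h 1)], lst P.p (n + 1) + 1,
      (List.prefix_append _ _).trans (a1.trans (List.prefix_append _ _)), g1', g2', le_refl _⟩

/-- The strings through the advice of a treated state. -/
theorem thru (h : Lim4 P G) (hs : s < P.p) {τ w : List ℕ} {T t n : ℕ} (hτ : RL P G s τ)
    (he : endd o τ = (G.u T s, w ++ [0])) (hTt : T ≤ t) (hn : 2 ≤ n) (hb : blk P.p t = n) :
    ∃ mu σ' : List ℕ, Ps P G s σ' ∧ τ <+: mu ∧ Adm ((G.u t s, w ++ [0]) : St) ∧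
      VStr (G.d (t + 1) s).W o mu (G.u t s, w ++ [0]) ∧
      mu ++ ((G.d (t + 1) s).W.adv (G.u t s, w ++ [0])).getD [] <+: σ' ∧
      (∀ ρ, ρ <+: σ' → (endd o ρ).1 = G.u (fst P.p (n + 1)) s →
        Rise (G.u t s, w ++ [0]) (endd o ρ)) ∧
      G.u (fst P.p (n + 1)) s ≤ (endd o σ').1 := by
  obtain ⟨mu, m1, m2, m3⟩ := keep h hs hτ he hTt
  have hadm := LimF.end_adm (basic codes) h hs m2.1
  rw [m3] at hadm
  have hd := m2.2.dep t mu List.prefix_rfl (by rw [m3])
  rw [m3] at hd
  have hM := mono codes (basic codes)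
  have hN : (endd o mu).1 < (G.d (t + 1) s).N := by
    rw [m3]
    exact (h.root t s hs).2.2.1
  have hN' : (G.d (t + 1) s).N ≤ G.u (t + 1) s :=
    (h.root (t + 1) s hs).1.trans (h.root (t + 1) s hs).2.1
  have hv := (LimF.vstr_loc (basic codes) hM h hs mu (t + 1) hN).1 m2.1
  have hgd := h.good (t + 1) s hs
  have hpub : G.u t s ∈ (G.d (t + 1) s).pub := by
    rw [h.pub t s hs]
    simp
  obtain ⟨α, hα⟩ := Option.isSome_iff_exists.1
    (hgd.full (G.u t s, w ++ [0]) hadm ⟨(G.u t s, w), rfl⟩ hpub)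
  have hαv := hgd.wf.inv.advValid _ _ hα
  rw [← m3] at hαv
  have hva := Ltree.vstr_end codes (Ltree.vstr_append codes hv hαv)
  have hle : LEs G s (mu ++ α) := ⟨_, hva⟩
  have hend := (Ltree.end_adm (basic codes) hgd.wf hva).2
  have hreg : ∀ β, β <+: α → RL P G s (mu ++ β) := by
    intro β
    induction β using List.reverseRecOn with
    | nil => intro _; rw [List.append_nil]; exact m2
    | append_singleton β g ih =>
      intro hβ
      have hβ' : β <+: α := (List.prefix_append _ _).trans hβ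
      have hg : g ∈ α := hβ.subset (by simp)
      have i1 := ih hβ'
      have i2 : LEs G s (mu ++ (β ++ [g])) :=
        les_pfx ((List.prefix_append_right_inj mu).2 hβ) hle
      refine ⟨i2, ?_⟩
      rw [← List.append_assoc] at i2 ⊢
      refine i1.2.snoc_prv (t := t) (h.rts hs) (rup i2) (List.prefix_append mu β) (by rw [m3]) ?_ ?_
      · have h3 := (basic codes _ (Ltree.dfit (G.d (t + 1) s))).1 g (hαv.2 g hg)
        exact lt_of_lt_of_le h3.2.1 hN'
      · rw [m3]
        exact hgd.lg _ _ hα g hg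
  have hRα := hreg α List.prefix_rfl
  obtain ⟨g, g1, g2⟩ := snoc h hs (t := t) (y := (G.u (t + 1) s, w ++ [0])) hRα
    (List.prefix_append mu α) (by rw [m3]) (lt_of_lt_of_le hend hN') (adm_up h hs hadm) rfl
    (by rw [m3]; exact link_keep h hs hd.1 hd.2 rfl rfl)
  have hF : t + 1 ≤ fst P.p (n + 1) := ((blk_eq_iff P.p hn).1 hb).2
  obtain ⟨κ, k1, k2, k3⟩ := keep h hs g1 g2 hF
  obtain ⟨σ', l1, l2, l3⟩ := keep h hs k2 k3 (fst_le_lst P.p (show 2 ≤ n + 1 by omega))
  refine ⟨mu, σ', ⟨l2, n + 1, by omega, by rw [l3]⟩, m1, hadm, by rw [← m3]; exact hv, ?_, ?_, ?_⟩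
  · rw [hα]
    exact (List.prefix_append _ _).trans (k1.trans l1)
  · intro ρ h1 h2
    have h3 : ρ = κ := (rup l2.1).eq h1 l1 (by rw [h2, k3])
    rw [h3, k3]
    show bk (G.u t s) + (w ++ [0]).length < bk (G.u (fst P.p (n + 1)) s) + (w ++ [0]).length
    rw [bk_u h hs, bk_u h hs, hb, blk_fst P.p (show 2 ≤ n + 1 by omega)]
    omega
  · rw [l3]
    exact (h.rts hs).mono.monotone (fst_le_lst P.p (show 2 ≤ n + 1 by omega))

end

end Dens

/-- Module DENS. -/
theorem dens : DensStatement := by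
  classical
  intro P hP G h J σ hσ
  have key : ∀ s, ∃ (τ w0 : List ℕ) (T : ℕ), s < P.p → J s = false → σ s <+: τ ∧ RL P G s τ ∧
      endd o τ = (G.u T s, w0 ++ [0]) ∧ 1 ≤ w0.length := by
    intro s
    by_cases hs : s < P.p ∧ J s = false
    · obtain ⟨τ, w0, T, hh⟩ := Dens.deep hP h hs.1 (hσ s hs.1 hs.2)
      exact ⟨τ, w0, T, fun _ _ => hh⟩
    · exact ⟨[], [], 0, fun h1 h2 => absurd ⟨h1, h2⟩ hs⟩
  choose τ w0 T hT using key
  refine ⟨(Finset.range P.p).sup (fun s => blk P.p (T s)) + 1, ?_⟩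
  intro n hn hn3 hJ
  have hb : ∀ s < P.p, blk P.p (T s) < n := fun s hs => by
    have h1 : blk P.p (T s) ≤ (Finset.range P.p).sup (fun s => blk P.p (T s)) :=
      Finset.le_sup (f := fun s => blk P.p (T s)) (Finset.mem_range.2 hs)
    omega
  obtain ⟨t, ht, hdv⟩ := dv_surj P.p (n := n) (by omega)
    (fun s => if J s = false then (w0 s).length + 1 else 2) (by
      intro s hs
      show 2 ≤ (if J s = false then (w0 s).length + 1 else 2) ∧
        (if J s = false then (w0 s).length + 1 else 2) ≤ n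
      by_cases hJs : J s = false
      · rw [if_pos hJs]
        obtain ⟨-, h2, h3, h4⟩ := hT s hs hJs
        have h5 := h2.2.dep (T s) (τ s) List.prefix_rfl (by rw [h3])
        rw [h3] at h5
        have h6 : (w0 s ++ [0]).length ≤ blk P.p (T s) := h5.2
        rw [List.length_append, List.length_singleton] at h6
        have := hb s hs
        omega
      · rw [if_neg hJs]
        omega)
  have main : ∀ s, ∃ mu σ' : List ℕ, s < P.p → J s = false →
      Ps P G s σ' ∧ τ s <+: mu ∧ Adm ((G.u t s, w0 s ++ [0]) : St) ∧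
      VStr (G.d (t + 1) s).W o mu (G.u t s, w0 s ++ [0]) ∧
      mu ++ ((G.d (t + 1) s).W.adv (G.u t s, w0 s ++ [0])).getD [] <+: σ' ∧
      (∀ ρ, ρ <+: σ' → (endd o ρ).1 = G.u (fst P.p (n + 1)) s →
        Rise (G.u t s, w0 s ++ [0]) (endd o ρ)) ∧
      G.u (fst P.p (n + 1)) s ≤ (endd o σ').1 := by
    intro s
    by_cases hs : s < P.p ∧ J s = false
    · obtain ⟨h1, h2, h3, h4⟩ := hT s hs.1 hs.2
      have h5 : T s < t := lt_of_blk_lt P.p (by rw [ht]; exact hb s hs.1)
      obtain ⟨mu, σ', hh⟩ := Dens.thru h hs.1 h2 h3 h5.le (by omega) ht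
      exact ⟨mu, σ', fun _ _ => hh⟩
    · exact ⟨[], [], fun h1 h2 => absurd ⟨h1, h2⟩ hs⟩
  choose mu σ' hm using main
  refine ⟨t, fun s => (G.u t s, w0 s ++ [0]), mu, σ', ht, fun s hs hJs => ?_⟩
  obtain ⟨m1, m2, m3, m4, m5, m6, m7⟩ := hm s hs hJs
  have h1 := (hT s hs hJs).1
  refine ⟨m1, h1.trans m2, ⟨rfl, m3, ⟨(G.u t s, w0 s), rfl⟩, ?_⟩, m4, m5, m6, m7⟩
  rw [hdv s hs]
  show (w0 s ++ [0]).length = if J s = false then (w0 s).length + 1 else 2
  rw [if_pos hJs, List.length_append, List.length_singleton]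

end Pool.Agent.Lib.MP_d48993_lc.Ba.Gr
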