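import Pool.Agent.Lib.MP_d48993_lc.BAE.Gr.Stm2
import Pool.Agent.Lib.MP_d48993_lc.AE.Node.Dens3
import Pool.Agent.Lib.MP_d48993_lc.Tec

/-!
# Part G (MP_d48993), module GT4 (helper77): the clauses (G4)

Restriction of a condition to fewer labels, composition of coned extensions.
-/

set_option autoImplicit false

namespace Pool.Agent.Lib.MP_d48993_lc.Ba.Gr

open Pool.Agent.Lib.MP_d48993_lc.Node
open MP_8c048d_lc (pre join RecF)
open Txt (ht st mC mN mR ltN okN Leg)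

namespace Gt4

/-! ## Restriction -/

theorem mem_res {T : List ℕ → Prop} {c : Cnd3} {e : List ℕ × List ℕ × List ℕ} :
    e ∈ (res T c).2 ↔ e ∈ c.2 ∧ T e.1 := by
  unfold res
  simp only [List.mem_filter, decide_eq_true_iff]

theorem res_fst (T : List ℕ → Prop) (c : Cnd3) : (res T c).1 = c.1 := rfl

/-- restriction to a smaller tree -/
theorem cv_res {W : World} {T T' : List ℕ → Prop} {c : Cnd3} (hPC : PC T') (h0 : T' [])
    (hc : CV W T c) : CV W T' (res T' c) := by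
  refine ⟨?_, ?_, ?_, ?_, ?_, ?_, ?_, ?_, ?_⟩
  · obtain ⟨p, hp⟩ := hc.root
    exact ⟨p, mem_res.2 ⟨hp, h0⟩⟩
  · exact fun e he e' he' => hc.uniq e (mem_res.1 he).1 e' (mem_res.1 he').1
  · exact fun e he => (mem_res.1 he).2
  · exact fun e he => hc.img e (mem_res.1 he).1
  · exact fun e he => hc.stem e (mem_res.1 he).1
  · exact fun e he e' he' => hc.emb e (mem_res.1 he).1 e' (mem_res.1 he').1
  · exact fun e he e' he' => hc.stemEmb e (mem_res.1 he).1 e' (mem_res.1 he').1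
  · intro e he hne
    obtain ⟨e', he', h1⟩ := hc.parent e (mem_res.1 he).1 hne
    refine ⟨e', mem_res.2 ⟨he', ?_⟩, h1⟩
    rw [h1]
    exact hPC _ _ (List.dropLast_prefix _) (mem_res.1 he).2
  · refine Dens3.ac_mono (fun ν hν => ?_) hc.ac
    obtain ⟨e, he, hp⟩ := hν
    exact ⟨e, (mem_res.1 he).1, hp⟩

theorem at_res {z : St} {c : Cnd3} (h : At z c) (T : List ℕ → Prop) : At z (res T c) :=
  ⟨fun e he => h.en e (mem_res.1 he).1,
    fun e he e' he' => h.inj e (mem_res.1 he).1 e' (mem_res.1 he').1⟩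

/-- A restriction that changes nothing. -/
theorem res_eq {T : List ℕ → Prop} {c : Cnd3} (h : ∀ e ∈ c.2, T e.1) : res T c = c := by
  unfold res
  refine Prod.ext rfl ?_
  refine List.filter_eq_self.2 (fun e he => ?_)
  simp only [decide_eq_true_iff]
  exact h e he

/-- (G4), first clause. -/
theorem g4a {P : Par} (hP : P.Ok) {G : Gph} {s hd n : ℕ} {E : List ℕ} {c : Cnd3}
    (h : CG P G s (P.Hd hd) n E c) (E' : List ℕ) :
    CG P G s (P.Hd hd) n E' (res (TE P.Tr E') c) := by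
  refine ⟨h.leg, cv_res (te_pc hP.trt E') trivial h.cv, ?_, fun e he => h.reg e (mem_res.1 he).1⟩
  obtain ⟨z, hz, hl, ha⟩ := h.at'
  exact ⟨z, hz, hl, at_res ha _⟩

/-! ## Composition -/

/-- Every triple of `c''` with a new label is above a stem of `c'`. -/
theorem anc_new {W : World} {T' : List ℕ → Prop} {c' c'' : Cnd3} (hr : ∃ e ∈ c'.2, e.1 = [])
    (hv : CV W T' c'') (hle : CLe T' c' c'') :
    ∀ (l : ℕ), ∀ e ∈ c''.2, e.1.length = l → (∀ e₀ ∈ c'.2, e₀.1 ≠ e.1) →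
      ∃ e₁ ∈ c'.2, e₁.1 <+: e.1 ∧ e₁.2.2 <+: e.2.1 := by
  intro l
  induction l with
  | zero =>
    intro e he hl hn
    obtain ⟨r, hr, hr1⟩ := hr
    exact absurd (hr1.trans (List.length_eq_zero_iff.1 hl).symm) (hn r hr)
  | succ l ih =>
    intro e he hl hn
    have hne : e.1 ≠ [] := by
      intro h
      rw [h] at hl
      exact absurd hl (by simp)
    obtain ⟨f, hf, hf1⟩ := hv.parent e he hne
    have hfe : f.1 <+: e.1 := by rw [hf1]; exact List.dropLast_prefix _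
    by_cases h : ∃ e₁ ∈ c'.2, e₁.1 = f.1
    · obtain ⟨e₁, he₁, h1⟩ := h
      exact ⟨e₁, he₁, by rw [h1]; exact hfe, hle.new e he hn e₁ he₁ (h1.trans hf1)⟩
    · obtain ⟨e₁, he₁, h1, h2⟩ := ih f hf (by rw [hf1, List.length_dropLast, hl]; rfl)
        (fun e₀ he₀ h0 => h ⟨e₀, he₀, h0⟩)
      exact ⟨e₁, he₁, h1.trans hfe, h2.trans ((hv.emb f hf e he).2 hfe)⟩

/-- Every stem of `c''` is above a stem of `c'` whose label is an initial segment. -/
theorem anc {W : World} {T' : List ℕ → Prop} {c' c'' : Cnd3} (hr : ∃ e ∈ c'.2, e.1 = [])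
    (hv : CV W T' c'') (hle : CLe T' c' c'') {e : List ℕ × List ℕ × List ℕ} (he : e ∈ c''.2) :
    ∃ e₁ ∈ c'.2, e₁.1 <+: e.1 ∧ e₁.2.2 <+: e.2.2 := by
  by_cases h : ∃ e₀ ∈ c'.2, e₀.1 = e.1
  · obtain ⟨e₀, he₀, h1⟩ := h
    obtain ⟨p', hp, hm⟩ := hle.old e₀ he₀
    have h2 : (e₀.1, e₀.2.1, p') = e := hv.uniq _ hm e he h1
    exact ⟨e₀, he₀, by rw [h1], by rw [← h2]; exact hp⟩
  · obtain ⟨e₁, he₁, h1, h2⟩ := anc_new hr hv hle _ e he rfl (fun e₀ he₀ h0 => h ⟨e₀, he₀, h0⟩)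
    exact ⟨e₁, he₁, h1, h2.trans (hv.stem e he).1⟩

/-- Composition of extensions, the first one for fewer labels. -/
theorem cle_res {T T' : List ℕ → Prop} {c c' c'' : Cnd3} (hT : ∀ σ, T σ → T' σ)
    (hu : ∀ e ∈ c''.2, ∀ e' ∈ c''.2, e.1 = e'.1 → e = e') (h1 : CLe T c (res T c'))
    (h2 : CLe T' c' c'') : CLe T c (res T c'') := by
  refine ⟨h1.px.trans h2.px, ?_, ?_, ?_⟩
  · intro e he
    obtain ⟨p', hp, hm⟩ := h1.old e he
    obtain ⟨hm1, hm2⟩ := mem_res.1 hm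
    obtain ⟨p'', hp', hm'⟩ := h2.old _ hm1
    exact ⟨p'', hp.trans hp', mem_res.2 ⟨hm', hm2⟩⟩
  · intro e he hn e₁ he₁ hd
    obtain ⟨he2, heT⟩ := mem_res.1 he
    by_cases h : ∃ e₀ ∈ c'.2, e₀.1 = e.1
    · obtain ⟨e₀, he₀, h0⟩ := h
      obtain ⟨p', hp, hm⟩ := h2.old e₀ he₀
      have h3 : (e₀.1, e₀.2.1, p') = e := hu _ hm e he2 h0
      have h4 : e₀.2.1 = e.2.1 := congrArg (fun x => x.2.1) h3
      rw [← h4]
      refine h1.new e₀ (mem_res.2 ⟨he₀, ?_⟩) ?_ e₁ he₁ ?_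
      · rw [h0]; exact heT
      · rw [h0]; exact hn
      · rw [h0]; exact hd
    · obtain ⟨p', hp, hm⟩ := h1.old e₁ he₁
      obtain ⟨hm1, hm2⟩ := mem_res.1 hm
      exact hp.trans (h2.new e he2 (fun e₀ he₀ h0 => h ⟨e₀, he₀, h0⟩) _ hm1 hd)
  · intro a ha s ρ hf hs
    obtain ⟨l', hl'⟩ := h1.px
    obtain ⟨l'', hl''⟩ := h2.px
    have e1 : c'.1 = c.1 ++ l' := hl'.symm
    have e2 : c''.1 = c.1 ++ (l' ++ l'') := by rw [← hl'', e1, List.append_assoc]
    have ha' : a ∈ c''.1.drop c.1.length := ha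
    rw [e2, List.drop_left, List.mem_append] at ha'
    rcases ha' with ha' | ha'
    · obtain ⟨p, hp⟩ := h1.fact a (by
        show a ∈ c'.1.drop c.1.length
        rw [e1, List.drop_left]; exact ha') s ρ hf hs
      obtain ⟨hm1, hm2⟩ := mem_res.1 hp
      obtain ⟨p', _, hm'⟩ := h2.old _ hm1
      exact ⟨p', mem_res.2 ⟨hm', hs⟩⟩
    · obtain ⟨p, hp⟩ := h2.fact a (by
        rw [← hl'', List.drop_left]; exact ha') s ρ hf (hT s hs)
      exact ⟨p, mem_res.2 ⟨hp, hs⟩⟩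

theorem fst_mono (p : ℕ) : Monotone (fst p) := by
  refine monotone_nat_of_le_succ (fun n => ?_)
  match n with
  | 0 => exact Nat.zero_le _
  | 1 => exact Nat.zero_le _
  | n + 2 =>
    show fst p (n + 2) ≤ (if n + 2 ≤ 1 then 0 else fst p (n + 2) + nb p (n + 2))
    rw [if_neg (by omega)]
    omega

theorem lst_mono (p : ℕ) : Monotone (lst p) := fun _ _ h =>
  Nat.sub_le_sub_right (fst_mono p (Nat.succ_le_succ h)) 1

theorem ow_inj {x y : St} {i j : ℕ} (h : ow x i = ow y j) : x = y := by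
  have h0 : (x.1, x.2 ++ [i]) = (y.1, y.2 ++ [j]) := h
  have h1 : x.1 = y.1 := (Prod.mk.inj h0).1
  have h2 : x.2 ++ [i] = y.2 ++ [j] := (Prod.mk.inj h0).2
  exact Prod.ext h1 (List.append_inj_left' h2 rfl)

/-- Two states of a condition with a triple are equal. -/
theorem at_unique {z z' : St} {c c' : Cnd3} (h : At z c) (h' : At z' c')
    {e : List ℕ × List ℕ × List ℕ} (he : e ∈ c.2) (he' : e ∈ c'.2) : z = z' := by
  obtain ⟨i, -, hi⟩ := h.en e he
  obtain ⟨j, -, hj⟩ := h'.en e he'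
  exact ow_inj (hi.symm.trans hj)

/-- (G4), second clause (with a valid `c''`). -/
theorem g4b {P : Par} {G : Gph} {s : ℕ} {T T' : List ℕ → Prop} {n n' n'' : ℕ}
    {c c' c'' : Cnd3} (hn : n ≤ n') (hn' : n' ≤ n'') (hPC : PC T) (hT : ∀ σ, T σ → T' σ)
    (h0 : T []) (hr : ∃ e ∈ c'.2, e.1 = []) {W : World} (hv : CV W T' c'')
    (h1 : Con P G s T n n' c (res T c')) (h2 : Con P G s T' n' n'' c' c'') :
    Con P G s T n n'' c (res T c'') := by
  refine ⟨cle_res hT hv.uniq h1.le h2.le, ?_⟩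
  obtain ⟨Z, hZ, ha, ha', hl, hs⟩ := h1.drv
  obtain ⟨Y, hY, hb, hb', hl', hs'⟩ := h2.drv
  have hm : lst P.p (n - 1) ≤ lst P.p (n' - 1) := lst_mono _ (by omega)
  have hm' : lst P.p (n' - 1) ≤ lst P.p (n'' - 1) := lst_mono _ (by omega)
  have heq : Z (lst P.p (n' - 1)) = Y (lst P.p (n' - 1)) := by
    obtain ⟨r, hr, hr1⟩ := hr
    exact at_unique ha' hb (mem_res.2 ⟨hr, by rw [hr1]; exact h0⟩) hr
  refine ⟨fun t => if t ≤ lst P.p (n' - 1) then Z t else Y t, ?_, ?_, ?_, ?_, ?_⟩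
  · intro t
    by_cases ht : t ≤ lst P.p (n' - 1)
    · simp only [if_pos ht]; exact hZ t
    · simp only [if_neg ht]; exact hY t
  · simp only [if_pos hm]; exact ha
  · by_cases ht : lst P.p (n'' - 1) ≤ lst P.p (n' - 1)
    · have he : lst P.p (n'' - 1) = lst P.p (n' - 1) := le_antisymm ht hm'
      simp only [if_pos ht]
      rw [he, heq, ← he]
      exact at_res hb' T
    · simp only [if_neg ht]; exact at_res hb' T
  · intro t ht1 ht2
    by_cases ht : t < lst P.p (n' - 1)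
    · simp only [if_pos (le_of_lt ht), if_pos (Nat.succ_le_of_lt ht)]
      exact hl t ht1 ht
    · rcases Nat.eq_or_lt_of_le (not_lt.1 ht) with he | hlt
      · have h3 : ¬ (t + 1 ≤ lst P.p (n' - 1)) := by omega
        simp only [if_pos (le_of_eq he.symm), if_neg h3]
        rw [← he, heq, he]
        exact hl' t (le_of_eq he) ht2
      · have h3 : ¬ (t + 1 ≤ lst P.p (n' - 1)) := by omega
        have h4 : ¬ (t ≤ lst P.p (n' - 1)) := by omega
        simp only [if_neg h3, if_neg h4]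
        exact hl' t (le_of_lt hlt) ht2
  · intro e he t ht1 ht2
    obtain ⟨he2, heT⟩ := mem_res.1 he
    by_cases ht : t ≤ lst P.p (n' - 1)
    · obtain ⟨e₁, he₁, h3, h4⟩ := anc hr hv h2.le he2
      obtain ⟨ν, i, hν, hi, hw⟩ := hs e₁ (mem_res.2 ⟨he₁, hPC _ _ h3 heT⟩) t ht1 ht
      exact ⟨ν, i, hν.trans h4, hi, by simp only [if_pos ht]; exact hw⟩
    · obtain ⟨ν, i, hν, hi, hw⟩ := hs' e he2 t (not_le.1 ht) ht2
      exact ⟨ν, i, hν, hi, by simp only [if_neg ht]; exact hw⟩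

/-! ## The Rise at the first border -/

/-- The roots of a valid string increase strictly. -/
theorem root_lt {W : World} (hI : Inv W) (hC : CodesStatement) (hB : BasicStatement) :
    ∀ (τ : List ℕ) (x : St) (ν : List ℕ), VStr W x τ (endd x τ) → ν <+: τ → ν ≠ τ →
      (endd x ν).1 < (endd x τ).1 := by
  have hed := (hB W hI.fit).1
  obtain ⟨-, -, -, -, -, -, -, -, -, -, hend, happ, hea⟩ := hC
  intro τ
  induction τ using List.reverseRecOn with
  | nil =>
    intro x ν _ hν hne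
    exact absurd (List.prefix_nil.1 hν) hne
  | append_singleton τ g ih =>
    intro x ν hτ hν hne
    have hg : VS W g := hτ.2 g (List.mem_append_right _ (List.mem_singleton.2 rfl))
    have hch := (happ x τ [g] _).1 hτ.1
    have hsg : src g = endd x τ := hch.2.1
    have hlt : (endd x τ).1 < (endd x (τ ++ [g])).1 := by
      have h1 := (hI.fit _ _ (hed g hg)).2.2.1
      rw [hsg] at h1
      have h2 : endd x (τ ++ [g]) = tgt g := by
        unfold endd
        simp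
      rw [h2]
      exact h1
    rcases List.prefix_concat_iff.1 hν with h | h
    · exact absurd h hne
    · by_cases h3 : ν = τ
      · rw [h3]; exact hlt
      · exact (ih x ν ⟨hch.1, fun s hs => hτ.2 s (List.mem_append_left _ hs)⟩ h h3).trans hlt

/-- Composition with a Rise at the first border. -/
theorem con1_comp (hC : CodesStatement) (hB : BasicStatement) {P : Par} {G : Gph} {s : ℕ}
    {T T' : List ℕ → Prop} {n n' n'' : ℕ} {c c' c'' : Cnd3} (hn : n < n')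
    (hn' : n' ≤ n'') (hPC : PC T) (hT : ∀ σ, T σ → T' σ) (h0 : T [])
    (hr : ∃ e ∈ c'.2, e.1 = []) {W : World} (hI : Inv W) (hv : CV W T' c'')
    (hu : ∀ t t', t < t' → G.u t s < G.u t' s) (hfl : fst P.p n ≤ lst P.p (n' - 1))
    (h1 : Con1 P G s T n n' c (res T c')) (h2 : Con P G s T' n' n'' c' c'') :
    Con1 P G s T n n'' c (res T c'') := by
  refine ⟨g4b (le_of_lt hn) hn' hPC hT h0 hr hv h1.con h2, ?_⟩
  intro z hz e he ν hν hroot i
  obtain ⟨he2, heT⟩ := mem_res.1 he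
  obtain ⟨e₁, he₁, h3, h4⟩ := anc hr hv h2.le he2
  have hm : e₁ ∈ (res T c').2 := mem_res.2 ⟨he₁, hPC _ _ h3 heT⟩
  refine h1.rise z hz e₁ hm ν ?_ hroot i
  obtain ⟨Z, hZ, -, ha', -, -⟩ := h1.con.drv
  obtain ⟨j, -, hj⟩ := ha'.en e₁ hm
  have hend : (endd o e₁.2.2).1 = G.u (lst P.p (n' - 1)) s := by
    rw [hj]
    exact hZ _
  have hle : (endd o ν).1 ≤ (endd o e₁.2.2).1 := by
    rw [hroot, hend]
    rcases Nat.eq_or_lt_of_le hfl with h | h
    · rw [h]
    · exact le_of_lt (hu _ _ h)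
  rcases List.prefix_or_prefix_of_prefix hν h4 with h | h
  · exact h
  · by_cases h5 : e₁.2.2 = ν
    · rw [h5]
    · have hvν := Dens3.vstr_prefix hC hν (hv.stem e he2).2
      exact absurd (root_lt hI hC hB ν o e₁.2.2 hvν h h5) (not_lt.2 hle)

end Gt4

/-- Module GT4: both clauses of (G4) (in `GTStatement`, literally). -/
theorem gt4 (P : Par) (hP : P.Ok) (G : Gph) (s hd : ℕ) :
    (∀ n E c, CG P G s (P.Hd hd) n E c → ∀ E', (∀ e ∈ E', e ∈ E) →
      CG P G s (P.Hd hd) n E' (res (TE P.Tr E') c)) ∧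
    (∀ (T T' : List ℕ → Prop) n n' n'' c c' c'', n ≤ n' → n' ≤ n'' → PC T → (∀ σ, T σ → T' σ) →
      T [] → (∃ e ∈ c'.2, e.1 = []) → (∃ W : World, CV W T' c'') →
      Con P G s T n n' c (res T c') → Con P G s T' n' n'' c' c'' →
      Con P G s T n n'' c (res T c'')) :=
  ⟨fun _ _ _ h E' _ => Gt4.g4a hP h E',
    fun _ _ _ _ _ _ _ _ h1 h2 hPC hT h0 hr hv h3 h4 => by
      obtain ⟨W, hW⟩ := hv
      exact Gt4.g4b h1 h2 hPC hT h0 hr hW h3 h4⟩

end Pool.Agent.Lib.MP_d48993_lc.Ba.Gr
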