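import Pool.Agent.Lib.MP_d48993_lc.BAE.Gr.Gt01
import Pool.Agent.Lib.MP_d48993_lc.BAE.Gr.Gt4
import Pool.Agent.Lib.MP_d48993_lc.AE.Node.Xreal

/-!
# Part G (MP_d48993): module GT5 (helper53), the clauses (G5), (FUT) and the texts of the items
Finding 4201, G14. `vl P G n I t`: the value of the item after the root `t`
(`lst (n - 1) ≤ t ≤ lst n`).
-/

set_option autoImplicit false

namespace Pool.Agent.Lib.MP_d48993_lc.Ba.Gr

open Pool.Agent.Lib.MP_d48993_lc.Node
open Pool.Agent.Lib.MP_d48993_lc.Node.Proc (endd_nil endd_append endd_snoc ch_append ch_pfx vstr_pfx)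
open MP_8c048d_lc (pre join RecF)
open Txt (ht st mC mN mR ltN okN Leg)

/-- Clause (G5) (see also Gt5a.lean of helper99). -/
def Gt5.GT5 : Prop :=
  ∀ P : Par, P.Ok → ∀ G : Gph, Lim4 P G → ∀ s < P.p, ∀ hd : ℕ,
    ∀ n I, IsItm P G n I → I.col = s → I.hd = hd →
      CG P G s (HT P I) (n + 1) I.E (star P G n I) ∧
      Con1 P G s (LT P I) n (n + 1) I.c (star P G n I)

/-- Clause (FUT). -/
def GTF : Prop :=
  ∀ P : Par, P.Ok → ∀ G : Gph, Lim4 P G → ∀ s < P.p,
    ∀ n I, IsItm P G n I → I.col = s → ∀ c', Con1 P G s (LT P I) (n + 1) (n + 2) (star P G n I) c' →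
      Txt.Le (HT P I) (ht (HT P I) (star P G n I).1) (star P G n I).1 c'.1 →
      (∀ e ∈ c'.2, RL P G s e.2.2) → ∀ t' k, CV (G.d t' s).W (LT P I) k →
      (∀ e ∈ k.2, Reg P (us G s) e.2.2) → CLe (LT P I) c' k →
      Txt.Le (HT P I) (ht (HT P I) c'.1) c'.1 k.1 → ∀ t, blk P.p t = n →
      Txt.Le (HT P I) (ht (HT P I) (G.fin t I).1) (G.fin t I).1 k.1 ∧
        CLe (LT P I) (G.fin t I) k ∧ LgC (G.cur t I) k

namespace Gt5

/-- the value of the item after the root `t` -/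
def vl (P : Par) (G : Gph) (n : ℕ) (I : Itm) (t : ℕ) : Cnd3 :=
  if t < fst P.p n then I.c else G.fin t I

section

variable {P : Par} {G : Gph} {n : ℕ} {I : Itm}

theorem lst_lt (hn : 3 ≤ n) : lst P.p (n - 1) + 1 = fst P.p n := by
  have h4 : fst P.p n - 1 = lst P.p (n - 1) := fst_sub P.p hn
  have := fst_pos P.p hn
  omega

theorem vl_a (hn : 3 ≤ n) : vl P G n I (lst P.p (n - 1)) = I.c := by
  unfold vl
  rw [if_pos]
  have := lst_lt (P := P) hn
  omega

theorem vl_fin (hn : 3 ≤ n) {t : ℕ} (ht : blk P.p t = n) : vl P G n I t = G.fin t I := by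
  unfold vl
  rw [if_neg]
  have := (blk_iff P.p (show 2 ≤ n by omega)).1 ht
  omega

/-- the value before the root `t + 1` is the value after the root `t` -/
theorem cur_eq (h : Lim4 P G) (hI : IsItm P G n I) {t : ℕ} (h1 : lst P.p (n - 1) ≤ t)
    (h2 : t < lst P.p n) : G.cur (t + 1) I = vl P G n I t := by
  have hn := hI.three
  have h3 := lst_lt (P := P) hn
  rcases Nat.eq_or_lt_of_le h1 with h4 | h4
  · rw [← h4, vl_a hn, h3]
    exact h.cur0 n I hI
  · have b1 : blk P.p t = n := (blk_iff P.p (show 2 ≤ n by omega)).2 ⟨by omega, by omega⟩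
    have b2 : blk P.p (t + 1) = n :=
      (blk_iff P.p (show 2 ≤ n by omega)).2 ⟨by omega, by omega⟩
    rw [vl_fin hn b1]
    exact h.cur1 t I (by rw [b1]; exact hI) (by rw [b1, b2])

/-! ## Texts -/

theorem leg_vl (h : Lim4 P G) (hI : IsItm P G n I) {t : ℕ} (h1 : lst P.p (n - 1) ≤ t)
    (h2 : t ≤ lst P.p n) : Leg (HT P I) (vl P G n I t).1 := by
  have hn := hI.three
  have h3 := lst_lt (P := P) hn
  rcases Nat.eq_or_lt_of_le h1 with h4 | h4
  · rw [← h4, vl_a hn]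
    exact hI.leg
  · have b1 : blk P.p t = n := (blk_iff P.p (show 2 ≤ n by omega)).2 ⟨by omega, by omega⟩
    rw [vl_fin hn b1]
    exact (h.itv t I (by rw [b1]; exact hI)).leg

theorem txt (h : Lim4 P G) (hI : IsItm P G n I) {t : ℕ} (h1 : lst P.p (n - 1) ≤ t) (t' : ℕ)
    (h2 : t ≤ t') : t' ≤ lst P.p n →
    Txt.Le (HT P I) (ht (HT P I) (vl P G n I t).1) (vl P G n I t).1 (vl P G n I t').1 ∧
    ∀ l ∈ (st (HT P I) (vl P G n I t').1).drop (ht (HT P I) (vl P G n I t).1), l.1 = none := by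
  have hn := hI.three
  have h3 := lst_lt (P := P) hn
  induction t', h2 using Nat.le_induction with
  | base =>
    intro h2
    refine ⟨Txt.Le.rfl' (leg_vl h hI h1 h2), fun l hl => ?_⟩
    unfold ht at hl
    rw [List.drop_length] at hl
    exact absurd hl List.not_mem_nil
  | succ t' h4 ih =>
    intro h2
    obtain ⟨i1, i2⟩ := ih (by omega)
    have b1 : blk P.p (t' + 1) = n :=
      (blk_iff P.p (show 2 ≤ n by omega)).2 ⟨by omega, h2⟩
    have hv := h.itv (t' + 1) I (by rw [b1]; exact hI)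
    have j1 := hv.le
    have j2 := hv.null
    rw [cur_eq h hI (t := t') (by omega) (by omega)] at j1 j2
    rw [vl_fin hn b1]
    have k1 := i1.st_prefix le_rfl
    have k2 := j1.st_prefix le_rfl
    refine ⟨i1.trans (j1.mono k1.length_le), fun l hl => ?_⟩
    obtain ⟨r, hr⟩ := k2
    have k3 : ht (HT P I) (vl P G n I t).1 ≤ (st (HT P I) (vl P G n I t').1).length :=
      k1.length_le
    rw [← hr, List.drop_append_of_le_length k3] at hl
    rcases List.mem_append.1 hl with h5 | h5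
    · exact i2 l h5
    · refine j2 l ?_
      rw [← hr]
      unfold ht
      rw [List.drop_left]
      exact h5

theorem gtx (h : Lim4 P G) (hI : IsItm P G n I) :
    Txt.Le (HT P I) (ht (HT P I) I.c.1) I.c.1 (star P G n I).1 ∧
    (∀ l ∈ (st (HT P I) (star P G n I).1).drop (ht (HT P I) I.c.1), l.1 = none) ∧
    Txt.opn (HT P I) (star P G n I).1 = none ∧
    ∀ t, blk P.p t = n → Txt.Le (HT P I) (ht (HT P I) (G.fin t I).1) (G.fin t I).1
      (star P G n I).1 := by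
  have hn := hI.three
  have h3 := lst_lt (P := P) hn
  have h4 := fst_le_lst P.p (show 2 ≤ n by omega)
  have b1 := blk_lst P.p (show 2 ≤ n by omega)
  have h5 : vl P G n I (lst P.p n) = star P G n I := vl_fin hn b1
  have h6 := txt h hI (t := lst P.p (n - 1)) le_rfl (lst P.p n) (by omega) le_rfl
  rw [vl_a hn, h5] at h6
  refine ⟨h6.1, h6.2, (h.itv _ I (by rw [b1]; exact hI)).opn, fun t ht => ?_⟩
  have h7 := (blk_iff P.p (show 2 ≤ n by omega)).1 ht
  have h8 := (txt h hI (t := t) (by omega) (lst P.p n) h7.2 le_rfl).1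
  rw [vl_fin hn ht, h5] at h8
  exact h8

/-! ## Conditions -/

open Gt01 in
/-- the value after the root `t` is at the state `(u t, w)` -/
theorem atR (h : Lim4 P G) (hI : IsItm P G n I) (hs : I.col < P.p) :
    ∃ w : List ℕ, 1 ≤ w.length ∧ ∀ t, lst P.p (n - 1) ≤ t → t ≤ lst P.p n →
      AtR P G I.col (LT P I) t w (vl P G n I t) := by
  have hn := hI.three
  have h3 := lst_lt (P := P) hn
  obtain ⟨w, hw, ha⟩ := Gt01.CG.atR hn (hI.pt hs).2
  refine ⟨w, hw, fun t h1 h2 => ?_⟩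
  rcases Nat.eq_or_lt_of_le h1 with h4 | h4
  · rw [← h4, vl_a hn]
    exact ha
  · have b1 : blk P.p t = n := (blk_iff P.p (show 2 ≤ n by omega)).2 ⟨by omega, by omega⟩
    rw [vl_fin hn b1]
    obtain ⟨k1, -, -, k4, z, k5, -, k7, k8⟩ :=
      (h.itv t I (by rw [b1]; exact hI)).pt hs
    obtain ⟨p, hp⟩ := ha.cv.root
    have h5 := Gt4.at_unique k7 ha.at' hp hp
    refine ⟨k1, ?_, k4⟩
    have h6 : z.2 = w := by rw [h5]
    rw [h6] at k8
    exact k8

/-- the values increase -/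
theorem cle (h : Lim4 P G) (hI : IsItm P G n I) (hs : I.col < P.p) {t : ℕ}
    (h1 : lst P.p (n - 1) ≤ t) (t' : ℕ) (h2 : t ≤ t') : t' ≤ lst P.p n →
    CLe (LT P I) (vl P G n I t) (vl P G n I t') := by
  have hn := hI.three
  have h3 := lst_lt (P := P) hn
  induction t', h2 using Nat.le_induction with
  | base => exact fun _ => Xreal.cle_refl _ _
  | succ t' h4 ih =>
    intro h2
    have b1 : blk P.p (t' + 1) = n :=
      (blk_iff P.p (show 2 ≤ n by omega)).2 ⟨by omega, h2⟩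
    obtain ⟨k1, k2, -⟩ := (h.itv (t' + 1) I (by rw [b1]; exact hI)).pt hs
    rw [cur_eq h hI (t := t') (by omega) (by omega)] at k2
    rw [vl_fin hn b1]
    exact Xreal.cle_trans k1 (ih (by omega)) k2

end

end Gt5

open Gt01 in
/-- Clause (G5). -/
theorem Gt5.gt5 : Gt5.GT5 := by
  rintro P hP G h s hs hd n I hI rfl -
  have hn := hI.three
  have e1 := Gt5.lst_lt (P := P) hn
  have e2 := fst_le_lst P.p (show 2 ≤ n by omega)
  have b1 := blk_lst P.p (show 2 ≤ n by omega)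
  have b0 : blk P.p (lst P.p (n - 1)) = n - 1 := blk_lst P.p (by omega)
  have hu := h.rts hs
  obtain ⟨w, hw, ha⟩ := Gt5.atR h hI hs
  have hstar : Gt5.vl P G n I (lst P.p n) = star P G n I := Gt5.vl_fin hn b1
  have h1 := ha (lst P.p (n - 1)) le_rfl (by omega)
  have h2 := ha (lst P.p n) (by omega) le_rfl
  have hlen := h1.len
  rw [hstar] at h2
  have hroot : ∀ t, lst P.p (n - 1) ≤ t → t ≤ lst P.p n →
      ∃ e ∈ (Gt5.vl P G n I t).2, e.1 = [] := by
    intro t k1 k2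
    obtain ⟨p, hp⟩ := (ha t k1 k2).cv.root
    exact ⟨_, hp, rfl⟩
  have hanc : ∀ t, lst P.p (n - 1) ≤ t → t ≤ lst P.p n → ∀ e' ∈ (star P G n I).2,
      ∃ ν i, ν <+: e'.2.2 ∧ 1 ≤ i ∧ endd o ν = ow ((G.u t I.col, w) : St) i := by
    intro t k1 k2 e' he'
    have h4 := Gt5.cle h hI hs k1 (lst P.p n) k2 le_rfl
    rw [hstar] at h4
    obtain ⟨e₁, m1, -, m3⟩ := Gt4.anc (hroot t k1 k2) h2.cv h4 he'
    obtain ⟨i, m4, m5⟩ := (ha t k1 k2).at'.en e₁ m1
    exact ⟨_, i, m3, m4, m5⟩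
  have hcle := Gt5.cle h hI hs le_rfl (lst P.p n) (by omega) le_rfl
  rw [hstar, Gt5.vl_a hn] at hcle
  rw [Gt5.vl_a hn] at h1
  refine ⟨Gt01.AtR.cg (n := n + 1) (by omega) hw (h.itv _ I (by rw [b1]; exact hI)).leg h2,
    ⟨hcle, fun t => (G.u t I.col, w), fun t => rfl, h1.at', h2.at', fun t k1 k2 => ?_,
    fun e' he' t k1 k2 => ?_⟩, fun z hz e' he' ν hν hνu i => ?_⟩
  · refine link_same h hs hw ?_
    have := blk_mono P.p k1
    omega
  · exact hanc t k1.le (by simpa using k2) e' he'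
  · obtain ⟨ν', j, m1, -, m3⟩ := hanc (fst P.p n) (by omega) e2 e' he'
    have hr : Rup o e'.2.2 :=
      Rup.of_vstr (basic codes) (Ltree.dfit _) (h2.cv.stem e' he').2
    have h7 : ν = ν' := by
      refine hr.eq hν m1 ?_
      rw [hνu, m3]
      rfl
    obtain ⟨p, hp⟩ := h1.cv.root
    have h8 := Gt4.at_unique hz h1.at' hp hp
    rw [h7, m3, h8, rise_ow]
    show bk (G.u (lst P.p (n - 1)) I.col) + w.length < bk (G.u (fst P.p n) I.col) + w.length
    have f1 : bk (G.u (lst P.p (n - 1)) I.col) = blk P.p (lst P.p (n - 1)) := hu.bk _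
    have f2 : bk (G.u (fst P.p n) I.col) = blk P.p (fst P.p n) := hu.bk _
    rw [f1, f2, b0, blk_fst P.p (by omega)]
    omega

open Gt01 in
/-- Clause (FUT). -/
theorem gtf : GTF := by
  rintro P hP G h s hs n I hI rfl c' hc' hx' - t' k hk hreg hck hx t ht
  have hn := hI.three
  have e1 := Gt5.lst_lt (P := P) hn
  have e2 := fst_le_lst P.p (show 2 ≤ n by omega)
  have e3 := fst_le_lst P.p (show 2 ≤ n + 1 by omega)
  have e4 := lst_succ P.p (show 2 ≤ n by omega)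
  have b1 := blk_lst P.p (show 2 ≤ n by omega)
  have b0 : blk P.p (lst P.p (n - 1)) = n - 1 := blk_lst P.p (by omega)
  have hu := h.rts hs
  have ht' := (blk_iff P.p (show 2 ≤ n by omega)).1 ht
  obtain ⟨w, hw, ha⟩ := Gt5.atR h hI hs
  have hstar : Gt5.vl P G n I (lst P.p n) = star P G n I := Gt5.vl_fin hn b1
  have hroot : ∀ t, lst P.p (n - 1) ≤ t → t ≤ lst P.p n →
      ∃ e ∈ (Gt5.vl P G n I t).2, e.1 = [] := by
    intro t k1 k2
    obtain ⟨p, hp⟩ := (ha t k1 k2).cv.root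
    exact ⟨_, hp, rfl⟩
  have hsk : CLe (LT P I) (star P G n I) k := Xreal.cle_trans hk hc'.con.le hck
  have hvk : ∀ t, lst P.p (n - 1) ≤ t → t ≤ lst P.p n → CLe (LT P I) (Gt5.vl P G n I t) k := by
    intro t k1 k2
    have h4 := Gt5.cle h hI hs k1 (lst P.p n) k2 le_rfl
    rw [hstar] at h4
    exact Xreal.cle_trans hk h4 hsk
  -- the stems of `k` pass through the own states of `(u t, w)`
  have hanc : ∀ t, lst P.p (n - 1) ≤ t → t ≤ lst P.p n → ∀ e' ∈ k.2,
      ∃ e ∈ (Gt5.vl P G n I t).2, ∃ i, e.2.2 <+: e'.2.2 ∧ 1 ≤ i ∧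
        endd o e.2.2 = ow ((G.u t I.col, w) : St) i := by
    intro t k1 k2 e' he'
    obtain ⟨e₁, m1, -, m3⟩ := Gt4.anc (hroot t k1 k2) hk (hvk t k1 k2) he'
    obtain ⟨i, m4, m5⟩ := (ha t k1 k2).at'.en e₁ m1
    exact ⟨e₁, m1, i, m3, m4, m5⟩
  refine ⟨?_, ?_, ?_⟩
  · -- texts
    have h5 := (Gt5.txt h hI (t := t) (by omega) (lst P.p n) ht'.2 le_rfl).1
    rw [Gt5.vl_fin hn ht, hstar] at h5
    have k1 := (h5.st_prefix le_rfl).length_le
    have k2 := (hx'.st_prefix le_rfl).length_le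
    exact (h5.trans (hx'.mono k1)).trans (hx.mono (k1.trans k2))
  · have h5 := hvk t (by omega) ht'.2
    rwa [Gt5.vl_fin hn ht] at h5
  -- levels
  obtain ⟨t₀, rfl⟩ : ∃ t₀, t = t₀ + 1 := ⟨t - 1, by omega⟩
  have c1 : lst P.p (n - 1) ≤ t₀ := by omega
  have c2 : t₀ < lst P.p n := by omega
  rw [Gt5.cur_eq h hI c1 c2]
  intro e' he'
  obtain ⟨e, m1, i, m3, m4, m5⟩ := hanc t₀ c1 c2.le e' he'
  refine ⟨e, m1, m3, ?_⟩
  have hr : Rup o e'.2.2 := Rup.of_vstr (basic codes) (Ltree.dfit _) (hk.stem e' he').2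
  have hR : Reg P (fun t => G.u t I.col) e'.2.2 := hreg e' he'
  have key : ∀ ν', e.2.2 <+: ν' → ν' <+: e'.2.2 → Lg (endd o e.2.2) (endd o ν') := by
    intro ν' n1 n2
    refine hR.level hu hr m3 (t := t₀) (by rw [m5]; rfl) ?_ n1 n2
    intro t₁ ν1 ν2 f1 f2 f3 f4 f5 f6 f7
    have g1 : t₁ = lst P.p (blk P.p t₀) := by
      have g2 := (blk_iff P.p (two_le_blk P.p t₀)).1 f2
      by_contra hne
      apply f3
      exact (blk_iff P.p (two_le_blk P.p t₀)).2 ⟨by omega, by omega⟩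
    rcases Nat.eq_or_lt_of_le c1 with c3 | c3
    · -- the border `n - 1`, `n`
      rw [← c3, b0] at g1
      obtain ⟨e₁, -, i₁, q1, -, q2⟩ := hanc (lst P.p (n - 1)) le_rfl (by omega) e' he'
      obtain ⟨e₂, -, i₂, q3, -, q4⟩ := hanc (fst P.p n) (by omega) e2 e' he'
      have q5 : ν1 = e₁.2.2 := hr.eq f4 q1 (by rw [f6, q2, g1]; rfl)
      have q6 : ν2 = e₂.2.2 := hr.eq f5 q3 (by rw [f7, q4, g1, e1]; rfl)
      rw [q5, q6, q2, q4, rise_ow]
      show bk (G.u (lst P.p (n - 1)) I.col) + w.length < bk (G.u (fst P.p n) I.col) + w.length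
      have r1 : bk (G.u (lst P.p (n - 1)) I.col) = blk P.p (lst P.p (n - 1)) := hu.bk _
      have r2 : bk (G.u (fst P.p n) I.col) = blk P.p (fst P.p n) := hu.bk _
      rw [r1, r2, b0, blk_fst P.p (by omega)]
      omega
    · -- the border `n`, `n + 1`
      have b2 : blk P.p t₀ = n := (blk_iff P.p (show 2 ≤ n by omega)).2 ⟨by omega, c2.le⟩
      rw [b2] at g1
      obtain ⟨e₁, q0, i₁, q1, -, q2⟩ := hanc (lst P.p n) (by omega) le_rfl e' he'
      have q5 : ν1 = e₁.2.2 := hr.eq f4 q1 (by rw [f6, q2, g1]; rfl)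
      have hat : At ((G.u (lst P.p n) I.col, w) : St) (star P G n I) := by
        have := (ha (lst P.p n) (by omega) le_rfl).at'
        rwa [hstar] at this
      have hr' : ∃ e ∈ c'.2, e.1 = [] := by
        obtain ⟨e₀, s1, s2⟩ := hroot (lst P.p n) (by omega) le_rfl
        rw [hstar] at s1
        obtain ⟨p', -, s3⟩ := hc'.con.le.old e₀ s1
        exact ⟨_, s3, s2⟩
      obtain ⟨e₄, s1, -, s3⟩ := Gt4.anc hr' hk hck he'
      obtain ⟨Z, z1, -, z3, -⟩ := hc'.con.drv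
      obtain ⟨j, -, z4⟩ := z3.en e₄ s1
      have s4 : ν2 <+: e₄.2.2 := by
        refine hr.pfx_of_le f5 s3 ?_
        rw [f7, z4]
        show G.u (t₁ + 1) I.col ≤ (Z (lst P.p (n + 2 - 1))).1
        rw [z1, g1, e4]
        exact hu.mono.monotone e3
      have s5 := hc'.rise _ hat e₄ s1 ν2 s4 (by rw [f7, g1, e4]) i₁
      rw [q5, q2]
      exact s5
  intro g hg
  obtain ⟨ρ, hρ⟩ := m3
  rw [← hρ, List.drop_left] at hg
  obtain ⟨ρ1, ρ2, rfl⟩ := List.append_of_mem hg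
  have h8 := key (e.2.2 ++ ρ1 ++ [g]) ⟨ρ1 ++ [g], by simp⟩ ⟨ρ2, by rw [← hρ]; simp⟩
  rwa [endd_snoc] at h8

end Pool.Agent.Lib.MP_d48993_lc.Ba.Gr
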