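import Pool.Agent.Lib.MP_d48993_lc.BAE.Gr.Gt2
import Pool.Agent.Lib.MP_d48993_lc.BAE.Gr.Gt5
import Pool.Agent.Lib.MP_d48993_lc.BAE.Gr.Gt5a
import Pool.Agent.Lib.MP_d48993_lc.BAE.Gr.Cont4b

/-!
# Part G (MP_d48993): the interface to the texts (assembly, helper77)
-/

set_option autoImplicit false

namespace Pool.Agent.Lib.MP_d48993_lc.Ba.Gr

open Pool.Agent.Lib.MP_d48993_lc.Node

/-- Module GT. -/
theorem gt_all : GTStatement := fun P hP G h s hs hd =>
  ⟨gt0 P hP G h s hs hd,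
    gt1 cont4' P hP G h s hs hd,
    gt2_of cont4' (basic codes) (mono codes (basic codes)) P hP G h s hs hd,
    gt3_of cont4' (basic codes) (mono codes (basic codes)) P hP G h s hs hd,
    (gt4 P hP G s hd).1,
    (gt4 P hP G s hd).2,
    gt5 P hP G h s hs hd,
    gtf P hP G h s hs⟩

end Pool.Agent.Lib.MP_d48993_lc.Ba.Gr
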