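import Pool.Agent.Lib.MP_d48993_lc.BAE.Gr.Stm2
import Pool.Agent.Lib.MP_d48993_lc.BAE.Gr.Lg
import Pool.Agent.Lib.MP_d48993_lc.BAE.Gr.LimF

/-!
# Part G (MP_d48993): module GT01 (helper61), the clauses (G0), (G1) of the interface to the texts

Also for GT23, GT5: `AtR` (a condition at the root `u a`, driver string `w`), `Cto` (its stems are
continued along the states `(u t, w)`, `a ≤ t ≤ b`), `exists_cto`.
-/

set_option autoImplicit false

namespace Pool.Agent.Lib.MP_d48993_lc.Ba.Gr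

open Pool.Agent.Lib.MP_d48993_lc.Node
open Pool.Agent.Lib.MP_d48993_lc.Node.Proc (endd_nil endd_append endd_snoc ch_append ch_pfx vstr_pfx)
open MP_8c048d_lc (pre join RecF)
open Txt (ht st mC mN mR ltN okN Leg)

/-- Clause (G0). -/
def GT0 : Prop :=
  ∀ P : Par, P.Ok → ∀ G : Gph, Lim4 P G → ∀ s < P.p, ∀ hd : ℕ,
    ∃ c, c.1 = [] ∧ CG P G s (P.Hd hd) 3 [] c

/-- Clause (G1). -/
def GT1 : Prop :=
  ∀ P : Par, P.Ok → ∀ G : Gph, Lim4 P G → ∀ s < P.p, ∀ hd : ℕ,
    ∀ n, 3 ≤ n → ∀ E c, CG P G s (P.Hd hd) n E c → ∃ c', c'.1 = c.1 ∧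
      c'.2.map (fun e => (e.1, e.2.1)) = c.2.map (fun e => (e.1, e.2.1)) ∧
      CG P G s (P.Hd hd) (n + 1) E c' ∧ Con1 P G s (TE P.Tr E) n (n + 1) c c'

/-- The trees `TE Tr E` are closed under initial segments. -/
theorem pc_TE {Tr : ℕ → List ℕ → Prop} (h : ∀ e, PC (Tr e)) (E : List ℕ) : PC (TE Tr E) := by
  intro σ τ hp hτ
  cases σ with
  | nil => trivial
  | cons e σ =>
    cases τ with
    | nil => exact absurd (List.prefix_nil.1 hp) (by simp)
    | cons e' τ =>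
      obtain ⟨rfl, h1⟩ := List.cons_prefix_cons.1 hp
      exact ⟨hτ.1, h e _ _ h1 hτ.2⟩

namespace Gt01

/-! ## Small facts -/

theorem ow_inj {x y : St} {i j : ℕ} (h : ow x i = ow y j) : x = y ∧ i = j := by
  have h1 := congrArg Prod.fst h
  have h2 := congrArg Prod.snd h
  change x.1 = y.1 at h1
  change x.2 ++ [i] = y.2 ++ [j] at h2
  have h3 := List.append_inj' h2 rfl
  exact ⟨Prod.ext h1 h3.1, by simpa using h3.2⟩

theorem cv_mono {W W' : World} {T : List ℕ → Prop} {c : Cnd3}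
    (h : ∀ x σ y, VStr W x σ y → VStr W' x σ y) (hc : CV W T c) : CV W' T c where
  root := hc.root
  uniq := hc.uniq
  mem := hc.mem
  img e he := h _ _ _ (hc.img e he)
  stem e he := ⟨(hc.stem e he).1, h _ _ _ (hc.stem e he).2⟩
  emb := hc.emb
  stemEmb := hc.stemEmb
  parent := hc.parent
  ac := hc.ac

/-- Validity depends only on the set of the triples. -/
theorem cv_mem {W : World} {T : List ℕ → Prop} {c c' : Cnd3} (h : ∀ e, e ∈ c'.2 ↔ e ∈ c.2)
    (hc : CV W T c) : CV W T c' where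
  root := by
    obtain ⟨p, hp⟩ := hc.root
    exact ⟨p, (h _).2 hp⟩
  uniq e he e' he' := hc.uniq e ((h _).1 he) e' ((h _).1 he')
  mem e he := hc.mem e ((h _).1 he)
  img e he := hc.img e ((h _).1 he)
  stem e he := hc.stem e ((h _).1 he)
  emb e he e' he' := hc.emb e ((h _).1 he) e' ((h _).1 he')
  stemEmb e he e' he' := hc.stemEmb e ((h _).1 he) e' ((h _).1 he')
  parent e he h1 := by
    obtain ⟨e', h2, h3⟩ := hc.parent e ((h _).1 he) h1
    exact ⟨e', (h _).2 h2, h3⟩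
  ac := by
    have hN : ∀ ν, Nd c' ν → Nd c ν := fun ν ⟨e, h1, h2⟩ => ⟨e, (h _).1 h1, h2⟩
    exact fun ν ν' h1 h2 => hc.ac ν ν' (hN ν h1) (hN ν' h2)

/-- A condition at the public root `u a` of the colour `s`, with the driver `(u a, w)`. -/
structure AtR (P : Par) (G : Gph) (s : ℕ) (T : List ℕ → Prop) (a : ℕ) (w : List ℕ) (c : Cnd3) :
    Prop where
  cv : CV (G.d (a + 1) s).W T c
  at' : At ((G.u a s, w) : St) c
  reg : ∀ e ∈ c.2, Reg P (us G s) e.2.2

/-- The stems of `c` are continued along the states `(u t, w)`, `a ≤ t ≤ b`. -/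
structure Cto (G : Gph) (s : ℕ) (w : List ℕ) (a b : ℕ) (c c' : Cnd3) : Prop where
  px : c'.1 = c.1
  mp : c'.2.map (fun e => (e.1, e.2.1)) = c.2.map (fun e => (e.1, e.2.1))
  fwd : ∀ e ∈ c.2, ∃ l, (e.1, e.2.1, e.2.2 ++ l) ∈ c'.2
  bwd : ∀ e' ∈ c'.2, ∃ e ∈ c.2, ∃ l i, e' = (e.1, e.2.1, e.2.2 ++ l) ∧ 1 ≤ i ∧
    endd o e.2.2 = ow ((G.u a s, w) : St) i ∧ endd o e'.2.2 = ow ((G.u b s, w) : St) i ∧
    ∀ t, a ≤ t → t ≤ b → ∃ ν, e.2.2 <+: ν ∧ ν <+: e'.2.2 ∧ endd o ν = ow ((G.u t s, w) : St) i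

section

variable {P : Par} {G : Gph} {s : ℕ} {T : List ℕ → Prop}

theorem AtR.len {a : ℕ} {w : List ℕ} {c : Cnd3} (h : AtR P G s T a w c) :
    w.length + 1 ≤ blk P.p a := by
  obtain ⟨p, hp⟩ := h.cv.root
  obtain ⟨i, -, h1⟩ := h.at'.en _ hp
  have h2 := (h.reg _ hp).dep a p (List.prefix_refl _) (by rw [h1]; rfl)
  rw [h1, length_ow] at h2
  exact h2.2

theorem Cto.refl {a : ℕ} {w : List ℕ} {c : Cnd3} (h : At ((G.u a s, w) : St) c) :
    Cto G s w a a c c where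
  px := rfl
  mp := rfl
  fwd e he := ⟨[], by simpa using he⟩
  bwd e he := by
    obtain ⟨i, h1, h2⟩ := h.en e he
    refine ⟨e, he, [], i, by simp, h1, h2, h2, fun t h3 h4 => ⟨e.2.2, List.prefix_refl _,
      List.prefix_refl _, ?_⟩⟩
    obtain rfl : t = a := le_antisymm h4 h3
    exact h2

theorem Cto.trans {a b d : ℕ} {w : List ℕ} {c c' c'' : Cnd3} (h : Cto G s w a b c c')
    (h' : Cto G s w b d c' c'') : Cto G s w a d c c'' where
  px := h'.px.trans h.px
  mp := h'.mp.trans h.mp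
  fwd e he := by
    obtain ⟨l, h1⟩ := h.fwd e he
    obtain ⟨l', h2⟩ := h'.fwd _ h1
    exact ⟨l ++ l', by rw [← List.append_assoc]; exact h2⟩
  bwd e'' he'' := by
    obtain ⟨e', he', l', i, h1, h2, h3, h4, h5⟩ := h'.bwd e'' he''
    obtain ⟨e, he, l, j, k1, k2, k3, k4, k5⟩ := h.bwd e' he'
    have hij : i = j := (ow_inj (h3.symm.trans k4)).2
    subst hij
    subst k1
    refine ⟨e, he, l ++ l', i, by rw [h1, List.append_assoc], h2, k3, h4, fun t h6 h7 => ?_⟩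
    rcases le_total t b with h8 | h8
    · obtain ⟨ν, m1, m2, m3⟩ := k5 t h6 h8
      refine ⟨ν, m1, m2.trans ?_, m3⟩
      rw [h1]
      exact List.prefix_append _ _
    · obtain ⟨ν, m1, m2, m3⟩ := h5 t h8 h7
      exact ⟨ν, (List.prefix_append _ _).trans m1, m2, m3⟩

/-- `Cto` implies `CLe`. -/
theorem Cto.cle {a b : ℕ} {w : List ℕ} {c c' : Cnd3} (h : Cto G s w a b c c') : CLe T c c' where
  px := by rw [h.px]
  old e he := by
    obtain ⟨l, h1⟩ := h.fwd e he
    exact ⟨_, List.prefix_append _ _, h1⟩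
  new e he h1 := by
    obtain ⟨e₀, h2, l, i, h3, -⟩ := h.bwd e he
    exact absurd (by rw [h3]) (h1 e₀ h2)
  fact n hn := by
    rw [h.px] at hn
    simp at hn

/-- A link between two states with the same string. -/
theorem link_same (h : Lim4 P G) (hs : s < P.p) {t : ℕ} {w : List ℕ} (h1 : 1 ≤ w.length)
    (h2 : w.length ≤ blk P.p t) : Link P t ((G.u t s, w) : St) (G.u (t + 1) s, w) := by
  have hb := blk_le_succ P.p t
  refine ⟨h1, h2, h1, h2.trans hb, fun _ => ⟨rfl, rfl⟩, fun h3 => Or.inl ?_⟩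
  have hu := h.rts hs
  show bk (G.u t s) + w.length < bk (G.u (t + 1) s) + w.length
  have e1 : bk (G.u t s) = blk P.p t := hu.bk t
  have e2 : bk (G.u (t + 1) s) = blk P.p (t + 1) := hu.bk (t + 1)
  rw [e1, e2]
  omega

/-- One root further. -/
theorem step (hC : ContStatement4) (hB : BasicStatement) (hM : MonoStatement) (h : Lim4 P G)
    (hs : s < P.p) (hT : PC T) {a : ℕ} {w : List ℕ} {c : Cnd3} (hw : 1 ≤ w.length)
    (ha : AtR P G s T a w c) : ∃ c', AtR P G s T (a + 1) w c' ∧ Cto G s w a (a + 1) c c' := by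
  classical
  have hlen := ha.len
  have hu := h.rts hs
  have hlt : G.u a s < G.u (a + 1) s := h.u_lt hs a
  have hidx : ∀ e ∈ c.2, ∃ i, 1 ≤ i ∧ endd o e.2.2 = ow ((G.u a s, w) : St) i := ha.at'.en
  -- the numbers of the own states
  set f : List ℕ → ℕ := fun ν => if hν : ∃ e ∈ c.2, e.1 = ν then
    (hidx _ hν.choose_spec.1).choose else 0 with hf
  have hf' : ∀ e ∈ c.2, 1 ≤ f e.1 ∧ endd o e.2.2 = ow ((G.u a s, w) : St) (f e.1) := by
    intro e he
    have hν : ∃ e' ∈ c.2, e'.1 = e.1 := ⟨e, he, rfl⟩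
    have h1 : hν.choose = e := ha.cv.uniq _ hν.choose_spec.1 _ he hν.choose_spec.2
    have h2 := (hidx _ hν.choose_spec.1).choose_spec
    have h3 : f e.1 = (hidx _ hν.choose_spec.1).choose := by
      rw [hf]
      simp only
      rw [dif_pos hν]
    rw [h3]
    refine ⟨h2.1, ?_⟩
    rw [← h2.2, h1]
  have hcv : CV (G.d (a + 1 + 1) s).W T c :=
    cv_mono (fun x σ y hσ => LimF.vstr_mono hM h hs (Nat.le_succ _) hσ) ha.cv
  have hle : ∀ e ∈ c.2, LEs G s e.2.2 := fun e he => ⟨_, (ha.cv.stem e he).2⟩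
  -- admissible targets
  have hadm : ∀ e ∈ c.2, Adm (ow ((G.u (a + 1) s, w) : St) (f e.1)) := by
    intro e he
    have h1 := LimF.end_adm hB h hs (hle e he)
    rw [(hf' e he).2] at h1
    have h2 := LimF.sz_mono h hs (Nat.le_succ a)
    refine ⟨h1.1.trans h2, fun b hb => lt_of_lt_of_le (h1.2 b hb) h2⟩
  have hcan : ∀ e ∈ c.2, ∃ g, VS (G.d (a + 1 + 1) s).W g ∧ src g = endd o e.2.2 ∧
      tgt g = ow ((G.u (a + 1) s, w) : St) (f e.1) ∧ Ex g = [] := by
    intro e he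
    have h1 : (endd o e.2.2).1 < G.u (a + 1) s := by
      rw [(hf' e he).2]
      exact hlt
    exact h.can (a + 1) s hs _ _ (LimF.end_adm hB h hs (hle e he))
      (LimF.end_lt hB hM h hs (hle e he) h1) (hadm e he) rfl (by
        rw [length_ow]
        have := blk_le_succ P.p a
        show w.length + 1 ≤ _
        omega)
  obtain ⟨c₁, m1, -, m3, m4, -, m6⟩ := hC (G.d (a + 1 + 1) s) T c ((G.u (a + 1) s, w) : St) [] f
    (fun _ => 0) (h.good _ s hs).wf hcv hT (by rw [h.pub (a + 1) s hs]; simp)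
    (fun e he => by rw [(hf' e he).2]; exact hlt) hcan (fun x hx => absurd hx List.not_mem_nil)
    (fun e he e' he' hee => by
      have h1 : endd o e.2.2 = endd o e'.2.2 := by rw [(hf' e he).2, (hf' e' he').2, hee]
      rw [ha.at'.inj e he e' he' h1])
    (fun x hx => absurd hx List.not_mem_nil)
    (fun e _ x hx => absurd hx List.not_mem_nil)
  -- the same triples in the order of `c`
  set gg : List ℕ × List ℕ × List ℕ → ℕ := fun e => if he : e ∈ c.2 then (m4 e he).choose else 0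
    with hgg
  have hgg' : ∀ e ∈ c.2, VS (G.d (a + 1 + 1) s).W (gg e) ∧ src (gg e) = endd o e.2.2 ∧
      tgt (gg e) = ow ((G.u (a + 1) s, w) : St) (f e.1) ∧ Ex (gg e) = [] ∧
      (e.1, e.2.1, e.2.2 ++ [gg e]) ∈ c₁.2 := by
    intro e he
    have h1 : gg e = (m4 e he).choose := by
      rw [hgg]
      simp only
      rw [dif_pos he]
    rw [h1]
    exact (m4 e he).choose_spec
  set c' : Cnd3 := (c₁.1, c.2.map (fun e => (e.1, e.2.1, e.2.2 ++ [gg e]))) with hc'
  have hmem : ∀ e', e' ∈ c'.2 ↔ e' ∈ c₁.2 := by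
    intro e'
    rw [hc']
    simp only [List.mem_map]
    constructor
    · rintro ⟨e, he, rfl⟩
      exact (hgg' e he).2.2.2.2
    · intro he'
      rcases m6 e' he' with ⟨e, he, h1⟩ | ⟨x, hx, -⟩
      · exact ⟨e, he, (m1.uniq _ he' _ (hgg' e he).2.2.2.2 h1).symm⟩
      · exact absurd hx List.not_mem_nil
  have k1 : CV (G.d (a + 1 + 1) s).W T c' := cv_mem hmem m1
  have k3 : c'.1 = c.1 := m3
  have k4 : ∀ e ∈ c.2, ∃ g, VS (G.d (a + 1 + 1) s).W g ∧ src g = endd o e.2.2 ∧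
      tgt g = ow ((G.u (a + 1) s, w) : St) (f e.1) ∧ Ex g = [] ∧
      (e.1, e.2.1, e.2.2 ++ [g]) ∈ c'.2 := by
    intro e he
    obtain ⟨g1, g2, g3, g4, g5⟩ := hgg' e he
    exact ⟨gg e, g1, g2, g3, g4, (hmem _).2 g5⟩
  -- the triples of `c'`
  have hb : ∀ e' ∈ c'.2, ∃ e ∈ c.2, ∃ g, VS (G.d (a + 1 + 1) s).W g ∧ src g = endd o e.2.2 ∧
      tgt g = ow ((G.u (a + 1) s, w) : St) (f e.1) ∧ e' = (e.1, e.2.1, e.2.2 ++ [g]) := by
    intro e' he'
    obtain ⟨e, he, h1⟩ := List.mem_map.1 he'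
    obtain ⟨g1, g2, g3, -, -⟩ := hgg' e he
    exact ⟨e, he, gg e, g1, g2, g3, h1.symm⟩
  have hrup : ∀ e' ∈ c'.2, Rup o e'.2.2 := fun e' he' =>
    Rup.of_vstr hB (Ltree.dfit _) (k1.stem e' he').2
  refine ⟨c', ⟨k1, ⟨fun e' he' => ?_, fun e' he' e'' he'' hee => ?_⟩, fun e' he' => ?_⟩,
    ⟨k3, ?_, fun e he => ?_, fun e' he' => ?_⟩⟩
  · obtain ⟨e, he, g, -, -, g3, rfl⟩ := hb e' he'
    refine ⟨f e.1, (hf' e he).1, ?_⟩
    show endd o (e.2.2 ++ [g]) = _
    rw [endd_snoc, g3]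
  · obtain ⟨e1, he1, g1, -, -, g3, rfl⟩ := hb e' he'
    obtain ⟨e2, he2, g2, -, -, g4, rfl⟩ := hb e'' he''
    change endd o (e1.2.2 ++ [g1]) = endd o (e2.2.2 ++ [g2]) at hee
    rw [endd_snoc, endd_snoc, g3, g4] at hee
    have h1 := (ow_inj hee).2
    have h2 : endd o e1.2.2 = endd o e2.2.2 := by rw [(hf' e1 he1).2, (hf' e2 he2).2, h1]
    have h3 := ha.at'.inj e1 he1 e2 he2 h2
    subst h3
    exact k1.uniq _ he' _ he'' rfl
  · have hr := hrup e' he'
    obtain ⟨e, he, g, -, -, g3, rfl⟩ := hb e' he'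
    refine (ha.reg e he).snoc_pub hu hr (List.prefix_refl _) (t := a) (by
      rw [(hf' e he).2]
      rfl) (by rw [g3]; rfl) ?_
    rw [(hf' e he).2, g3]
    have h1 : Link P a ((G.u a s, w) : St) (G.u (a + 1) s, w) := link_same h hs hw (by omega)
    exact (link_ow (ne_nil_of_len hw) (ne_nil_of_len hw) hlen
      (hlen.trans (blk_le_succ P.p a))).2 h1
  · rw [hc']
    simp only [List.map_map]
    rfl
  · obtain ⟨g, -, -, -, -, g5⟩ := k4 e he
    exact ⟨[g], g5⟩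
  · obtain ⟨e, he, g, -, -, g3, rfl⟩ := hb e' he'
    have h1 : endd o (e.2.2 ++ [g]) = ow ((G.u (a + 1) s, w) : St) (f e.1) := by
      rw [endd_snoc, g3]
    refine ⟨e, he, [g], f e.1, rfl, (hf' e he).1, (hf' e he).2, h1, fun t h2 h3 => ?_⟩
    rcases Nat.eq_or_lt_of_le h2 with h4 | h4
    · subst h4
      exact ⟨e.2.2, List.prefix_refl _, List.prefix_append _ _, (hf' e he).2⟩
    · obtain rfl : t = a + 1 := by omega
      exact ⟨_, List.prefix_append _ _, List.prefix_refl _, h1⟩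

/-- The stems of a condition at the root `u a` are continued to the root `u b`. -/
theorem exists_cto (hC : ContStatement4) (hB : BasicStatement) (hM : MonoStatement)
    (h : Lim4 P G) (hs : s < P.p) (hT : PC T) {a : ℕ} {w : List ℕ} {c : Cnd3}
    (hw : 1 ≤ w.length) (ha : AtR P G s T a w c) (b : ℕ) (hab : a ≤ b) :
    ∃ c', AtR P G s T b w c' ∧ Cto G s w a b c c' := by
  induction b, hab using Nat.le_induction with
  | base => exact ⟨c, ha, Cto.refl ha.at'⟩
  | succ b hab ih =>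
    obtain ⟨c', h1, h2⟩ := ih
    obtain ⟨c'', h3, h4⟩ := step hC hB hM h hs hT hw h1
    exact ⟨c'', h3, h2.trans h4⟩

/-- A condition for the stage `n` is at the last root of the block `n - 1`. -/
theorem CG.atR {H : List ℕ → Bool} {n : ℕ} {E : List ℕ} {c : Cnd3} (hn : 3 ≤ n)
    (h : CG P G s H n E c) : ∃ w : List ℕ, 1 ≤ w.length ∧
      AtR P G s (TE P.Tr E) (lst P.p (n - 1)) w c := by
  obtain ⟨z, h1, h2, h3⟩ := h.at'
  have e1 : fst P.p n - 1 = lst P.p (n - 1) := fst_sub P.p hn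
  have e2 : lst P.p (n - 1) + 1 = fst P.p n := by
    have := fst_pos P.p hn
    omega
  refine ⟨z.2, h2, ?_, ?_, h.reg⟩
  · rw [e2]
    exact h.cv
  · rw [e1] at h1
    have h4 : ((G.u (lst P.p (n - 1)) s, z.2) : St) = z := Prod.ext h1.symm rfl
    rw [h4]
    exact h3

/-- Conversely. -/
theorem AtR.cg {H : List ℕ → Bool} {n : ℕ} {E : List ℕ} {c : Cnd3} {w : List ℕ} (hn : 3 ≤ n)
    (hw : 1 ≤ w.length) (hl : Leg H c.1) (h : AtR P G s (TE P.Tr E) (lst P.p (n - 1)) w c) :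
    CG P G s H n E c := by
  have e1 : fst P.p n - 1 = lst P.p (n - 1) := fst_sub P.p hn
  have e2 : lst P.p (n - 1) + 1 = fst P.p n := by
    have := fst_pos P.p hn
    omega
  refine ⟨hl, ?_, ⟨(G.u (lst P.p (n - 1)) s, w), ?_, hw, h.at'⟩, h.reg⟩
  · rw [← e2]
    exact h.cv
  · rw [e1]

/-- `Cto` through a block gives `Con1`. -/
theorem Cto.con1 (h : Lim4 P G) (hs : s < P.p) {n : ℕ} {c c' : Cnd3} {w : List ℕ} (hn : 3 ≤ n)
    (hw : 1 ≤ w.length) (h1 : AtR P G s T (lst P.p (n - 1)) w c)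
    (h2 : AtR P G s T (lst P.p n) w c') (hrup : ∀ e ∈ c'.2, Rup o e.2.2)
    (h3 : Cto G s w (lst P.p (n - 1)) (lst P.p n) c c') :
    Con1 P G s T n (n + 1) c c' := by
  have hu := h.rts hs
  have hlen := h1.len
  have e1 : lst P.p (n - 1) + 1 = fst P.p n := by
    have h4 : fst P.p n - 1 = lst P.p (n - 1) := fst_sub P.p hn
    have := fst_pos P.p hn
    omega
  have e3 : lst P.p (n - 1) ≤ lst P.p n := by
    have := fst_le_lst P.p (show 2 ≤ n by omega)
    omega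
  have b1 : blk P.p (lst P.p (n - 1)) = n - 1 := blk_lst P.p (by omega)
  refine ⟨⟨h3.cle, fun t => (G.u t s, w), fun t => rfl, h1.at', ?_, fun t k1 k2 => ?_,
    fun e' he' t k1 k2 => ?_⟩, fun z hz e' he' ν hν hνu i => ?_⟩
  · exact h2.at'
  · refine link_same h hs hw ?_
    have := blk_mono P.p k1
    omega
  · obtain ⟨e, -, l, i, -, hi, -, -, h6⟩ := h3.bwd e' he'
    obtain ⟨ν, -, m2, m3⟩ := h6 t k1.le (by simpa using k2)
    exact ⟨ν, i, m2, hi, m3⟩
  · obtain ⟨e, he, l, j, -, -, h5, -, h6⟩ := h3.bwd e' he'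
    obtain ⟨ν', -, m2, m3⟩ := h6 (fst P.p n) (by omega) (fst_le_lst P.p (by omega))
    have h7 : ν = ν' := by
      refine (hrup e' he').eq hν m2 ?_
      rw [hνu, m3]
      rfl
    obtain ⟨j', -, h8⟩ := hz.en e he
    have h9 := (ow_inj (h8.symm.trans h5)).1
    rw [h7, m3, h9, rise_ow]
    show bk (G.u (lst P.p (n - 1)) s) + w.length < bk (G.u (fst P.p n) s) + w.length
    have f1 : bk (G.u (lst P.p (n - 1)) s) = blk P.p (lst P.p (n - 1)) := hu.bk _
    have f2 : bk (G.u (fst P.p n) s) = blk P.p (fst P.p n) := hu.bk _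
    rw [f1, f2, b1, blk_fst P.p (by omega)]
    omega

end

end Gt01

open Gt01 in
/-- Clause (G1), from CONT4. -/
theorem gt1_of (hC : ContStatement4) (hB : BasicStatement) (hM : MonoStatement) : GT1 := by
  intro P hP G h s hs hd n hn E c hc
  obtain ⟨w, hw, ha⟩ := Gt01.CG.atR hn hc
  have hT : PC (TE P.Tr E) := pc_TE hP.trt E
  have e3 : lst P.p (n - 1) ≤ lst P.p n := by
    have h1 : fst P.p n - 1 = lst P.p (n - 1) := fst_sub P.p hn
    have := fst_le_lst P.p (show 2 ≤ n by omega)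
    omega
  obtain ⟨c', h1, h2⟩ := exists_cto hC hB hM h hs hT hw ha (lst P.p n) e3
  refine ⟨c', h2.px, h2.mp, ?_, ?_⟩
  · refine Gt01.AtR.cg (n := n + 1) (by omega) hw ?_ h1
    rw [h2.px]
    exact hc.leg
  · exact h2.con1 h hs hn hw ha h1 (fun e he =>
      Rup.of_vstr hB (Ltree.dfit _) (h1.cv.stem e he).2)

/-- Clause (G0). -/
theorem gt0 : GT0 := by
  intro P hP G h s hs hd
  have hu := h.rts hs
  have hr := h.root 0 s hs
  have hb0 : blk P.p 0 = 2 := blk_zero P.p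
  have hN : (G.d 0 s).N = 1 := (h.zero s hs).2.2
  have hadm : Adm (ow ((G.u 0 s, [0]) : St) 1) := by
    refine ⟨?_, fun b hb => ?_⟩
    · show 2 ≤ sz (G.u 0 s)
      have := hr.2.2.2.2.2
      omega
    · have h1 : b ∈ [0, 1] := hb
      have h2 : b ≤ 1 := by
        rcases List.mem_cons.1 h1 with h2 | h2
        · omega
        · have := List.mem_singleton.1 h2
          omega
      have := hr.2.2.2.2.2
      show b < sz (G.u 0 s)
      omega
  obtain ⟨g, g1, g2, g3, g4⟩ := h.can 0 s hs o (ow ((G.u 0 s, [0]) : St) 1) (LimF.adm_nil 0)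
    (by show 0 < G.nb 0 s; omega) hadm rfl (by show 2 ≤ _; omega)
  have he : endd o [g] = ow ((G.u 0 s, [0]) : St) 1 := by
    have := endd_snoc o [] g
    rw [List.nil_append] at this
    rw [this, g3]
  have hv : VStr (G.d 1 s).W o [g] (endd o [g]) := by
    refine ⟨⟨g2, ?_⟩, fun x hx => by rw [List.mem_singleton.1 hx]; exact g1⟩
    show tgt g = _
    rw [he, g3]
  have f3 : fst P.p 3 = 1 := by
    rw [fst_succ P.p (le_refl 2), fst_two]
    rfl
  have hroot : (endd o [g]).1 = G.u 0 s := by rw [he]; rfl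
  have h0 : ∀ t, G.u t s ≠ 0 := by
    intro t ht
    have h1 : 0 < G.u 0 s := hu.pos
    have h2 : G.u 0 s ≤ G.u t s := hu.mono.monotone (Nat.zero_le t)
    omega
  have hpx : ∀ ν : List ℕ, ν <+: [g] → ν = [] ∨ ν = [g] := by
    intro ν hν
    rcases List.prefix_concat_iff.1 (show ν <+: [] ++ [g] from hν) with h1 | h1
    · exact Or.inr h1
    · exact Or.inl (List.prefix_nil.1 h1)
  have hpu : ∀ t ν, ν <+: [g] → (endd o ν).1 = G.u t s → t = 0 ∧ ν = [g] := by
    intro t ν h1 h2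
    rcases hpx ν h1 with rfl | rfl
    · exact absurd h2.symm (h0 t)
    · rw [hroot] at h2
      exact ⟨(hu.inj h2).symm, rfl⟩
  have hreg : Reg P (fun t => G.u t s) [g] := by
    refine ⟨fun t ht => ?_, fun t ν h1 h2 => ?_, fun t ν ν' h1 h2 h3 h4 => ?_,
      fun t ν ν' h1 h2 h3 h4 => ?_⟩
    · rw [hroot] at ht
      obtain rfl : t = 0 := by
        have := hu.mono.le_iff_le.1 ht
        omega
      exact ⟨[g], List.prefix_refl _, hroot⟩
    · obtain ⟨rfl, rfl⟩ := hpu t ν h1 h2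
      rw [he, length_ow, hb0]
      exact ⟨by omega, by show 1 + 1 ≤ 2; omega⟩
    · have := (hpu _ _ h2 h4).1
      omega
    · obtain ⟨rfl, rfl⟩ := hpu t ν (h1.trans h2) h3
      rcases hpx ν' h2 with rfl | rfl
      · exact absurd (List.prefix_nil.1 h1) (by simp)
      · exact Lg.refl _
  refine ⟨([], [([], [], [g])]), rfl, ⟨Txt.Leg.nil, ?_, ⟨(G.u 0 s, [0]), ?_, le_refl _, ?_⟩, ?_⟩⟩
  · rw [f3]
    have hm : ∀ e ∈ [(([] : List ℕ), ([] : List ℕ), [g])], e = ([], [], [g]) := fun e he =>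
      List.mem_singleton.1 he
    refine ⟨⟨[g], by simp⟩, fun e h1 e' h2 _ => by rw [hm e h1, hm e' h2],
      fun e h1 => by rw [hm e h1]; trivial, fun e h1 => ?_, fun e h1 => ?_, fun e h1 e' h2 => ?_,
      fun e h1 e' h2 _ => ?_, fun e h1 h2 => ?_, ?_⟩
    · rw [hm e h1]
      exact ⟨rfl, by simp⟩
    · rw [hm e h1]
      exact ⟨List.nil_prefix, hv⟩
    · rw [hm e h1, hm e' h2]
    · rw [hm e h1, hm e' h2]
    · rw [hm e h1] at h2
      exact absurd rfl h2
    · have hn : ∀ ν, Nd (([], [([], [], [g])]) : Cnd3) ν → ν ≠ [] → ν = [g] := by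
        rintro ν ⟨e, h1, h2⟩ h3
        rw [hm e h1] at h2
        rcases hpx ν h2 with h4 | h4
        · exact absurd h4 h3
        · exact h4
      intro ν ν' h1 h2 h3 h4 h5
      exact absurd ((hn ν h1 h3).trans (hn ν' h2 h4).symm) h5
  · rw [f3]
  · refine ⟨fun e h1 => ⟨1, le_refl _, ?_⟩, fun e h1 e' h2 _ => ?_⟩
    · rw [List.mem_singleton.1 h1]
      exact he
    · rw [List.mem_singleton.1 h1, List.mem_singleton.1 h2]
  · intro e h1
    rw [List.mem_singleton.1 h1]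
    exact hreg

/-- Clause (G1), from CONT4. -/
theorem gt1 (hC : ContStatement4) : GT1 := gt1_of hC (basic codes) (mono codes (basic codes))

end Pool.Agent.Lib.MP_d48993_lc.Ba.Gr
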