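import Pool.Agent.Lib.MP_d48993_lc.BAE.Gr.Gt3

/-!
# Part G (MP_d48993): module GT2 (helper77), the clause (G2) of the interface to the texts
-/

set_option autoImplicit false

namespace Pool.Agent.Lib.MP_d48993_lc.Ba.Gr

open Pool.Agent.Lib.MP_d48993_lc.Node
open Pool.Agent.Lib.MP_d48993_lc.Node.Proc (endd_nil endd_append endd_snoc ch_append ch_pfx vstr_pfx)
open MP_8c048d_lc (pre join RecF)
open Txt (ht st mC mN mR ltN okN Leg)

/-- Clause (G2). -/
def GT2 : Prop :=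
  ∀ P : Par, P.Ok → ∀ G : Gph, Lim4 P G → ∀ s < P.p, ∀ hd : ℕ,
    ∀ n, 3 ≤ n → ∀ E c, CG P G s (P.Hd hd) n E c → ∀ e, 1 ≤ e → e ∉ E → P.Tr e [] →
      ∃ c' l, c'.1 = c.1 ++ l ∧ Facts l ∧ CG P G s (P.Hd hd) (n + 1) (e :: E) c' ∧
        Con1 P G s (TE P.Tr E) n (n + 1) c (res (TE P.Tr E) c') ∧
        ∃ e' ∈ c'.2, e'.1 = [e] ∧ Encodable.encode (e'.1, e'.2.1) ∈ l

open Gt3 Gt01 in
/-- Clause (G2), from CONT4. -/
theorem gt2_of (hC : ContStatement4) (hB : BasicStatement) (hM : MonoStatement) : GT2 := by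
  classical
  intro P hP G h s hs hd n hn E c hc e he1 heE hTr
  obtain ⟨w, hw, ha⟩ := Gt01.CG.atR hn hc
  have hT : PC (TE P.Tr (e :: E)) := pc_TE hP.trt (e :: E)
  have hmono : ∀ σ, TE P.Tr E σ → TE P.Tr (e :: E) σ := by
    intro σ hσ
    cases σ with
    | nil => trivial
    | cons b σ => exact ⟨List.mem_cons_of_mem _ hσ.1, hσ.2⟩
  have ha' : AtR P G s (TE P.Tr (e :: E)) (lst P.p (n - 1)) w c :=
    ⟨⟨ha.cv.root, ha.cv.uniq, fun x hx => hmono _ (ha.cv.mem x hx), ha.cv.img, ha.cv.stem,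
      ha.cv.emb, ha.cv.stemEmb, ha.cv.parent, ha.cv.ac⟩, ha.at', ha.reg⟩
  have hne : ¬ TE P.Tr E [e] := fun h1 => heE h1.1
  have e3 : lst P.p (n - 1) + 1 ≤ lst P.p n := by
    have h1 : fst P.p n - 1 = lst P.p (n - 1) := fst_sub P.p hn
    have := fst_le_lst P.p (show 2 ≤ n by omega)
    have := fst_pos P.p hn
    omega
  obtain ⟨c', k1, k2, k3, k4, k5⟩ := thru hC hB hM h hs hT hw ha' [([], e)]
    (by
      have h1 : ([(([] : List ℕ), e)] : List (List ℕ × ℕ)).toFinset.card ≤ 1 :=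
        (List.toFinset_card_le _).trans (le_refl _)
      omega)
    (fun x hx => by
      rw [List.mem_singleton.1 hx]
      obtain ⟨p, hp⟩ := ha.cv.root
      refine ⟨_, hp, rfl, ⟨List.mem_cons_self, hTr⟩, fun e' he' h1 => hne ?_⟩
      have h2 := ha.cv.mem e' he'
      rw [h1] at h2
      exact h2) e3
  obtain ⟨e', he', hee⟩ := k5 _ (List.mem_singleton.2 rfl)
  change e'.1 = [e] at hee
  set a₀ : ℕ := Encodable.encode (e'.1, e'.2.1) with ha₀
  have hF : Facts [a₀] := by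
    intro a h1
    rw [List.mem_singleton.1 h1]
    refine ⟨e'.1, e'.2.1, ?_, rfl⟩
    rw [hee]
    intro h2
    have h3 : e = 0 := by simpa using h2
    omega
  have hleg : Leg (P.Hd hd) (c.1 ++ [a₀]) := (Txt.leg_junk hc.leg [a₀] (facts_junk hF)).1
  refine ⟨(c.1 ++ [a₀], c'.2), [a₀], rfl, hF, ?_, ?_, e', he', hee, List.mem_singleton.2 rfl⟩
  · exact Gt01.AtR.cg (n := n + 1) (by omega) hw hleg ⟨cv_text _ k1.cv,
      ⟨k1.at'.en, k1.at'.inj⟩, k1.reg⟩
  · have hsub : ∀ x ∈ (res (TE P.Tr E) (c.1 ++ [a₀], c'.2)).2, x ∈ c'.2 ∧ TE P.Tr E x.1 :=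
      fun x hx => Gt4.mem_res.1 hx
    refine con1_of h hs hn hw ha ⟨fun x hx => k1.at'.en x (hsub x hx).1,
      fun x hx y hy => k1.at'.inj x (hsub x hx).1 y (hsub y hy).1⟩ (fun x hx =>
      Rup.of_vstr hB (Ltree.dfit _) (k1.cv.stem x (hsub x hx).1).2)
      ⟨List.prefix_append _ _, fun x hx => ?_, fun x hx => k2.new x (hsub x hx).1,
        fun a h1 s' ρ hf hs' => ?_⟩ fun x hx => k4 x (hsub x hx).1
    · obtain ⟨p', h1, h2⟩ := k2.old x hx
      exact ⟨p', h1, Gt4.mem_res.2 ⟨h2, ha.cv.mem x hx⟩⟩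
    · have h2 : a ∈ [a₀] := by
        have h3 : a ∈ (c.1 ++ [a₀]).drop c.1.length := h1
        simpa using h3
      have h4 : a = a₀ := List.mem_singleton.1 h2
      have h5 : (s', ρ) = (e'.1, e'.2.1) :=
        Encodable.encode_injective ((hf.symm.trans h4).trans ha₀)
      have h6 := congrArg Prod.fst h5
      change s' = e'.1 at h6
      rw [h6, hee] at hs'
      exact absurd hs' hne

end Pool.Agent.Lib.MP_d48993_lc.Ba.Gr
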