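import Pool.Agent.Lib.MP_d48993_lc.BAE.Gr.Gt01
import Pool.Agent.Lib.MP_d48993_lc.BAE.Gr.Gt4

/-!
# Part G (MP_d48993): module GT3 (helper77), the clause (G3) of the interface to the texts

`stepX`: one root further with new children; `exists_ctoX`: through a block.
-/

set_option autoImplicit false

namespace Pool.Agent.Lib.MP_d48993_lc.Ba.Gr

open Pool.Agent.Lib.MP_d48993_lc.Node
open Pool.Agent.Lib.MP_d48993_lc.Node.Proc (endd_nil endd_append endd_snoc ch_append ch_pfx vstr_pfx)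
open MP_8c048d_lc (pre join RecF)
open Txt (ht st mC mN mR ltN okN Leg)

/-- Clause (G3). -/
def GT3 : Prop :=
  ∀ P : Par, P.Ok → ∀ G : Gph, Lim4 P G → ∀ s < P.p, ∀ hd : ℕ,
    ∀ n, 3 ≤ n → ∀ E c, 0 ∉ E → CG P G s (P.Hd hd) n E c → ∃ c' l, c'.1 = c.1 ++ l ∧ Facts l ∧
      CG P G s (P.Hd hd) (n + 1) E c' ∧ Con1 P G s (TE P.Tr E) n (n + 1) c c' ∧
      (∀ e ∈ c.2, e.1 ≠ [] → ∀ k, TE P.Tr E (e.1 ++ [k]) → ∃ e' ∈ c'.2, e'.1 = e.1 ++ [k]) ∧
      ∀ e' ∈ c'.2, e'.1 = [] ∨ Encodable.encode (e'.1, e'.2.1) ∈ l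

namespace Gt3

open Gt01

/-- The stems of a condition. -/
noncomputable def stems (c : Cnd3) : Finset (List ℕ) := (c.2.map (fun e => e.2.2)).toFinset

/-- All stems pass through own states of `(u t, w)`, `a < t ≤ b`. -/
def Thr (G : Gph) (s : ℕ) (w : List ℕ) (a b : ℕ) (c' : Cnd3) : Prop :=
  ∀ e' ∈ c'.2, ∀ t, a < t → t ≤ b →
    ∃ ν i, ν <+: e'.2.2 ∧ 1 ≤ i ∧ endd o ν = ow ((G.u t s, w) : St) i

section

variable {P : Par} {G : Gph} {s : ℕ} {T : List ℕ → Prop}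

/-- One root further, with new children. -/
theorem stepX (hC : ContStatement4) (hB : BasicStatement) (hM : MonoStatement) (h : Lim4 P G)
    (hs : s < P.p) (hT : PC T) {a : ℕ} {w : List ℕ} {c : Cnd3} (hw : 1 ≤ w.length)
    (ha : AtR P G s T a w c) (X : List (List ℕ × ℕ)) (hXc : X.toFinset.card ≤ 2 * (stems c).card + 1)
    (hX : ∀ x ∈ X, ∃ e ∈ c.2, e.1 = x.1 ∧ T (x.1 ++ [x.2]) ∧ ∀ e' ∈ c.2, e'.1 ≠ x.1 ++ [x.2]) :
    ∃ c', AtR P G s T (a + 1) w c' ∧ CLe T c c' ∧ c'.1 = c.1 ∧ Thr G s w a (a + 1) c' ∧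
      (∀ x ∈ X, ∃ e' ∈ c'.2, e'.1 = x.1 ++ [x.2]) ∧
      ∀ e' ∈ c'.2, ∃ e ∈ c.2, e.2.2 <+: e'.2.2 := by
  classical
  have hlen := ha.len
  have hu := h.rts hs
  have hlt : G.u a s < G.u (a + 1) s := h.u_lt hs a
  have hidx : ∀ e ∈ c.2, ∃ i, 1 ≤ i ∧ endd o e.2.2 = ow ((G.u a s, w) : St) i := ha.at'.en
  -- the numbers of the own states
  set f : List ℕ → ℕ := fun ν => if hν : ∃ e ∈ c.2, e.1 = ν then
    (hidx _ hν.choose_spec.1).choose else 0 with hf
  have hf' : ∀ e ∈ c.2, 1 ≤ f e.1 ∧ endd o e.2.2 = ow ((G.u a s, w) : St) (f e.1) := by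
    intro e he
    have hν : ∃ e' ∈ c.2, e'.1 = e.1 := ⟨e, he, rfl⟩
    have h1 : hν.choose = e := ha.cv.uniq _ hν.choose_spec.1 _ he hν.choose_spec.2
    have h2 := (hidx _ hν.choose_spec.1).choose_spec
    have h3 : f e.1 = (hidx _ hν.choose_spec.1).choose := by
      rw [hf]
      simp only
      rw [dif_pos hν]
    rw [h3]
    refine ⟨h2.1, ?_⟩
    rw [← h2.2, h1]
  have hcv : CV (G.d (a + 1 + 1) s).W T c :=
    cv_mono (fun x σ y hσ => LimF.vstr_mono hM h hs (Nat.le_succ _) hσ) ha.cv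
  have hle : ∀ e ∈ c.2, LEs G s e.2.2 := fun e he => ⟨_, (ha.cv.stem e he).2⟩
  -- admissible targets
  have hadmu : ∀ e ∈ c.2, Adm (ow ((G.u a s, w) : St) (f e.1)) := by
    intro e he
    have h1 := LimF.end_adm hB h hs (hle e he)
    rw [(hf' e he).2] at h1
    exact h1
  have hwadm : ∀ i, i < sz (G.u (a + 1) s) → Adm (ow ((G.u (a + 1) s, w) : St) i) := by
    intro i hi
    obtain ⟨p, hp⟩ := ha.cv.root
    have h1 := hadmu _ hp
    have h2 := LimF.sz_mono h hs (Nat.le_succ a)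
    refine ⟨?_, fun b hb => ?_⟩
    · have h3 := h1.1.trans h2
      rw [length_ow] at h3 ⊢
      exact h3
    have hb' : b ∈ w ++ [i] := hb
    rcases List.mem_append.1 hb' with h3 | h3
    · exact lt_of_lt_of_le (h1.2 b (by
        show b ∈ w ++ [_]
        exact List.mem_append_left _ h3)) h2
    · rw [List.mem_singleton.1 h3]
      exact hi
  have hadm : ∀ e ∈ c.2, Adm (ow ((G.u (a + 1) s, w) : St) (f e.1)) := by
    intro e he
    refine hwadm _ ?_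
    have h1 := (hadmu e he).2 (f e.1) (by
      show f e.1 ∈ w ++ [f e.1]
      simp)
    exact lt_of_lt_of_le h1 (LimF.sz_mono h hs (Nat.le_succ a))
  have hcan0 : ∀ e ∈ c.2, ∀ i, i < sz (G.u (a + 1) s) → ∃ g, VS (G.d (a + 1 + 1) s).W g ∧
      src g = endd o e.2.2 ∧ tgt g = ow ((G.u (a + 1) s, w) : St) i ∧ Ex g = [] := by
    intro e he i hi
    have h1 : (endd o e.2.2).1 < G.u (a + 1) s := by
      rw [(hf' e he).2]
      exact hlt
    exact h.can (a + 1) s hs _ _ (LimF.end_adm hB h hs (hle e he))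
      (LimF.end_lt hB hM h hs (hle e he) h1) (hwadm i hi) rfl (by
        rw [length_ow]
        have := blk_le_succ P.p a
        show w.length + 1 ≤ _
        omega)
  have hfs : ∀ e ∈ c.2, f e.1 < sz (G.u (a + 1) s) := fun e he => (hadm e he).2 (f e.1) (by
      show f e.1 ∈ w ++ [f e.1]
      simp)
  -- the new numbers
  set U : Finset ℕ := (c.2.map (fun e => f e.1)).toFinset with hU
  have hUc : U.card ≤ (stems c).card := by
    have h1 : U ⊆ (stems c).image (fun p => ((endd o p).2.getLast?).getD 0) := by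
      intro i hi
      obtain ⟨e, he, rfl⟩ := List.mem_map.1 (List.mem_toFinset.1 hi)
      refine Finset.mem_image.2 ⟨e.2.2, List.mem_toFinset.2 (List.mem_map.2 ⟨e, he, rfl⟩), ?_⟩
      rw [(hf' e he).2]
      show ((w ++ [f e.1]).getLast?).getD 0 = _
      simp
    exact (Finset.card_le_card h1).trans Finset.card_image_le
  have hmany : 3 * (stems c).card + 3 < sz (G.u (a + 1) s) := by
    have h1 := h.many (a + 1) s hs (stems c).toList (Finset.nodup_toList _) (fun σ hσ => by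
      obtain ⟨e, he, rfl⟩ := List.mem_map.1 (List.mem_toFinset.1 (Finset.mem_toList.1 hσ))
      refine ⟨LimF.vstr_mono hM h hs (Nat.le_succ _) (ha.cv.stem e he).2, ?_⟩
      rw [(hf' e he).2]
      exact hlt)
    rwa [Finset.length_toList] at h1
  set A : Finset ℕ := Finset.Ico 1 (sz (G.u (a + 1) s)) \ U with hA
  have hAc : X.toFinset.card ≤ A.card := by
    have h1 := Finset.le_card_sdiff U (Finset.Ico 1 (sz (G.u (a + 1) s)))
    rw [Nat.card_Ico] at h1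
    rw [hA]
    omega
  obtain ⟨φ⟩ : Nonempty (X.toFinset ↪ A) :=
    Function.Embedding.nonempty_of_card_le (by
      rw [Fintype.card_coe, Fintype.card_coe]
      exact hAc)
  set f' : List ℕ × ℕ → ℕ := fun x => if hx : x ∈ X.toFinset then (φ ⟨x, hx⟩ : ℕ) else 0 with hf''
  have hfX : ∀ x ∈ X, 1 ≤ f' x ∧ f' x < sz (G.u (a + 1) s) ∧ f' x ∉ U := by
    intro x hx
    have hx' : x ∈ X.toFinset := List.mem_toFinset.2 hx
    have h1 : f' x = (φ ⟨x, hx'⟩ : ℕ) := by rw [hf'']; simp only; rw [dif_pos hx']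
    have h2 := (φ ⟨x, hx'⟩).2
    rw [← h1] at h2
    obtain ⟨h3, h4⟩ := Finset.mem_sdiff.1 h2
    obtain ⟨h5, h6⟩ := Finset.mem_Ico.1 h3
    exact ⟨h5, h6, h4⟩
  have hfi : ∀ x ∈ X, ∀ x' ∈ X, f' x = f' x' → x = x' := by
    intro x hx x' hx' hxx
    have hx1 : x ∈ X.toFinset := List.mem_toFinset.2 hx
    have hx2 : x' ∈ X.toFinset := List.mem_toFinset.2 hx'
    have h1 : f' x = (φ ⟨x, hx1⟩ : ℕ) := by rw [hf'']; simp only; rw [dif_pos hx1]
    have h2 : f' x' = (φ ⟨x', hx2⟩ : ℕ) := by rw [hf'']; simp only; rw [dif_pos hx2]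
    rw [h1, h2] at hxx
    have h3 := φ.injective (Subtype.ext hxx)
    exact congrArg Subtype.val h3
  obtain ⟨c', k1, k2, k3, k4, k5, k6⟩ := hC (G.d (a + 1 + 1) s) T c ((G.u (a + 1) s, w) : St) X f
    f' (h.good _ s hs).wf hcv hT (by rw [h.pub (a + 1) s hs]; simp)
    (fun e he => by rw [(hf' e he).2]; exact hlt) (fun e he => hcan0 e he _ (hfs e he))
    (fun x hx => by
      obtain ⟨e, he, h1, h2, h3⟩ := hX x hx
      exact ⟨e, he, h1, h2, h3, hcan0 e he _ (hfX x hx).2.1⟩)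
    (fun e he e' he' hee => by
      have h1 : endd o e.2.2 = endd o e'.2.2 := by rw [(hf' e he).2, (hf' e' he').2, hee]
      rw [ha.at'.inj e he e' he' h1])
    hfi
    (fun e he x hx hex => (hfX x hx).2.2 (by
      rw [← hex]
      exact List.mem_toFinset.2 (List.mem_map.2 ⟨e, he, rfl⟩)))
  -- the triples of `c'`
  have hb : ∀ e' ∈ c'.2, ∃ e ∈ c.2, ∃ g i, VS (G.d (a + 1 + 1) s).W g ∧ src g = endd o e.2.2 ∧
      tgt g = ow ((G.u (a + 1) s, w) : St) i ∧ 1 ≤ i ∧ e'.2.2 = e.2.2 ++ [g] ∧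
      ((e' = (e.1, e.2.1, e.2.2 ++ [g]) ∧ i = f e.1) ∨
        ∃ x ∈ X, e.1 = x.1 ∧ i = f' x ∧ e' = (x.1 ++ [x.2], e.2.2 ++ [g], e.2.2 ++ [g])) := by
    intro e' he'
    rcases k6 e' he' with ⟨e, he, h1⟩ | ⟨x, hx, h1⟩
    · obtain ⟨g, g1, g2, g3, -, g5⟩ := k4 e he
      have h2 : e' = (e.1, e.2.1, e.2.2 ++ [g]) := k1.uniq _ he' _ g5 h1
      exact ⟨e, he, g, f e.1, g1, g2, g3, (hf' e he).1, by rw [h2], Or.inl ⟨h2, rfl⟩⟩
    · obtain ⟨e, he, h2, g, g1, g2, g3, -, g5⟩ := k5 x hx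
      have h3 : e' = (x.1 ++ [x.2], e.2.2 ++ [g], e.2.2 ++ [g]) := k1.uniq _ he' _ g5 h1
      exact ⟨e, he, g, f' x, g1, g2, g3, (hfX x hx).1, by rw [h3],
        Or.inr ⟨x, hx, h2, rfl, h3⟩⟩
  have hend : ∀ e' ∈ c'.2, ∃ i, 1 ≤ i ∧ endd o e'.2.2 = ow ((G.u (a + 1) s, w) : St) i := by
    intro e' he'
    obtain ⟨e, he, g, i, -, -, g3, g4, g5, -⟩ := hb e' he'
    exact ⟨i, g4, by rw [g5, endd_snoc, g3]⟩
  have hrup : ∀ e' ∈ c'.2, Rup o e'.2.2 := fun e' he' =>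
    Rup.of_vstr hB (Ltree.dfit _) (k1.stem e' he').2
  refine ⟨c', ⟨k1, ⟨hend, fun e' he' e'' he'' hee => ?_⟩, fun e' he' => ?_⟩, k2, k3,
    fun e' he' t h1 h2 => ?_, fun x hx => ?_, fun e' he' => ?_⟩
  · obtain ⟨e1, he1, g1, i1, -, -, g3, -, m3, m4⟩ := hb e' he'
    obtain ⟨e2, he2, g2, i2, -, -, g4, -, n3, n4⟩ := hb e'' he''
    rw [m3, n3, endd_snoc, endd_snoc, g3, g4] at hee
    have hi := (ow_inj hee).2
    refine k1.uniq _ he' _ he'' ?_
    rcases m4 with ⟨m4, m5⟩ | ⟨x, hx, m4, m5, m6⟩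
    · rcases n4 with ⟨n4, n5⟩ | ⟨x', hx', n4, n5, n6⟩
      · have h2 : endd o e1.2.2 = endd o e2.2.2 := by
          rw [(hf' e1 he1).2, (hf' e2 he2).2, ← m5, ← n5, hi]
        have h3 := ha.at'.inj e1 he1 e2 he2 h2
        rw [m4, n4, h3]
      · exact absurd (List.mem_toFinset.2 (List.mem_map.2 ⟨e1, he1, rfl⟩))
          (show f e1.1 ∉ U by rw [← m5, hi, n5]; exact (hfX x' hx').2.2)
    · rcases n4 with ⟨n4, n5⟩ | ⟨x', hx', n4, n5, n6⟩
      · exact absurd (List.mem_toFinset.2 (List.mem_map.2 ⟨e2, he2, rfl⟩))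
          (show f e2.1 ∉ U by rw [← n5, ← hi, m5]; exact (hfX x hx).2.2)
      · have h3 := hfi x hx x' hx' (by rw [← m5, ← n5, hi])
        rw [m6, n6, h3]
  · have hr := hrup e' he'
    obtain ⟨e, he, g, i, -, -, g3, -, g5, -⟩ := hb e' he'
    rw [g5] at hr ⊢
    refine (ha.reg e he).snoc_pub hu hr (List.prefix_refl _) (t := a) (by
      rw [(hf' e he).2]
      rfl) (by rw [g3]; rfl) ?_
    rw [(hf' e he).2, g3]
    have h1 : Link P a ((G.u a s, w) : St) (G.u (a + 1) s, w) := link_same h hs hw (by omega)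
    exact (link_ow (ne_nil_of_len hw) (ne_nil_of_len hw) hlen
      (hlen.trans (blk_le_succ P.p a))).2 h1
  · obtain rfl : t = a + 1 := by omega
    obtain ⟨i, hi, h3⟩ := hend e' he'
    exact ⟨_, i, List.prefix_refl _, hi, h3⟩
  · obtain ⟨e, -, -, g, -, -, -, -, g5⟩ := k5 x hx
    exact ⟨_, g5, rfl⟩
  · obtain ⟨e, he, g, i, -, -, -, -, g5, -⟩ := hb e' he'
    exact ⟨e, he, by rw [g5]; exact List.prefix_append _ _⟩

/-- `Cto` after an extension. -/
theorem cle_cto {a b : ℕ} {w : List ℕ} {c c₁ c₂ : Cnd3} (h1 : CLe T c c₁)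
    (h2 : Cto G s w a b c₁ c₂) : CLe T c c₂ where
  px := by rw [h2.px]; exact h1.px
  old e he := by
    obtain ⟨p', hp, hm⟩ := h1.old e he
    obtain ⟨l, hl⟩ := h2.fwd _ hm
    exact ⟨_, hp.trans (List.prefix_append _ _), hl⟩
  new e he hn e₁ he₁ h3 := by
    obtain ⟨e₀, he₀, l, i, h4, -⟩ := h2.bwd e he
    subst h4
    exact h1.new e₀ he₀ hn e₁ he₁ h3
  fact n hn s' ρ hf hs' := by
    rw [h2.px] at hn
    obtain ⟨p, hp⟩ := h1.fact n hn s' ρ hf hs'
    obtain ⟨l, hl⟩ := h2.fwd _ hp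
    exact ⟨_, hl⟩

/-- Through a block, with new children at its first root. -/
theorem thru (hC : ContStatement4) (hB : BasicStatement) (hM : MonoStatement) (h : Lim4 P G)
    (hs : s < P.p) (hT : PC T) {a : ℕ} {w : List ℕ} {c : Cnd3} (hw : 1 ≤ w.length)
    (ha : AtR P G s T a w c) (X : List (List ℕ × ℕ)) (hXc : X.toFinset.card ≤ 2 * (stems c).card + 1)
    (hX : ∀ x ∈ X, ∃ e ∈ c.2, e.1 = x.1 ∧ T (x.1 ++ [x.2]) ∧ ∀ e' ∈ c.2, e'.1 ≠ x.1 ++ [x.2])
    {b : ℕ} (hab : a + 1 ≤ b) :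
    ∃ c', AtR P G s T b w c' ∧ CLe T c c' ∧ c'.1 = c.1 ∧ Thr G s w a b c' ∧
      ∀ x ∈ X, ∃ e' ∈ c'.2, e'.1 = x.1 ++ [x.2] := by
  obtain ⟨c₁, h1, h2, h3, h4, h5, h6⟩ := stepX hC hB hM h hs hT hw ha X hXc hX
  obtain ⟨c₂, k1, k2⟩ := exists_cto hC hB hM h hs hT hw h1 b hab
  refine ⟨c₂, k1, cle_cto h2 k2, k2.px.trans h3, fun e' he' t ht1 ht2 => ?_, fun x hx => ?_⟩
  · obtain ⟨e, he, l, i, -, hi, -, -, h8⟩ := k2.bwd e' he'
    obtain ⟨ν, -, m2, m3⟩ := h8 t ht1 ht2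
    exact ⟨ν, i, m2, hi, m3⟩
  · obtain ⟨e, he, h7⟩ := h5 x hx
    obtain ⟨l, hl⟩ := k2.fwd e he
    exact ⟨_, hl, h7⟩

/-- A passage through a block is a coned extension with a Rise. -/
theorem con1_of (h : Lim4 P G) (hs : s < P.p) {T' : List ℕ → Prop} {n : ℕ} {c c' : Cnd3}
    {w : List ℕ} (hn : 3 ≤ n) (hw : 1 ≤ w.length) (h1 : AtR P G s T (lst P.p (n - 1)) w c)
    (h2 : At ((G.u (lst P.p n) s, w) : St) c') (hrup : ∀ e ∈ c'.2, Rup o e.2.2)
    (hle : CLe T' c c') (h3 : Thr G s w (lst P.p (n - 1)) (lst P.p n) c') :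
    Con1 P G s T' n (n + 1) c c' := by
  have hu := h.rts hs
  have hlen := h1.len
  have e1 : lst P.p (n - 1) + 1 = fst P.p n := by
    have h4 : fst P.p n - 1 = lst P.p (n - 1) := fst_sub P.p hn
    have := fst_pos P.p hn
    omega
  have b1 : blk P.p (lst P.p (n - 1)) = n - 1 := blk_lst P.p (by omega)
  refine ⟨⟨hle, fun t => (G.u t s, w), fun t => rfl, h1.at', ?_, fun t k1 k2 => ?_,
    fun e' he' t k1 k2 => ?_⟩, fun z hz e' he' ν hν hνu i => ?_⟩
  · exact h2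
  · refine link_same h hs hw ?_
    have := blk_mono P.p k1
    omega
  · exact h3 e' he' t k1 (by simpa using k2)
  · obtain ⟨ν', j, m2, -, m3⟩ := h3 e' he' (fst P.p n) (by omega) (fst_le_lst P.p (by omega))
    have h7 : ν = ν' := by
      refine (hrup e' he').eq hν m2 ?_
      rw [hνu, m3]
      rfl
    obtain ⟨p, hp⟩ := h1.cv.root
    obtain ⟨j', -, h8⟩ := hz.en _ hp
    obtain ⟨j'', -, h8'⟩ := h1.at'.en _ hp
    have h9 := (ow_inj (h8.symm.trans h8')).1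
    rw [h7, m3, h9, rise_ow]
    show bk (G.u (lst P.p (n - 1)) s) + w.length < bk (G.u (fst P.p n) s) + w.length
    have f1 : bk (G.u (lst P.p (n - 1)) s) = blk P.p (lst P.p (n - 1)) := hu.bk _
    have f2 : bk (G.u (fst P.p n) s) = blk P.p (fst P.p n) := hu.bk _
    rw [f1, f2, b1, blk_fst P.p (by omega)]
    omega

/-- `CV` does not depend on the text. -/
theorem cv_text {W : World} {c : Cnd3} (v : List ℕ) (h : CV W T c) : CV W T (v, c.2) :=
  ⟨h.root, h.uniq, h.mem, h.img, h.stem, h.emb, h.stemEmb, h.parent, h.ac⟩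

/-- Facts are junk. -/
theorem facts_junk {l : List ℕ} (h : Facts l) : ∀ a ∈ l, Txt.Junk a := by
  intro a ha
  obtain ⟨s, ρ, h1, rfl⟩ := h a ha
  exact Txt.junk_fact h1

end

end Gt3

open Gt3 Gt01 in
/-- Clause (G3), from CONT4. -/
theorem gt3_of (hC : ContStatement4) (hB : BasicStatement) (hM : MonoStatement) : GT3 := by
  classical
  intro P hP G h s hs hd n hn E c h0 hc
  obtain ⟨w, hw, ha⟩ := Gt01.CG.atR hn hc
  have hT : PC (TE P.Tr E) := pc_TE hP.trt E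
  -- the missing children
  set X : List (List ℕ × ℕ) := (c.2.flatMap (fun e => [(e.1, 0), (e.1, 1)])).filter
    (fun x => decide (x.1 ≠ [] ∧ TE P.Tr E (x.1 ++ [x.2]) ∧ ∀ e' ∈ c.2, e'.1 ≠ x.1 ++ [x.2]))
    with hXd
  have hmX : ∀ x, x ∈ X ↔ (∃ e ∈ c.2, e.1 = x.1 ∧ x.2 < 2) ∧ x.1 ≠ [] ∧
      TE P.Tr E (x.1 ++ [x.2]) ∧ ∀ e' ∈ c.2, e'.1 ≠ x.1 ++ [x.2] := by
    intro x
    rw [hXd, List.mem_filter, decide_eq_true_iff, List.mem_flatMap]
    refine and_congr_left (fun _ => exists_congr (fun e => and_congr_right (fun _ => ?_)))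
    obtain ⟨x1, x2⟩ := x
    simp only [List.mem_cons, Prod.mk.injEq, List.not_mem_nil, or_false]
    constructor
    · rintro (⟨h1, h2⟩ | ⟨h1, h2⟩)
      · exact ⟨h1.symm, by omega⟩
      · exact ⟨h1.symm, by omega⟩
    · rintro ⟨h1, h2⟩
      rcases Nat.lt_or_ge x2 1 with h3 | h3
      · exact Or.inl ⟨h1.symm, by omega⟩
      · exact Or.inr ⟨h1.symm, by omega⟩
  have hXc : X.toFinset.card ≤ 2 * (stems c).card + 1 := by
    have h1 : X.toFinset ⊆ ((c.2.toFinset.image (fun e => e.1)) ×ˢ (Finset.range 2)) := by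
      intro x hx
      obtain ⟨⟨e, he, h2, h3⟩, -⟩ := (hmX x).1 (List.mem_toFinset.1 hx)
      exact Finset.mem_product.2 ⟨Finset.mem_image.2 ⟨e, List.mem_toFinset.2 he, h2⟩,
        Finset.mem_range.2 h3⟩
    have h2 : c.2.toFinset.card = (stems c).card := by
      have h3 : stems c = c.2.toFinset.image (fun e => e.2.2) := by
        ext p
        simp only [stems, List.mem_toFinset, List.mem_map, Finset.mem_image]
      rw [h3, Finset.card_image_of_injOn]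
      intro e he e' he' hee
      have he1 := List.mem_toFinset.1 (Finset.mem_coe.1 he)
      have he2 := List.mem_toFinset.1 (Finset.mem_coe.1 he')
      exact ha.at'.inj e he1 e' he2 (by
        change e.2.2 = e'.2.2 at hee
        rw [hee])
    have h4 := Finset.card_le_card h1
    rw [Finset.card_product, Finset.card_range] at h4
    have h5 : (c.2.toFinset.image (fun e => e.1)).card ≤ c.2.toFinset.card :=
      Finset.card_image_le
    omega
  have e3 : lst P.p (n - 1) + 1 ≤ lst P.p n := by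
    have h1 : fst P.p n - 1 = lst P.p (n - 1) := fst_sub P.p hn
    have := fst_le_lst P.p (show 2 ≤ n by omega)
    have := fst_pos P.p hn
    omega
  obtain ⟨c', k1, k2, k3, k4, k5⟩ := thru hC hB hM h hs hT hw ha X hXc
    (fun x hx => by
      obtain ⟨⟨e, he, h1, -⟩, -, h2, h3⟩ := (hmX x).1 hx
      exact ⟨e, he, h1, h2, h3⟩) e3
  -- the facts
  set l : List ℕ := (c'.2.filter (fun e => decide (e.1 ≠ []))).map
    (fun e => Encodable.encode (e.1, e.2.1)) with hl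
  have hml : ∀ a, a ∈ l ↔ ∃ e ∈ c'.2, e.1 ≠ [] ∧ a = Encodable.encode (e.1, e.2.1) := by
    intro a
    rw [hl, List.mem_map]
    constructor
    · rintro ⟨e, he, rfl⟩
      obtain ⟨h1, h2⟩ := List.mem_filter.1 he
      exact ⟨e, h1, of_decide_eq_true h2, rfl⟩
    · rintro ⟨e, he, h1, rfl⟩
      exact ⟨e, List.mem_filter.2 ⟨he, decide_eq_true h1⟩, rfl⟩
  have hF : Facts l := by
    intro a ha'
    obtain ⟨e, he, h1, rfl⟩ := (hml a).1 ha'
    refine ⟨e.1, e.2.1, ?_, rfl⟩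
    have h2 := k1.cv.mem e he
    cases h3 : e.1 with
    | nil => exact absurd h3 h1
    | cons b σ =>
      rw [h3] at h2
      have h4 : b ∈ E := h2.1
      intro h5
      have h6 : b = 0 := by simpa using h5
      exact h0 (h6 ▸ h4)
  have hleg : Leg (P.Hd hd) (c.1 ++ l) := (Txt.leg_junk hc.leg l (facts_junk hF)).1
  refine ⟨(c.1 ++ l, c'.2), l, rfl, hF, ?_, ?_, fun e he hne k hk => ?_, fun e' he' => ?_⟩
  · refine Gt01.AtR.cg (n := n + 1) (by omega) hw hleg ⟨cv_text _ k1.cv, ⟨k1.at'.en, k1.at'.inj⟩,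
      k1.reg⟩
  · refine con1_of h hs hn hw ha ⟨k1.at'.en, k1.at'.inj⟩ (fun e he =>
      Rup.of_vstr hB (Ltree.dfit _) (k1.cv.stem e he).2) ⟨List.prefix_append _ _, k2.old, k2.new,
        fun a ha' s' ρ hf hs' => ?_⟩ k4
    have h1 : a ∈ l := by simpa using ha'
    obtain ⟨e, he, h2, h3⟩ := (hml a).1 h1
    have h4 : (s', ρ) = (e.1, e.2.1) := Encodable.encode_injective (hf.symm.trans h3)
    have h5 := congrArg Prod.fst h4
    have h6 := congrArg Prod.snd h4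
    change s' = e.1 at h5
    change ρ = e.2.1 at h6
    exact ⟨e.2.2, by rw [h5, h6]; exact he⟩
  · by_cases h1 : ∃ e' ∈ c.2, e'.1 = e.1 ++ [k]
    · obtain ⟨e', he', h2⟩ := h1
      obtain ⟨p', -, h3⟩ := k2.old e' he'
      exact ⟨_, h3, h2⟩
    · have h2 : k < 2 := by
        cases h3 : e.1 with
        | nil => exact absurd h3 hne
        | cons b σ =>
          rw [h3] at hk
          exact hP.trb b _ hk.2 k (by simp)
      have h3 : ((e.1, k) : List ℕ × ℕ) ∈ X := (hmX _).2 ⟨⟨e, he, rfl, h2⟩, hne, hk,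
        fun e' he' h4 => h1 ⟨e', he', h4⟩⟩
      exact k5 _ h3
  · by_cases h1 : e'.1 = []
    · exact Or.inl h1
    · exact Or.inr ((hml _).2 ⟨e', he', h1, rfl⟩)

end Pool.Agent.Lib.MP_d48993_lc.Ba.Gr
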