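import Pool.Agent.Lib.MP_d48993_lc.BAE.Gr.Comp3
import Pool.Agent.Lib.MP_d48993_lc.BAE.Rig.Tru

/-!
# Part G, module GH (helper40): companions are total and valid (finding 4201, G13)
-/

set_option autoImplicit false

namespace Pool.Agent.Lib.MP_d48993_lc.Ba.Gr

open Pool.Agent.Lib.MP_d48993_lc.Node
open Pool.Agent.Lib.MP_d48993_lc.Node.Proc (endd_append endd_snoc ch_append ch_pfx)
open MP_8c048d_lc (pre join RecF length_pre pre_take pre_succ)
open Pool.Agent.Lib.MP_d48993_lc.Ba.Gr.Comp (hB hM pre_mono of_pfx_pre)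

namespace HH

theorem getD_map' {α : Type} (f : ℕ → α) (d : α) {n i : ℕ} (hi : i < n) :
    ((List.range n).map f).getD i d = f i := by
  simp [List.getD_eq_getElem?_getD, hi]

section

variable {P : Par} {G : Gph} {J : ℕ → Bool} {H : ℕ}

theorem tx_congr {J J' : ℕ → Bool} (h : ∀ s < P.p, J s = J' s) (c : ℕ) :
    Tx P J H c = Tx P J' H c := by
  unfold Tx
  by_cases hc : P.p ≤ c
  · simp [hc]
  · rw [h c (not_le.1 hc)]

theorem getD_tupV (V : ℕ → ℕ → ℕ) (l : ℕ) (σ : ℕ → List ℕ) {c : ℕ} (hc : c < P.p + P.q) :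
    (tupV P J H V l σ).getD c [] = if Tx P J H c then pre (V c) l else σ c :=
  getD_map' _ _ hc

theorem getD_tup (σ : ℕ → List ℕ) (k : ℕ → Cnd3) {c : ℕ} (hc : c < P.p + P.q) :
    (tup P J H σ k).getD c [] = if Tx P J H c then (k c).1 else σ c :=
  getD_map' _ _ hc

/-- A present column is a text or a colour outside of the pattern. -/
theorem prs_cases {c : ℕ} (h : Prs P H c = true) :
    Tx P J H c = true ∨ (Tx P J H c = false ∧ c < P.p ∧ J c = false) := by
  cases h1 : Tx P J H c with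
  | true => exact Or.inl rfl
  | false =>
    right
    unfold Tx at h1
    rw [h, Bool.true_and, Bool.or_eq_false_iff, decide_eq_false_iff_not, not_le] at h1
    exact ⟨rfl, h1.1, h1.2⟩

/-- The tuple of strings of a real may be cut at the least length. -/
theorem cut (hp : 0 < P.p) (V : ℕ → ℕ → ℕ) (l : ℕ) (O : ℕ → ℕ → ℕ) (b : ℕ → ℕ) :
    ∃ l', fj P H (tupV P J H V l (fun s => pre (O s) (b s))) =
      fj P H (tupV P J H V l' (fun s => pre (O s) l')) := by
  obtain ⟨l', hl'⟩ : ∃ l', l' = tlen P H (tupV P J H V l (fun s => pre (O s) (b s))) := ⟨_, rfl⟩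
  refine ⟨l', ?_⟩
  have h1 := (Tup.le_tlen (H := H) hp (tupV P J H V l (fun s => pre (O s) (b s))) l').1 hl'.le
  have h2 : fj P H (tupV P J H V l' (fun s => pre (O s) l')) <+:
      fj P H (tupV P J H V l (fun s => pre (O s) (b s))) := by
    refine Tup.fj_mono hp fun c hc hP => ?_
    have h3 := h1 c hc hP
    rw [getD_tupV _ _ _ hc] at h3 ⊢
    rw [getD_tupV _ _ _ hc]
    split_ifs at h3 ⊢ with h4
    · rw [length_pre] at h3
      exact pre_mono _ h3
    · rw [length_pre] at h3
      exact pre_mono _ h3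
  have h3 : tlen P H (tupV P J H V l' (fun s => pre (O s) l')) = l' := by
    refine le_antisymm ?_ ?_
    · have h4 := (Tup.le_tlen (H := H) hp (tupV P J H V l' (fun s => pre (O s) l')) _).1
        (le_refl _) 0 (by omega) (Tup.prs_zero hp)
      rw [getD_tupV _ _ _ (by omega)] at h4
      split_ifs at h4 with h5
      · rwa [length_pre] at h4
      · rwa [length_pre] at h4
    · refine (Tup.le_tlen hp _ _).2 fun c hc hP => ?_
      rw [getD_tupV _ _ _ hc]
      split_ifs
      · rw [length_pre]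
      · rw [length_pre]
  refine (h2.eq_of_length ?_).symm
  rw [Tup.length_fj, Tup.length_fj, h3, ← hl']

end

end HH

open HH in
/-- Module GH. -/
theorem hh : HStatement := by
  classical
  intro P hP G h J H i V U σ₀ O hFol hσ₀ hab hO
  have hp := hP.pos
  -- the companions
  have hcol : ∀ s, ∃ (O' : ℕ → ℕ) (n0 : ℕ) (d : ℕ → ℕ), (s < P.p → J s = false →
      Red O' (O s) ∧ (∀ k, RL P G s (pre O' k)) ∧
      ∀ n ≥ n0, 2 ≤ d n ∧ d n ≤ n ∧ ∀ t, blk P.p t = n → ∃ a, σ₀ s <+: pre O' a ∧
        (endd o (pre O' a)).1 = G.u t s ∧ Zero (endd o (pre O' a)) ∧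
        (endd o (pre O' a)).2.length = d n ∧
        ∃ a', a ≤ a' ∧
          pre O' a' = pre O' a ++ ((G.d (t + 1) s).W.adv (endd o (pre O' a))).getD [] ∧
          (endd o (pre O' a')).1 < G.u (t + 1) s) := by
    intro s
    by_cases hs : s < P.p ∧ J s = false
    · obtain ⟨hs, hJ⟩ := hs
      obtain ⟨hO1, hO2⟩ := hO s hs hJ
      obtain ⟨O', n0, d, h1⟩ := Comp.colour hP h hs (hσ₀ s hs hJ) hO1 hO2
      exact ⟨O', n0, d, fun _ _ => h1⟩
    · exact ⟨fun _ => 0, 0, fun _ => 0, fun h1 h2 => absurd ⟨h1, h2⟩ hs⟩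
  choose O' n0 d hcol using hcol
  refine ⟨O', fun s hs hJ => (hcol s hs hJ).1, ?_⟩
  intro m
  -- the block
  obtain ⟨N, hN⟩ : ∃ N, ∀ s < P.p, n0 s ≤ N :=
    ⟨(Finset.range P.p).sup n0, fun s hs => Finset.le_sup (Finset.mem_range.2 hs)⟩
  obtain ⟨n, hn, hn3, hJn, hI⟩ := hFol (N + i + m + 1)
  have hn2 : 2 ≤ n := by omega
  -- the root
  obtain ⟨t, ht, hdv⟩ := dv_surj P.p hn2 (fun s => if J s = false then d s n else 2) (by
    intro s hs
    show 2 ≤ (if J s = false then d s n else 2) ∧ (if J s = false then d s n else 2) ≤ n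
    split_ifs with hJ
    · have h1 := (hcol s hs hJ).2.2 n (by have := hN s hs; omega)
      exact ⟨h1.1, h1.2.1⟩
    · omega)
  obtain ⟨ht1, ht2⟩ := (blk_iff P.p hn2).1 ht
  -- the companions at the root
  have hA : ∀ s, ∃ a a', s < P.p → J s = false → σ₀ s <+: pre (O' s) a ∧
      (endd o (pre (O' s) a)).1 = G.u t s ∧ Zero (endd o (pre (O' s) a)) ∧
      (endd o (pre (O' s) a)).2.length = d s n ∧ a ≤ a' ∧
      pre (O' s) a' = pre (O' s) a ++
        ((G.d (t + 1) s).W.adv (endd o (pre (O' s) a))).getD [] ∧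
      (endd o (pre (O' s) a')).1 < G.u (t + 1) s := by
    intro s
    by_cases hs : s < P.p ∧ J s = false
    · obtain ⟨hs, hJ⟩ := hs
      obtain ⟨a, h1, h2, h3, h4, a', h5, h6, h7⟩ :=
        ((hcol s hs hJ).2.2 n (by have := hN s hs; omega)).2.2 t ht
      exact ⟨a, a', fun _ _ => ⟨h1, h2, h3, h4, h5, h6, h7⟩⟩
    · exact ⟨0, 0, fun h1 h2 => absurd ⟨h1, h2⟩ hs⟩
  choose a a' hA using hA
  -- the items
  have hit : ∀ c, ∃ I : Itm, Tx P J H c = true → I.col = c ∧ Fol P G n I (V c) := by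
    intro c
    by_cases hc : Tx P J H c = true
    · obtain ⟨I, h1⟩ := hI c hc
      exact ⟨I, fun _ => h1⟩
    · exact ⟨(0, 0, [], [], []), fun h1 => absurd h1 hc⟩
  choose it hit using hit
  have htx : ∀ c, Tx P (JJ (blk P.p t)) H c = Tx P J H c := fun c =>
    tx_congr (fun s hs => by rw [ht]; exact hJn s hs) c
  obtain ⟨y, hy⟩ : ∃ y : ℕ → St, y = fun s => endd o (pre (O' s) (a s)) := ⟨_, rfl⟩
  obtain ⟨mu, hmu⟩ : ∃ mu : ℕ → List ℕ, mu = fun s => pre (O' s) (a s) := ⟨_, rfl⟩
  have hadv : ∀ s < P.p, J s = false → mu s ++ adv G t y s = pre (O' s) (a' s) := by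
    intro s hs hJ
    rw [hmu, (hA s hs hJ).2.2.2.2.2.1]
    unfold adv
    rw [hy]
  have hT : Ttup P G t H y mu it := by
    refine ⟨by omega, fun s hs hJ => ?_, fun c hc => ?_⟩
    · rw [ht] at hJ
      rw [hJn s hs] at hJ
      obtain ⟨h1, h2, h3, h4, -⟩ := hA s hs hJ
      have hRL := (hcol s hs hJ).2.1 (a s)
      have h5 : dv P.p t s = d s n := by
        rw [hdv s hs]
        exact if_pos hJ
      rw [hy, hmu]
      refine ⟨⟨h2, Comp.rl_adm h hs hRL, h3, by rw [h5]; exact h4⟩, ?_⟩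
      refine (LimF.vstr_loc hB hM h hs _ (t + 1) ?_).1 hRL.1
      rw [h2]
      exact LimF.u_lt hM h hs (Nat.lt_succ_self t)
    · rw [htx] at hc
      rw [ht]
      exact ⟨(hit c hc).2.itm, (hit c hc).1⟩
  -- texts
  have hfin : ∀ c, Tx P J H c = true → (G.fin t (it c)).1 =
      pre (V c) (G.fin t (it c)).1.length := by
    intro c hc
    obtain ⟨t₁, k, h1, h2, h3, h4⟩ := (hit c hc).2.fut 0
    refine of_pfx_pre (k := k.1.length) ?_
    rw [← h2]
    exact (h4 t ht).1.px
  -- one of the two cases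
  rcases (h.ctr t).hit H y mu it hT i (by omega) m (by omega) with hhit | hnever
  · -- long initial segments in `Ps`
    have hB' : ∀ s, ∃ b, s < P.p → J s = false → a' s ≤ b ∧ Ps P G s (pre (O' s) b) := by
      intro s
      by_cases hs : s < P.p ∧ J s = false
      · obtain ⟨hs, hJ⟩ := hs
        obtain ⟨n', hn'⟩ : ∃ n', n' = n + (endd o (pre (O' s) (a' s))).1 + 3 := ⟨_, rfl⟩
        have h2' : 2 ≤ n' := by omega
        obtain ⟨b, h1, h2, -⟩ := ((hcol s hs hJ).2.2 n' (by have := hN s hs; omega)).2.2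
          (lst P.p n') (blk_lst P.p h2')
        refine ⟨b, fun _ _ => ⟨?_, (hcol s hs hJ).2.1 b, n', h2', h2⟩⟩
        by_contra hlt
        have h3 := (Comp.les_rup h hs ((hcol s hs hJ).2.1 (a' s)).1).le
          (pre_mono (O' s) (not_le.1 hlt).le) (List.prefix_refl _)
        have h4 := (h.rts hs).le_self (lst P.p n')
        have h5 := fst_le_lst P.p h2'
        have h6 := le_fst P.p n'
        change lst P.p n' ≤ G.u (lst P.p n') s at h4
        omega
      · exact ⟨0, fun h1 h2 => absurd ⟨h1, h2⟩ hs⟩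
    choose b hb using hB'
    obtain ⟨l, hl⟩ : ∃ l, ∀ c < P.p + P.q, (G.fin t (it c)).1.length ≤ l :=
      ⟨(Finset.range (P.p + P.q)).sup (fun c => (G.fin t (it c)).1.length), fun c hc =>
        Finset.le_sup (f := fun c => (G.fin t (it c)).1.length) (Finset.mem_range.2 hc)⟩
    obtain ⟨l', hl'⟩ := cut (J := J) (H := H) hp V l O' b
    refine ⟨l', ?_, ?_⟩
    · have h1 := (hab (fun s => pre (O' s) (b s)) fun s hs hJ => ⟨(hb s hs hJ).2,
        (hA s hs hJ).1.trans (pre_mono _ ((hA s hs hJ).2.2.2.2.1.trans (hb s hs hJ).1))⟩).1 l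
      unfold ev at h1 ⊢
      rw [← hl']
      exact h1
    · unfold ev
      rw [← hl']
      refine hhit.trans ?_
      unfold evF ev
      refine (hP.enum.mono i _ _ (Tup.fj_mono hp fun c hc hPr => ?_)).length_le
      rw [getD_tup _ _ hc, getD_tupV _ _ _ hc, htx]
      rcases prs_cases (J := J) hPr with h1 | ⟨h1, h2, h3⟩
      · rw [if_pos h1, if_pos h1, hfin c h1]
        exact pre_mono _ (hl c hc)
      · rw [h1]
        show cat mu (adv G t y) (fun _ => []) c <+: pre (O' c) (b c)
        unfold cat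
        rw [List.append_nil, hadv c h2 h3]
        exact pre_mono _ (hb c h2 h3).1
  · -- contradiction
    exfalso
    -- conditions of the companions at the end of the block, and one Rise
    have hR : ∀ s, ∃ (c : ℕ) (g : ℕ) (σ : List ℕ), s < P.p → J s = false →
        a s ≤ c ∧ (endd o (pre (O' s) c)).1 = G.u (lst P.p n) s ∧
        (∃ b, a' s ≤ b ∧ c ≤ b ∧ pre (O' s) b ++ [g] <+: σ ∧
          (endd o (pre (O' s) b)).1 < G.u (lst P.p n + 1) s) ∧
        RL P G s σ ∧ (tgt g).1 = G.u (lst P.p n + 1) s ∧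
        (endd o σ).1 = G.u (lst P.p (n + 1)) s ∧ Rise (endd o (pre (O' s) c)) (tgt g) := by
      intro s
      by_cases hs : s < P.p ∧ J s = false
      · obtain ⟨hs, hJ⟩ := hs
        obtain ⟨h1, h2, h3, h4, h5, h6, h7⟩ := hA s hs hJ
        obtain ⟨c, c1, c2, -⟩ := ((hcol s hs hJ).2.2 n (by have := hN s hs; omega)).2.2
          (lst P.p n) (blk_lst P.p hn2)
        have hRL := (hcol s hs hJ).2.1
        have hac : a s ≤ c := by
          by_contra hlt
          have e1 := (Comp.les_rup h hs (hRL (a s)).1).lt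
            (pre_mono (O' s) (not_le.1 hlt).le) (List.prefix_refl _) (by
              intro he
              have := congrArg List.length he
              rw [length_pre, length_pre] at this
              omega)
          have e2 : G.u t s ≤ G.u (lst P.p n) s := (h.rts hs).mono.monotone ht2
          omega
        obtain ⟨b, hb⟩ : ∃ b, b = max c (a' s) := ⟨_, rfl⟩
        have hroot : (endd o (pre (O' s) b)).1 < G.u (lst P.p n + 1) s := by
          rcases le_total c (a' s) with e1 | e1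
          · rw [hb, max_eq_right e1]
            have e2 : G.u (t + 1) s ≤ G.u (lst P.p n + 1) s :=
              (h.rts hs).mono.monotone (Nat.succ_le_succ ht2)
            omega
          · rw [hb, max_eq_left e1, c2]
            exact h.u_lt hs _
        have hadm := Comp.adm_up h hs (Nat.le_succ (lst P.p n)) (Comp.rl_adm h hs (hRL c)) c2
        have hdep := Comp.rl_dep (hRL c) c2
        obtain ⟨g, σ, g1, g2, g3, g4⟩ := Comp.ext_rise h hs hn2 (hRL b)
          (pre_mono (O' s) (by rw [hb]; exact le_max_left _ _)) c2 hroot hadm hdep.1 (le_refl _)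
        refine ⟨c, g, σ, fun _ _ => ⟨hac, c2, ⟨b, by rw [hb]; exact le_max_right _ _,
          by rw [hb]; exact le_max_left _ _, g1, hroot⟩, g2, by rw [g3], by rw [g4], ?_⟩⟩
        rw [g3]
        unfold Rise
        rw [c2]
        show bk (G.u (lst P.p n) s) + (endd o (pre (O' s) c)).2.length <
          bk (G.u (lst P.p n + 1) s) + _
        rw [Comp.bku h hs, Comp.bku h hs, blk_lst P.p hn2, blk_lst_succ P.p hn2]
        omega
      · exact ⟨0, 0, [], fun h1 h2 => absurd ⟨h1, h2⟩ hs⟩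
    choose c g σ2 hR using hR
    obtain ⟨σ', l, hσ', hlong⟩ := (hab σ2 fun s hs hJ => by
      obtain ⟨r1, r2, ⟨b, r3, r4, r5, r6⟩, r7, r8, r9, -⟩ := hR s hs hJ
      refine ⟨⟨r7, n + 1, by omega, r9⟩, ?_⟩
      refine (hA s hs hJ).1.trans ((pre_mono _ (r1.trans r4)).trans ?_)
      exact (List.prefix_append _ _).trans r5).2 m
    -- the conditions
    have hk : ∀ e, ∃ (t₁ : ℕ) (k : Cnd3), Tx P J H e = true → l ≤ k.1.length ∧
        k.1 = pre (V e) k.1.length ∧
        ((it e).col < P.p → ∀ t' ≥ t₁, CV (G.d t' (it e).col).W (LT P (it e)) k) ∧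
        Txt.Le (HT P (it e)) (Txt.ht (HT P (it e)) (G.fin t (it e)).1) (G.fin t (it e)).1 k.1 ∧
        ((it e).col < P.p → CLe (LT P (it e)) (G.fin t (it e)) k ∧ LgC (G.cur t (it e)) k) := by
      intro e
      by_cases he : Tx P J H e = true
      · obtain ⟨t₁, k, k1, k2, k3, k4⟩ := (hit e he).2.fut l
        exact ⟨t₁, k, fun _ => ⟨k1, k2, k3, (k4 t ht).1, (k4 t ht).2⟩⟩
      · exact ⟨0, ([], []), fun h1 => absurd h1 he⟩
    choose t₁ k hk using hk
    have hst : ∀ s, ∃ t₂, s < P.p → J s = false → ∀ t' ≥ t₂,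
        VStr (G.d t' s).W o (σ' s) (endd o (σ' s)) := by
      intro s
      by_cases hs : s < P.p ∧ J s = false
      · obtain ⟨hs, hJ⟩ := hs
        obtain ⟨t₂, h1⟩ := (hσ' s hs hJ).1.1.1
        exact ⟨t₂, fun _ _ t' ht' => LimF.vstr_mono hM h hs ht' h1⟩
      · exact ⟨0, fun h1 h2 => absurd ⟨h1, h2⟩ hs⟩
    choose t₂ hst using hst
    obtain ⟨M, hM1, hM2, hM3⟩ : ∃ M, t + 1 ≤ M ∧ (∀ e < P.p, t₁ e ≤ M) ∧
        (∀ s < P.p, t₂ s ≤ M) :=
      ⟨max (t + 1) (max ((Finset.range P.p).sup t₁) ((Finset.range P.p).sup t₂)),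
        le_max_left _ _,
        fun e he => (Finset.le_sup (f := t₁) (Finset.mem_range.2 he)).trans
          ((le_max_left _ _).trans (le_max_right _ _)),
        fun e he => (Finset.le_sup (f := t₂) (Finset.mem_range.2 he)).trans
          ((le_max_right _ _).trans (le_max_right _ _))⟩
    obtain ⟨nu, hnu⟩ : ∃ nu : ℕ → List ℕ, nu = fun s => (σ' s).drop (a' s) := ⟨_, rfl⟩
    have hsp : ∀ s < P.p, J s = false → pre (O' s) (a' s) ++ nu s = σ' s ∧
        σ2 s <+: σ' s := by
      intro s hs hJ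
      obtain ⟨r1, r2, ⟨b, r3, r4, r5, r6⟩, r7, r8, r9, -⟩ := hR s hs hJ
      have h1 : pre (O' s) (a' s) <+: σ' s := by
        refine (pre_mono _ r3).trans (((List.prefix_append _ _).trans r5).trans ?_)
        exact (hσ' s hs hJ).2
      refine ⟨?_, (hσ' s hs hJ).2⟩
      rw [hnu]
      show pre (O' s) (a' s) ++ (σ' s).drop (a' s) = σ' s
      have h2 := List.prefix_iff_eq_take.1 h1
      rw [length_pre] at h2
      rw [h2, List.take_append_drop]
    have hfut : Fut P G t H y it (fun s => G.d M s) nu k := by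
      refine ⟨fun s hs => ⟨h.good M s hs, LimF.dext hM h hs _ _ hM1⟩, fun s hs hJ => ?_,
        fun s hs hJ => ?_, fun e he => ?_⟩
      · rw [ht] at hJ
        rw [hJn s hs] at hJ
        obtain ⟨q1, q2⟩ := hsp s hs hJ
        have hval := hst s hs hJ M (hM3 s hs)
        have e1 : endd (y s) (adv G t y s) = endd o (pre (O' s) (a' s)) := by
          rw [← hadv s hs hJ, endd_append, hy, hmu]
        rw [e1]
        refine ⟨?_, fun g' hg' => ?_⟩
        · rw [← q1] at hval
          refine ⟨?_, fun g' hg' => hval.2 g' (List.mem_append_right _ hg')⟩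
          have := (ch_append.1 hval.1).2
          rwa [endd_append] at this
        · -- (L4)
          have hRL' := (hσ' s hs hJ).1.1
          have hr := Comp.les_rup h hs hRL'.1
          obtain ⟨ρ, hρ⟩ : ∃ ρ, pre (O' s) (a' s) ++ ρ ++ [g'] <+: σ' s := by
            obtain ⟨ρ, ρ', hρ⟩ := List.append_of_mem hg'
            refine ⟨ρ, ρ', ?_⟩
            rw [← q1, hρ]
            simp
          have e2 : tgt g' = endd o (pre (O' s) (a' s) ++ ρ ++ [g']) := (endd_snoc _ _ _).symm
          rw [e2, hy]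
          obtain ⟨r1, r2, ⟨b, r3, r4, r5, r6⟩, r7, r8, r9, r10⟩ := hR s hs hJ
          obtain ⟨h1, h2, -, -, h5, -⟩ := hA s hs hJ
          have hc' : pre (O' s) (c s) <+: σ' s :=
            (pre_mono _ r4).trans (((List.prefix_append _ _).trans r5).trans q2)
          have ha : pre (O' s) (a s) <+: pre (O' s) (a' s) ++ ρ ++ [g'] := by
            rw [List.append_assoc]
            exact (pre_mono _ h5).trans (List.prefix_append _ _)
          refine hRL'.2.level (h.rts hs) hr (t := t) (ν := pre (O' s) (a s)) (ha.trans hρ) h2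
            ?_ ha hρ
          intro t' ν1 ν2 hle hb1 hb2 p1 p2 e3 e4
          have e5 : t' = lst P.p n := by
            rw [ht] at hb1 hb2
            obtain ⟨-, f2⟩ := (blk_iff P.p hn2).1 hb1
            by_contra hne
            exact hb2 ((blk_iff P.p hn2).2 ⟨by omega, by omega⟩)
          subst e5
          have f1 : ν1 = pre (O' s) (c s) := hr.eq p1 hc' (by rw [r2]; exact e3)
          have f2 : ν2 = pre (O' s) b ++ [g s] := by
            refine hr.eq p2 (r5.trans q2) ?_
            rw [endd_snoc, r8]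
            exact e4
          rw [f1, f2, endd_snoc]
          exact r10
      · rw [ht] at hJ
        rw [hJn s hs] at hJ
        have htxs : Tx P J H s = true := by
          unfold Tx Prs
          simp [hs, hJ]
        obtain ⟨k1, k2, k3, k4, k5⟩ := hk s htxs
        have hcs := (hit s htxs).1
        rw [hcs] at k3 k5
        exact ⟨k3 hs M (hM2 s hs), (k5 hs).1, (k5 hs).2⟩
      · rw [htx] at he
        exact (hk e he).2.2.2.1
    have hlt := hnever _ nu k hfut
    refine absurd hlong (not_le.2 (lt_of_le_of_lt ?_ hlt))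
    unfold evX ev
    refine (hP.enum.mono i _ _ (Tup.fj_mono hp fun e he hPr => ?_)).length_le
    rw [getD_tup _ _ he, getD_tupV _ _ _ he, htx]
    rcases prs_cases (J := J) hPr with h1 | ⟨h1, h2, h3⟩
    · rw [if_pos h1, if_pos h1, (hk e h1).2.1]
      exact pre_mono _ (hk e h1).1
    · rw [h1]
      show σ' e <+: cat mu (adv G t y) nu e
      unfold cat
      rw [hadv e h2 h3, (hsp e h2 h3).1]

end Pool.Agent.Lib.MP_d48993_lc.Ba.Gr
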