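import Pool.Agent.Lib.MP_d48993_lc.BAE.Gr.LimDefs
import Pool.Agent.Lib.MP_d48993_lc.Cls

/-!
# Part G (MP_d48993): the limit (module GLIM)
-/

set_option autoImplicit false
set_option synthInstance.maxSize 20000

namespace Pool.Agent.Lib.MP_d48993_lc.Ba.Gr.Lm

open Pool.Agent.Lib.MP_d48993_lc.Node
open MP_8c048d_lc (pre join RecF)
open Txt (ht st mC mN mR ltN okN Leg)

/-! ### Computability of the parts of a state -/

theorem comp_dt : Computable (fun x : Stg × ℕ => dt x.1 x.2) :=
  (Primrec.list_getD dd).to_comp.comp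
    (Computable.fst.comp (Computable.snd.comp Computable.fst)) Computable.snd

theorem comp_last : Computable (fun l : List ℕ => l.getLast?) :=
  ((Primrec.list_head?).comp Primrec.list_reverse).to_comp.of_eq fun l => by simp

theorem comp_rt : Computable (fun x : Stg × ℕ => rt x.1 x.2) := by
  have h1 : Computable (fun x : Stg × ℕ => (dt x.1 x.2).pub) :=
    Computable.fst.comp (Computable.snd.comp comp_dt)
  exact (Primrec.option_getD.to_comp).comp (comp_last.comp h1) (Computable.const 0)

theorem comp_lk : Computable (fun x : Tab × Itm => lk x.1 x.2) := by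
  have h2 : Computable (fun x : Tab × Itm => x.1.filterMap (fun y : Itm × Cnd3 =>
      if Encodable.encode y.1 = Encodable.encode x.2 then some y.2 else none)) := by
    refine (Primrec.listFilterMap Primrec.fst ?_).to_comp
    refine Primrec.ite ?_ ?_ (Primrec.const none)
    · exact Primrec.eq.comp (Primrec.encode.comp (Primrec.fst.comp Primrec.snd))
        (Primrec.encode.comp (Primrec.snd.comp Primrec.fst))
    · exact Primrec.option_some.comp (Primrec.snd.comp Primrec.snd)
  have h3 := (Primrec.option_getD.to_comp).comp ((Primrec.list_head?).to_comp.comp h2)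
    (Computable.const (([], []) : Cnd3))
  refine h3.of_eq fun x => ?_
  obtain ⟨T, I⟩ := x
  induction T with
  | nil => rfl
  | cons a T ih =>
    simp only [lk, List.find?_cons, List.filterMap_cons] at ih ⊢
    by_cases h : Encodable.encode a.1 = Encodable.encode I
    · simp [h]
    · simp only [h, if_false, decide_false]
      exact ih

theorem comp_p5 : Computable (fun x : Stg × Itm => ((x.1.2.2.2.2.1, x.2) : Tab × Itm)) := by
  have h : Computable (fun x : Stg × Itm => x.1.2.2.2.2.1) :=
    Computable.fst.comp (Computable.snd.comp (Computable.snd.comp (Computable.snd.comp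
      (Computable.snd.comp Computable.fst))))
  exact h.pair Computable.snd

theorem comp_p4 : Computable (fun x : Stg × Itm => ((x.1.2.2.2.1, x.2) : Tab × Itm)) := by
  have h : Computable (fun x : Stg × Itm => x.1.2.2.2.1) :=
    Computable.fst.comp (Computable.snd.comp (Computable.snd.comp (Computable.snd.comp
      Computable.fst)))
  exact h.pair Computable.snd

theorem comp_cu : Computable (fun x : Stg × Itm => cu x.1 x.2) := by
  have h := comp_lk.comp comp_p5
  exact h

theorem comp_fn : Computable (fun x : Stg × Itm => fn x.1 x.2) := by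
  have h := comp_lk.comp comp_p4
  exact h

theorem comp_hs (n : ℕ) : Computable (fun a : Stg => Encodable.encode (a.syms.take n)) := by
  have h : Computable (fun a : Stg => a.2.2.2.2.2) :=
    Computable.snd.comp (Computable.snd.comp (Computable.snd.comp (Computable.snd.comp
      Computable.snd)))
  have h1 : Primrec (fun l : List ℕ => l.take n) := by
    exact Primrec.list_take.comp (Primrec.const n) Primrec.id
  exact Computable.encode.comp (h1.to_comp.comp h)

/-! ### The limit -/

theorem opt_elim {α β : Type} [Primcodable α] [Primcodable β] {f : α × β → Bool}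
    (h : Computable f) : Computable (fun x : α × ℕ => (Encodable.decode x.2 : Option β).elim true
      (fun k => f (x.1, k))) := by
  have h2 : Computable (fun x : α × ℕ => (Encodable.decode x.2 : Option β)) :=
    Computable.decode.comp Computable.snd
  have h1 : Computable (fun x : (α × ℕ) × β => f (x.1.1, x.2)) :=
    h.comp ((Computable.fst.comp Computable.fst).pair Computable.snd)
  have h3 := Computable.option_casesOn h2 (Computable.const true) h1.to₂
  refine h3.of_eq fun x => ?_
  cases (Encodable.decode x.2 : Option β) with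
  | none => rfl
  | some k => rfl

/-- A relation at a number. -/
def dF (f : (Stg × Stg) × Kd → Bool) (x : ℕ × ℕ × Stg × Stg) (_ : ℕ → ℕ) : Bool :=
  (Encodable.decode x.1 : Option Kd).elim true (fun k => f (x.2.2, k))

theorem dF_iff (f : (Stg × Stg) × Kd → Bool) (n : ℕ) (a a' : Stg) (V : ℕ → ℕ) :
    (∀ k, dF f (k, n, a, a') V = true) ↔ ∀ k : Kd, f ((a, a'), k) = true := by
  constructor
  · intro h k
    have h1 := h (Encodable.encode k)
    simp only [dF, Encodable.encodek, Option.elim_some] at h1
    exact h1
  · intro h k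
    simp only [dF]
    cases (Encodable.decode k : Option Kd) with
    | none => rfl
    | some k' => exact h k'

theorem dF_comp {f : (Stg × Stg) × Kd → Bool} (hf : Computable f) : RecF (dF f) := by
  have h1 := opt_elim hf
  have h2 : Computable (fun x : ℕ × ℕ × Stg × Stg => ((x.2.2, x.1) : (Stg × Stg) × ℕ)) := by
    have h3 : Computable (fun x : ℕ × ℕ × Stg × Stg => x.2.2) :=
      Computable.snd.comp Computable.snd
    exact h3.pair Computable.fst
  have h4 := h1.comp h2
  have h5 : RecF (fun (x : ℕ × ℕ × Stg × Stg) (_ : ℕ → ℕ) =>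
      (Encodable.decode x.1 : Option Kd).elim true (fun k => f (x.2.2, k))) :=
    RecF.of_computable h4
  exact h5

/-- A decider of the relation. -/
theorem dec_ex (hD : DecStatement) {P : Par} (hok : P.Ok) :
    ∃ f : (Stg × Stg) × Kd → Bool, Computable f ∧
      ∀ k a a', f ((a, a'), k) = true ↔ RRk P k a a' := by
  obtain ⟨inst, hdec⟩ := hD P hok
  have h0 : Computable (fun x : (Stg × Stg) × Kd => ((x.2, x.1.1, x.1.2) : Kd × Stg × Stg)) := by
    have h1 : Computable (fun x : (Stg × Stg) × Kd => x.1.1) :=
      Computable.fst.comp Computable.fst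
    have h2 : Computable (fun x : (Stg × Stg) × Kd => x.1.2) :=
      Computable.snd.comp Computable.fst
    exact Computable.snd.pair (h1.pair h2)
  have h1 := hdec.comp h0
  exact ⟨_, h1, fun k a a' => decide_eq_true_iff⟩

/-- Module GLIM: the limit. -/
theorem lim4 (hL : LimcStatement) (hD : DecStatement) (hE : ExStatement) (hP : PresStatement)
    (hN : EndStatement) : Lim4Statement := by
  intro P hok
  obtain ⟨f, hf, hf1⟩ := dec_ex hD hok
  have key : ∀ n a a', (∀ k, dF f (k, n, a, a') (fun _ => 0) = true) ↔
      ∀ k : Kd, RRk P k a a' := fun n a a' =>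
    (dF_iff f n a a' _).trans (forall_congr' fun k => hf1 k a a')
  obtain ⟨A, g, hg, hA0, hA, hlim⟩ := hL Stg (dF f) (IvA P) (a0 P) (fun _ => 0)
    (dF_comp hf) (hE P hok).1
    (fun n a ha => by
      obtain ⟨a', h⟩ := (hE P hok).2 a ha
      exact ⟨a', (key n a a').2 h⟩)
    (fun n a a' ha h => hP P hok a a' ha ((key n a a').1 h))
  have hg0 : Computable (fun x : ℕ × ℕ => g x (fun _ => 0)) := recF_eval hg
  have g1 : Computable (fun x : ℕ × ℕ × ℕ => g (x.1, x.2.1) (fun _ => 0)) := by
    have h := hg0.comp (Computable.fst.pair (Computable.fst.comp Computable.snd) :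
      Computable (fun x : ℕ × ℕ × ℕ => (x.1, x.2.1)))
    exact h
  have g2 : Computable (fun x : ℕ × ℕ × ℕ => g (x.1, x.2.1 + 1) (fun _ => 0)) := by
    have h := hg0.comp (Computable.fst.pair (Computable.succ.comp
      (Computable.fst.comp Computable.snd)) : Computable (fun x : ℕ × ℕ × ℕ => (x.1, x.2.1 + 1)))
    exact h
  have g3 : Computable (fun x : ℕ × ℕ × Itm => g (x.1, x.2.1) (fun _ => 0)) := by
    have h := hg0.comp (Computable.fst.pair (Computable.fst.comp Computable.snd) :
      Computable (fun x : ℕ × ℕ × Itm => (x.1, x.2.1)))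
    exact h
  have g4 : Computable (fun x : ℕ × ℕ × Itm => g (x.1, x.2.1 + 1) (fun _ => 0)) := by
    have h := hg0.comp (Computable.fst.pair (Computable.succ.comp
      (Computable.fst.comp Computable.snd)) : Computable (fun x : ℕ × ℕ × Itm => (x.1, x.2.1 + 1)))
    exact h
  have hb : Computable (fun x : ℕ × ℕ × ℕ => x.2.2) := Computable.snd.comp Computable.snd
  have hb' : Computable (fun x : ℕ × ℕ × Itm => x.2.2) := Computable.snd.comp Computable.snd
  have f1 : Computable (fun x : ℕ × ℕ × ℕ => dt (g (x.1, x.2.1) (fun _ => 0)) x.2.2) := by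
    have h := comp_dt.comp (g1.pair hb)
    exact h
  have f2 : Computable (fun x : ℕ × ℕ × ℕ => rt (g (x.1, x.2.1 + 1) (fun _ => 0)) x.2.2) := by
    have h := comp_rt.comp (g2.pair hb)
    exact h
  have f3 : Computable (fun x : ℕ × ℕ × Itm => cu (g (x.1, x.2.1) (fun _ => 0)) x.2.2) := by
    have h := comp_cu.comp (g3.pair hb')
    exact h
  have f4 : Computable (fun x : ℕ × ℕ × Itm => fn (g (x.1, x.2.1 + 1) (fun _ => 0)) x.2.2) := by
    have h := comp_fn.comp (g4.pair hb')
    exact h
  have g5 : Computable (fun x : ℕ × ℕ => g (x.1, x.2 + 2) (fun _ => 0)) := by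
    have h := hg0.comp (Computable.fst.pair (Computable.succ.comp (Computable.succ.comp
      Computable.snd)) : Computable (fun x : ℕ × ℕ => (x.1, x.2 + 2)))
    exact h
  have f5 : Computable (fun x : ℕ × ℕ =>
      Encodable.encode ((g (x.1, x.2 + 2) (fun _ => 0)).syms.take P.p)) := by
    have h := comp_hs P.p |>.comp g5
    exact h
  refine ⟨gph P A, hN P hok A hA0 (fun n => ⟨(hA n).1, (key n _ _).1 (hA n).2⟩),
    ⟨_, f1, ?_⟩, ⟨_, f2, ?_⟩, ⟨_, f3, ?_⟩, ⟨_, f4, ?_⟩, ⟨_, f5, ?_⟩⟩
  · intro t s _
    obtain ⟨k0, hk⟩ := hlim t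
    exact ⟨k0, fun k h => by simp only [hk k h]; rfl⟩
  · intro t s _
    obtain ⟨k0, hk⟩ := hlim (t + 1)
    exact ⟨k0, fun k h => by simp only [hk k h]; rfl⟩
  · intro t I
    obtain ⟨k0, hk⟩ := hlim t
    exact ⟨k0, fun k h => by simp only [hk k h]; rfl⟩
  · intro t I
    obtain ⟨k0, hk⟩ := hlim (t + 1)
    exact ⟨k0, fun k h => by simp only [hk k h]; rfl⟩
  · intro t
    obtain ⟨k0, hk⟩ := hlim (t + 2)
    exact ⟨k0, fun k h => by simp only [hk k h]; rfl⟩

end Pool.Agent.Lib.MP_d48993_lc.Ba.Gr.Lm
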