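import Pool.Agent.Lib.MP_d48993_lc.BAE.Gr.Stm2

/-!
# Part G (MP_d48993): the limit construction, coding (finding 4200, G8.7)
-/

set_option autoImplicit false

namespace Pool.Agent.Lib.MP_d48993_lc.Ba.Gr.Lm

open Pool.Agent.Lib.MP_d48993_lc.Node
open MP_8c048d_lc (pre join RecF)
open Txt (ht st mC mN mR ltN okN Leg)

/-! ## States of the construction -/

/-- Items with values. -/
abbrev Tab : Type := List (Itm × Cnd3)

/-- The index `t`, the data `δ_t`, the bounds of the roots `u_(t-1)`, the values at the end of the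
root `t - 1`, the values at the beginning of the root `t`, a list of symbols. -/
abbrev Stg : Type := ℕ × List Data × List ℕ × Tab × Tab × List ℕ

abbrev Stg.t (a : Stg) : ℕ := a.1
abbrev Stg.ds (a : Stg) : List Data := a.2.1
abbrev Stg.nbs (a : Stg) : List ℕ := a.2.2.1
abbrev Stg.fins (a : Stg) : Tab := a.2.2.2.1
abbrev Stg.curs (a : Stg) : Tab := a.2.2.2.2.1
abbrev Stg.syms (a : Stg) : List ℕ := a.2.2.2.2.2

/-- The empty data. -/
def dd : Data := (1, [], [], [], [])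

def dt (a : Stg) (s : ℕ) : Data := a.ds.getD s dd

/-- The last public root. -/
def rt (a : Stg) (s : ℕ) : ℕ := (dt a s).pub.getLast?.getD 0

def nbd (a : Stg) (s : ℕ) : ℕ := a.nbs.getD s 0

def lk (T : Tab) (I : Itm) : Cnd3 :=
  ((T.find? (fun x : Itm × Cnd3 =>
    decide (Encodable.encode x.1 = Encodable.encode I))).map Prod.snd).getD ([], [])

def cu (a : Stg) (I : Itm) : Cnd3 := lk a.curs I
def fn (a : Stg) (I : Itm) : Cnd3 := lk a.fins I

/-- The state at which a condition is. -/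
def zq (c : Cnd3) : St :=
  ((endd o ((c.2.head?.map (fun e => e.2.2)).getD [])).1,
    (endd o ((c.2.head?.map (fun e => e.2.2)).getD [])).2.dropLast)

/-- A finite list of public roots, continued by large numbers. -/
def ul (l : List ℕ) (M t : ℕ) : ℕ := if t < l.length then l.getD t 0 else M + t

/-- The situation. -/
def ctx (P : Par) (a : Stg) : Ctx where
  J := fun s => decide (blk P.p a.t ≤ 2) || JJ (blk P.p a.t) s
  D := fun s => dv P.p a.t s
  d0 := dt a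
  u := fun _ => 0
  its := fun I => I ∈ a.curs.map Prod.fst
  cur := cu a
  r := nb P.p (blk P.p a.t) - 1 - ix P.p a.t

/-- The items, decidable from the state at the beginning of the block. -/
structure ItmOk (P : Par) (a : Stg) (I : Itm) : Prop where
  three : 3 ≤ blk P.p a.t
  ends : Ends (blk P.p a.t) I.c.1
  code : code0 I ≤ blk P.p a.t
  leg : Leg (HT P I) I.c.1
  lab : 0 ∉ I.E
  pt : I.col < P.p → JJ (blk P.p a.t) I.col = true ∧ CV (dt a I.col).W (LT P I) I.c ∧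
    (zq I.c).1 = rt a I.col ∧ 1 ≤ (zq I.c).2.length ∧ At (zq I.c) I.c ∧
    ∀ e ∈ I.c.2, Reg P (ul (dt a I.col).pub ((endd o e.2.2).1 + 1)) e.2.2
  sh : P.p ≤ I.col → I.col < P.p + P.q ∧ I.E = [] ∧ I.c.2 = []

/-! ## The coded contract -/

/-- `(H, i, m)`, `(y, mu, it)`, `(γ', nu, k)`. -/
abbrev Qd : Type := (ℕ × ℕ × ℕ) × (List St × List (List ℕ) × List Itm) ×
  (List Data × List (List ℕ) × List Cnd3)

def lS (l : List St) (s : ℕ) : St := l.getD s (0, [])
def lL (l : List (List ℕ)) (s : ℕ) : List ℕ := l.getD s []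
def lI (l : List Itm) (c : ℕ) : Itm := l.getD c (0, 0, [], ([], []))
def lD (l : List Data) (s : ℕ) : Data := l.getD s dd
def lC (l : List Cnd3) (c : ℕ) : Cnd3 := l.getD c ([], [])

/-- The coded contract at one code. -/
structure Mx (P : Par) (C : Ctx) (n : ℕ) (S : PS) (q : Qd) : Prop where
  hit : PTup P C S q.1.1 (lS q.2.1.1) (lL q.2.1.2.1) (lI q.2.1.2.2) → q.1.2.1 < n → q.1.2.2 < n →
    q.1.2.2 ≤ (evS P C S q.1.2.1 q.1.1 (lS q.2.1.1) (lL q.2.1.2.1) (fun _ => [])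
      (fun c => S.cv (lI q.2.1.2.2 c))).length ∨
    (SExt P C S q.1.1 0 (lS q.2.1.1) (lI q.2.1.2.2) (lD q.2.2.1) (lL q.2.2.2.1) (lC q.2.2.2.2) →
      (evS P C S q.1.2.1 q.1.1 (lS q.2.1.1) (lL q.2.1.2.1) (lL q.2.2.2.1)
        (lC q.2.2.2.2)).length < q.1.2.2)
  kill : PTup P C S q.1.1 (lS q.2.1.1) (lL q.2.1.2.1) (lI q.2.1.2.2) → q.1.2.1 < n →
    q.1.2.2 < P.p → C.J q.1.2.2 = true →
    Bad (S.g q.1.2.2) (evS P C S q.1.2.1 q.1.1 (lS q.2.1.1) (lL q.2.1.2.1) (fun _ => [])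
      (fun c => S.cv (lI q.2.1.2.2 c))) ∨
    (SExt P C S q.1.1 0 (lS q.2.1.1) (lI q.2.1.2.2) (lD q.2.2.1) (lL q.2.2.2.1) (lC q.2.2.2.2) →
      ¬ Bad (lD q.2.2.1 q.1.2.2) (evS P C S q.1.2.1 q.1.1 (lS q.2.1.1) (lL q.2.1.2.1)
        (lL q.2.2.2.1) (lC q.2.2.2.2)))
  killn : PTup P C S 0 (lS q.2.1.1) (lL q.2.1.2.1) (lI q.2.1.2.2) → (∀ s < P.p, C.J s = false) →
    q.1.2.1 < n → ¬ P.TB (evS P C S q.1.2.1 0 (lS q.2.1.1) (lL q.2.1.2.1) (fun _ => [])
      (fun c => S.cv (lI q.2.1.2.2 c))) ∨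
    (SExt P C S 0 0 (lS q.2.1.1) (lI q.2.1.2.2) (lD q.2.2.1) (lL q.2.2.2.1) (lC q.2.2.2.2) →
      (evS P C S q.1.2.1 0 (lS q.2.1.1) (lL q.2.1.2.1) (lL q.2.2.2.1) (lC q.2.2.2.2)).length ≤
      (evS P C S q.1.2.1 0 (lS q.2.1.1) (lL q.2.1.2.1) (fun _ => [])
        (fun c => S.cv (lI q.2.1.2.2 c))).length)

/-- Module LCODE: the coded contract is the contract. -/
def CodeStatement : Prop :=
  ∀ (P : Par) (C : Ctx) (n : ℕ) (S : PS), (∀ q : Qd, Mx P C n S q) ↔ Done P C n S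

/-! ## The relation -/

/-- A bound for the codes of the initial segments of `w`. -/
def Kw (w : List ℕ) : ℕ :=
  ((List.range (w.length + 1)).map (fun k => Encodable.encode (w.take k))).foldr max 0 + 1

/-- The string which is coded in the next roots. -/
def wn (P : Par) (a : Stg) : List ℕ :=
  if a.t ≤ 1 then [] else wd (rt a 0) ++ [Encodable.encode (a.syms.take P.p)]

/-- `q`, a colour, two states, a list of strings, a number, an item. -/
abbrev Kd : Type := Qd × (St × St) × List (List ℕ) × ℕ × Itm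

/-- The result of a step as a state of the tasks. -/
def endS (a a' : Stg) : PS where
  g := dt a'
  al := fun s y => ((dt a' s).W.adv y).getD []
  cv := fn a'

/-- The relation at one code. -/
structure RRk (P : Par) (k : Kd) (a a' : Stg) : Prop where
  t : a'.t = a.t + 1
  len : a'.ds.length = P.p ∧ a'.nbs.length = P.p
  good : ∀ s < P.p, GD (dt a' s) ∧ DExt (dt a s) (dt a' s) ∧
    (dt a' s).pub = (dt a s).pub ++ [rt a' s]
  root : ∀ s < P.p, (dt a s).N ≤ nbd a' s ∧ nbd a' s ≤ rt a' s ∧ rt a' s < (dt a' s).N ∧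
    bk (rt a' s) = blk P.p a.t ∧ Kw (wn P a) + blk P.p a.t + 3 + a.t ≤ sz (rt a' s)
  wrd : ∀ s < P.p, wc (rt a' s) = Encodable.encode (wn P a)
  /-- the first symbols of the list -/
  chs : 1 ≤ a.t → ∀ s < P.p, VS (dt a' s).W (a'.syms.getD s 0) ∧
    src (a'.syms.getD s 0) = (rt a s, [0]) ∧ tgt (a'.syms.getD s 0) = (rt a' s, [0]) ∧
    Ex (a'.syms.getD s 0) = []
  szs : ∀ s < P.p, ∀ r ∈ (dt a s).pub, sz r ≤ sz (rt a' s)
  gap : ∀ s < P.p, (dt a' s).W.edge k.2.1.1 k.2.1.2 → nbd a' s ≤ k.2.1.2.1 →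
    rt a' s ≤ k.2.1.2.1
  many : ∀ s < P.p, k.2.2.1.Nodup → (∀ σ ∈ k.2.2.1, VStr (dt a' s).W o σ (endd o σ) ∧
    (endd o σ).1 < rt a' s) → 3 * k.2.2.1.length + 3 < sz (rt a' s)
  can : ∀ s < P.p, Adm k.2.1.1 → k.2.1.1.1 < nbd a' s → Adm k.2.1.2 → k.2.1.2.1 = rt a' s →
    k.2.1.2.2.length ≤ blk P.p a.t + 2 → ∃ g ∈ a'.syms, VS (dt a' s).W g ∧ src g = k.2.1.1 ∧
      tgt g = k.2.1.2 ∧ Ex g = []
  keys : a'.fins.map Prod.fst = a.curs.map Prod.fst
  txt : ∀ I ∈ a.curs.map Prod.fst, Leg (HT P I) (fn a' I).1 ∧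
    Txt.Le (HT P I) (ht (HT P I) (cu a I).1) (cu a I).1 (fn a' I).1 ∧
    (∀ l ∈ (st (HT P I) (fn a' I).1).drop (ht (HT P I) (cu a I).1), l.1 = none) ∧
    (k.2.2.2.1.unpair.1 < (ctx P a).r → okN (st (HT P I) (fn a' I).1) k.2.2.2.1 = true) ∧
    Txt.opn (HT P I) (fn a' I).1 = none
  pt : ∀ I ∈ a.curs.map Prod.fst, I.col < P.p → CV (dt a' I.col).W (LT P I) (fn a' I) ∧
    CLe (LT P I) (cu a I) (fn a' I) ∧ LgC (cu a I) (fn a' I) ∧
    At ((rt a' I.col, (zq (cu a I)).2) : St) (fn a' I) ∧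
    ∀ e ∈ (fn a' I).2, ∀ ν, ν <+: e.2.2 → (endd o ν).1 ∈ (dt a' I.col).pub →
      (endd o ν).1 ≤ (zq (cu a I)).1 ∨ ν = e.2.2
  con : Mx P { ctx P a with u := rt a' } (blk P.p a.t) (endS a a') k.1
  adv : ∀ s < P.p, Adm k.2.1.1 → Zero k.2.1.1 → k.2.1.1.1 = rt a' s →
    ((ctx P a).J s = true ∨ k.2.1.1.2.length ≠ (ctx P a).D s) →
    (dt a' s).W.adv k.2.1.1 = some []
  next1 : blk P.p (a.t + 1) = blk P.p a.t → a'.curs = a'.fins
  next2 : blk P.p (a.t + 1) ≠ blk P.p a.t → (a'.curs.map Prod.fst).Nodup ∧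
    (∀ x ∈ a'.curs, x.2 = x.1.c ∧ ItmOk P a' x.1) ∧
    (ItmOk P a' k.2.2.2.2 → k.2.2.2.2 ∈ a'.curs.map Prod.fst)
  nbs : ∀ s < P.p, nbd a' s ≤ sz (rt a' s)

set_option synthInstance.maxSize 20000 in
/-- Module LDEC (from DECV, DECC, TXTU): the relation is decidable. -/
def DecStatement : Prop :=
  ∀ P : Par, P.Ok → ComputablePred (fun x : Kd × Stg × Stg => RRk P x.1 x.2.1 x.2.2)

/-- The invariant. -/
structure IvA (P : Par) (a : Stg) : Prop where
  len : a.ds.length = P.p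
  pub : ∀ s < P.p, (dt a s).pub.length = a.t
  stin : StIn P (ctx P a) (blk P.p a.t) (fun I => zq (cu a I))
  two : blk P.p a.t = 2 → a.curs = []
  szp : ∀ s < P.p, ∀ r ∈ (dt a s).pub, 0 < sz r

/-- The initial state. -/
def a0 (P : Par) : Stg := (0, List.replicate P.p dd, [], [], [], [])

/-- Module LEX (from STEP, LCODE, FINV, BLK; finiteness of the items): existence of a step. -/
def ExStatement : Prop :=
  ∀ P : Par, P.Ok → IvA P (a0 P) ∧ ∀ a : Stg, IvA P a → ∃ a' : Stg, ∀ k, RRk P k a a'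

/-- Module LPRES (from BLK, MONO): the invariant is preserved. -/
def PresStatement : Prop :=
  ∀ P : Par, P.Ok → ∀ a a' : Stg, IvA P a → (∀ k, RRk P k a a') → IvA P a'

/-- The sequence of graphs of a sequence of states. -/
def gph (P : Par) (A : ℕ → Stg) : Gph where
  d := fun t s => dt (A t) s
  u := fun t s => rt (A (t + 1)) s
  nb := fun t s => nbd (A (t + 1)) s
  cur := fun t I => cu (A t) I
  fin := fun t I => fn (A (t + 1)) I
  h := fun t => Encodable.encode ((A (t + 2)).syms.take P.p)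

/-- Module LEND (from LCODE, BLK, MONO): the record. -/
def EndStatement : Prop :=
  ∀ P : Par, P.Ok → ∀ A : ℕ → Stg, A 0 = a0 P →
    (∀ n, IvA P (A n) ∧ ∀ k, RRk P k (A n) (A (n + 1))) → Lim4 P (gph P A)

end Pool.Agent.Lib.MP_d48993_lc.Ba.Gr.Lm
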