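import Pool.Agent.Lib.MP_d48993_lc.BAE.Gr.LimF
import Pool.Agent.Lib.MP_d48993_lc.BAE.Gr.Lg

/-!
# Part G (MP_d48993): module REG (helper96), regular strings
-/

set_option autoImplicit false

namespace Pool.Agent.Lib.MP_d48993_lc.Ba.Gr

open Pool.Agent.Lib.MP_d48993_lc.Node
open Pool.Agent.Lib.MP_d48993_lc.Node.Proc (endd_nil endd_append endd_snoc ch_append ch_pfx vstr_pfx)

namespace RegM

section

variable {P : Par} {G : Gph} {s : ℕ}

/-- The roots of valid strings go up. -/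
theorem rup {σ : List ℕ} (h : LEs G s σ) : Rup o σ := by
  obtain ⟨t, ht⟩ := h
  exact Rup.of_vstr (basic codes) (Ltree.dfit _) ht

theorem les_pfx {σ ν : List ℕ} (h : LEs G s σ) (hp : ν <+: σ) : LEs G s ν := by
  obtain ⟨t, ht⟩ := h
  exact ⟨t, vstr_pfx ht hp⟩

theorem rl_pfx {σ ν : List ℕ} (h : RL P G s σ) (hp : ν <+: σ) : RL P G s ν :=
  ⟨les_pfx h.1 hp, h.2.pfx (rup h.1) hp⟩

theorem les_nil : LEs G s [] := ⟨0, rfl, fun _ hg => absurd hg List.not_mem_nil⟩

/-- One more symbol. -/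
theorem les_snoc (h : Lim4 P G) (hs : s < P.p) {σ : List ℕ} {g : ℕ} (hσ : LEs G s σ)
    (hg : VL G s g) (h1 : src g = endd o σ) : LEs G s (σ ++ [g]) := by
  obtain ⟨m, hm⟩ := hg
  obtain ⟨n, hn⟩ := hσ
  have hM : MonoStatement := mono codes (basic codes)
  refine ⟨max m n, ?_⟩
  have h5 := LimF.vstr_mono hM h hs (le_max_right m n) hn
  have h6 := Ltree.vstr_single (LimF.vs_mono hM h hs (le_max_left m n) hm)
  rw [h1] at h6
  exact Ltree.vstr_end codes (Ltree.vstr_append codes h5 h6)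

/-- In a block the lengths of the public states are constant. -/
theorem len_blk {u : ℕ → ℕ} (hu : Rts P u) {σ : List ℕ} (h : Reg P u σ) (hr : Rup o σ) {t : ℕ}
    {ν : List ℕ} (h1 : ν <+: σ) (h2 : (endd o ν).1 = u t) :
    ∀ t' ν', t ≤ t' → blk P.p t' = blk P.p t → ν' <+: σ → (endd o ν').1 = u t' →
      (endd o ν').2.length = (endd o ν).2.length := by
  intro t'
  induction t' with
  | zero =>
    intro ν' ht _ h3 h4
    obtain rfl : t = 0 := Nat.le_zero.1 ht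
    rw [hr.eq h3 h1 (by omega)]
  | succ t' ih =>
    intro ν' ht hb h3 h4
    rcases Nat.lt_or_ge t' t with h6 | h6
    · obtain rfl : t = t' + 1 := by omega
      rw [hr.eq h3 h1 (by omega)]
    · have h7 : u t' < u (t' + 1) := hu.mono (Nat.lt_succ_self _)
      have h7' := hr.le h3 (List.prefix_refl _)
      have b1 := blk_mono P.p h6
      have b2 := blk_le_succ P.p t'
      obtain ⟨ν1, h8, h9⟩ := h.pass t' (by omega)
      have h10 := ((h.link t' ν1 ν' h8 h3 h9 h4).ins (by omega)).1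
      rw [h10]
      exact ih ν1 h6 (by omega) h8 h9

/-- (L4). -/
theorem level (h : Lim4 P G) (hs : s < P.p) {σ ν ν' : List ℕ} {t : ℕ} (hR : RL P G s σ)
    (h1 : ν <+: ν') (h2 : ν' <+: σ) (h3 : (endd o ν).1 = G.u t s)
    (h4 : ∀ ρ, ρ <+: σ → (endd o ρ).1 = G.u (fst P.p (blk P.p t + 1)) s →
      Rise (endd o ν) (endd o ρ)) : Lg (endd o ν) (endd o ν') := by
  have hu := h.rts hs
  refine hR.2.level hu (rup hR.1) (h1.trans h2) h3 ?_ h1 h2
  intro t' ν1 ν2 ht hb hb' p1 p2 e1 e2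
  have hb2 := two_le_blk P.p t
  have h5 : t' + 1 = fst P.p (blk P.p t + 1) := by
    have h6 := (blk_iff P.p hb2).1 hb
    have h7 : ¬ (fst P.p (blk P.p t) ≤ t' + 1 ∧ t' + 1 ≤ lst P.p (blk P.p t)) :=
      fun h => hb' ((blk_iff P.p hb2).2 h)
    have h8 := lst_succ P.p hb2
    omega
  have h6 := h4 ν2 p2 (by rw [← h5]; exact e2)
  have h7 := len_blk hu hR.2 (rup hR.1) (h1.trans h2) h3 t' ν1 ht hb p1 e1
  have h8 : bk (endd o ν1).1 = bk (endd o ν).1 := by
    rw [e1, h3]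
    have a1 : bk (G.u t' s) = blk P.p t' := hu.bk t'
    have a2 : bk (G.u t s) = blk P.p t := hu.bk t
    rw [a1, a2, hb]
  unfold Rise at h6 ⊢
  omega

/-- One more public state, with the same stack. -/
theorem step (h : Lim4 P G) (hs : s < P.p) {σ ν : List ℕ} {t : ℕ} (hR : RL P G s σ)
    (h1 : ν <+: σ) (h2 : (endd o ν).1 = G.u t s) (h3 : (endd o σ).1 < G.u (t + 1) s) :
    ∃ g, RL P G s (σ ++ [g]) ∧ tgt g = (G.u (t + 1) s, (endd o ν).2) := by
  have hB : BasicStatement := basic codes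
  have hM : MonoStatement := mono codes hB
  have hu := h.rts hs
  obtain ⟨d1, d2⟩ := hR.2.dep t ν h1 h2
  have hb := blk_le_succ P.p t
  have hA : Adm (endd o ν) := LimF.end_adm hB h hs (les_pfx hR.1 h1)
  have hz : sz (endd o ν).1 ≤ sz (G.u (t + 1) s) := by
    rw [h2]
    exact h.szs t s hs
  have hy : Adm ((G.u (t + 1) s, (endd o ν).2) : St) :=
    ⟨hA.1.trans hz, fun b hb => lt_of_lt_of_le (hA.2 b hb) hz⟩
  obtain ⟨g, g1, g2, g3, -⟩ := LimF.can_end hB hM h hs hR.1 h3 hy rfl (by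
    show (endd o ν).2.length ≤ _
    omega)
  have hL := les_snoc h hs hR.1 g1 g2
  refine ⟨g, ⟨hL, hR.2.snoc_pub hu (rup hL) h1 h2 (by rw [g3]) ?_⟩, g3⟩
  rw [g3]
  refine ⟨d1, d2, d1, d2.trans hb, fun _ => ⟨rfl, rfl⟩, fun hne => Or.inl ?_⟩
  have b1 : bk (endd o ν).1 = blk P.p t := by
    rw [h2]
    exact hu.bk t
  have b2 : bk (G.u (t + 1) s) = blk P.p (t + 1) := hu.bk (t + 1)
  show bk (endd o ν).1 + (endd o ν).2.length < bk (G.u (t + 1) s) + (endd o ν).2.length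
  omega

/-- The continuation with the same stack. -/
theorem ext_to (h : Lim4 P G) (hs : s < P.p) {σ ν : List ℕ} {t : ℕ} (hR : RL P G s σ)
    (h1 : ν <+: σ) (h2 : (endd o ν).1 = G.u t s) (h3 : (endd o σ).1 < G.u (t + 1) s) :
    ∀ k, ∃ σ', σ <+: σ' ∧ RL P G s σ' ∧ endd o σ' = (G.u (t + 1 + k) s, (endd o ν).2) ∧
      ∀ ν', σ <+: ν' → ν' <+: σ' → ν' = σ ∨
        ∃ t', t + 1 ≤ t' ∧ endd o ν' = (G.u t' s, (endd o ν).2) := by
  intro k
  induction k with
  | zero =>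
    obtain ⟨g, g1, g2⟩ := step h hs hR h1 h2 h3
    refine ⟨σ ++ [g], List.prefix_append _ _, g1, by rw [endd_snoc, g2, Nat.add_zero], ?_⟩
    intro ν' p1 p2
    rcases List.prefix_concat_iff.1 p2 with p3 | p3
    · exact Or.inr ⟨t + 1, le_rfl, by rw [p3, endd_snoc, g2]⟩
    · exact Or.inl (p3.eq_of_length (le_antisymm p3.length_le p1.length_le))
  | succ k ih =>
    obtain ⟨σ', q1, q2, q3, q4⟩ := ih
    have hu := h.u_lt hs (t + 1 + k)
    obtain ⟨g, g1, g2⟩ := step h hs (t := t + 1 + k) q2 (List.prefix_refl _)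
      (by rw [q3]) (by rw [q3]; exact hu)
    rw [q3] at g2
    refine ⟨σ' ++ [g], q1.trans (List.prefix_append _ _), g1, by rw [endd_snoc, g2]; rfl, ?_⟩
    intro ν' p1 p2
    rcases List.prefix_concat_iff.1 p2 with p3 | p3
    · exact Or.inr ⟨t + 1 + k + 1, by omega, by rw [p3, endd_snoc, g2]⟩
    · exact q4 ν' p1 p3

theorem ext_blk (h : Lim4 P G) (hs : s < P.p) {σ ν : List ℕ} {t : ℕ} (hR : RL P G s σ)
    (h1 : ν <+: σ) (h2 : (endd o ν).1 = G.u t s) (h3 : (endd o σ).1 < G.u (t + 1) s) {n : ℕ}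
    (hn : blk P.p t < n) : ∃ σ', σ <+: σ' ∧ RL P G s σ' ∧
      endd o σ' = (G.u (lst P.p n) s, (endd o ν).2) ∧
      ∀ ν', σ <+: ν' → ν' <+: σ' → Lg (endd o ν) (endd o ν') := by
  have hu := h.rts hs
  have hb := two_le_blk P.p t
  have hl : t < lst P.p n := by
    apply lt_of_blk_lt P.p
    rw [blk_lst P.p (by omega)]
    exact hn
  obtain ⟨σ', q1, q2, q3, q4⟩ := ext_to h hs hR h1 h2 h3 (lst P.p n - (t + 1))
  rw [Nat.add_sub_cancel' (show t + 1 ≤ lst P.p n by omega)] at q3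
  refine ⟨σ', q1, q2, q3, fun ν' p1 p2 => ?_⟩
  rcases q4 ν' p1 p2 with rfl | ⟨t', h4, h5⟩
  · exact hR.2.prv t ν ν' h1 (List.prefix_refl _) h2 h3
  · rw [h5]
    have b1 : bk (endd o ν).1 = blk P.p t := by
      rw [h2]
      exact hu.bk t
    have b2 : bk (G.u t' s) = blk P.p t' := hu.bk t'
    have b3 := blk_mono P.p (show t ≤ t' by omega)
    rcases Nat.lt_or_ge (blk P.p t) (blk P.p t') with h6 | h6
    · refine Or.inl ?_
      show bk (endd o ν).1 + (endd o ν).2.length < bk (G.u t' s) + (endd o ν).2.length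
      omega
    · refine Or.inr ⟨?_, rfl⟩
      show bk (endd o ν).1 + (endd o ν).2.length = bk (G.u t' s) + (endd o ν).2.length
      omega

/-- The first public state. -/
theorem start (h : Lim4 P G) (hs : s < P.p) :
    ∃ g, RL P G s [g] ∧ (endd o [g]).1 = G.u 0 s := by
  have hB : BasicStatement := basic codes
  have hM : MonoStatement := mono codes hB
  have hu := h.rts hs
  have hpos : 0 < G.u 0 s := hu.pos
  have hz := (h.root 0 s hs).2.2.2.2.2
  have hy : Adm ((G.u 0 s, [0]) : St) := by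
    refine ⟨?_, ?_⟩
    · show 1 ≤ sz (G.u 0 s)
      omega
    · intro b hb
      have : b = 0 := by simpa using hb
      rw [this]
      show 0 < sz (G.u 0 s)
      omega
  obtain ⟨g, g1, g2, g3, -⟩ := LimF.can_end hB hM h hs (t := 0) (les_nil (G := G) (s := s))
    hpos hy rfl (by show 1 ≤ _; omega)
  have hL : LEs G s [g] := les_snoc h hs les_nil g1 g2
  have he : endd o [g] = (G.u 0 s, [0]) := g3
  have hp : ∀ t ν, ν <+: [g] → (endd o ν).1 = G.u t s → t = 0 ∧ ν = [g] := by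
    intro t ν p1 p2
    have hle : G.u 0 s ≤ G.u t s := hu.mono.monotone (Nat.zero_le t)
    rcases List.prefix_concat_iff.1 (show ν <+: [] ++ [g] from p1) with p3 | p3
    · have p3' : ν = [g] := p3
      rw [p3', he] at p2
      exact ⟨(hu.inj (show (fun t => G.u t s) 0 = (fun t => G.u t s) t from p2)).symm, p3'⟩
    · rw [List.prefix_nil.1 p3] at p2
      have : (endd o ([] : List ℕ)).1 = 0 := rfl
      omega
  refine ⟨g, ⟨hL, ⟨fun t ht => ?_, fun t ν p1 p2 => ?_, fun t ν ν' p1 p2 p3 p4 => ?_,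
    fun t ν ν' p1 p2 p3 p4 => ?_⟩⟩, by rw [he]⟩
  · rw [he] at ht
    have ht' : t = 0 := by
      have := hu.mono.le_iff_le.1 (show (fun t => G.u t s) t ≤ (fun t => G.u t s) 0 from ht)
      omega
    rw [ht']
    exact ⟨[g], List.prefix_refl _, by rw [he]⟩
  · obtain ⟨-, rfl⟩ := hp t ν p1 p2
    rw [he]
    have := two_le_blk P.p t
    exact ⟨le_rfl, show 1 ≤ _ by omega⟩
  · obtain ⟨h4, -⟩ := hp (t + 1) ν' p2 p4
    omega
  · obtain ⟨-, h4⟩ := hp t ν (p1.trans p2) p3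
    rw [h4] at p1 ⊢
    rw [p2.eq_of_length (le_antisymm p2.length_le p1.length_le)]
    exact Lg.refl _

end

end RegM

/-- Module REG. -/
theorem regM : RegStatement := by
  intro P _ G h s hs
  refine ⟨fun σ ν h1 h2 => RegM.rl_pfx h1 h2, fun σ ν ν' t h1 h2 h3 h4 h5 =>
    RegM.level h hs h1 h2 h3 h4 h5, fun σ ν t h1 h2 h3 h4 n hn => ?_, ?_⟩
  · obtain ⟨σ', q1, q2, q3, q4⟩ := RegM.ext_blk h hs h1 h2 h3 h4 hn
    exact ⟨σ', q1, q2, by rw [q3], q4⟩
  · obtain ⟨g, g1, g2⟩ := RegM.start h hs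
    have h3 : (endd o [g]).1 < G.u (0 + 1) s := by
      rw [g2]
      exact h.u_lt hs 0
    obtain ⟨σ', -, q2, q3, -⟩ := RegM.ext_blk h hs g1 (List.prefix_refl _) g2 h3 (n := 3)
      (by show 2 < 3; omega)
    exact ⟨σ', q2, 3, by omega, by rw [q3]⟩

end Pool.Agent.Lib.MP_d48993_lc.Ba.Gr
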