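import Pool.Agent.Lib.MP_d48993_lc.BAE.Gr.Stm
import Pool.Agent.Lib.MP_d48993_lc.AE.Node.ProcDefs
import Pool.Agent.Lib.MP_d48993_lc.AE.Bound.Interfaces

/-!
# Part G (MP_d48993): the statements of the modules, limit, class, (H), interface to the texts
(finding 4201, G9 - G14)
-/

set_option autoImplicit false

namespace Pool.Agent.Lib.MP_d48993_lc.Ba.Gr

open Pool.Agent.Lib.MP_d48993_lc.Node
open MP_8c048d_lc (pre join RecF)
open Txt (ht st mC mN mR ltN okN Leg)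

/-! ## Blocks -/

/-- Module BLK. -/
def BlkStatement : Prop :=
  ∀ p, 0 < p → blk p 0 = 2 ∧
    (∀ t, blk p (t + 1) = blk p t ∨ blk p (t + 1) = blk p t + 1) ∧
    (∀ n, 2 ≤ n → blk p (fst p n) = n ∧ blk p (lst p n) = n ∧ fst p n ≤ lst p n ∧
      fst p (n + 1) = lst p n + 1) ∧
    (∀ t n, 2 ≤ n → (blk p t = n ↔ fst p n ≤ t ∧ t ≤ lst p n)) ∧
    (∀ t, ix p t + 1 < nb p (blk p t) ↔ blk p (t + 1) = blk p t) ∧
    (∀ t s, 3 ≤ blk p t → 2 ≤ dv p t s ∧ dv p t s ≤ blk p t) ∧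
    (∀ n, 3 ≤ n → ∀ D : ℕ → ℕ, (∀ s < p, 2 ≤ D s ∧ D s ≤ n) →
      ∃ t, blk p t = n ∧ ∀ s < p, dv p t s = D s) ∧
    (∀ (J : ℕ → Bool) (N : ℕ), ∃ n ≥ N, ∀ s < p, JJ n s = J s) ∧
    Computable (fun x : ℕ × ℕ => blk x.1 x.2) ∧ Computable (fun x : ℕ × ℕ => fst x.1 x.2)

/-! ## The limit -/

/-- The graphs are limit computable. -/
structure Eff (P : Par) (G : Gph) : Prop where
  d : ∃ f : ℕ × ℕ × ℕ → Data, Computable f ∧ ∀ t s, s < P.p → ∃ k0, ∀ k ≥ k0,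
    f (k, t, s) = G.d t s
  u : ∃ f : ℕ × ℕ × ℕ → ℕ, Computable f ∧ ∀ t s, s < P.p → ∃ k0, ∀ k ≥ k0,
    f (k, t, s) = G.u t s
  cur : ∃ f : ℕ × ℕ × Itm → Cnd3, Computable f ∧ ∀ t I, ∃ k0, ∀ k ≥ k0,
    f (k, t, I) = G.cur t I
  fin : ∃ f : ℕ × ℕ × Itm → Cnd3, Computable f ∧ ∀ t I, ∃ k0, ∀ k ≥ k0,
    f (k, t, I) = G.fin t I
  h : ∃ f : ℕ × ℕ → ℕ, Computable f ∧ ∀ t, ∃ k0, ∀ k ≥ k0, f (k, t) = G.h t

/-- Module LIM (from STEP, LIMC, DEC). -/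
def Lim4Statement : Prop := ∀ P : Par, P.Ok → ∃ G : Gph, Lim4 P G ∧ Eff P G

/-- Valid symbols of the limit. -/
def VL (G : Gph) (s g : ℕ) : Prop := ∃ t, VS (G.d t s).W g

/-- Valid strings of the limit (from the start state). -/
def LEs (G : Gph) (s : ℕ) (σ : List ℕ) : Prop := ∃ t, VStr (G.d t s).W o σ (endd o σ)

/-- The public roots of a colour. -/
abbrev us (G : Gph) (s : ℕ) : ℕ → ℕ := fun t => G.u t s

/-- Valid regular strings. -/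
def RL (P : Par) (G : Gph) (s : ℕ) (σ : List ℕ) : Prop := LEs G s σ ∧ Reg P (us G s) σ

/-- The forcing conditions: valid regular strings which end at the last root of a block. -/
def Ps (P : Par) (G : Gph) (s : ℕ) (σ : List ℕ) : Prop :=
  RL P G s σ ∧ ∃ n, 2 ≤ n ∧ (endd o σ).1 = G.u (lst P.p n) s

/-- The members. -/
def Mem (P : Par) (G : Gph) (s : ℕ) : Set (ℕ → ℕ) := {O | ∀ k, RL P G s (pre O k)}

/-- The class `K` (of the type of PA; it is used for the labels only). -/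
def BB (P : Par) : Set (ℕ → ℕ) := {f | ∀ k, P.TB (pre f k)}

/-- The class `A_s`. -/
def AA (P : Par) (G : Gph) (s : ℕ) : Set (ℕ → ℕ) := Up (Mem P G s)

/-- The levels of the public states of `O` are not bounded. -/
def Unb (P : Par) (G : Gph) (s : ℕ) (O : ℕ → ℕ) : Prop :=
  ∀ b : ℕ, ∃ T, ∀ t ≥ T, ∀ k, (endd o (pre O k)).1 = G.u t s →
    b + (endd o (pre O k)).2.length ≤ blk P.p t

/-- Module LIMF (from Lim4, MONO, CODES, LTREE-like arguments). -/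
def LimFStatement : Prop :=
  ∀ P : Par, P.Ok → ∀ G : Gph, Lim4 P G → ∀ s < P.p,
    (∀ m n, m ≤ n → DExt (G.d m s) (G.d n s)) ∧ Proc.LimD (fun t => G.d t s) (us G s) ∧
    (∀ t t', t < t' → G.u t s < G.u t' s) ∧ (∀ t t', t ≤ t' → sz (G.u t s) ≤ sz (G.u t' s)) ∧
    (∀ g t, VL G s g → (tgt g).1 < (G.d t s).N → VS (G.d t s).W g) ∧
    (∀ σ t, (endd o σ).1 < (G.d t s).N → (LEs G s σ ↔ VStr (G.d t s).W o σ (endd o σ))) ∧
    -- canonical symbols from the ends of strings and from public states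
    (∀ σ t, LEs G s σ → (endd o σ).1 < G.u t s → ∀ y, Adm y → y.1 = G.u t s →
      y.2.length ≤ blk P.p t + 2 → ∃ g, VL G s g ∧ src g = endd o σ ∧ tgt g = y ∧ Ex g = []) ∧
    (∀ x t t', t' < t → Adm x → x.1 = G.u t' s → ∀ y, Adm y → y.1 = G.u t s →
      y.2.length ≤ blk P.p t + 2 → ∃ g, VL G s g ∧ src g = x ∧ tgt g = y ∧ Ex g = [])

/-- Module REG (from LIMF, BLK): regular strings. -/
def RegStatement : Prop :=
  ∀ P : Par, P.Ok → ∀ G : Gph, Lim4 P G → ∀ s < P.p,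
    (∀ σ ν, RL P G s σ → ν <+: σ → RL P G s ν) ∧
    -- (L4)
    (∀ σ ν ν' t, RL P G s σ → ν <+: ν' → ν' <+: σ → (endd o ν).1 = G.u t s →
      (∀ ρ, ρ <+: σ → (endd o ρ).1 = G.u (fst P.p (blk P.p t + 1)) s →
        Rise (endd o ν) (endd o ρ)) → Lg (endd o ν) (endd o ν')) ∧
    -- extension to the end of a given block, with a Rise at the first border
    (∀ σ ν t, RL P G s σ → ν <+: σ → (endd o ν).1 = G.u t s → (endd o σ).1 < G.u (t + 1) s →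
      ∀ n, blk P.p t < n → ∃ σ', σ <+: σ' ∧ RL P G s σ' ∧ (endd o σ').1 = G.u (lst P.p n) s ∧
        ∀ ν', σ <+: ν' → ν' <+: σ' → Lg (endd o ν) (endd o ν')) ∧
    ∃ σ, Ps P G s σ

/-- Module CLS (from REG, LIMF, PI2-like calculus): the class. -/
def ClsStatement : Prop :=
  ∀ P : Par, P.Ok → ∀ G : Gph, Lim4 P G → ∀ s < P.p,
    (Eff P G → Bound.IsC ∅ (AA P G s)) ∧
    -- (L6)
    (∀ O ∈ Mem P G s, Red G.h O ∨ Unb P G s O) ∧
    -- (L7)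
    (∀ ρ : ℕ → List ℕ, (∀ j, ρ j <+: ρ (j + 1)) → (∀ j, ∃ σ, RL P G s σ ∧ ρ j <+: σ) →
      (∀ m : ℕ, ∃ j, m ≤ (ρ j).length) →
      ∃ O ∈ Mem P G s, ∀ j, ρ j = pre O (ρ j).length) ∧
    -- (UPH) the canonical member
    ∃ O ∈ Mem P G s, Red O G.h ∧ Unb P G s O

/-! ## (H) -/

/-- The tuple of initial segments of the reals `V` (texts) and the strings `σ`. -/
def tupV (P : Par) (J : ℕ → Bool) (H : ℕ) (V : ℕ → ℕ → ℕ) (l : ℕ) (σ : ℕ → List ℕ) :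
    List (List ℕ) :=
  (List.range (P.p + P.q)).map (fun c => if Tx P J H c then pre (V c) l else σ c)

/-- The real `V` follows the item `I` in the block `n`. -/
structure Fol (P : Par) (G : Gph) (n : ℕ) (I : Itm) (V : ℕ → ℕ) : Prop where
  itm : IsItm P G n I
  fut : ∀ m, ∃ (t₁ : ℕ) (k : Cnd3), m ≤ k.1.length ∧ k.1 = pre V k.1.length ∧
    (I.col < P.p → ∀ t' ≥ t₁, CV (G.d t' I.col).W (LT P I) k) ∧
    ∀ t, blk P.p t = n →
      Txt.Le (HT P I) (ht (HT P I) (G.fin t I).1) (G.fin t I).1 k.1 ∧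
      (I.col < P.p → CLe (LT P I) (G.fin t I) k ∧ LgC (G.cur t I) k)

/-- Module HH (from CLS, REG, LIMF, BLK, the contract): companions are total and valid. -/
def HStatement : Prop :=
  ∀ P : Par, P.Ok → ∀ G : Gph, Lim4 P G → ∀ (J : ℕ → Bool) (H i : ℕ) (V : ℕ → ℕ → ℕ)
    (U : List ℕ → Prop) (σ₀ : ℕ → List ℕ) (O : ℕ → ℕ → ℕ),
    (∀ N, ∃ n ≥ N, 3 ≤ n ∧ (∀ s < P.p, JJ n s = J s) ∧
      ∀ c, Tx P J H c = true → ∃ I : Itm, I.col = c ∧ Fol P G n I (V c)) →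
    (∀ s < P.p, J s = false → Ps P G s (σ₀ s)) →
    -- (a), (b)
    (∀ σ : ℕ → List ℕ, (∀ s < P.p, J s = false → Ps P G s (σ s) ∧ σ₀ s <+: σ s) →
      (∀ l, U (ev P i H (tupV P J H V l σ))) ∧
      ∀ m : ℕ, ∃ (σ' : ℕ → List ℕ) (l : ℕ), (∀ s < P.p, J s = false → Ps P G s (σ' s) ∧
        σ s <+: σ' s) ∧ m ≤ (ev P i H (tupV P J H V l σ')).length) →
    (∀ s < P.p, J s = false → O s ∈ Mem P G s ∧ Unb P G s (O s)) →
    ∃ O' : ℕ → ℕ → ℕ, (∀ s < P.p, J s = false → Red (O' s) (O s)) ∧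
      ∀ m : ℕ, ∃ l, U (ev P i H (tupV P J H V l (fun s => pre (O' s) l))) ∧
        m ≤ (ev P i H (tupV P J H V l (fun s => pre (O' s) l))).length

/-- Module DENS (from REG, LIMF, BLK): treated tuples are dense. -/
def DensStatement : Prop :=
  ∀ P : Par, P.Ok → ∀ G : Gph, Lim4 P G → ∀ (J : ℕ → Bool) (σ : ℕ → List ℕ),
    (∀ s < P.p, J s = false → Ps P G s (σ s)) → ∃ N, ∀ n ≥ N, 3 ≤ n →
      (∀ s < P.p, JJ n s = J s) → ∃ (t : ℕ) (y : ℕ → St) (mu σ' : ℕ → List ℕ), blk P.p t = n ∧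
        ∀ s < P.p, J s = false → Ps P G s (σ' s) ∧ σ s <+: mu s ∧ Trd P G t s (y s) ∧
          VStr (G.d (t + 1) s).W o (mu s) (y s) ∧ mu s ++ adv G t y s <+: σ' s ∧
          (∀ ρ, ρ <+: σ' s → (endd o ρ).1 = G.u (fst P.p (n + 1)) s → Rise (y s) (endd o ρ)) ∧
          G.u (fst P.p (n + 1)) s ≤ (endd o (σ' s)).1

/-! ## Interface to the texts -/

/-- Coned extensions (labels `T`): `c` at a state of the last root of the block `n - 1`, `c'` at a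
state of the last root of the block `n' - 1`. -/
structure Con (P : Par) (G : Gph) (s : ℕ) (T : List ℕ → Prop) (n n' : ℕ) (c c' : Cnd3) :
    Prop where
  le : CLe T c c'
  drv : ∃ Z : ℕ → St, (∀ t, (Z t).1 = G.u t s) ∧ At (Z (lst P.p (n - 1))) c ∧
    At (Z (lst P.p (n' - 1))) c' ∧
    (∀ t, lst P.p (n - 1) ≤ t → t < lst P.p (n' - 1) → Link P t (Z t) (Z (t + 1))) ∧
    ∀ e ∈ c'.2, ∀ t, lst P.p (n - 1) < t → t ≤ lst P.p (n' - 1) →
      ∃ ν i, ν <+: e.2.2 ∧ 1 ≤ i ∧ endd o ν = ow (Z t) i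

/-- The same with a Rise at the first border. -/
structure Con1 (P : Par) (G : Gph) (s : ℕ) (T : List ℕ → Prop) (n n' : ℕ) (c c' : Cnd3) :
    Prop where
  con : Con P G s T n n' c c'
  rise : ∀ z : St, At z c → ∀ e ∈ c'.2, ∀ ν, ν <+: e.2.2 →
    (endd o ν).1 = G.u (fst P.p n) s → ∀ i, Rise (ow z i) (endd o ν)

/-- The restriction of a condition to a tree. -/
noncomputable def res (T : List ℕ → Prop) (c : Cnd3) : Cnd3 :=
  letI : DecidablePred T := Classical.decPred T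
  (c.1, c.2.filter (fun e => decide (T e.1)))

/-- A list of facts with labels different from `0`. -/
def Facts (l : List ℕ) : Prop :=
  ∀ a ∈ l, ∃ (s ρ : List ℕ), s.head? ≠ some 0 ∧ a = Encodable.encode (s, ρ)

/-- Module GT (from Lim4, LIMF, REG, BLK, CONT4, DENS3-like arguments). -/
def GTStatement : Prop :=
  ∀ P : Par, P.Ok → ∀ G : Gph, Lim4 P G → ∀ s < P.p, ∀ hd : ℕ,
    -- (G0)
    (∃ c, c.1 = [] ∧ CG P G s (P.Hd hd) 3 [] c) ∧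
    -- (G1)
    (∀ n, 3 ≤ n → ∀ E c, CG P G s (P.Hd hd) n E c → ∃ c', c'.1 = c.1 ∧
      c'.2.map (fun e => (e.1, e.2.1)) = c.2.map (fun e => (e.1, e.2.1)) ∧
      CG P G s (P.Hd hd) (n + 1) E c' ∧ Con1 P G s (TE P.Tr E) n (n + 1) c c') ∧
    -- (G2)
    (∀ n, 3 ≤ n → ∀ E c, CG P G s (P.Hd hd) n E c → ∀ e, 1 ≤ e → e ∉ E → P.Tr e [] →
      ∃ c' l, c'.1 = c.1 ++ l ∧ Facts l ∧ CG P G s (P.Hd hd) (n + 1) (e :: E) c' ∧
        Con1 P G s (TE P.Tr E) n (n + 1) c (res (TE P.Tr E) c') ∧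
        ∃ e' ∈ c'.2, e'.1 = [e] ∧ Encodable.encode (e'.1, e'.2.1) ∈ l) ∧
    -- (G3)
    (∀ n, 3 ≤ n → ∀ E c, 0 ∉ E → CG P G s (P.Hd hd) n E c → ∃ c' l, c'.1 = c.1 ++ l ∧ Facts l ∧
      CG P G s (P.Hd hd) (n + 1) E c' ∧ Con1 P G s (TE P.Tr E) n (n + 1) c c' ∧
      (∀ e ∈ c.2, e.1 ≠ [] → ∀ k, TE P.Tr E (e.1 ++ [k]) → ∃ e' ∈ c'.2, e'.1 = e.1 ++ [k]) ∧
      ∀ e' ∈ c'.2, e'.1 = [] ∨ Encodable.encode (e'.1, e'.2.1) ∈ l) ∧
    -- (G4)
    (∀ n E c, CG P G s (P.Hd hd) n E c → ∀ E', (∀ e ∈ E', e ∈ E) →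
      CG P G s (P.Hd hd) n E' (res (TE P.Tr E') c)) ∧
    (∀ (T T' : List ℕ → Prop) n n' n'' c c' c'', n ≤ n' → n' ≤ n'' → PC T → (∀ σ, T σ → T' σ) →
      T [] → (∃ e ∈ c'.2, e.1 = []) → (∃ W : World, CV W T' c'') →
      Con P G s T n n' c (res T c') → Con P G s T' n' n'' c' c'' →
      Con P G s T n n'' c (res T c'')) ∧
    -- (G5)
    (∀ n I, IsItm P G n I → I.col = s → I.hd = hd →
      CG P G s (HT P I) (n + 1) I.E (star P G n I) ∧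
      Con1 P G s (LT P I) n (n + 1) I.c (star P G n I)) ∧
    -- (FUT)
    ∀ n I, IsItm P G n I → I.col = s → ∀ c', Con1 P G s (LT P I) (n + 1) (n + 2) (star P G n I) c' →
      Txt.Le (HT P I) (ht (HT P I) (star P G n I).1) (star P G n I).1 c'.1 →
      (∀ e ∈ c'.2, RL P G s e.2.2) → ∀ t' k, CV (G.d t' s).W (LT P I) k →
      (∀ e ∈ k.2, Reg P (us G s) e.2.2) → CLe (LT P I) c' k →
      Txt.Le (HT P I) (ht (HT P I) c'.1) c'.1 k.1 → ∀ t, blk P.p t = n →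
      Txt.Le (HT P I) (ht (HT P I) (G.fin t I).1) (G.fin t I).1 k.1 ∧
        CLe (LT P I) (G.fin t I) k ∧ LgC (G.cur t I) k

/-- Module GTX (from Lim4, BLK): the texts of the items. -/
def GTXStatement : Prop :=
  ∀ P : Par, P.Ok → ∀ G : Gph, Lim4 P G → ∀ n I, IsItm P G n I →
    Txt.Le (HT P I) (ht (HT P I) I.c.1) I.c.1 (star P G n I).1 ∧
    (∀ l ∈ (st (HT P I) (star P G n I).1).drop (ht (HT P I) I.c.1), l.1 = none) ∧
    Txt.opn (HT P I) (star P G n I).1 = none ∧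
    ∀ t, blk P.p t = n → Txt.Le (HT P I) (ht (HT P I) (G.fin t I).1) (G.fin t I).1
      (star P G n I).1

end Pool.Agent.Lib.MP_d48993_lc.Ba.Gr
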