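import Pool.Agent.Lib.MP_d48993_lc.BAE.Gr.Stm

/-!
# Part G (MP_d48993): the statements of the modules KILLN, STEPA, STEPT (finding 4200, G8)
-/

set_option autoImplicit false

namespace Pool.Agent.Lib.MP_d48993_lc.Ba.Gr

open Pool.Agent.Lib.MP_d48993_lc.Node
open Txt (ltN)

/-- Module KILLN (from ADOPT and the decidability of the invariant): if no colour is a text, the
functional `i` at the tuple leaves the tree of the payments or stops. -/
def KillnStatement : Prop :=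
  ∀ (P : Par), P.Ok → ∀ (C : Ctx) (b m : ℕ) (S : PS) (y : ℕ → St) (mu : ℕ → List ℕ)
    (it : ℕ → Itm) (i : ℕ), (∀ s < P.p, C.J s = false) → PInv P C b S → PTup P C S 0 y mu it →
    ltN m b = true → ∃ S' : PS, PInv P C b S' ∧ Lat P C S S' ∧ S'.cv = S.cv ∧
      (¬ P.TB (evS P C S' i 0 y mu (fun _ => []) (fun c => S'.cv (it c))) ∨
        ∀ γ' nu k, SExt P C S' 0 0 y it γ' nu k → (evS P C S' i 0 y mu nu k).length ≤
          (evS P C S' i 0 y mu (fun _ => []) (fun c => S'.cv (it c))).length)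

/-- The state before the tasks; the new public roots (colours with `J s = false`) are `u`. -/
structure StA (P : Par) (C : Ctx) (n K w : ℕ) (u : ℕ → ℕ) (S₀ : PS) : Prop where
  inv : ∀ M, PInv P { C with u := u } (Nat.pair C.r M) S₀
  wrd : ∀ s < P.p, C.J s = false → wc (u s) = w
  root : ∀ s < P.p, C.J s = false → (C.d0 s).N ≤ u s ∧ bk (u s) = n ∧ K ≤ sz (u s) ∧
    (∀ r ∈ (C.d0 s).pub, sz r ≤ sz (u s)) ∧ (S₀.g s).N = u s + 1 ∧
    (S₀.g s).prv = (C.d0 s).prv ∧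
    ∀ y, Adm y → Zero y → y.1 = u s → C.D s < y.2.length → (S₀.g s).W.adv y = some []
  many : ∀ s < P.p, C.J s = false → ∀ L : List (List ℕ), L.Nodup →
    (∀ σ ∈ L, VStr (C.d0 s).W o σ (endd o σ)) → 3 * L.length + 3 < sz (u s)
  can : ∀ s < P.p, C.J s = false → ∀ δ' : Data, Wf δ' → DExt (C.d0 s) δ' → u s ∈ δ'.pub →
    CanU (C.d0 s).N (u s) n δ'
  txt : ∀ s < P.p, C.J s = true → S₀.g s = C.d0 s
  cv : S₀.cv = C.cur
  al : ∀ s y, S₀.al s y = []

/-- Module STEPA (from ROOT: RootStatement, PubStatement; FINV, MONO). -/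
def StepAStatement : Prop :=
  ∀ (P : Par), P.Ok → ∀ (C : Ctx) (n K w : ℕ) (zp : Itm → St), StIn P C n zp →
    ∃ (u : ℕ → ℕ) (S₀ : PS), StA P C n K w u S₀

/-- Module STEPT (from ROOT: RootStatement, Pub0Statement; CONT4, MONO, FINV): the end of a step
for a colour `s` which is a text. -/
def StepTStatement : Prop :=
  ∀ (P : Par), P.Ok → ∀ (C : Ctx) (n K w b : ℕ) (zp : Itm → St) (S : PS) (s : ℕ),
    StIn P C n zp → PInv P C b S → s < P.p → C.J s = true →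
    ∃ (δ : Data) (u : ℕ) (f : Itm → Cnd3), GD δ ∧ DExt (S.g s) δ ∧
      δ.pub = (S.g s).pub ++ [u] ∧ (S.g s).N ≤ u ∧ δ.N = u + 1 ∧ bk u = n ∧ wc u = w ∧ K ≤ sz u ∧
      (∀ x y, δ.W.edge x y → (S.g s).N ≤ y.1 → u ≤ y.1) ∧ (∀ r ∈ (S.g s).pub, sz r ≤ sz u) ∧
      (∀ L : List (List ℕ), L.Nodup → (∀ σ ∈ L, VStr δ.W o σ (endd o σ) ∧ (endd o σ).1 < u) →
        3 * L.length + 3 < sz u) ∧
      CanU (S.g s).N u n δ ∧ (∀ y, Adm y → Zero y → y.1 = u → δ.W.adv y = some []) ∧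
      ∀ I, C.its I → I.col = s → (f I).1 = (S.cv I).1 ∧ CV δ.W (LT P I) (f I) ∧
        CLe (LT P I) (S.cv I) (f I) ∧ CLe (LT P I) (C.cur I) (f I) ∧ LgC (C.cur I) (f I) ∧
        At ((u, (zp I).2) : St) (f I) ∧
        ∀ e ∈ (f I).2, ∀ ν, ν <+: e.2.2 → (endd o ν).1 ∈ δ.pub →
          (endd o ν).1 ≤ (zp I).1 ∨ ν = e.2.2

end Pool.Agent.Lib.MP_d48993_lc.Ba.Gr
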