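import Pool.Agent.Lib.MP_d48993_lc.BAE.Gr.TaskS

/-!
# Part G (MP_d48993), module TASK: all tasks of a root (finding 4200, G8.4, L8)
-/

set_option autoImplicit false

namespace Pool.Agent.Lib.MP_d48993_lc.Ba.Gr.Task

open Pool.Agent.Lib.MP_d48993_lc.Node
open Txt (ht st mC mN mR ltN okN Leg)

variable {P : Par} {C : Ctx}

/-! ## The three tasks -/

/-- A hit, or the future is short. -/
def DH (P : Par) (C : Ctx) (i m H : ℕ) (y : ℕ → St) (mu : ℕ → List ℕ) (it : ℕ → Itm) (S : PS) :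
    Prop :=
  m ≤ (evS P C S i H y mu (fun _ => []) (fun c => S.cv (it c))).length ∨
    ∀ γ' nu k, SExt P C S H 0 y it γ' nu k → (evS P C S i H y mu nu k).length < m

/-- A false edge, or only true edges in the future. -/
def DK (P : Par) (C : Ctx) (i b H : ℕ) (y : ℕ → St) (mu : ℕ → List ℕ) (it : ℕ → Itm) (S : PS) :
    Prop :=
  Bad (S.g b) (evS P C S i H y mu (fun _ => []) (fun c => S.cv (it c))) ∨
    ∀ γ' nu k, SExt P C S H 0 y it γ' nu k → ¬ Bad (γ' b) (evS P C S i H y mu nu k)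

/-- Not in the tree, or stuck. -/
def DN (P : Par) (C : Ctx) (i : ℕ) (y : ℕ → St) (mu : ℕ → List ℕ) (it : ℕ → Itm) (S : PS) :
    Prop :=
  ¬ P.TB (evS P C S i 0 y mu (fun _ => []) (fun c => S.cv (it c))) ∨
    ∀ γ' nu k, SExt P C S 0 0 y it γ' nu k → (evS P C S i 0 y mu nu k).length ≤
      (evS P C S i 0 y mu (fun _ => []) (fun c => S.cv (it c))).length

/-- `T` holds in `S₁` and in all later states. -/
def Per (P : Par) (C : Ctx) (S₁ : PS) (T : PS → Prop) : Prop :=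
  ∀ b' S', PInv P C b' S' → Lat P C S₁ S' → T S'

variable {H : ℕ} {S : PS} {y : ℕ → St} {mu : ℕ → List ℕ} {it : ℕ → Itm} {b m' : ℕ}

theorem hit_task (hA : AdoptStatement) (hK : SkipStatement) (hP : P.Ok) (hI : PInv P C b S)
    (hT : PTup P C S H y mu it) (hm : ltN m' b = true) (i m : ℕ) :
    ∃ S₁, PInv P C m' S₁ ∧ Lat P C S S₁ ∧ Per P C S₁ (DH P C i m H y mu it) := by
  by_cases h : ∃ γ' nu k, SExt P C S H 1 y it γ' nu k ∧ m ≤ (evS P C S i H y mu nu k).length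
  · obtain ⟨γ', nu, k, hE, hm2⟩ := h
    obtain ⟨S₁, h1, h2, h3, h4, -⟩ := hA P C b m' H S y mu it γ' nu k hI hT hE hm
    refine ⟨S₁, h1, h2, fun b' S' h5 h6 => Or.inl ?_⟩
    have h7 : evS P C S i H y mu nu k <+:
        evS P C S₁ i H y mu (fun _ => []) (fun c => S₁.cv (it c)) := by
      refine evS_le hP C i H (fun s hs hJ => ?_) (fun c hc => ?_)
      · rw [h3 s hs hJ, List.append_nil]
      · rw [h4 c hc]
        exact List.prefix_append _ _
    exact hm2.trans ((h7.trans (evS_up hP h6 (PTup.up hI h2 hT) i)).length_le)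
  · obtain ⟨S₁, h1, h2, h3⟩ := hK P C b m' H S y mu it hI hT hm
    refine ⟨S₁, h1, h2, fun b' S' h5 h6 => Or.inr fun γ' nu k hE => ?_⟩
    obtain ⟨nu', h7, h8⟩ := h3 S' (fun s hs => (h5.wf s hs).1) h6 0 (by norm_num) γ' nu k hE
    by_contra hlt
    refine h ⟨γ', nu', k, h7, ?_⟩
    rw [evS_eq hP C i (fun _ => rfl) (fun _ _ _ => rfl) h8 (fun _ _ => rfl)]
    omega

theorem bad_mono {δ δ' : Node.Data} (h : DExt δ δ') {l l' : List ℕ} (hl : l <+: l')
    (hb : Bad δ l) : Bad δ' l' := by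
  obtain ⟨v, h1, h2, h3⟩ := hb
  refine ⟨v, hl.subset h1, h2.trans_le h.N, fun h4 => h3 ?_⟩
  exact ((Mono.ext_of_dext δ δ' h).edge _ _ h2).1 h4

theorem kill_task (hA : AdoptStatement) (hK : SkipStatement) (hP : P.Ok) (hI : PInv P C b S)
    (hT : PTup P C S H y mu it) (hm : ltN m' b = true) (i : ℕ) {c₀ : ℕ} (hc : c₀ < P.p)
    (hJ : C.J c₀ = true) :
    ∃ S₁, PInv P C m' S₁ ∧ Lat P C S S₁ ∧ Per P C S₁ (DK P C i c₀ H y mu it) := by
  by_cases h : ∃ γ' nu k, SExt P C S H 1 y it γ' nu k ∧ Bad (γ' c₀) (evS P C S i H y mu nu k)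
  · obtain ⟨γ', nu, k, hE, hb⟩ := h
    obtain ⟨S₁, h1, h2, h3, h4, h5⟩ := hA P C b m' H S y mu it γ' nu k hI hT hE hm
    refine ⟨S₁, h1, h2, fun b' S' h6 h7 => Or.inl ?_⟩
    have h8 : evS P C S i H y mu nu k <+:
        evS P C S₁ i H y mu (fun _ => []) (fun c => S₁.cv (it c)) := by
      refine evS_le hP C i H (fun s hs hJ => ?_) (fun c hc => ?_)
      · rw [h3 s hs hJ, List.append_nil]
      · rw [h4 c hc]
        exact List.prefix_append _ _
    have h9 : Bad (S₁.g c₀) (evS P C S i H y mu nu k) := by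
      obtain ⟨v, k1, k2, k3⟩ := hb
      obtain ⟨k4, k5⟩ := h5 c₀ hc hJ
      refine ⟨v, k1, by rw [k4]; exact k2, fun k6 => k3 ?_⟩
      by_cases hN : (S.g c₀).N ≤ (tgt v).1
      · exact k5 _ _ k6 hN
      · rw [not_le] at hN
        have k7 := ((Mono.ext_of_dext _ _ (h2.ext c₀ hc)).edge (src v) (tgt v) hN).1 k6
        exact ((Mono.ext_of_dext _ _ (hE.good c₀ hc).2).edge (src v) (tgt v) hN).2 k7
    exact bad_mono (h7.ext c₀ hc) (h8.trans (evS_up hP h7 (PTup.up hI h2 hT) i)) h9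
  · obtain ⟨S₁, h1, h2, h3⟩ := hK P C b m' H S y mu it hI hT hm
    refine ⟨S₁, h1, h2, fun b' S' h5 h6 => Or.inr fun γ' nu k hE hb => ?_⟩
    obtain ⟨nu', h7, h8⟩ := h3 S' (fun s hs => (h5.wf s hs).1) h6 0 (by norm_num) γ' nu k hE
    refine h ⟨γ', nu', k, h7, ?_⟩
    rw [evS_eq hP C i (fun _ => rfl) (fun _ _ _ => rfl) h8 (fun _ _ => rfl)]
    exact hb

theorem killn_task (hA : AdoptStatement) (hK : SkipStatement) (hP : P.Ok) (hI : PInv P C b S)
    (hT : PTup P C S 0 y mu it) (hm : ltN m' b = true) (i : ℕ)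
    (hJ : ∀ s < P.p, C.J s = false) :
    ∃ S₁, PInv P C m' S₁ ∧ Lat P C S S₁ ∧ Per P C S₁ (DN P C i y mu it) := by
  obtain ⟨S', h1, h2, h3⟩ := TaskSB.stuck (i := i) hA hP hJ hI hT
  have hT' := PTup.up hI h2 hT
  obtain ⟨S₁, h4, h5, h6⟩ := hK P C b m' 0 S' y mu it h1 hT' hm
  refine ⟨S₁, h4, Lat.trans h1 h4 h2 h5, fun b' S'' h7 h8 => ?_⟩
  have h9 := evS_up hP (Lat.trans h4 h7 h5 h8) hT' i
  rcases h3 with h3 | h3
  · exact Or.inl fun h10 => h3 (hP.tbt _ _ h9 h10)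
  · refine Or.inr fun γ' nu k hE => ?_
    obtain ⟨nu', k7, k8⟩ := h6 S'' (fun s hs => (h7.wf s hs).1) h8 0 (by norm_num) γ' nu k hE
    have k9 : evS P C S' i 0 y mu nu' k = evS P C S'' i 0 y mu nu k :=
      evS_eq hP C i (fun _ => rfl) (fun _ _ _ => rfl) k8 (fun _ _ => rfl)
    rw [← k9]
    exact (h3 γ' nu' k k7).trans h9.length_le

/-! ## Finitely many tasks -/

/-- The property `T` can be reached, with finitely many counters. -/
def Okk (P : Par) (C : Ctx) (S₀ : PS) (T : PS → Prop) : Prop :=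
  ∃ K, ∀ M S, PInv P C (Nat.pair C.r (M + K)) S → Lat P C S₀ S →
    ∃ S₁, PInv P C (Nat.pair C.r M) S₁ ∧ Lat P C S S₁ ∧ Per P C S₁ T

variable {S₀ : PS}

theorem okk_one {T : PS → Prop} (h : ∀ b m' S, PInv P C b S → Lat P C S₀ S →
    ltN m' b = true → ∃ S₁, PInv P C m' S₁ ∧ Lat P C S S₁ ∧ Per P C S₁ T) :
    Okk P C S₀ T :=
  ⟨1, fun M S hI hL => h _ _ S hI hL (by simp [ltN])⟩

theorem okk_true {T : PS → Prop} (h : ∀ S, T S) : Okk P C S₀ T :=
  ⟨0, fun _ S hI _ => ⟨S, hI, Lat.refl hI, fun _ S' _ _ => h S'⟩⟩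

theorem okk_and {T T' : PS → Prop} (h : Okk P C S₀ T) (h' : Okk P C S₀ T') :
    Okk P C S₀ (fun S => T S ∧ T' S) := by
  obtain ⟨K, h⟩ := h
  obtain ⟨K', h'⟩ := h'
  refine ⟨K' + K, fun M S hI hL => ?_⟩
  obtain ⟨S₁, h1, h2, h3⟩ := h (M + K') S (by rw [add_assoc]; exact hI) hL
  obtain ⟨S₂, h4, h5, h6⟩ := h' M S₁ h1 (Lat.trans hI h1 hL h2)
  refine ⟨S₂, h4, Lat.trans h1 h4 h2 h5, fun b' S' h7 h8 => ⟨?_, h6 b' S' h7 h8⟩⟩
  exact h3 b' S' h7 (Lat.trans h4 h7 h5 h8)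

theorem okk_imp {p : Prop} {T : PS → Prop} (h : p → Okk P C S₀ T) :
    Okk P C S₀ (fun S => p → T S) := by
  by_cases hp : p
  · obtain ⟨K, h⟩ := h hp
    refine ⟨K, fun M S hI hL => ?_⟩
    obtain ⟨S₁, h1, h2, h3⟩ := h M S hI hL
    exact ⟨S₁, h1, h2, fun b' S' h7 h8 _ => h3 b' S' h7 h8⟩
  · exact okk_true fun S h => absurd h hp

theorem okk_list {β : Type} {T : β → PS → Prop} : ∀ L : List β, (∀ x ∈ L, Okk P C S₀ (T x)) →
    Okk P C S₀ (fun S => ∀ x ∈ L, T x S) := by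
  intro L
  induction L with
  | nil => intro _; exact okk_true fun S x hx => absurd hx (by simp)
  | cons x L ih =>
    intro h
    obtain ⟨K, h1⟩ := okk_and (h x (by simp)) (ih fun z hz => h z (by simp [hz]))
    refine ⟨K, fun M S hI hL => ?_⟩
    obtain ⟨S₁, k1, k2, k3⟩ := h1 M S hI hL
    refine ⟨S₁, k1, k2, fun b' S' h7 h8 z hz => ?_⟩
    obtain ⟨k4, k5⟩ := k3 b' S' h7 h8
    rcases List.mem_cons.1 hz with rfl | hz
    · exact k4
    · exact k5 z hz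

theorem okk_lt {T : ℕ → PS → Prop} (n : ℕ) (h : ∀ i < n, Okk P C S₀ (T i)) :
    Okk P C S₀ (fun S => ∀ i < n, T i S) := by
  obtain ⟨K, h1⟩ := okk_list (P := P) (C := C) (S₀ := S₀) (T := T) (List.range n)
    fun i hi => h i (List.mem_range.1 hi)
  refine ⟨K, fun M S hI hL => ?_⟩
  obtain ⟨S₁, k1, k2, k3⟩ := h1 M S hI hL
  exact ⟨S₁, k1, k2, fun b' S' h7 h8 i hi => k3 b' S' h7 h8 i (List.mem_range.2 hi)⟩

/-! ## Finitely many tuples -/

/-- The tuples are the same on the columns which are present. -/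
def Eqv (P : Par) (C : Ctx) (H : ℕ) (y : ℕ → St) (mu : ℕ → List ℕ) (it : ℕ → Itm)
    (X : (ℕ → St) × (ℕ → List ℕ) × (ℕ → Itm)) : Prop :=
  (∀ s < P.p, C.J s = false → y s = X.1 s ∧ mu s = X.2.1 s) ∧
    ∀ c, Tx P C.J H c = true → it c = X.2.2 c

theorem ptup_congr {X : (ℕ → St) × (ℕ → List ℕ) × (ℕ → Itm)} (hE : Eqv P C H y mu it X)
    (h : PTup P C S H y mu it) : PTup P C S H X.1 X.2.1 X.2.2 := by
  refine ⟨fun s hs hJ => ?_, fun c hc => ?_⟩
  · rw [← (hE.1 s hs hJ).1, ← (hE.1 s hs hJ).2]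
    exact h.str s hs hJ
  · rw [← hE.2 c hc]
    exact h.itm c hc

theorem reps (hfin : {I | C.its I}.Finite) (S : PS) (H : ℕ) :
    ∃ L : List ((ℕ → St) × (ℕ → List ℕ) × (ℕ → Itm)),
      (∀ X ∈ L, PTup P C S H X.1 X.2.1 X.2.2) ∧
      ∀ y mu it, PTup P C S H y mu it → ∃ X ∈ L, Eqv P C H y mu it X := by
  classical
  let A1 : Set (St × List ℕ) := insert (o, []) (⋃ s ∈ Set.Iio P.p, ⋃ y ∈ {y | C.Y s y},
    (fun mu => (y, mu)) '' {mu | VStr (S.g s).W o mu y})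
  have hA1 : A1.Finite := by
    refine Set.Finite.insert _ (Set.Finite.biUnion (Set.finite_Iio _) fun s _ =>
      Set.Finite.biUnion (TaskSB.finite_Y C s) fun y _ => Set.Finite.image _ ?_)
    exact (finv codes (basic codes) (S.g s)).2 o y
  let I₀ : Itm := (0, 0, [], ([], []))
  let A2 : Set Itm := insert I₀ {I | C.its I}
  have hA2 : A2.Finite := Set.Finite.insert _ hfin
  let F : Set (Fin (P.p + P.q) → (St × List ℕ) × Itm) := {f | ∀ i, f i ∈ A1 ×ˢ A2}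
  have hF : F.Finite := Set.Finite.pi' fun _ => hA1.prod hA2
  let dec : (Fin (P.p + P.q) → (St × List ℕ) × Itm) → (ℕ → St) × (ℕ → List ℕ) × (ℕ → Itm) :=
    fun f => (fun s => if h : s < P.p + P.q then (f ⟨s, h⟩).1.1 else o,
      fun s => if h : s < P.p + P.q then (f ⟨s, h⟩).1.2 else [],
      fun s => if h : s < P.p + P.q then (f ⟨s, h⟩).2 else I₀)
  refine ⟨(hF.toFinset.toList.map dec).filter (fun X => PTup P C S H X.1 X.2.1 X.2.2),
    fun X hX => by simpa using (List.mem_filter.1 hX).2, fun y mu it hT => ?_⟩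
  let f : Fin (P.p + P.q) → (St × List ℕ) × Itm := fun c =>
    (if c.1 < P.p ∧ C.J c.1 = false then (y c.1, mu c.1) else (o, []),
      if Tx P C.J H c.1 = true then it c.1 else I₀)
  have hf : f ∈ F := by
    intro c
    refine ⟨?_, ?_⟩
    · show (if c.1 < P.p ∧ C.J c.1 = false then (y c.1, mu c.1) else (o, [])) ∈ A1
      split_ifs with h
      · refine Set.mem_insert_of_mem _ (Set.mem_biUnion (show c.1 ∈ Set.Iio P.p from h.1)
          (Set.mem_biUnion (hT.str c.1 h.1 h.2).1 ⟨mu c.1, (hT.str c.1 h.1 h.2).2, rfl⟩))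
      · exact Set.mem_insert _ _
    · show (if Tx P C.J H c.1 = true then it c.1 else I₀) ∈ A2
      split_ifs with h
      · exact Set.mem_insert_of_mem _ (hT.itm c.1 h).1
      · exact Set.mem_insert _ _
  have hE : Eqv P C H y mu it (dec f) := by
    refine ⟨fun s hs hJ => ?_, fun c hc => ?_⟩
    · have h1 : s < P.p + P.q := by omega
      show y s = (if h : s < P.p + P.q then (f ⟨s, h⟩).1.1 else o) ∧
        mu s = (if h : s < P.p + P.q then (f ⟨s, h⟩).1.2 else [])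
      rw [dif_pos h1, dif_pos h1]
      show y s = (if s < P.p ∧ C.J s = false then (y s, mu s) else (o, [])).1 ∧
        mu s = (if s < P.p ∧ C.J s = false then (y s, mu s) else (o, [])).2
      rw [if_pos ⟨hs, hJ⟩]
      exact ⟨rfl, rfl⟩
    · have h1 : c < P.p + P.q := prs_lt (tx_prs hc)
      show it c = (if h : c < P.p + P.q then (f ⟨c, h⟩).2 else I₀)
      rw [dif_pos h1]
      show it c = if Tx P C.J H c = true then it c else I₀
      rw [if_pos hc]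
  refine ⟨dec f, List.mem_filter.2 ⟨List.mem_map.2 ⟨f, by simpa using hf, rfl⟩, ?_⟩, hE⟩
  simpa using ptup_congr hE hT

theorem ptup_H {H' : ℕ} (hH : ∀ c, Prs P H c = Prs P H' c) (h : PTup P C S H y mu it) :
    PTup P C S H' y mu it :=
  ⟨h.str, fun c hc => h.itm c (by rw [tx_congr hH]; exact hc)⟩

theorem sext_congr {H' off : ℕ} {X : (ℕ → St) × (ℕ → List ℕ) × (ℕ → Itm)}
    (hH : ∀ c, Prs P H c = Prs P H' c) (hE : Eqv P C H y mu it X) {γ' : ℕ → Node.Data}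
    {nu : ℕ → List ℕ} {k : ℕ → Cnd3} (h : SExt P C S H off y it γ' nu k) :
    SExt P C S H' off X.1 X.2.2 γ' nu k := by
  refine ⟨h.good, fun s hs hJ => ?_, fun s hs hJ => ?_, fun c hc => ?_⟩
  · rw [← (hE.1 s hs hJ).1]
    exact h.str s hs hJ
  · have h1 : it s = X.2.2 s := hE.2 s (by rw [tx_of_lt hs]; exact hJ)
    have h2 := h.cnd s hs hJ
    simp only [h1] at h2
    exact h2
  · rw [← tx_congr hH] at hc
    have h1 : it c = X.2.2 c := hE.2 c hc
    have h2 := h.txt c hc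
    simp only [h1] at h2
    exact h2

theorem evS_congr (hP : P.Ok) {H' : ℕ} {X : (ℕ → St) × (ℕ → List ℕ) × (ℕ → Itm)}
    (hH : ∀ c, Prs P H c = Prs P H' c) (hE : Eqv P C H y mu it X) (S : PS) (i : ℕ)
    (nu : ℕ → List ℕ) (k : ℕ → Cnd3) :
    evS P C S i H y mu nu k = evS P C S i H' X.1 X.2.1 nu k :=
  evS_eq hP C i hH (fun s hs hJ => (hE.1 s hs hJ).2)
    (fun s hs hJ => by rw [(hE.1 s hs hJ).1]) (fun _ _ => rfl)

theorem evS_congr' (hP : P.Ok) {H' : ℕ} {X : (ℕ → St) × (ℕ → List ℕ) × (ℕ → Itm)}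
    (hH : ∀ c, Prs P H c = Prs P H' c) (hE : Eqv P C H y mu it X) (S : PS) (i : ℕ) :
    evS P C S i H y mu (fun _ => []) (fun c => S.cv (it c)) =
      evS P C S i H' X.1 X.2.1 (fun _ => []) (fun c => S.cv (X.2.2 c)) :=
  evS_eq hP C i hH (fun s hs hJ => (hE.1 s hs hJ).2)
    (fun s hs hJ => by rw [(hE.1 s hs hJ).1]) (fun c hc => by rw [hE.2 c hc])

theorem prs_mod (P : Par) (H c : ℕ) : Prs P H c = Prs P (H % 2 ^ P.q) c := by
  unfold Prs
  rw [Nat.testBit_mod_two_pow]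
  by_cases h1 : c < P.p
  · simp [h1]
  · by_cases h2 : c < P.p + P.q
    · have h3 : c - P.p < P.q := by omega
      simp [h3]
    · simp [h2]

end Pool.Agent.Lib.MP_d48993_lc.Ba.Gr.Task

namespace Pool.Agent.Lib.MP_d48993_lc.Ba.Gr

open Pool.Agent.Lib.MP_d48993_lc.Node
open Pool.Agent.Lib.MP_d48993_lc.Ba.Gr.Task

/-- Module TASK. -/
theorem task (hA : AdoptStatement) (hK : SkipStatement) : TaskStatement := by
  intro P hP C n S₀ hfin hI
  choose L hL1 hL2 using reps (P := P) hfin S₀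
  have key : Okk P C S₀ (fun S => (∀ H < 2 ^ P.q, ∀ X ∈ L H, ∀ i < n,
      (∀ m < n, DH P C i m H X.1 X.2.1 X.2.2 S) ∧
      ∀ b < P.p, C.J b = true → DK P C i b H X.1 X.2.1 X.2.2 S) ∧
      ((∀ s < P.p, C.J s = false) → ∀ X ∈ L 0, ∀ i < n, DN P C i X.1 X.2.1 X.2.2 S)) := by
    refine okk_and (okk_lt _ fun H hH => okk_list _ fun X hX => okk_lt _ fun i hi =>
      okk_and (okk_lt _ fun m hm => okk_one fun b m' S h1 h2 h3 => ?_)
        (okk_lt _ fun c hc => okk_imp fun hJ => okk_one fun b m' S h1 h2 h3 => ?_))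
        (okk_imp fun hJ => okk_list _ fun X hX => okk_lt _ fun i hi =>
          okk_one fun b m' S h1 h2 h3 => ?_)
    · exact hit_task hA hK hP h1 (PTup.up (hI 0) h2 (hL1 H X hX)) h3 i m
    · exact kill_task hA hK hP h1 (PTup.up (hI 0) h2 (hL1 H X hX)) h3 i hc hJ
    · exact killn_task hA hK hP h1 (PTup.up (hI 0) h2 (hL1 0 X hX)) h3 i hJ
  obtain ⟨K, hK'⟩ := key
  obtain ⟨S₁, h1, h2, h3⟩ := hK' 0 S₀ (by simpa using hI K) (Lat.refl (hI 0))
  obtain ⟨h4, h5⟩ := h3 _ S₁ h1 (Lat.refl h1)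
  refine ⟨S₁, h1, h2, ⟨?_, ?_, ?_⟩⟩
  · intro H y mu it hT i hi m hm
    have hH := prs_mod P H
    obtain ⟨X, hX, hE⟩ := hL2 (H % 2 ^ P.q) y mu it (PTup.back (hI 0) h1 h2 (ptup_H hH hT))
    have hE' : Eqv P C H y mu it X := ⟨hE.1, fun c hc => hE.2 c (by rw [← tx_congr hH]; exact hc)⟩
    rw [evS_congr' hP hH hE' S₁ i]
    refine ((h4 _ (Nat.mod_lt _ (by positivity)) X hX i hi).1 m hm).imp id ?_
    intro h6 γ' nu k h7
    rw [evS_congr hP hH hE' S₁ i nu k]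
    exact h6 γ' nu k (sext_congr hH hE' h7)
  · intro H y mu it hT i hi b hb hJ
    have hH := prs_mod P H
    obtain ⟨X, hX, hE⟩ := hL2 (H % 2 ^ P.q) y mu it (PTup.back (hI 0) h1 h2 (ptup_H hH hT))
    have hE' : Eqv P C H y mu it X := ⟨hE.1, fun c hc => hE.2 c (by rw [← tx_congr hH]; exact hc)⟩
    rw [evS_congr' hP hH hE' S₁ i]
    refine ((h4 _ (Nat.mod_lt _ (by positivity)) X hX i hi).2 b hb hJ).imp id ?_
    intro h6 γ' nu k h7
    rw [evS_congr hP hH hE' S₁ i nu k]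
    exact h6 γ' nu k (sext_congr hH hE' h7)
  · intro y mu it hT hJ i hi
    obtain ⟨X, hX, hE⟩ := hL2 0 y mu it (PTup.back (hI 0) h1 h2 hT)
    rw [evS_congr' hP (fun _ => rfl) hE S₁ i]
    refine (h5 hJ X hX i hi).imp id ?_
    intro h6 γ' nu k h7
    rw [evS_congr hP (fun _ => rfl) hE S₁ i nu k]
    exact h6 γ' nu k (sext_congr (fun _ => rfl) hE h7)

end Pool.Agent.Lib.MP_d48993_lc.Ba.Gr
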