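import Pool.Agent.Lib.MP_d48993_lc.BAE.Gr.TaskB
import Pool.Agent.Lib.MP_d48993_lc.Search
import Pool.Agent.Lib.MP_d48993_lc.Red
import Pool.Agent.Lib.MP_d48993_lc.Cond

/-!
# Part G (MP_d48993), module TASK: the search of the task KILLN
-/

set_option autoImplicit false

namespace Pool.Agent.Lib.MP_d48993_lc.Node.TaskSB

open Decv
open MP_8c048d_lc (pre join RecF Cop length_pre pre_getElem?)
open Ba.Txt (ltN)
open Ba.Gr (Par Ctx PS PInv Lat PTup SExt evS ev tup cat fj tlen Prs Tx LgD Lg bk Itm AdoptStatement)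
open Ba.Gr.Task (evS_le evS_eq ev_eq ev_le tx_prs tx_of_lt hMo)

/-- A computable path found by a search. -/
theorem path0 {TU : List ℕ → Prop} (hPC : PC TU) {α : Type} [Primcodable α] (R : α → α → Prop)
    (hR : ComputablePred (fun p : α × α => R p.1 p.2)) (st : α → List ℕ) (hst : Computable st)
    (I : α → Prop) (a₀ : α) (h0 : I a₀) (hpx : ∀ a a', R a a' → st a <+: st a')
    (hI : ∀ a a', I a → R a a' → I a')
    (hstep : ∀ a, I a → ∃ a', R a a' ∧ (st a).length < (st a').length)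
    (hTU : ∀ a, I a → TU (st a)) :
    (fun _ => 0 : ℕ → ℕ) ∈ Up {f | ∀ k, TU (pre f k)} := by
  have hS : SearchStatement := search red1 redMu
  have hlt : ComputablePred (fun p : α × α => (st p.1).length < (st p.2).length) :=
    Kills.cp_comp Kills.ltPair (Computable.pair
      (Computable.list_length.comp (hst.comp Computable.fst))
      (Computable.list_length.comp (hst.comp Computable.snd)))
  have hcop : Cop (fun (p : α × α) (_ : ℕ → ℕ) => R p.1 p.2 ∧
      (st p.1).length < (st p.2).length) := Cop.of_computable (Kills.cp_and hR hlt)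
  obtain ⟨A, hA0, hA1, hA2⟩ := hS α (fun a a' _ => R a a' ∧
    (st a).length < (st a').length) hcop (fun _ => 0) I a₀ h0
    (fun a ha => hstep a ha)
    (fun a a' ha h => hI a a' ha h.1)
  have hinv : ∀ j, I (A j) := by
    intro j
    induction j with
    | zero => rw [hA0]; exact h0
    | succ j ih => exact hI _ _ ih (hA1 j).1
  have hchain : ∀ k j, k ≤ j → st (A k) <+: st (A j) := by
    intro k j hkj
    induction j, hkj using Nat.le_induction with
    | base => exact List.prefix_rfl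
    | succ j _ ih => exact ih.trans (hpx _ _ (hA1 j).1)
  have hlen' : ∀ j, j ≤ (st (A j)).length := by
    intro j
    induction j with
    | zero => exact Nat.zero_le _
    | succ j ih =>
      have := (hA1 j).2
      omega
  have hout : RecF (fun (q : ℕ × α) (_ : ℕ → ℕ) => ((st q.2)[q.1]?).getD 0) := by
    refine RecF.of_computable (f := fun q : ℕ × α => ((st q.2)[q.1]?).getD 0) ?_
    exact Computable.option_getD (Computable.list_getElem?.comp (hst.comp Computable.snd)
      Computable.fst) (Computable.const 0)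
  refine ⟨fun j => ((st (A (j + 1)))[j]?).getD 0, ?_, hA2 _ hout⟩
  intro k
  have hpre : pre (fun j => ((st (A (j + 1)))[j]?).getD 0) k <+: st (A k) := by
    rw [List.prefix_iff_eq_take, length_pre]
    refine List.ext_getElem? fun n => ?_
    rw [pre_getElem?, List.getElem?_take]
    by_cases hn : n < k
    · rw [if_pos hn, if_pos hn]
      have h1 : st (A (n + 1)) <+: st (A k) := hchain (n + 1) k hn
      have h2 : n < (st (A (n + 1))).length := hlen' (n + 1)
      obtain ⟨t, ht⟩ := h1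
      rw [← ht, List.getElem?_append_left h2, List.getElem?_eq_getElem h2]
      rfl
    · rw [if_neg hn, if_neg hn]
  exact hPC _ _ hpre (hTU _ (hinv k))

/-! ## Primitive recursive predicates -/

section PR

open Primrec

variable {γ β : Type} [Primcodable γ] [Primcodable β]

omit [Primcodable β] in
theorem const_pr (p : Prop) : PrimrecPred fun _ : γ => p :=
  ⟨fun _ => Classical.dec p, Primrec.const _⟩

omit [Primcodable β] in
theorem fin_pr {S : Set β} (hS : S.Finite) {Q : β → γ → Prop}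
    (h : ∀ y ∈ S, PrimrecPred (Q y)) : PrimrecPred fun a => ∀ y ∈ S, Q y a := by
  classical
  have key : ∀ L : List β, (∀ y ∈ L, PrimrecPred (Q y)) → PrimrecPred fun a => ∀ y ∈ L, Q y a := by
    intro L
    induction L with
    | nil =>
      intro _
      exact (const_pr True).of_eq fun a => by simp
    | cons y L ih =>
      intro h
      exact ((h y (by simp)).and (ih fun z hz => h z (by simp [hz]))).of_eq fun a => by simp
  refine (key hS.toFinset.toList fun y hy => h y (by simpa using hy)).of_eq fun a => ?_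
  simp

theorem lt_pr (n : ℕ) {Q : ℕ → γ → Prop} (h : ∀ s < n, PrimrecPred (Q s)) :
    PrimrecPred fun a => ∀ s < n, Q s a :=
  (fin_pr (Set.finite_lt_nat n) h).of_eq fun a => by simp

theorem iff_pr {p q : γ → Prop} (hp : PrimrecPred p) (hq : PrimrecPred q) :
    PrimrecPred fun a => (p a ↔ q a) :=
  ((imp hp hq).and (imp hq hp)).of_eq fun a => by tauto

theorem bk_pr {u : γ → ℕ} (hu : Primrec u) : Primrec fun a => bk (u a) :=
  fst.comp (unpair.comp (snd.comp (unpair.comp hu)))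

theorem lg_pr {x v : γ → St} (hx : Primrec x) (hv : Primrec v) :
    PrimrecPred fun a => Lg (x a) (v a) := by
  have hl : Primrec fun a => bk (x a).1 + (v a).2.length :=
    nat_add.comp (bk_pr (fst.comp hx)) (list_length.comp (snd.comp hv))
  have hr : Primrec fun a => bk (v a).1 + (x a).2.length :=
    nat_add.comp (bk_pr (fst.comp hv)) (list_length.comp (snd.comp hx))
  exact (nat_lt.comp hl hr).or ((eqp hl hr).and
    (eqp (list_head?.comp (snd.comp hv)) (list_head?.comp (snd.comp hx))))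

theorem lgd_iff (δ : Data) : LgD δ ↔ ∀ p ∈ δ.advL, ∀ α, δ.W.adv p.1 = some α →
    ∀ g ∈ α, Lg p.1 (tgt g) := by
  constructor
  · exact fun h p _ α hα => h p.1 α hα
  · intro h y α hα g hg
    obtain ⟨p, hp, rfl⟩ := adv_some δ y α hα (by rintro rfl; simp at hg)
    exact h p hp α hα g hg

theorem lgd_pr {d : γ → Data} (hd : Primrec d) : PrimrecPred fun a => LgD (d a) := by
  refine PrimrecPred.of_eq ?_ fun a => (lgd_iff (d a)).symm
  refine fml (R := fun a (p : St × List ℕ) => ∀ α, (d a).W.adv p.1 = some α →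
    ∀ g ∈ α, Lg p.1 (tgt g)) (advL_pr hd) ?_
  refine fopt (R := fun (q : γ × St × List ℕ) α => ∀ g ∈ α, Lg q.2.1 (tgt g))
    (adv_pr (hd.comp fst) (fst.comp snd)) ?_
  refine fml (R := fun (q : (γ × St × List ℕ) × List ℕ) g => Lg q.1.2.1 (tgt g)) snd ?_
  exact lg_pr (fst.comp (snd.comp (fst.comp fst))) (tgt_pr snd)

theorem vstr_pr {d : γ → Data} {x y : γ → St} {τ : γ → List ℕ} (hd : Primrec d)
    (hx : Primrec x) (hτ : Primrec τ) (hy : Primrec y) :
    PrimrecPred fun a => VStr (d a).W (x a) (τ a) (y a) :=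
  (ch_pr hx hτ hy).and (fml (R := fun a s => VS (d a).W s) hτ
    (vs_pr codes (hd.comp fst) snd))

end PR

/-! ## Codes of the states -/

/-- Codes of data and strings. -/
abbrev Cd : Type := List Data × List ((ℕ × St) × List ℕ)

def cG (a : Cd) (s : ℕ) : Data := (a.1[s]?).getD (1, [], [], [], [])

def cA (a : Cd) (s : ℕ) (y : St) : List ℕ :=
  ((a.2.find? (fun p => p.1 = (s, y))).map Prod.snd).getD []

/-- The state of a code. -/
def cS (a : Cd) (cv : Itm → Cnd3) : PS := ⟨cG a, cA a, cv⟩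

theorem find_map_key {K V : Type} [DecidableEq K] (f : K → V) (x : K) :
    ∀ L : List K, x ∈ L → (L.map (fun k => (k, f k))).find? (fun p => decide (p.1 = x)) =
      some (x, f x) := by
  intro L
  induction L with
  | nil => intro h; exact absurd h (by simp)
  | cons k L ih =>
    intro h
    rw [List.map_cons, List.find?_cons]
    by_cases hk : k = x
    · subst hk
      simp
    · have h2 : x ∈ L := by
        rcases List.mem_cons.1 h with h | h
        · exact absurd h.symm hk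
        · exact h
      simp only [hk, decide_false]
      exact ih h2

theorem finite_Y (C : Ctx) (s : ℕ) : {y | C.Y s y}.Finite :=
  (Stagea.finite_adm (C.u s)).subset fun _ hy => ⟨hy.adm, hy.root⟩

/-- Every state has a code. -/
theorem exists_code (p : ℕ) (C : Ctx) (S : PS) : ∃ a : Cd, (∀ s < p, cG a s = S.g s) ∧
    ∀ s < p, ∀ y, C.Y s y → cA a s y = S.al s y := by
  classical
  have hfin : {x : ℕ × St | x.1 < p ∧ C.Y x.1 x.2}.Finite := by
    have h : {x : ℕ × St | x.1 < p ∧ C.Y x.1 x.2} ⊆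
        ⋃ s ∈ Set.Iio p, (fun y => (s, y)) '' {y | C.Y s y} := by
      rintro ⟨s, y⟩ ⟨h1, h2⟩
      exact Set.mem_biUnion (show s ∈ Set.Iio p from h1) ⟨y, h2, rfl⟩
    exact (Set.Finite.biUnion (Set.finite_Iio p) fun s _ => (finite_Y C s).image _).subset h
  refine ⟨((List.range p).map S.g, hfin.toFinset.toList.map
    (fun x => (x, S.al x.1 x.2))), fun s hs => ?_, fun s hs y hy => ?_⟩
  · unfold cG
    rw [List.getElem?_map, List.getElem?_range hs]
    rfl
  · unfold cA
    rw [find_map_key (fun x : ℕ × St => S.al x.1 x.2) (s, y) _ (by simpa using ⟨hs, hy⟩)]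
    rfl

section Codes

open Primrec

theorem cG_pr {γ : Type} [Primcodable γ] {a : γ → Cd} (ha : Primrec a) (s : ℕ) :
    Primrec fun x => cG (a x) s :=
  getD_pr (get_pr (fst.comp ha) (const s)) (const _)

theorem cA_pr {γ : Type} [Primcodable γ] {a : γ → Cd} (ha : Primrec a) (s : ℕ) (y : St) :
    Primrec fun x => cA (a x) s y :=
  getD_pr (option_map (find_pr (R := fun (_ : γ) (p : (ℕ × St) × List ℕ) => p.1 = (s, y))
    (snd.comp ha) (eqp (fst.comp snd) (const (s, y)))) (snd.comp snd).to₂) (const [])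

/-- The invariant, for one colour (no items, no texts). -/
def Pd (C : Ctx) (s : ℕ) (a : Cd) : Prop :=
  (Wf (cG a s) ∧ LgD (cG a s) ∧ DExt (C.d0 s) (cG a s)) ∧
  ((C.d0 s).N ≤ C.u s ∧ C.u s < (cG a s).N ∧ (cG a s).pub = (C.d0 s).pub ++ [C.u s]) ∧
  (∀ y ∈ {y : St | Adm y ∧ Zero y ∧ y.1 ∈ (C.d0 s).pub ++ [C.u s]},
    ((cG a s).W.adv y = none ↔ y.1 = C.u s ∧ y.2.length ≤ C.D s)) ∧
  (∀ y ∈ {y | C.Y s y}, VStr (cG a s).W y (cA a s y) (endd y (cA a s y)) ∧
    ∀ g ∈ cA a s y, Lg y (tgt g) ∧ ∀ e ∈ hl g, InCl (cG a s).W y e.2) ∧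
  ∀ r < (cG a s).N, C.u s < r → ∃ w, (cG a s).W.own r = some w ∧
    (C.u s < w.1 ∨ w ∈ {w | C.Y s w})

theorem finite_admL (l : List ℕ) : {y : St | Adm y ∧ Zero y ∧ y.1 ∈ l}.Finite := by
  have h : {y : St | Adm y ∧ Zero y ∧ y.1 ∈ l} ⊆
      ⋃ u ∈ {u | u ∈ l}, {y : St | Adm y ∧ y.1 = u} := by
    rintro y ⟨h1, -, h2⟩
    exact Set.mem_biUnion (show y.1 ∈ {u | u ∈ l} from h2) ⟨h1, rfl⟩
  exact (Set.Finite.biUnion l.finite_toSet fun u _ => Stagea.finite_adm u).subset h

theorem pd_pr (C : Ctx) (s : ℕ) {γ : Type} [Primcodable γ] {a : γ → Cd} (ha : Primrec a) :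
    PrimrecPred fun x => Pd C s (a x) := by
  have hd := cG_pr ha s
  refine ((wf_pr codes hd).and ((lgd_pr hd).and (dext_pr (const _) hd))).and
    (((const_pr _).and ((nat_lt.comp (const _) (N_pr hd)).and
      (eqp (pub_pr hd) (const _)))).and (PrimrecPred.and ?_ (PrimrecPred.and ?_ ?_)))
  · refine fin_pr (finite_admL _) fun y _ => iff_pr (eqp (adv_pr hd (const y)) (const none))
      (const_pr _)
  · refine fin_pr (finite_Y C s) fun y _ => (vstr_pr hd (const y) (cA_pr ha s y)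
      (endd_pr (const y) (cA_pr ha s y))).and ?_
    refine fml (R := fun x g => Lg y (tgt g) ∧ ∀ e ∈ hl g, InCl (cG (a x) s).W y e.2)
      (cA_pr ha s y) ((lg_pr (const y) (tgt_pr snd)).and ?_)
    refine fml (R := fun (q : γ × ℕ) (e : St × St) => InCl (cG (a q.1) s).W y e.2)
      (hl_pr snd) ?_
    exact incl_pr (hd.comp (fst.comp fst)) (const y) (snd.comp snd)
  · refine flt (R := fun x r => C.u s < r → ∃ w, (cG (a x) s).W.own r = some w ∧
      (C.u s < w.1 ∨ w ∈ {w | C.Y s w})) (N_pr hd) (imp (nat_lt.comp (const _) snd) ?_)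
    refine eopt (R := fun (_ : γ × ℕ) (w : St) => C.u s < w.1 ∨ w ∈ {w | C.Y s w})
      (own_pr (hd.comp fst) snd) ((nat_lt.comp (const _) (fst.comp snd)).or ?_)
    refine (PrimrecPred.not (fin_pr (Q := fun (y : St) (q : (γ × ℕ) × St) => ¬ q.2 = y)
      (finite_Y C s) fun y _ => (eqp snd (const y)).not)).of_eq fun q => ?_
    constructor
    · intro h
      by_contra h2
      exact h fun y hy h3 => h2 (by rw [h3]; exact hy)
    · intro h h2
      exact h2 q.2 h rfl

/-- The order of the states, for one colour. -/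
def Ld (C : Ctx) (s : ℕ) (a a' : Cd) : Prop :=
  DExt (cG a s) (cG a' s) ∧ ∀ y ∈ {y | C.Y s y},
    cA a s y = (cA a' s y).take (cA a s y).length ∧
    VStr (cG a' s).W (endd y (cA a s y)) ((cA a' s y).drop (cA a s y).length)
      (endd y (cA a' s y)) ∧ ∀ g ∈ (cA a' s y).drop (cA a s y).length, Lg y (tgt g)

theorem ld_pr (C : Ctx) (s : ℕ) {γ : Type} [Primcodable γ] {a a' : γ → Cd} (ha : Primrec a)
    (ha' : Primrec a') : PrimrecPred fun x => Ld C s (a x) (a' x) := by
  refine (dext_pr (cG_pr ha s) (cG_pr ha' s)).and (fin_pr (finite_Y C s) fun y _ => ?_)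
  have h1 := cA_pr ha s y
  have h2 := cA_pr ha' s y
  have h3 := list_drop.comp (list_length.comp h1) h2
  refine (eqp h1 (list_take.comp (list_length.comp h1) h2)).and ((vstr_pr (cG_pr ha' s)
    (endd_pr (const y) h1) h3 (endd_pr (const y) h2)).and ?_)
  exact fml (R := fun _ g => Lg y (tgt g)) h3 (lg_pr (const y) (tgt_pr snd))

theorem take_iff (A B : List ℕ) (Q : List ℕ → Prop) :
    (∃ ν, B = A ++ ν ∧ Q ν) ↔ A = B.take A.length ∧ Q (B.drop A.length) := by
  constructor
  · rintro ⟨ν, rfl, h⟩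
    simpa using h
  · rintro ⟨h1, h2⟩
    refine ⟨B.drop A.length, ?_, h2⟩
    conv_lhs => rw [← List.take_append_drop A.length B, ← h1]

end Codes

/-! ## The context without items -/

/-- The context without items. -/
def C0 (C : Ctx) : Ctx := { C with its := fun _ => False }

theorem c0_Y {C : Ctx} {s : ℕ} {y : St} : (C0 C).Y s y ↔ C.Y s y :=
  ⟨fun h => ⟨h.root, h.adm, h.zero, h.len⟩, fun h => ⟨h.root, h.adm, h.zero, h.len⟩⟩

variable {P : Par} {C : Ctx}

theorem pinv_iff (hJ : ∀ s < P.p, C.J s = false) (b : ℕ) (S : PS) (a : Cd)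
    (hg : ∀ s < P.p, cG a s = S.g s) (ha : ∀ s < P.p, ∀ y, C.Y s y → cA a s y = S.al s y) :
    PInv P (C0 C) b S ↔ ∀ s < P.p, Pd C s a := by
  constructor
  · intro h s hs
    refine ⟨?_, ?_, ?_, ?_, ?_⟩
    · rw [hg s hs]; exact h.wf s hs
    · rw [hg s hs]; exact h.root s hs (hJ s hs)
    · rintro y ⟨h1, h2, h3⟩
      rw [hg s hs]
      refine h.adn s hs (hJ s hs) y h1 h2 ?_
      rw [(h.root s hs (hJ s hs)).2.2]
      exact h3
    · intro y hy
      rw [hg s hs, ha s hs y hy]
      obtain ⟨h1, h2⟩ := h.al s hs (hJ s hs) y (c0_Y.2 hy)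
      exact ⟨h1, fun g hg' => ⟨(h2 g hg').1, fun e he => (h2 g hg').2 e.1 e.2
        ((he_iff codes g e.1 e.2).2 he)⟩⟩
    · intro r hr hr'
      rw [hg s hs] at hr ⊢
      obtain ⟨w, h1, h2⟩ := h.own s hs (hJ s hs) r hr' hr
      exact ⟨w, h1, h2.imp id fun h => c0_Y.1 h⟩
  · intro h
    refine ⟨?_, ?_, ?_, ?_, ?_, ?_, fun I hI => hI.elim, fun I hI => hI.elim,
      fun I hI => hI.elim⟩
    · intro s hs
      rw [← hg s hs]
      exact (h s hs).1
    · intro s hs h1
      rw [show (C0 C).J s = C.J s from rfl, hJ s hs] at h1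
      exact absurd h1 (by simp)
    · intro s hs _
      rw [← hg s hs]
      exact (h s hs).2.1
    · intro s hs _ y h1 h2 h3
      have h4 := (h s hs).2.2.1 y
      rw [← hg s hs] at h3 ⊢
      rw [(h s hs).2.1.2.2] at h3
      exact h4 ⟨h1, h2, h3⟩
    · intro s hs _ y hy
      obtain ⟨h1, h2⟩ := (h s hs).2.2.2.1 y (c0_Y.1 hy)
      rw [hg s hs, ha s hs y (c0_Y.1 hy)] at h1 h2
      exact ⟨h1, fun g hg' => ⟨(h2 g hg').1, fun v v' hv => (h2 g hg').2 (v, v')
        ((he_iff codes g v v').1 hv)⟩⟩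
    · intro s hs _ r hr hr'
      rw [← hg s hs] at hr' ⊢
      obtain ⟨w, h1, h2⟩ := (h s hs).2.2.2.2 r hr' hr
      exact ⟨w, h1, h2.imp id fun h => c0_Y.2 h⟩

theorem lat_iff (hJ : ∀ s < P.p, C.J s = false) (S S' : PS) (a a' : Cd)
    (hg : ∀ s < P.p, cG a s = S.g s) (ha : ∀ s < P.p, ∀ y, C.Y s y → cA a s y = S.al s y)
    (hg' : ∀ s < P.p, cG a' s = S'.g s)
    (ha' : ∀ s < P.p, ∀ y, C.Y s y → cA a' s y = S'.al s y) :
    Lat P (C0 C) S S' ↔ ∀ s < P.p, Ld C s a a' := by
  constructor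
  · intro h s hs
    refine ⟨?_, ?_⟩
    · rw [hg s hs, hg' s hs]; exact h.ext s hs
    · intro y hy
      rw [ha s hs y hy, ha' s hs y hy, hg' s hs]
      exact (take_iff _ _ (fun ν => VStr (S'.g s).W (endd y (S.al s y)) ν (endd y (S'.al s y)) ∧
        ∀ g ∈ ν, Lg y (tgt g))).1 (h.al s hs (hJ s hs) y (c0_Y.2 hy))
  · intro h
    refine ⟨?_, ?_, fun I hI => hI.elim, fun I hI => hI.elim⟩
    · intro s hs
      rw [← hg s hs, ← hg' s hs]
      exact (h s hs).1
    · intro s hs _ y hy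
      have h1 := (h s hs).2 y (c0_Y.1 hy)
      rw [ha s hs y (c0_Y.1 hy), ha' s hs y (c0_Y.1 hy), hg' s hs] at h1
      exact (take_iff _ _ (fun ν => VStr (S'.g s).W (endd y (S.al s y)) ν (endd y (S'.al s y)) ∧
        ∀ g ∈ ν, Lg y (tgt g))).2 h1

/-! ## The functional -/

theorem tx_none (hJ : ∀ s < P.p, C.J s = false) (c : ℕ) : ¬ Tx P C.J 0 c = true := by
  intro h
  have h1 := tx_prs h
  unfold Prs at h1
  simp only [Nat.zero_testBit, Bool.and_false, Bool.or_false, decide_eq_true_eq] at h1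
  rw [tx_of_lt h1, hJ c h1] at h
  exact absurd h (by simp)

section Fj

open Primrec

theorem map_pr {γ σ : Type} [Primcodable γ] [Primcodable σ] {f : ℕ → γ → σ} (L : List ℕ)
    (h : ∀ c, Primrec (f c)) : Primrec fun a => L.map (fun c => f c a) := by
  induction L with
  | nil => exact const []
  | cons c L ih => exact list_cons.comp (h c) ih

theorem foldr_pr {γ : Type} [Primcodable γ] {f : ℕ → γ → ℕ} {g : γ → ℕ} (L : List ℕ)
    (h : ∀ c, Primrec (f c)) (hg : Primrec g) :
    Primrec fun a => (L.map (fun c => f c a)).foldr min (g a) := by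
  induction L with
  | nil => exact hg
  | cons c L ih => exact nat_min.comp (h c) ih

theorem getD_c (c : ℕ) : Primrec fun τ : List (List ℕ) => τ.getD c [] := by
  refine (getD_pr (get_pr Primrec.id (const c)) (const [])).of_eq fun τ => ?_
  rw [List.getD_eq_getElem?_getD]
  rfl

theorem prs_zero (P : Par) (c : ℕ) : Prs P 0 c = decide (c < P.p) := by
  unfold Prs
  simp

theorem fj_pr (P : Par) : Primrec fun τ : List (List ℕ) => fj P 0 τ := by
  have h1 : Primrec fun τ : List (List ℕ) => tlen P 0 τ := by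
    unfold tlen
    exact foldr_pr (γ := List (List ℕ)) (f := fun c τ => (τ.getD c []).length)
      (g := fun τ => (τ.getD 0 []).length) _
      (fun c => list_length.comp (getD_c c)) (list_length.comp (getD_c 0))
  unfold fj
  refine list_map (list_range.comp (nat_mul.comp (const (P.p + P.q)) h1)) ?_
  have h2 : Primrec fun q : List (List ℕ) × ℕ => q.2 % (P.p + P.q) :=
    nat_mod.comp snd (const _)
  have h3 : Primrec fun q : List (List ℕ) × ℕ => q.2 / (P.p + P.q) :=
    nat_div.comp snd (const _)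
  have h4 : Primrec fun q : List (List ℕ) × ℕ =>
      (((q.1[q.2 % (P.p + P.q)]?).getD [])[q.2 / (P.p + P.q)]?).getD 0 :=
    getD_pr (get_pr (getD_pr (get_pr fst h2) (const [])) h3) (const 0)
  have h5 : Primrec fun q : List (List ℕ) × ℕ => if Prs P 0 (q.2 % (P.p + P.q)) = true then
      (q.1.getD (q.2 % (P.p + P.q)) []).getD (q.2 / (P.p + P.q)) 0 else 0 := by
    refine (itep (c := fun q : List (List ℕ) × ℕ => q.2 % (P.p + P.q) < P.p)
      (nat_lt.comp h2 (const _)) h4 (const 0)).of_eq fun q => ?_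
    rw [prs_zero]
    simp only [decide_eq_true_eq, List.getD_eq_getElem?_getD]
  exact h5.to₂

end Fj

/-- The functional is computable. -/
theorem ev_comp (hP : P.Ok) (hJ : ∀ s < P.p, C.J s = false) (i : ℕ) (y : ℕ → St)
    (mu : ℕ → List ℕ) (k : ℕ → Cnd3) (cv : Itm → Cnd3) :
    Computable fun a : Cd => evS P (C0 C) (cS a cv) i 0 y mu (fun _ => []) k := by
  have h1 : Primrec fun a : Cd => tup P (C0 C).J 0
      (cat mu (fun s => (cS a cv).al s (y s)) (fun _ => [])) k := by
    refine (map_pr (f := fun c (a : Cd) => mu c ++ cA a c (y c) ++ []) (List.range (P.p + P.q))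
      fun c => ?_).of_eq fun a => ?_
    · exact Primrec.list_append.comp (Primrec.list_append.comp (Primrec.const _)
        (cA_pr Primrec.id c (y c))) (Primrec.const [])
    · unfold tup
      refine List.map_congr_left fun c _ => ?_
      rw [if_neg (tx_none (C := C0 C) hJ c)]
      rfl
  exact (hP.enum.comp.comp (Computable.const i) ((fj_pr P).comp h1).to_comp)

/-- The search: a later state in which the functional is stuck, or is not in the tree. -/
theorem stuck (hA : AdoptStatement) (hP : P.Ok) (hJ : ∀ s < P.p, C.J s = false) {b i : ℕ}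
    {S : PS} {y : ℕ → St} {mu : ℕ → List ℕ} {it : ℕ → Itm} (hI : PInv P C b S)
    (hT : PTup P C S 0 y mu it) : ∃ S' : PS, PInv P C b S' ∧ Lat P C S S' ∧
      (¬ P.TB (evS P C S' i 0 y mu (fun _ => []) (fun c => S'.cv (it c))) ∨
        ∀ γ' nu k, SExt P C S' 0 1 y it γ' nu k → (evS P C S' i 0 y mu nu k).length ≤
          (evS P C S' i 0 y mu (fun _ => []) (fun c => S'.cv (it c))).length) := by
  classical
  have hJ' : ∀ s < P.p, (C0 C).J s = false := hJ
  -- states of the context without items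
  have inv0 : ∀ (b' : ℕ) (S' : PS), PInv P C b' S' → PInv P (C0 C) 0 S' := by
    intro b' S' h
    obtain ⟨a, h1, h2⟩ := exists_code P.p C S'
    exact ⟨h.wf, h.full, h.root, h.adn, fun s hs h1 y hy => h.al s hs h1 y (c0_Y.1 hy),
      fun s hs h1 r h2 h3 => by
        obtain ⟨w, h4, h5⟩ := h.own s hs h1 r h2 h3
        exact ⟨w, h4, h5.imp id fun h => c0_Y.2 h⟩,
      fun I hI => hI.elim, fun I hI => hI.elim, fun I hI => hI.elim⟩
  -- states of the old context
  have inv1 : ∀ (S' : PS), PInv P (C0 C) 0 S' → PInv P C b ⟨S'.g, S'.al, S.cv⟩ := by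
    intro S' h
    refine ⟨h.wf, ?_, h.root, h.adn, fun s hs h1 y hy => h.al s hs h1 y (c0_Y.2 hy),
      fun s hs h1 r h2 h3 => by
        obtain ⟨w, h4, h5⟩ := h.own s hs h1 r h2 h3
        exact ⟨w, h4, h5.imp id fun h => c0_Y.1 h⟩,
      hI.lab, ?_, hI.txt⟩
    · intro s hs h1
      rw [hJ s hs] at h1
      exact absurd h1 (by simp)
    · intro I hI' hc
      have h1 := (hI.pt I hI' hc).1
      rw [hJ _ hc] at h1
      exact absurd h1 (by simp)
  have lat1 : ∀ (S' : PS), Lat P (C0 C) S S' → Lat P C S ⟨S'.g, S'.al, S.cv⟩ := by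
    intro S' h
    exact ⟨h.ext, fun s hs h1 y hy => h.al s hs h1 y (c0_Y.2 hy),
      fun I _ _ => Kills.cle_refl _ _, fun I hI' => Ba.Txt.Le.rfl' (Ba.Gr.Task.PInv.leg hI hI')⟩
  by_contra hno
  -- the strings of the search
  let k₀ : ℕ → Cnd3 := fun _ => ([], [])
  let F : Cd → List ℕ := fun a => evS P (C0 C) (cS a S.cv) i 0 y mu (fun _ => []) k₀
  let Iv : Cd → Prop := fun a => PInv P (C0 C) 0 (cS a S.cv) ∧ Lat P (C0 C) S (cS a S.cv)
  let R : Cd → Cd → Prop := fun a a' => (∀ s < P.p, Pd C s a') ∧ ∀ s < P.p, Ld C s a a'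
  have hYt : ∀ s < P.p, C.Y s (y s) := fun s hs => (hT.str s hs (hJ s hs)).1
  have hR : ComputablePred (fun p : Cd × Cd => R p.1 p.2) :=
    PrimrecPred.computablePred ((lt_pr P.p fun s _ => pd_pr C s Primrec.snd).and
      (lt_pr P.p fun s _ => ld_pr C s Primrec.fst Primrec.snd))
  have codeS : ∀ a : Cd, (∀ s < P.p, cG a s = (cS a S.cv).g s) ∧
      ∀ s < P.p, ∀ y, C.Y s y → cA a s y = (cS a S.cv).al s y :=
    fun a => ⟨fun _ _ => rfl, fun _ _ _ _ => rfl⟩
  have hRinv : ∀ a a', R a a' → PInv P (C0 C) 0 (cS a' S.cv) ∧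
      Lat P (C0 C) (cS a S.cv) (cS a' S.cv) := by
    intro a a' h
    exact ⟨(pinv_iff hJ 0 _ a' (codeS a').1 (codeS a').2).2 h.1,
      (lat_iff hJ _ _ a a' (codeS a).1 (codeS a).2 (codeS a').1 (codeS a').2).2 h.2⟩
  -- the functional in the state of a code
  have hF : ∀ a, F a = evS P C ⟨cG a, cA a, S.cv⟩ i 0 y mu (fun _ => [])
      (fun c => S.cv (it c)) := by
    intro a
    exact ev_eq hP i (fun _ => rfl) (fun _ _ _ => rfl) fun c hc => absurd hc (tx_none hJ c)
  refine hP.zero (path0 hP.tbt R hR F (ev_comp hP hJ i y mu k₀ S.cv) Iv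
    (exists_code P.p C S).choose ?_ ?_ ?_ ?_ ?_)
  · obtain ⟨h1, h2⟩ := (exists_code P.p C S).choose_spec
    have h3 := inv0 b S hI
    have h4 := (pinv_iff hJ 0 S _ h1 h2).1 h3
    refine ⟨(pinv_iff hJ 0 _ _ (codeS _).1 (codeS _).2).2 h4, ?_⟩
    have h5 := (lat_iff hJ S S _ _ h1 h2 h1 h2).1 (Ba.Gr.Task.Lat.refl h3)
    exact (lat_iff hJ S _ _ _ h1 h2 (codeS _).1 (codeS _).2).2 h5
  · intro a a' h
    have h1 := (hRinv a a' h).2
    refine evS_le hP (C0 C) i 0 (fun s hs hs' => ?_) (fun c hc => absurd hc (tx_none hJ c))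
    obtain ⟨ν, e, -⟩ := h1.al s hs hs' (y s) (c0_Y.2 (hYt s hs))
    rw [e, List.append_nil, List.append_nil]
    exact List.prefix_append _ _
  · intro a a' h1 h2
    obtain ⟨h3, h4⟩ := hRinv a a' h2
    exact ⟨h3, Ba.Gr.Task.Lat.trans h1.1 h3 h1.2 h4⟩
  · intro a ha
    -- the functional is not stuck
    by_contra hstk
    refine hno ⟨⟨cG a, cA a, S.cv⟩, inv1 _ ha.1, lat1 _ ha.2, Or.inr ?_⟩
    intro γ' nu k hE
    by_contra hlt
    rw [not_le] at hlt
    have hT' : PTup P (C0 C) (cS a S.cv) 0 y mu it := by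
      refine ⟨fun s hs hs' => ⟨c0_Y.2 (hYt s hs), ?_⟩, fun c hc => absurd hc (tx_none hJ c)⟩
      exact Stagea.vstr_mono hMo (hI.wf s hs).1 (ha.2.ext s hs) (hT.str s hs (hJ s hs)).2
    have hE' : SExt P (C0 C) (cS a S.cv) 0 1 y it γ' nu k := hE
    have hI1 : PInv P (C0 C) (Nat.pair 0 1) (cS a S.cv) :=
      (pinv_iff hJ _ _ a (codeS a).1 (codeS a).2).2
        ((pinv_iff hJ 0 _ a (codeS a).1 (codeS a).2).1 ha.1)
    obtain ⟨S', h1, h2, h3, -, -⟩ := hA P (C0 C) (Nat.pair 0 1) (Nat.pair 0 0) 0 (cS a S.cv)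
      y mu it γ' nu k hI1 hT' hE' (by simp [ltN])
    obtain ⟨a', h4, h5⟩ := exists_code P.p C S'
    refine hstk ⟨a', ⟨(pinv_iff hJ _ S' a' h4 h5).1 h1, (lat_iff hJ _ S' a a' (codeS a).1
      (codeS a).2 h4 h5).1 h2⟩, ?_⟩
    have h6 : evS P C ⟨cG a, cA a, S.cv⟩ i 0 y mu nu k = F a' := by
      refine evS_eq hP C i (fun _ => rfl) (fun _ _ _ => rfl) (fun s hs hs' => ?_)
        (fun c hc => absurd hc (tx_none hJ c))
      show cA a s (y s) ++ nu s = cA a' s (y s) ++ []
      rw [h5 s hs (y s) (hYt s hs), h3 s hs hs', List.append_nil]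
      rfl
    rw [← h6, hF]
    exact hlt
  · intro a ha
    by_contra hTB
    refine hno ⟨⟨cG a, cA a, S.cv⟩, inv1 _ ha.1, lat1 _ ha.2, Or.inl ?_⟩
    rw [← hF]
    exact hTB

end Pool.Agent.Lib.MP_d48993_lc.Node.TaskSB
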